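import Mathlib
import Pool.Agent.Work.MP_44e7ab_co.TD

set_option autoImplicit false

/-!
Common definitions for the proof of Q1 (S08447).
From the older files: `ConnIn G U x y` (U : Set V), `ConnSet G D`, `Touch G P Q`,
`AlphaLE G S s`, `Small G n X`, `NoKnn G n`, `HasTD`, `SepHyp`, `hasTD_univ`, `density`, `minimax_fin`.
-/

namespace Pool.Agent.Work.MP_44e7ab_co

open Finset Classical

/-- every clique of `G` inside `S` has at most `w` vertices -/
def OmLe {V : Type} (G : SimpleGraph V) (S : Finset V) (w : ℕ) : Prop :=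
  ∀ C : Finset V, C ⊆ S → G.IsClique (C : Set V) → C.card ≤ w

/-- `G[S]` has a path decomposition with all bags of size at most `p` -/
def PWLe {V : Type} (G : SimpleGraph V) (S : Finset V) (p : ℕ) : Prop :=
  ∃ (n : ℕ) (X : Fin n → Finset V),
    (∀ i, X i ⊆ S) ∧
    (∀ v ∈ S, ∃ i, v ∈ X i) ∧
    (∀ u v, u ∈ S → v ∈ S → G.Adj u v → ∃ i, u ∈ X i ∧ v ∈ X i) ∧
    (∀ v, ∀ i j l : Fin n, i ≤ j → j ≤ l → v ∈ X i → v ∈ X l → v ∈ X j) ∧
    (∀ i, (X i).card ≤ p)

/-- standing hypothesis: small clique number gives small path width -/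
def PWB {V : Type} (G : SimpleGraph V) (P : ℕ) : Prop :=
  ∀ S : Finset V, OmLe G S 7 → PWLe G S P

/-- finite probability law -/
def IsLaw {Ω : Type} [Fintype Ω] (p : Ω → ℝ) : Prop := (∀ x, 0 ≤ p x) ∧ ∑ x, p x = 1

/-- mass of an event -/
noncomputable def ms {Ω : Type} [Fintype Ω] (p : Ω → ℝ) (Q : Ω → Prop) : ℝ :=
  ∑ x, p x * (if Q x then 1 else 0)

/-- probability of a relation for independent `x ∼ p`, `y ∼ q` -/
noncomputable def pr {Ω Ω' : Type} [Fintype Ω] [Fintype Ω'] (p : Ω → ℝ) (q : Ω' → ℝ)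
    (Q : Ω → Ω' → Prop) : ℝ :=
  ∑ x, ∑ y, p x * q y * (if Q x y then 1 else 0)

/-- `S` connects `A` to `B` -/
def Cn {V : Type} (G : SimpleGraph V) (A B S : Finset V) : Prop :=
  ∃ a ∈ A, ∃ b ∈ B, ConnIn G (S : Set V) a b

/-! ### tiled route systems (discrete positions) -/

/-- `l v < r v` are the end points of the interval of `v`; routes `b ω` are tiled by their
intervals: every cell `[e, e+1]`, `e < D`, is covered by exactly one vertex. -/
structure Tiled {V : Type} (G : SimpleGraph V) (l r : V → ℕ) (D : ℕ) {Ω : Type}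
    (b : Ω → Finset V) : Prop where
  lt : ∀ v, l v < r v
  adj : ∀ u v, G.Adj u v → l u ≤ r v
  le : ∀ ω, ∀ x ∈ b ω, r x ≤ D
  cell : ∀ ω, ∀ e, e < D → ∃! x, x ∈ b ω ∧ l x ≤ e ∧ e < r x
  next : ∀ ω, ∀ x ∈ b ω, ∀ y ∈ b ω, r x = l y → G.Adj x y

/-- law of routes which hits sets of small independence number rarely -/
def Spread {V : Type} (G : SimpleGraph V) (P : ℕ) {Ω : Type} [Fintype Ω] (w : Ω → ℝ)
    (b : Ω → Finset V) (η : ℝ) : Prop :=
  ∀ X : Finset V, AlphaLE G X P → ms w (fun ω => ¬ Disjoint (b ω) X) ≤ η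

/-- the vertices of `S` whose interval is inside the window `[lo, hi]` -/
noncomputable def nwin {V : Type} (l r : V → ℕ) (lo hi : ℕ) (S : Finset V) : Finset V :=
  S.filter (fun v => lo ≤ l v ∧ r v ≤ hi)

/-! ### real positions (rounding theorem) -/

/-- interval positions on the vertex set `F` -/
structure Pos {V : Type} (G : SimpleGraph V) (F : Finset V) (l r : V → ℝ) : Prop where
  lt : ∀ v ∈ F, l v < r v
  adj : ∀ u ∈ F, ∀ v ∈ F, G.Adj u v → l u ≤ r v

/-- the vertices of `F` whose interval is inside `[x, y]` -/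
noncomputable def win {V : Type} (F : Finset V) (l r : V → ℝ) (x y : ℝ) : Finset V :=
  F.filter (fun v => x ≤ l v ∧ r v ≤ y)

/-- left end of the window, fuzz `th` -/
noncomputable def lft {V : Type} (F : Finset V) (l r : V → ℝ) (x y th : ℝ) : Finset V :=
  (win F l r x y).filter (fun v => l v ≤ x + th)

/-- right end of the window, fuzz `th` -/
noncomputable def rgt {V : Type} (F : Finset V) (l r : V → ℝ) (x y th : ℝ) : Finset V :=
  (win F l r x y).filter (fun v => y - th ≤ r v)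

/-- the vertices of `S` different from and not adjacent to `v` -/
noncomputable def rmN {V : Type} (G : SimpleGraph V) (v : V) (S : Finset V) : Finset V :=
  S.filter (fun u => u ≠ v ∧ ¬ G.Adj v u)

/-- worlds of the rounding theorem: `c` cost, connectivity more than `N` -/
structure World {V : Type} (G : SimpleGraph V) (F A B : Finset V) (lam : V → ℝ) (L c : ℝ)
    (N : ℕ) : Prop where
  pos : ∀ v ∈ F, 0 < lam v
  Lpos : 0 < L
  dist : ∀ S : Finset V, S ⊆ F → Cn G A B S → L ≤ ∑ v ∈ S, lam v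
  cost : ∀ I : Finset V, I ⊆ F → G.IsIndepSet (I : Set V) → ∑ v ∈ I, lam v ≤ c * L
  conn : ∀ S : Finset V, AlphaLE G S N → Cn G A B (F \ S)

/-- one-sided structure of rank `j` -/
def BStr {V : Type} (G : SimpleGraph V) (F A : Finset V) (j : ℕ) (K : Finset V) : Prop :=
  K ⊆ F ∧ ConnSet G K ∧ OmLe G K 6 ∧ ¬ PWLe G K j ∧ ∃ a ∈ K, a ∈ A ∧ ∀ x ∈ K, x ∈ A → x = a

/-- `v` is non-dominating: a window inside the open interval of `v` of bounded density which stays
thick after deleting the closed neighbourhood of `v` -/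
def ND {V : Type} (G : SimpleGraph V) (F : Finset V) (l r : V → ℝ) (n2 : ℝ) (N : ℕ) (v : V) :
    Prop :=
  ∃ x y : ℝ, l v < x ∧ x < y ∧ y < r v ∧
    (∀ I : Finset V, I ⊆ win F l r x y → G.IsIndepSet (I : Set V) →
      ∑ u ∈ I, (r u - l u) ≤ n2 * (y - x)) ∧
    ∀ S : Finset V, AlphaLE G S N →
      Cn G (lft F l r x y ((y - x) / 4)) (rgt F l r x y ((y - x) / 4))
        (rmN G v (win F l r x y) \ S)

/-- induced path `p 0, …, p m` -/
def IndPath {V : Type} (G : SimpleGraph V) (p : ℕ → V) (m : ℕ) : Prop :=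
  (∀ i j, i ≤ m → j ≤ m → p i = p j → i = j) ∧
  (∀ i j, i ≤ m → j ≤ m → (G.Adj (p i) (p j) ↔ i + 1 = j ∨ j + 1 = i))

/-- support of a path -/
noncomputable def supp {V : Type} (p : ℕ → V) (m : ℕ) : Finset V := (Finset.range (m + 1)).image p

end Pool.Agent.Work.MP_44e7ab_co
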