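import Mathlib
import Pool.Agent.Work.MP_44e7ab_co.Q1.Defs

set_option autoImplicit false

/-! M3: induced paths. -/

namespace Pool.Agent.Work.MP_44e7ab_co

open Finset Classical

theorem exists_indPath {V : Type} {G : SimpleGraph V} {U : Set V} {x y : V}
    (h : ConnIn G U x y) :
    ∃ (p : ℕ → V) (m : ℕ), IndPath G p m ∧ p 0 = x ∧ p m = y ∧ ∀ i ≤ m, p i ∈ U := by
  obtain ⟨p0, hp0⟩ := h
  have hex : ∃ k, ∃ p : G.Walk x y, (∀ z ∈ p.support, z ∈ U) ∧ p.length = k := ⟨_, p0, hp0, rfl⟩
  obtain ⟨p, hp, hk⟩ := Nat.find_spec hex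
  have hmin : ∀ q : G.Walk x y, (∀ z ∈ q.support, z ∈ U) → p.length ≤ q.length := by
    intro q hq
    rw [hk]
    exact Nat.find_min' hex ⟨q, hq, rfl⟩
  have htake : ∀ i, ∀ z ∈ (p.take i).support, z ∈ U := by
    intro i z hz
    rw [SimpleGraph.Walk.support_take] at hz
    exact hp z (List.mem_of_mem_take hz)
  have hdrop : ∀ i, ∀ z ∈ (p.drop i).support, z ∈ U := by
    intro i z hz
    rw [SimpleGraph.Walk.drop_support_eq_support_drop_min] at hz
    exact hp z (List.mem_of_mem_drop hz)
  have hne : ∀ i j, i < j → j ≤ p.length → p.getVert i ≠ p.getVert j := by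
    intro i j hij hj heq
    have := hmin ((p.take i).append ((p.drop j).copy heq.symm rfl)) (by
      intro z hz
      rw [SimpleGraph.Walk.mem_support_append_iff] at hz
      rcases hz with hz | hz
      · exact htake i z hz
      · rw [SimpleGraph.Walk.support_copy] at hz
        exact hdrop j z hz)
    rw [SimpleGraph.Walk.length_append, SimpleGraph.Walk.length_copy,
      SimpleGraph.Walk.take_length, SimpleGraph.Walk.drop_length] at this
    omega
  have hnadj : ∀ i j, i + 1 < j → j ≤ p.length → ¬ G.Adj (p.getVert i) (p.getVert j) := by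
    intro i j hij hj hadj
    have := hmin ((p.take i).append (SimpleGraph.Walk.cons hadj (p.drop j))) (by
      intro z hz
      rw [SimpleGraph.Walk.mem_support_append_iff] at hz
      rcases hz with hz | hz
      · exact htake i z hz
      · rw [SimpleGraph.Walk.support_cons, List.mem_cons] at hz
        rcases hz with rfl | hz
        · exact hp _ (SimpleGraph.Walk.getVert_mem_support _ _)
        · exact hdrop j z hz)
    rw [SimpleGraph.Walk.length_append, SimpleGraph.Walk.length_cons,
      SimpleGraph.Walk.take_length, SimpleGraph.Walk.drop_length] at this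
    omega
  refine ⟨p.getVert, p.length, ⟨?_, ?_⟩, ?_, ?_, ?_⟩
  · intro i j hi hj hij
    by_contra hcon
    rcases Nat.lt_or_gt_of_ne hcon with h | h
    · exact hne i j h hj hij
    · exact hne j i h hi hij.symm
  · intro i j hi hj
    constructor
    · intro hadj
      by_contra hcon
      push Not at hcon
      rcases Nat.lt_trichotomy i j with h | h | h
      · exact hnadj i j (by omega) hj hadj
      · rw [h] at hadj
        exact G.irrefl hadj
      · exact hnadj j i (by omega) hi hadj.symm
    · intro h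
      rcases h with h | h
      · rw [← h]
        exact p.adj_getVert_succ (by omega)
      · rw [← h]
        exact (p.adj_getVert_succ (by omega)).symm
  · exact p.getVert_zero
  · exact p.getVert_length
  · intro i _
    exact hp _ (SimpleGraph.Walk.getVert_mem_support _ _)

theorem mem_supp {V : Type} {p : ℕ → V} {m : ℕ} {v : V} :
    v ∈ supp p m ↔ ∃ i ≤ m, p i = v := by
  simp only [supp, Finset.mem_image, Finset.mem_range]
  constructor
  · rintro ⟨i, hi, rfl⟩
    exact ⟨i, by omega, rfl⟩
  · rintro ⟨i, hi, rfl⟩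
    exact ⟨i, by omega, rfl⟩

theorem IndPath.omLe {V : Type} {G : SimpleGraph V} {p : ℕ → V} {m : ℕ} (h : IndPath G p m) :
    OmLe G (supp p m) 2 := by
  intro C hC hcl
  by_contra hcon
  push Not at hcon
  obtain ⟨x, hx, y, hy, z, hz, hxy, hxz, hyz⟩ := Finset.two_lt_card.mp hcon
  obtain ⟨i, hi, rfl⟩ := mem_supp.mp (hC hx)
  obtain ⟨j, hj, rfl⟩ := mem_supp.mp (hC hy)
  obtain ⟨k, hk, rfl⟩ := mem_supp.mp (hC hz)
  have a1 := (h.2 i j hi hj).mp (hcl (by exact_mod_cast hx) (by exact_mod_cast hy) hxy)
  have a2 := (h.2 i k hi hk).mp (hcl (by exact_mod_cast hx) (by exact_mod_cast hz) hxz)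
  have a3 := (h.2 j k hj hk).mp (hcl (by exact_mod_cast hy) (by exact_mod_cast hz) hyz)
  omega

/-- a segment of a walk-like sequence is connected -/
theorem connIn_seg {V : Type} {G : SimpleGraph V} {p : ℕ → V} {U : Set V} {i j : ℕ}
    (hij : i ≤ j) (hadj : ∀ k, i ≤ k → k < j → G.Adj (p k) (p (k + 1)))
    (hU : ∀ k, i ≤ k → k ≤ j → p k ∈ U) : ConnIn G U (p i) (p j) := by
  induction j, hij using Nat.le_induction with
  | base => exact ConnIn.refl (hU i le_rfl le_rfl)
  | succ j hij ih =>
    exact (ih (fun k h1 h2 => hadj k h1 (by omega)) (fun k h1 h2 => hU k h1 (by omega))).trans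
      (ConnIn.adj (hadj j hij (by omega)) (hU j hij (by omega)) (hU (j + 1) (by omega) le_rfl))

/-- a segment of a walk-like sequence is connected -/
theorem connSet_seg {V : Type} {G : SimpleGraph V} {p : ℕ → V} {i j : ℕ}
    (hadj : ∀ k, i ≤ k → k < j → G.Adj (p k) (p (k + 1))) :
    ConnSet G ((Finset.Icc i j).image p) := by
  intro x hx y hy
  simp only [Finset.mem_image, Finset.mem_Icc] at hx hy
  obtain ⟨a, ha, rfl⟩ := hx
  obtain ⟨c, hc, rfl⟩ := hy
  have hmem : ∀ k, i ≤ k → k ≤ j → p k ∈ (((Finset.Icc i j).image p : Finset V) : Set V) := by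
    intro k h1 h2
    simp only [Finset.coe_image, Set.mem_image, Finset.mem_coe, Finset.mem_Icc]
    exact ⟨k, ⟨h1, h2⟩, rfl⟩
  rcases le_total a c with h | h
  · exact connIn_seg h (fun k h1 h2 => hadj k (by omega) (by omega))
      (fun k h1 h2 => hmem k (by omega) (by omega))
  · exact (connIn_seg h (fun k h1 h2 => hadj k (by omega) (by omega))
      (fun k h1 h2 => hmem k (by omega) (by omega))).symm

theorem IndPath.adj {V : Type} {G : SimpleGraph V} {p : ℕ → V} {m : ℕ} (h : IndPath G p m)
    {i : ℕ} (hi : i < m) : G.Adj (p i) (p (i + 1)) :=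
  (h.2 i (i + 1) (by omega) (by omega)).mpr (Or.inl rfl)

theorem supp_eq_Icc {V : Type} (p : ℕ → V) (m : ℕ) : supp p m = (Finset.Icc 0 m).image p := by
  ext v
  rw [mem_supp]
  simp

theorem IndPath.connSet {V : Type} {G : SimpleGraph V} {p : ℕ → V} {m : ℕ}
    (h : IndPath G p m) : ConnSet G (supp p m) := by
  rw [supp_eq_Icc]
  exact connSet_seg (fun k _ h2 => h.adj h2)

theorem IndPath.half {V : Type} {G : SimpleGraph V} {p : ℕ → V} {m : ℕ} (h : IndPath G p m)
    (lam : V → ℝ) (_hlam : ∀ i ≤ m, 0 ≤ lam (p i)) :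
    ∃ I : Finset V, I ⊆ supp p m ∧ G.IsIndepSet (I : Set V) ∧
      ∑ v ∈ supp p m, lam v ≤ 2 * ∑ v ∈ I, lam v := by
  have hind : ∀ r : ℕ, G.IsIndepSet
      (((((Finset.range (m + 1)).filter (fun i => i % 2 = r)).image p : Finset V)) : Set V) := by
    intro r x hx y hy hxy hadj
    simp only [Finset.coe_image, Set.mem_image, Finset.mem_coe, Finset.mem_filter,
      Finset.mem_range] at hx hy
    obtain ⟨i, ⟨hi, hi2⟩, rfl⟩ := hx
    obtain ⟨j, ⟨hj, hj2⟩, rfl⟩ := hy
    have := (h.2 i j (by omega) (by omega)).mp hadj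
    omega
  have hinj : ∀ T : Finset ℕ, T ⊆ Finset.range (m + 1) →
      ∑ v ∈ T.image p, lam v = ∑ i ∈ T, lam (p i) := by
    intro T hT
    apply Finset.sum_image
    intro i hi j hj hij
    have h1 := Finset.mem_range.mp (hT hi)
    have h2 := Finset.mem_range.mp (hT hj)
    exact h.1 i j (by omega) (by omega) hij
  have hsplit : ∑ v ∈ supp p m, lam v =
      ∑ v ∈ ((Finset.range (m + 1)).filter (fun i => i % 2 = 0)).image p, lam v +
      ∑ v ∈ ((Finset.range (m + 1)).filter (fun i => i % 2 = 1)).image p, lam v := by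
    unfold supp
    rw [hinj _ (Finset.Subset.refl _), hinj _ (Finset.filter_subset _ _),
      hinj _ (Finset.filter_subset _ _),
      ← Finset.sum_filter_add_sum_filter_not (Finset.range (m + 1)) (fun i => i % 2 = 0)]
    congr 1
    apply Finset.sum_congr _ (fun _ _ => rfl)
    ext i
    simp only [Finset.mem_filter]
    constructor
    · rintro ⟨h1, h2⟩; exact ⟨h1, by omega⟩
    · rintro ⟨h1, h2⟩; exact ⟨h1, by omega⟩
  have hsub : ∀ r : ℕ, ((Finset.range (m + 1)).filter (fun i => i % 2 = r)).image p ⊆ supp p m :=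
    fun r => Finset.image_subset_image (Finset.filter_subset _ _)
  rcases le_total (∑ v ∈ ((Finset.range (m + 1)).filter (fun i => i % 2 = 0)).image p, lam v)
    (∑ v ∈ ((Finset.range (m + 1)).filter (fun i => i % 2 = 1)).image p, lam v) with hle | hle
  · exact ⟨_, hsub 1, hind 1, by rw [hsplit]; linarith⟩
  · exact ⟨_, hsub 0, hind 0, by rw [hsplit]; linarith⟩

theorem connSet_union {V : Type} {G : SimpleGraph V} {A B : Finset V} (hA : ConnSet G A)
    (hB : ConnSet G B) (h : Touch G A B) : ConnSet G (A ∪ B) := by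
  obtain ⟨u, hu, v, hv, huv⟩ := h
  have hAs : (A : Set V) ⊆ ((A ∪ B : Finset V) : Set V) := by
    rw [Finset.coe_union]; exact Set.subset_union_left
  have hBs : (B : Set V) ⊆ ((A ∪ B : Finset V) : Set V) := by
    rw [Finset.coe_union]; exact Set.subset_union_right
  have huv' : ConnIn G ((A ∪ B : Finset V) : Set V) u v := by
    rcases huv with h | h
    · exact ConnIn.adj h (hAs (by exact_mod_cast hu)) (hBs (by exact_mod_cast hv))
    · subst h
      exact ConnIn.refl (hAs (by exact_mod_cast hu))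
  have key : ∀ x ∈ A ∪ B, ConnIn G ((A ∪ B : Finset V) : Set V) x u := by
    intro x hx
    rcases Finset.mem_union.mp hx with hx | hx
    · exact (hA x hx u hu).mono hAs
    · exact ((hB x hx v hv).mono hBs).trans huv'.symm
  intro x hx y hy
  exact (key x hx).trans (key y hy).symm

theorem connIn_closed {V : Type} {G : SimpleGraph V} {U : Set V} {x y : V}
    (h : ConnIn G U x y) {Q : V → Prop} (hx : Q x)
    (hQ : ∀ u v, u ∈ U → v ∈ U → G.Adj u v → Q u → Q v) : Q y := by
  obtain ⟨p, hp⟩ := h
  induction p with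
  | nil => exact hx
  | cons hadj q ih =>
    apply ih (hQ _ _ (hp _ (by simp)) (hp _ (by simp)) hadj hx)
    intro z hz
    exact hp z (by simp [hz])

end Pool.Agent.Work.MP_44e7ab_co
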