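import Mathlib
import Pool.Agent.Work.MP_44e7ab_co.Q1.Paths

set_option autoImplicit false

/-! Assembly, part 1: one induced path touches a finite pairwise touching family of connected
sets. -/

namespace Pool.Agent.Work.MP_44e7ab_co.Asm

open Finset Classical
open Pool.Agent.Work.MP_44e7ab_co

/-- initial segment of an induced path -/
theorem ip_take {V : Type} {G : SimpleGraph V} {p : ℕ → V} {m k : ℕ} (h : IndPath G p m)
    (hk : k ≤ m) : IndPath G p k :=
  ⟨fun i j hi hj => h.1 i j (hi.trans hk) (hj.trans hk),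
    fun i j hi hj => h.2 i j (hi.trans hk) (hj.trans hk)⟩

theorem mem_sp {V : Type} {p : ℕ → V} {m : ℕ} {v : V} :
    v ∈ supp p m ↔ ∃ i ≤ m, p i = v := by
  unfold supp
  rw [Finset.mem_image]
  constructor
  · rintro ⟨i, hi, rfl⟩
    exact ⟨i, by rw [Finset.mem_range] at hi; omega, rfl⟩
  · rintro ⟨i, hi, rfl⟩
    exact ⟨i, by rw [Finset.mem_range]; omega, rfl⟩

theorem t_symm {V : Type} {G : SimpleGraph V} {A B : Finset V} (h : Touch G A B) :
    Touch G B A := by
  obtain ⟨u, hu, v, hv, h⟩ := h
  exact ⟨v, hv, u, hu, h.imp (fun h => h.symm) (fun h => h.symm)⟩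

theorem t_mono {V : Type} {G : SimpleGraph V} {A B A' B' : Finset V} (h : Touch G A B)
    (hA : A ⊆ A') (hB : B ⊆ B') : Touch G A' B' := by
  obtain ⟨u, hu, v, hv, h⟩ := h
  exact ⟨u, hA hu, v, hB hv, h⟩

/-- concatenation of induced paths -/
theorem ip_append {V : Type} {G : SimpleGraph V} {p q : ℕ → V} {m l : ℕ}
    (hp : IndPath G p m) (hq : IndPath G q l) (h0 : q 0 = p m)
    (hno : ∀ i < m, ∀ j ≤ l, 1 ≤ j → ¬ G.Adj (p i) (q j) ∧ p i ≠ q j) :
    IndPath G (fun i => if i ≤ m then p i else q (i - m)) (m + l) := by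
  have key : ∀ i j, i ≤ m + l → j ≤ m + l → i < j →
      (fun i => if i ≤ m then p i else q (i - m)) i ≠
        (fun i => if i ≤ m then p i else q (i - m)) j ∧
      (G.Adj ((fun i => if i ≤ m then p i else q (i - m)) i)
        ((fun i => if i ≤ m then p i else q (i - m)) j) ↔ i + 1 = j) := by
    intro i j hi hj hij
    by_cases hjm : j ≤ m
    · have him : i ≤ m := by omega
      simp only [him, hjm, if_true]
      constructor
      · intro h
        have := hp.1 i j him hjm h
        omega
      · rw [hp.2 i j him hjm]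
        omega
    · by_cases him : i ≤ m
      · simp only [him, hjm, if_true, if_false]
        rcases Nat.lt_or_ge i m with him' | him'
        · obtain ⟨h1, h2⟩ := hno i him' (j - m) (by omega) (by omega)
          refine ⟨h2, ?_⟩
          constructor
          · intro h
            exact absurd h h1
          · intro h
            omega
        · have hie : i = m := by omega
          rw [hie, ← h0]
          constructor
          · intro h
            have := hq.1 0 (j - m) (by omega) (by omega) h
            omega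
          · rw [hq.2 0 (j - m) (by omega) (by omega)]
            omega
      · simp only [him, hjm, if_false]
        constructor
        · intro h
          have := hq.1 (i - m) (j - m) (by omega) (by omega) h
          omega
        · rw [hq.2 (i - m) (j - m) (by omega) (by omega)]
          omega
  constructor
  · intro i j hi hj h
    rcases Nat.lt_trichotomy i j with hlt | heq | hgt
    · exact absurd h (key i j hi hj hlt).1
    · exact heq
    · exact absurd h.symm (key j i hj hi hgt).1
  · intro i j hi hj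
    rcases Nat.lt_trichotomy i j with hlt | heq | hgt
    · rw [(key i j hi hj hlt).2]
      omega
    · rw [heq]
      constructor
      · intro h
        exact absurd h (G.irrefl)
      · intro h
        omega
    · rw [SimpleGraph.adj_comm, (key j i hj hi hgt).2]
      omega

/-- a single vertex is an induced path -/
theorem ip_single {V : Type} {G : SimpleGraph V} (v : V) : IndPath G (fun _ => v) 0 := by
  constructor
  · intro i j hi hj _
    omega
  · intro i j hi hj
    constructor
    · intro h
      exact absurd h G.irrefl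
    · intro h
      omega

/-- **Lemma R.** A finite family of nonempty connected pairwise touching sets is touched by one
induced path contained in the union. -/
theorem exists_touching_path {V : Type} {G : SimpleGraph V} (𝓕 : Finset (Finset V))
    (hne : 𝓕.Nonempty) (hnonempty : ∀ B ∈ 𝓕, B.Nonempty) (hconn : ∀ B ∈ 𝓕, ConnSet G B)
    (hT : ∀ B ∈ 𝓕, ∀ B' ∈ 𝓕, Touch G B B') {U : Finset V} (hU : ∀ B ∈ 𝓕, B ⊆ U)
    (hU' : ∀ v ∈ U, ∃ B ∈ 𝓕, v ∈ B) :
    ∃ (p : ℕ → V) (m : ℕ), IndPath G p m ∧ (∀ i ≤ m, p i ∈ U) ∧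
      ∀ B ∈ 𝓕, Touch G (supp p m) B := by
  let Q : ℕ → ℕ → Prop := fun k m => ∃ p : ℕ → V, IndPath G p m ∧ (∀ i ≤ m, p i ∈ U) ∧
    (𝓕.filter (fun B => ¬ Touch G (supp p m) B)).card ≤ k
  have hex : ∃ k, ∃ m, Q k m := by
    obtain ⟨B, hB⟩ := hne
    obtain ⟨v, hv⟩ := hnonempty B hB
    exact ⟨_, 0, fun _ => v, ip_single v, fun _ _ => hU B hB hv, le_rfl⟩
  set k0 := Nat.find hex with hk0
  have hex2 : ∃ m, Q k0 m := Nat.find_spec hex
  have hk0min : ∀ k m, Q k m → k0 ≤ k := fun k m h => Nat.find_min' hex ⟨m, h⟩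
  set m0 := Nat.find hex2 with hm0
  have hQ : Q k0 m0 := Nat.find_spec hex2
  have hm0min : ∀ m, Q k0 m → m0 ≤ m := fun m h => Nat.find_min' hex2 h
  obtain ⟨p, hp, hpU, hpk⟩ := hQ
  refine ⟨p, m0, hp, hpU, ?_⟩
  intro B hB
  by_contra hBT
  -- a set needing the last vertex
  obtain ⟨B', hB', hB't, hB'n⟩ : ∃ B' ∈ 𝓕, (∃ w ∈ B', G.Adj (p m0) w ∨ p m0 = w) ∧
      ∀ i < m0, ∀ w ∈ B', ¬ G.Adj (p i) w ∧ p i ≠ w := by
    rcases Nat.eq_zero_or_pos m0 with h0 | h0
    · obtain ⟨B', hB', hv⟩ := hU' (p m0) (hpU m0 le_rfl)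
      refine ⟨B', hB', ⟨p m0, hv, Or.inr rfl⟩, ?_⟩
      intro i hi
      omega
    · have hlt : k0 < (𝓕.filter (fun B => ¬ Touch G (supp p (m0 - 1)) B)).card := by
        by_contra hcon
        push Not at hcon
        have := hm0min (m0 - 1) ⟨p, ip_take hp (by omega), fun i hi => hpU i (by omega), hcon⟩
        omega
      have hnot : ¬ (𝓕.filter (fun B => ¬ Touch G (supp p (m0 - 1)) B)) ⊆
          (𝓕.filter (fun B => ¬ Touch G (supp p m0) B)) := by
        intro hsub
        have := Finset.card_le_card hsub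
        omega
      rw [Finset.not_subset] at hnot
      obtain ⟨B', hB'1, hB'2⟩ := hnot
      rw [Finset.mem_filter] at hB'1 hB'2
      have ht : Touch G (supp p m0) B' := by
        by_contra hcon
        exact hB'2 ⟨hB'1.1, hcon⟩
      have hn : ∀ i < m0, ∀ w ∈ B', ¬ G.Adj (p i) w ∧ p i ≠ w := by
        intro i hi w hw
        constructor
        · intro h
          exact hB'1.2 ⟨p i, mem_sp.mpr ⟨i, by omega, rfl⟩, w, hw, Or.inl h⟩
        · intro h
          exact hB'1.2 ⟨p i, mem_sp.mpr ⟨i, by omega, rfl⟩, w, hw, Or.inr h⟩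
      refine ⟨B', hB'1.1, ?_, hn⟩
      obtain ⟨u, hu, w, hw, h⟩ := ht
      obtain ⟨i, hi, rfl⟩ := mem_sp.mp hu
      rcases Nat.lt_or_ge i m0 with hlt' | hge
      · rcases h with h | h
        · exact absurd h (hn i hlt' w hw).1
        · exact absurd h (hn i hlt' w hw).2
      · have : i = m0 := by omega
        rw [this] at h
        exact ⟨w, hw, h⟩
  -- the path through `B'` to `N[B]`
  obtain ⟨w, hw, hwt⟩ := hB't
  obtain ⟨z, hz, b, hb, hzb⟩ := hT B' hB' B hB
  have hcn : ConnIn G (insert (p m0) (B' : Set V)) (p m0) z := by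
    have h1 : ConnIn G (insert (p m0) (B' : Set V)) w z :=
      (hconn B' hB' w hw z hz).mono (by intro x hx; exact Or.inr hx)
    rcases hwt with h | h
    · exact (ConnIn.adj h (Or.inl rfl) (Or.inr hw)).trans h1
    · rw [h] at h1 ⊢
      exact h1
  obtain ⟨q, l, hq, hq0, hql, hqB⟩ := exists_indPath hcn
  have hq1 : ∀ j ≤ l, 1 ≤ j → q j ∈ B' := by
    intro j hj hj1
    rcases hqB j hj with h | h
    · rw [← hq0] at h
      have := hq.1 j 0 hj (by omega) h
      omega
    · exact h
  have happ := ip_append hp hq hq0 (fun i hi j hj hj1 => hB'n i hi (q j) (hq1 j hj hj1))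
  have hk1 : 1 ≤ k0 := by
    have : B ∈ 𝓕.filter (fun B => ¬ Touch G (supp p m0) B) := Finset.mem_filter.mpr ⟨hB, hBT⟩
    have h2 := Finset.card_pos.mpr ⟨B, this⟩
    omega
  have := hk0min (k0 - 1) (m0 + l) ⟨_, happ, ?_, ?_⟩
  · omega
  · intro i hi
    by_cases him : i ≤ m0
    · simp only [him, if_true]
      exact hpU i him
    · simp only [him, if_false]
      exact hU B' hB' (hq1 (i - m0) (by omega) (by omega))
  · have hsub : 𝓕.filter (fun B => ¬ Touch G
        (supp (fun i => if i ≤ m0 then p i else q (i - m0)) (m0 + l)) B) ⊆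
        (𝓕.filter (fun B => ¬ Touch G (supp p m0) B)).erase B := by
      intro C hC
      rw [Finset.mem_filter] at hC
      rw [Finset.mem_erase, Finset.mem_filter]
      refine ⟨?_, hC.1, ?_⟩
      · rintro rfl
        apply hC.2
        refine ⟨z, ?_, b, hb, hzb⟩
        rw [mem_sp]
        refine ⟨m0 + l, le_rfl, ?_⟩
        by_cases hl : l = 0
        · subst hl
          simp only [Nat.add_zero, le_refl, if_true]
          rw [← hq0, hql]
        · have : ¬ (m0 + l ≤ m0) := by omega
          simp only [this, if_false]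
          rw [Nat.add_sub_cancel_left, hql]
      · intro ht
        apply hC.2
        refine t_mono ht ?_ (Finset.Subset.refl _)
        intro v hv
        obtain ⟨i, hi, rfl⟩ := mem_sp.mp hv
        rw [mem_sp]
        refine ⟨i, by omega, ?_⟩
        simp only [hi, if_true]
    have h1 := Finset.card_le_card hsub
    have h2 : B ∈ 𝓕.filter (fun B => ¬ Touch G (supp p m0) B) :=
      Finset.mem_filter.mpr ⟨hB, hBT⟩
    rw [Finset.card_erase_of_mem h2] at h1
    omega

end Pool.Agent.Work.MP_44e7ab_co.Asm
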