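import Mathlib
import Pool.Agent.Work.MP_44e7ab_co.Q1.AsmPath

set_option autoImplicit false

/-! Assembly, part 2: many pairwise non-touching rich sets. -/

namespace Pool.Agent.Work.MP_44e7ab_co.Asm

open Finset Classical
open Pool.Agent.Work.MP_44e7ab_co

theorem alphaLE_mono {V : Type} {G : SimpleGraph V} {S : Finset V} {s t : ℕ}
    (h : AlphaLE G S s) (hst : s ≤ t) : AlphaLE G S t :=
  fun I hI hind => (h I hI hind).trans hst

theorem alphaLE_union {V : Type} {G : SimpleGraph V} {S S' : Finset V} {s s' : ℕ}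
    (h : AlphaLE G S s) (h' : AlphaLE G S' s') : AlphaLE G (S ∪ S') (s + s') := by
  intro I hI hind
  have h1 : (I ∩ S).card ≤ s := h _ Finset.inter_subset_right (hind.mono (by simp))
  have h2 : (I ∩ S').card ≤ s' := h' _ Finset.inter_subset_right (hind.mono (by simp))
  have h3 : I ⊆ (I ∩ S) ∪ (I ∩ S') := by
    intro x hx
    rcases Finset.mem_union.mp (hI hx) with h | h
    · exact Finset.mem_union_left _ (Finset.mem_inter.mpr ⟨hx, h⟩)
    · exact Finset.mem_union_right _ (Finset.mem_inter.mpr ⟨hx, h⟩)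
  have h4 := (Finset.card_le_card h3).trans (Finset.card_union_le _ _)
  omega

theorem alphaLE_empty {V : Type} {G : SimpleGraph V} {s : ℕ} : AlphaLE G ∅ s := by
  intro I hI _
  rw [Finset.subset_empty] at hI
  simp [hI]

/-- a consistent choice of big components -/
def Hav {V : Type} (G : SimpleGraph V) (s0 : ℕ) (D : Finset V → Finset V) : Prop :=
  ∀ S, AlphaLE G S s0 → ConnSet G (D S) ∧ Disjoint (D S) S ∧
    (∀ d ∈ D S, ∀ x, ConnIn G {z | z ∉ S} d x → x ∈ D S) ∧
    ∀ S', AlphaLE G S' s0 → ∃ z, z ∈ D S ∧ z ∈ D S'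

theorem exists_hav {V : Type} [Fintype V] {G : SimpleGraph V} {s0 : ℕ} {J : Finset V}
    (hJ : J.card = 4 * s0 + 1)
    (hcon : ∀ S : Finset V, AlphaLE G S s0 → ∃ D : Finset V, ConnSet G D ∧ Disjoint D S ∧
      (J \ D).card ≤ 2 * s0) : ∃ D : Finset V → Finset V, Hav G s0 D := by
  have hD : ∀ S : Finset V, ∃ D : Finset V, AlphaLE G S s0 → (ConnSet G D ∧ Disjoint D S ∧
      (∀ d ∈ D, ∀ x, ConnIn G {z | z ∉ S} d x → x ∈ D) ∧ (J \ D).card ≤ 2 * s0) := by
    intro S
    by_cases hS : AlphaLE G S s0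
    swap
    · exact ⟨∅, fun h => absurd h hS⟩
    obtain ⟨D0, h1, h2, h3⟩ := hcon S hS
    set D : Finset V := Finset.univ.filter (fun x => ∃ d ∈ D0, ConnIn G {z | z ∉ S} d x)
      with hDdef
    have hmem : ∀ x, x ∈ D ↔ ∃ d ∈ D0, ConnIn G {z | z ∉ S} d x := by
      intro x
      simp [hDdef]
    have hsub : D0 ⊆ D := by
      intro x hx
      rw [hmem]
      exact ⟨x, hx, ConnIn.refl (fun h => Finset.disjoint_left.mp h2 hx h)⟩
    refine ⟨D, fun _ => ⟨?_, ?_, ?_, ?_⟩⟩
    · have key : ∀ d ∈ D0, ∀ x, ConnIn G {z | z ∉ S} d x → ConnIn G (D : Set V) d x := by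
        intro d hd x hx
        obtain ⟨p, hp⟩ := hx
        refine ⟨p, ?_⟩
        intro z hz
        rw [Finset.mem_coe, hmem]
        refine ⟨d, hd, p.takeUntil z hz, ?_⟩
        intro w hw
        exact hp w (p.support_takeUntil_subset_support hz hw)
      intro x hx y hy
      obtain ⟨d, hd, hdx⟩ := (hmem x).mp hx
      obtain ⟨e, he, hey⟩ := (hmem y).mp hy
      exact ((key d hd x hdx).symm.trans ((h1 d hd e he).mono (by exact_mod_cast hsub))).trans
        (key e he y hey)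
    · rw [Finset.disjoint_left]
      intro x hx hx'
      obtain ⟨d, hd, hdx⟩ := (hmem x).mp hx
      exact hdx.right_mem hx'
    · intro d hd x hdx
      obtain ⟨e, he, hed⟩ := (hmem d).mp hd
      exact (hmem x).mpr ⟨e, he, hed.trans hdx⟩
    · refine (Finset.card_le_card ?_).trans h3
      exact Finset.sdiff_subset_sdiff (Finset.Subset.refl _) hsub
  choose D hD using hD
  refine ⟨D, ?_⟩
  intro S hS
  obtain ⟨h1, h2, h3, h4⟩ := hD S hS
  refine ⟨h1, h2, h3, ?_⟩
  intro S' hS'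
  obtain ⟨h1', h2', h3', h4'⟩ := hD S' hS'
  by_contra hcon'
  push Not at hcon'
  have hsub : J ⊆ (J \ D S) ∪ (J \ D S') := by
    intro x hx
    by_cases hxS : x ∈ D S
    · exact Finset.mem_union_right _ (Finset.mem_sdiff.mpr ⟨hx, hcon' x hxS⟩)
    · exact Finset.mem_union_left _ (Finset.mem_sdiff.mpr ⟨hx, hxS⟩)
  have := (Finset.card_le_card hsub).trans (Finset.card_union_le _ _)
  omega

theorem Hav.mono {V : Type} {G : SimpleGraph V} {s0 : ℕ} {D : Finset V → Finset V}
    (hD : Hav G s0 D) {S S' : Finset V} (hSS : S ⊆ S') (hS : AlphaLE G S s0)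
    (hS' : AlphaLE G S' s0) : D S' ⊆ D S := by
  intro x hx
  obtain ⟨h1, h2, h3, h4⟩ := hD S hS
  obtain ⟨h1', h2', h3', h4'⟩ := hD S' hS'
  obtain ⟨z, hz, hz'⟩ := h4 S' hS'
  refine h3 z hz x ((h1' z hz' x hx).mono ?_)
  intro w hw hwS
  exact Finset.disjoint_left.mp h2' hw (hSS hwS)

/-- touches all big components of small separators -/
def Rich {V : Type} (G : SimpleGraph V) (h : ℕ) (D : Finset V → Finset V) (C : Finset V) : Prop :=
  ∀ S, AlphaLE G S h → Touch G C (D S)

theorem rich_path {V : Type} [Fintype V] {G : SimpleGraph V} {s0 h z : ℕ}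
    {D : Finset V → Finset V} (hD : Hav G s0 D) {Z : Finset V} (hZ : AlphaLE G Z z)
    (hzh : h + z ≤ s0) :
    ∃ (m : ℕ) (p : ℕ → V), IndPath G p m ∧ (∀ i ≤ m, p i ∈ D Z) ∧ Rich G h D (supp p m) := by
  set 𝓕 : Finset (Finset V) := ((univ : Finset (Finset V)).filter (fun S => AlphaLE G S h)).image
    (fun S => D (S ∪ Z)) with h𝓕
  have hmem : ∀ B, B ∈ 𝓕 ↔ ∃ S, AlphaLE G S h ∧ D (S ∪ Z) = B := by
    intro B
    simp [h𝓕]
  have hal : ∀ S, AlphaLE G S h → AlphaLE G (S ∪ Z) s0 := fun S hS =>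
    alphaLE_mono (alphaLE_union hS hZ) hzh
  have hZs0 : AlphaLE G Z s0 := alphaLE_mono hZ (by omega)
  obtain ⟨p, m, hp, hpU, hpT⟩ := exists_touching_path (G := G) 𝓕
    ⟨_, (hmem _).mpr ⟨∅, alphaLE_empty, rfl⟩⟩ (by
      intro B hB
      obtain ⟨S, hS, rfl⟩ := (hmem B).mp hB
      obtain ⟨z, hz, -⟩ := (hD _ (hal S hS)).2.2.2 _ (hal S hS)
      exact ⟨z, hz⟩) (by
      intro B hB
      obtain ⟨S, hS, rfl⟩ := (hmem B).mp hB
      exact (hD _ (hal S hS)).1) (by
      intro B hB B' hB'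
      obtain ⟨S, hS, rfl⟩ := (hmem B).mp hB
      obtain ⟨S', hS', rfl⟩ := (hmem B').mp hB'
      obtain ⟨z, hz, hz'⟩ := (hD _ (hal S hS)).2.2.2 _ (hal S' hS')
      exact ⟨z, hz, z, hz', Or.inr rfl⟩) (U := 𝓕.biUnion id) (by
      intro B hB x hx
      rw [Finset.mem_biUnion]
      exact ⟨B, hB, hx⟩) (by
      intro v hv
      rw [Finset.mem_biUnion] at hv
      obtain ⟨B, hB, hv⟩ := hv
      exact ⟨B, hB, hv⟩)
  refine ⟨m, p, hp, ?_, ?_⟩
  · intro i hi
    have := hpU i hi
    rw [Finset.mem_biUnion] at this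
    obtain ⟨B, hB, hv⟩ := this
    obtain ⟨S, hS, rfl⟩ := (hmem B).mp hB
    exact hD.mono Finset.subset_union_right hZs0 (hal S hS) hv
  · intro S hS
    refine t_mono (hpT _ ((hmem _).mpr ⟨S, hS, rfl⟩)) (Finset.Subset.refl _) ?_
    exact hD.mono Finset.subset_union_left (alphaLE_mono hS (by omega)) (hal S hS)

theorem rich_step {V : Type} [Fintype V] {G : SimpleGraph V} {s0 h z : ℕ}
    {D : Finset V → Finset V} (hD : Hav G s0 D) {Z : Finset V} (hZ : AlphaLE G Z z)
    (hzh : z + (h + h) ≤ s0) (hR : ∀ v, Rich G h D {v} → v ∈ Z) :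
    ∃ C Z' : Finset V, Z ⊆ Z' ∧ AlphaLE G Z' (z + (h + h)) ∧ ConnSet G C ∧ OmLe G C 2 ∧
      Rich G h D C ∧ C ⊆ D Z ∧ ¬ Touch G C (D Z') := by
  have hex : ∃ (m : ℕ), ∃ (p : ℕ → V), IndPath G p m ∧ (∀ i ≤ m, p i ∈ D Z) ∧
      Rich G h D (supp p m) := rich_path hD hZ (by omega)
  set m := Nat.find hex with hm
  obtain ⟨p, hp, hpD, hpR⟩ : ∃ (p : ℕ → V), IndPath G p m ∧ (∀ i ≤ m, p i ∈ D Z) ∧
      Rich G h D (supp p m) := Nat.find_spec hex
  have hmin : ∀ m', (∃ (p : ℕ → V), IndPath G p m' ∧ (∀ i ≤ m', p i ∈ D Z) ∧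
      Rich G h D (supp p m')) → m ≤ m' := fun m' h' => Nat.find_min' hex h'
  have hZs0 : AlphaLE G Z s0 := alphaLE_mono hZ (by omega)
  have hnotR : ∀ i ≤ m, ¬ Rich G h D {p i} := by
    intro i hi hr
    exact Finset.disjoint_left.mp (hD Z hZs0).2.1 (hpD i hi) (hR _ hr)
  have hm1 : 1 ≤ m := by
    by_contra hcon
    have h0 : m = 0 := by omega
    apply hnotR 0 (by omega)
    have : supp p m = {p 0} := by
      rw [h0]
      simp [supp]
    rw [← this]
    exact hpR
  have hS1 : ∃ S1, AlphaLE G S1 h ∧ ¬ Touch G (supp p (m - 1)) (D S1) := by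
    by_contra hcon
    push Not at hcon
    have := hmin (m - 1) ⟨p, ip_take hp (by omega), fun i hi => hpD i (by omega), hcon⟩
    omega
  have hS2 : ∃ S2, AlphaLE G S2 h ∧ ¬ Touch G {p m} (D S2) := by
    by_contra hcon
    push Not at hcon
    exact hnotR m le_rfl hcon
  obtain ⟨S1, hS1, hT1⟩ := hS1
  obtain ⟨S2, hS2, hT2⟩ := hS2
  have hZ' : AlphaLE G (Z ∪ (S1 ∪ S2)) (z + (h + h)) :=
    alphaLE_union hZ (alphaLE_union hS1 hS2)
  refine ⟨supp p m, Z ∪ (S1 ∪ S2), Finset.subset_union_left, hZ', IndPath.connSet hp,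
    IndPath.omLe hp, hpR, ?_, ?_⟩
  · intro v hv
    obtain ⟨i, hi, rfl⟩ := mem_sp.mp hv
    exact hpD i hi
  · rintro ⟨u, hu, w, hw, huw⟩
    obtain ⟨i, hi, rfl⟩ := mem_sp.mp hu
    rcases Nat.lt_or_ge i m with hlt | hge
    · apply hT1
      refine ⟨p i, mem_sp.mpr ⟨i, by omega, rfl⟩, w, ?_, huw⟩
      exact hD.mono (Finset.subset_union_left.trans Finset.subset_union_right)
        (alphaLE_mono hS1 (by omega)) (alphaLE_mono hZ' hzh) hw
    · have : i = m := by omega
      rw [this] at huw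
      apply hT2
      refine ⟨p m, Finset.mem_singleton_self _, w, ?_, huw⟩
      exact hD.mono (Finset.subset_union_right.trans Finset.subset_union_right)
        (alphaLE_mono hS2 (by omega)) (alphaLE_mono hZ' hzh) hw

theorem rich_seq {V : Type} [Fintype V] {G : SimpleGraph V} {s0 h z : ℕ}
    {D : Finset V → Finset V} (hD : Hav G s0 D) {R : Finset V} (hRz : AlphaLE G R z)
    (hR : ∀ v, Rich G h D {v} → v ∈ R) :
    ∀ i : ℕ, z + i * (h + h) ≤ s0 → ∃ Z : Finset V, R ⊆ Z ∧ AlphaLE G Z (z + i * (h + h)) ∧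
      ∃ C : ℕ → Finset V, (∀ a < i, ConnSet G (C a) ∧ OmLe G (C a) 2 ∧ Rich G h D (C a) ∧
        ¬ Touch G (C a) (D Z)) ∧ ∀ a < i, ∀ b < i, a ≠ b → ¬ Touch G (C a) (C b) := by
  intro i
  induction i with
  | zero =>
    intro _
    refine ⟨R, Finset.Subset.refl _, by simpa using hRz, fun _ => ∅, ?_, ?_⟩
    · intro a ha
      omega
    · intro a ha
      omega
  | succ i ih =>
    intro hi
    have hi' : z + i * (h + h) + (h + h) ≤ s0 := by
      rw [Nat.succ_mul] at hi
      omega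
    obtain ⟨Z, hRZ, hZ, C, hC, hCC⟩ := ih (by omega)
    obtain ⟨Cn, Z', hZZ', hZ', h1, h2, h3, h4, h5⟩ := rich_step hD hZ hi'
      (fun v hv => hRZ (hR v hv))
    have hZs0 : AlphaLE G Z s0 := alphaLE_mono hZ (by omega)
    have hZ's0 : AlphaLE G Z' s0 := alphaLE_mono hZ' hi'
    have hsub := hD.mono hZZ' hZs0 hZ's0
    refine ⟨Z', hRZ.trans hZZ', ?_, fun a => if a = i then Cn else C a, ?_, ?_⟩
    · rw [Nat.succ_mul, ← add_assoc]
      exact hZ'
    · intro a ha
      by_cases hai : a = i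
      · simp only [hai, if_true]
        exact ⟨h1, h2, h3, h5⟩
      · simp only [hai, if_false]
        obtain ⟨g1, g2, g3, g4⟩ := hC a (by omega)
        exact ⟨g1, g2, g3, fun ht => g4 (t_mono ht (Finset.Subset.refl _) hsub)⟩
    · intro a ha b hb hab
      by_cases hai : a = i
      · have hbi : b ≠ i := fun h' => hab (hai.trans h'.symm)
        simp only [hai, hbi, if_true, if_false]
        intro ht
        exact (hC b (by omega)).2.2.2 (t_mono (t_symm ht) (Finset.Subset.refl _) h4)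
      · by_cases hbi : b = i
        · simp only [hai, hbi, if_true, if_false]
          intro ht
          exact (hC a (by omega)).2.2.2 (t_mono ht (Finset.Subset.refl _) h4)
        · simp only [hai, hbi, if_false]
          exact hCC a (by omega) b (by omega) hab

/-- many pairwise non-touching rich sets -/
theorem exists_rich_family {V : Type} [Fintype V] {G : SimpleGraph V} {s0 h z n : ℕ}
    {D : Finset V → Finset V} (hD : Hav G s0 D) (hn : n ≤ z + 1) (hs0 : z + n * (h + h) ≤ s0) :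
    ∃ C : Fin n → Finset V, (∀ a, ConnSet G (C a) ∧ OmLe G (C a) 2 ∧ Rich G h D (C a)) ∧
      ∀ a b, a ≠ b → ¬ Touch G (C a) (C b) := by
  set R : Finset V := univ.filter (fun v => Rich G h D {v}) with hRdef
  by_cases hR : AlphaLE G R z
  · obtain ⟨Z, -, -, C, hC, hCC⟩ := rich_seq hD hR (fun v hv => by simpa [hRdef] using hv) n hs0
    refine ⟨fun a => C a.val, fun a => ?_, fun a b hab => ?_⟩
    · obtain ⟨h1, h2, h3, -⟩ := hC a.val a.isLt
      exact ⟨h1, h2, h3⟩
    · exact hCC a.val a.isLt b.val b.isLt (fun h => hab (Fin.ext h))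
  · unfold AlphaLE at hR
    push Not at hR
    obtain ⟨I, hI, hind, hcard⟩ := hR
    obtain ⟨I', hI'I, hI'c⟩ := Finset.exists_subset_card_eq (s := I) (n := n) (by omega)
    let e : Fin n ≃ I' := (Finset.equivFinOfCardEq hI'c).symm
    refine ⟨fun a => {(e a).val}, fun a => ⟨?_, ?_, ?_⟩, fun a b hab => ?_⟩
    · intro x hx y hy
      rw [Finset.mem_singleton] at hx hy
      rw [hx, hy]
      exact ConnIn.refl (by simp)
    · intro C hC _
      have := Finset.card_le_card hC
      rw [Finset.card_singleton] at this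
      omega
    · have := hI (hI'I (e a).2)
      simpa [hRdef] using this
    · rintro ⟨u, hu, v, hv, huv⟩
      rw [Finset.mem_singleton] at hu hv
      have hne : (e a).val ≠ (e b).val := by
        intro h'
        exact hab (e.injective (Subtype.ext h'))
      rcases huv with huv | huv
      · rw [hu, hv] at huv
        exact hind (hI'I (e a).2) (hI'I (e b).2) hne huv
      · rw [hu, hv] at huv
        exact hne huv

end Pool.Agent.Work.MP_44e7ab_co.Asm
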