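import Mathlib
import Pool.Agent.Work.MP_44e7ab_co.Q1.Defs

set_option autoImplicit false

/-! Definitions for part A (tiled route systems): hubs, contacts, good pairs. -/

namespace Pool.Agent.Work.MP_44e7ab_co

open Finset Classical

/-- the vertices of `S` covering the cell `[e, e+1]` -/
noncomputable def hub {V : Type} (l r : V → ℕ) (e : ℕ) (S : Finset V) : Finset V :=
  S.filter (fun v => l v ≤ e ∧ e < r v)

/-- the vertices of `S` meeting the window `[lo, hi]` -/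
noncomputable def mwin {V : Type} (l r : V → ℕ) (lo hi : ℕ) (S : Finset V) : Finset V :=
  S.filter (fun v => l v ≤ hi ∧ lo ≤ r v)

/-- contact of `b`, `b'` (parts inside `[u0,u1]`) at a point of `[lo,hi]` -/
def cont {V : Type} (G : SimpleGraph V) (l r : V → ℕ) (u0 u1 lo hi : ℕ) (b b' : Finset V) : Prop :=
  ∃ e, lo ≤ e ∧ e ≤ hi ∧ ∃ x ∈ nwin l r u0 u1 b, ∃ y ∈ nwin l r u0 u1 b',
    (G.Adj x y ∨ x = y) ∧ l x ≤ e ∧ e ≤ r x ∧ l y ≤ e ∧ e ≤ r y

/-- end cells of a window -/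
def ends (lo hi : ℕ) : Finset ℕ := {lo - 1, hi}

/-- rank structure with spine `c` inside the window `[lo,hi]` -/
def RStr {V : Type} (G : SimpleGraph V) (l r : V → ℕ) (j lo hi : ℕ) (c H : Finset V) : Prop :=
  (∀ v ∈ H, lo ≤ l v ∧ r v ≤ hi) ∧ ConnSet G H ∧ ¬ PWLe G H j ∧ OmLe G (c ∪ H) 5 ∧ ∃ z ∈ H, z ∈ c

/-- good pair `(s, c)` for the window `[lo,hi]` (`U = [u0,u1]`, cut cells `Q`, threshold `c3`) -/
def Good {V : Type} (G : SimpleGraph V) (l r : V → ℕ) {Ω : Type} [Fintype Ω] (b : Ω → Finset V)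
    (w : Ω → ℝ) (j u0 u1 : ℕ) (Q : Finset ℕ) (c3 : ℝ) (lo hi : ℕ) (s c : Ω) : Prop :=
  cont G l r u0 u1 lo hi (b s) (b c) ∧ ∃ H : Finset V, RStr G l r j lo hi (b c) H ∧
    ¬ Touch G (b s) H ∧ ∀ q ∈ Q, ms w (fun ω => Touch G (hub l r q (b ω)) H) ≤ c3

/-- hubs of independent routes rarely touch -/
def HubSmall {V : Type} (G : SimpleGraph V) (l r : V → ℕ) {Ω : Type} [Fintype Ω]
    (b : Ω → Finset V) (w : Ω → ℝ) (ε : ℝ) : Prop :=
  ∀ e e' : ℕ, pr w w (fun x y => Touch G (hub l r e (b x)) (hub l r e' (b y))) ≤ ε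

/-- probability of a contact in the window `[lo,hi]` -/
noncomputable def TT {V : Type} (G : SimpleGraph V) (l r : V → ℕ) {Ω : Type} [Fintype Ω]
    (b : Ω → Finset V) (w : Ω → ℝ) (u0 u1 lo hi : ℕ) : ℝ :=
  pr w w (fun x y => cont G l r u0 u1 lo hi (b x) (b y))

/-- conditional law -/
noncomputable def cnd {Ω : Type} [Fintype Ω] (w : Ω → ℝ) (X : Ω → Prop) (ω : Ω) : ℝ :=
  if X ω then w ω / ms w X else 0

/-- the statement C(j,t) -/
def RankAt (P j : ℕ) (t : ℝ) : Prop :=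
  ∃ η : ℝ, 0 < η ∧ ∀ (V : Type) [Fintype V] (G : SimpleGraph V), PWB G P →
    ∀ (l r : V → ℕ) (D : ℕ) (Ω : Type) [Fintype Ω] (b : Ω → Finset V), Tiled G l r D b →
    ∀ w : Ω → ℝ, IsLaw w → Spread G P w b η → ∀ lo hi : ℕ,
    t ≤ pr w w (fun x y => Touch G (nwin l r lo hi (b x)) (nwin l r lo hi (b y))) →
    ∃ c, 0 < w c ∧ ∃ H : Finset V, RStr G l r j lo hi (b c) H

end Pool.Agent.Work.MP_44e7ab_co
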