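import Mathlib
import Pool.Agent.Work.MP_44e7ab_co.Q1.TiledDefs

set_option autoImplicit false

/-! Elementary facts about `ms`, `pr`, `cnd`. -/

namespace Pool.Agent.Work.MP_44e7ab_co

open Finset Classical

section
variable {Ω Ω' : Type} [Fintype Ω] [Fintype Ω'] {p : Ω → ℝ} {q : Ω' → ℝ}

theorem ms_nonneg (hp : ∀ x, 0 ≤ p x) (Q : Ω → Prop) : 0 ≤ ms p Q := by
  unfold ms
  apply Finset.sum_nonneg
  intro x _
  apply mul_nonneg (hp x)
  split_ifs <;> norm_num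

theorem ms_mono (hp : ∀ x, 0 ≤ p x) {Q R : Ω → Prop} (h : ∀ x, Q x → R x) : ms p Q ≤ ms p R := by
  unfold ms
  apply Finset.sum_le_sum
  intro x _
  apply mul_le_mul_of_nonneg_left _ (hp x)
  by_cases hQ : Q x
  · rw [if_pos hQ, if_pos (h x hQ)]
  · rw [if_neg hQ]
    split_ifs <;> norm_num

theorem ms_true (p : Ω → ℝ) : ms p (fun _ => True) = ∑ x, p x := by
  unfold ms
  simp

theorem ms_le_one (hp : IsLaw p) (Q : Ω → Prop) : ms p Q ≤ 1 := by
  calc ms p Q ≤ ms p (fun _ => True) := ms_mono hp.1 (fun _ _ => trivial)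
    _ = 1 := by rw [ms_true]; exact hp.2

theorem ms_false (p : Ω → ℝ) : ms p (fun _ => False) = 0 := by
  unfold ms
  simp

theorem ms_or_le (hp : ∀ x, 0 ≤ p x) (Q R : Ω → Prop) :
    ms p (fun x => Q x ∨ R x) ≤ ms p Q + ms p R := by
  unfold ms
  rw [← Finset.sum_add_distrib]
  apply Finset.sum_le_sum
  intro x _
  rw [← mul_add]
  apply mul_le_mul_of_nonneg_left _ (hp x)
  by_cases hQ : Q x <;> by_cases hR : R x <;> simp [hQ, hR]

theorem ms_exists_le {ι : Type} (hp : ∀ x, 0 ≤ p x) (s : Finset ι) (Q : ι → Ω → Prop) :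
    ms p (fun x => ∃ i ∈ s, Q i x) ≤ ∑ i ∈ s, ms p (Q i) := by
  induction s using Finset.induction_on with
  | empty => simp [ms]
  | insert a s ha ih =>
    rw [Finset.sum_insert ha]
    calc ms p (fun x => ∃ i ∈ insert a s, Q i x)
        ≤ ms p (fun x => Q a x ∨ ∃ i ∈ s, Q i x) := by
          apply ms_mono hp
          intro x hx
          obtain ⟨i, hi, hQ⟩ := hx
          rcases Finset.mem_insert.mp hi with rfl | hi
          · exact Or.inl hQ
          · exact Or.inr ⟨i, hi, hQ⟩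
      _ ≤ ms p (Q a) + ms p (fun x => ∃ i ∈ s, Q i x) := ms_or_le hp _ _
      _ ≤ _ := by linarith

theorem ms_and_not (p : Ω → ℝ) (Q R : Ω → Prop) :
    ms p Q = ms p (fun x => Q x ∧ R x) + ms p (fun x => Q x ∧ ¬ R x) := by
  unfold ms
  rw [← Finset.sum_add_distrib]
  apply Finset.sum_congr rfl
  intro x _
  by_cases hQ : Q x <;> by_cases hR : R x <;> simp [hQ, hR]

theorem ms_compl (p : Ω → ℝ) (Q : Ω → Prop) :
    ms p Q + ms p (fun x => ¬ Q x) = ∑ x, p x := by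
  unfold ms
  rw [← Finset.sum_add_distrib]
  apply Finset.sum_congr rfl
  intro x _
  by_cases hQ : Q x <;> simp [hQ]

theorem exists_of_ms_pos (Q : Ω → Prop) (h : 0 < ms p Q) : ∃ x, 0 < p x ∧ Q x := by
  by_contra hcon
  push Not at hcon
  have : ms p Q ≤ 0 := by
    unfold ms
    apply Finset.sum_nonpos
    intro x _
    by_cases hx : 0 < p x
    · rw [if_neg (hcon x hx)]; simp
    · push Not at hx
      split_ifs
      · linarith
      · simp
  linarith

theorem pr_eq_ms (p : Ω → ℝ) (q : Ω' → ℝ) (Q : Ω → Ω' → Prop) :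
    pr p q Q = ∑ x, p x * ms q (Q x) := by
  unfold pr ms
  apply Finset.sum_congr rfl
  intro x _
  rw [Finset.mul_sum]
  apply Finset.sum_congr rfl
  intro y _
  ring

theorem pr_comm (p : Ω → ℝ) (q : Ω' → ℝ) (Q : Ω → Ω' → Prop) :
    pr p q Q = pr q p (fun y x => Q x y) := by
  unfold pr
  rw [Finset.sum_comm]
  apply Finset.sum_congr rfl
  intro x _
  apply Finset.sum_congr rfl
  intro y _
  ring

theorem pr_nonneg (hp : ∀ x, 0 ≤ p x) (hq : ∀ x, 0 ≤ q x) (Q : Ω → Ω' → Prop) :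
    0 ≤ pr p q Q := by
  rw [pr_eq_ms]
  exact Finset.sum_nonneg fun x _ => mul_nonneg (hp x) (ms_nonneg hq _)

theorem pr_mono (hp : ∀ x, 0 ≤ p x) (hq : ∀ x, 0 ≤ q x) {Q R : Ω → Ω' → Prop}
    (h : ∀ x y, Q x y → R x y) : pr p q Q ≤ pr p q R := by
  rw [pr_eq_ms, pr_eq_ms]
  apply Finset.sum_le_sum
  intro x _
  exact mul_le_mul_of_nonneg_left (ms_mono hq (h x)) (hp x)

theorem pr_or_le (hp : ∀ x, 0 ≤ p x) (hq : ∀ x, 0 ≤ q x) (Q R : Ω → Ω' → Prop) :
    pr p q (fun x y => Q x y ∨ R x y) ≤ pr p q Q + pr p q R := by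
  rw [pr_eq_ms, pr_eq_ms, pr_eq_ms, ← Finset.sum_add_distrib]
  apply Finset.sum_le_sum
  intro x _
  rw [← mul_add]
  exact mul_le_mul_of_nonneg_left (ms_or_le hq _ _) (hp x)

theorem pr_exists_le {ι : Type} (hp : ∀ x, 0 ≤ p x) (hq : ∀ x, 0 ≤ q x) (s : Finset ι)
    (Q : ι → Ω → Ω' → Prop) :
    pr p q (fun x y => ∃ i ∈ s, Q i x y) ≤ ∑ i ∈ s, pr p q (Q i) := by
  simp only [pr_eq_ms]
  rw [Finset.sum_comm]
  apply Finset.sum_le_sum
  intro x _
  rw [← Finset.mul_sum]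
  exact mul_le_mul_of_nonneg_left (ms_exists_le hq _ _) (hp x)

theorem pr_le_one (hp : IsLaw p) (hq : IsLaw q) (Q : Ω → Ω' → Prop) : pr p q Q ≤ 1 := by
  rw [pr_eq_ms]
  calc ∑ x, p x * ms q (Q x) ≤ ∑ x, p x * 1 := by
        apply Finset.sum_le_sum
        intro x _
        exact mul_le_mul_of_nonneg_left (ms_le_one hq _) (hp.1 x)
    _ = 1 := by simpa using hp.2

/-- if every `Q x` has mass at most `c`, then `pr ≤ c` -/
theorem pr_le_of_forall (hp : IsLaw p) (Q : Ω → Ω' → Prop) {c : ℝ}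
    (h : ∀ x, ms q (Q x) ≤ c) : pr p q Q ≤ c := by
  rw [pr_eq_ms]
  calc ∑ x, p x * ms q (Q x) ≤ ∑ x, p x * c := by
        apply Finset.sum_le_sum
        intro x _
        exact mul_le_mul_of_nonneg_left (h x) (hp.1 x)
    _ = c := by rw [← Finset.sum_mul, hp.2, one_mul]

/-- if every `Q x` has mass at least `c`, then `pr ≥ c` -/
theorem le_pr_of_forall (hp : IsLaw p) (Q : Ω → Ω' → Prop) {c : ℝ}
    (h : ∀ x, 0 < p x → c ≤ ms q (Q x)) : c ≤ pr p q Q := by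
  rw [pr_eq_ms]
  calc c = ∑ x, p x * c := by rw [← Finset.sum_mul, hp.2, one_mul]
    _ ≤ ∑ x, p x * ms q (Q x) := by
        apply Finset.sum_le_sum
        intro x _
        rcases (hp.1 x).lt_or_eq with h0 | h0
        · exact mul_le_mul_of_nonneg_left (h x h0) (hp.1 x)
        · rw [← h0]; simp

/-! ### conditional laws -/

variable {w : Ω → ℝ} {X : Ω → Prop}

theorem cnd_isLaw (hw : ∀ x, 0 ≤ w x) (hX : 0 < ms w X) : IsLaw (cnd w X) := by
  refine ⟨?_, ?_⟩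
  · intro x
    unfold cnd
    split_ifs
    · exact div_nonneg (hw x) hX.le
    · exact le_rfl
  · have : ∀ x, cnd w X x = (w x * (if X x then 1 else 0)) / ms w X := by
      intro x
      unfold cnd
      split_ifs <;> simp
    simp only [this]
    rw [← Finset.sum_div]
    exact div_self hX.ne'

theorem ms_cnd (w : Ω → ℝ) (X Q : Ω → Prop) :
    ms (cnd w X) Q = ms w (fun x => X x ∧ Q x) / ms w X := by
  unfold ms
  rw [Finset.sum_div]
  apply Finset.sum_congr rfl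
  intro x _
  unfold cnd
  by_cases hX : X x <;> by_cases hQ : Q x <;> simp [hX, hQ, ms]

theorem ms_cnd_le (hw : ∀ x, 0 ≤ w x) (hX : 0 < ms w X) (Q : Ω → Prop) :
    ms (cnd w X) Q ≤ ms w Q / ms w X := by
  rw [ms_cnd]
  apply div_le_div_of_nonneg_right _ hX.le
  exact ms_mono hw (fun x h => h.2)

theorem cnd_pos {x : Ω} (hX : 0 < ms w X) (h : 0 < cnd w X x) : X x ∧ 0 < w x := by
  unfold cnd at h
  split_ifs at h with hx
  · refine ⟨hx, ?_⟩
    by_contra hcon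
    push Not at hcon
    have := div_nonpos_of_nonpos_of_nonneg hcon hX.le
    linarith
  · exact absurd h (lt_irrefl 0)

theorem pr_cnd (w : Ω → ℝ) (X : Ω → Prop) (w' : Ω' → ℝ) (Y : Ω' → Prop) (Q : Ω → Ω' → Prop) :
    pr (cnd w X) (cnd w' Y) Q
      = pr w w' (fun x y => X x ∧ Y y ∧ Q x y) / (ms w X * ms w' Y) := by
  unfold pr
  rw [Finset.sum_div]
  apply Finset.sum_congr rfl
  intro x _
  rw [Finset.sum_div]
  apply Finset.sum_congr rfl
  intro y _
  unfold cnd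
  by_cases hX : X x <;> by_cases hY : Y y <;> by_cases hQ : Q x y <;> simp [hX, hY, hQ]
  rw [div_mul_div_comm]

theorem pr_cnd_le (hw : ∀ x, 0 ≤ w x) {w' : Ω' → ℝ} (hw' : ∀ x, 0 ≤ w' x) {Y : Ω' → Prop}
    (hX : 0 < ms w X) (hY : 0 < ms w' Y) (Q : Ω → Ω' → Prop) :
    pr (cnd w X) (cnd w' Y) Q ≤ pr w w' Q / (ms w X * ms w' Y) := by
  rw [pr_cnd]
  apply div_le_div_of_nonneg_right _ (mul_pos hX hY).le
  exact pr_mono hw hw' (fun x y h => h.2.2)

theorem spread_cnd {V : Type} {G : SimpleGraph V} {P : ℕ} {b : Ω → Finset V} {η ξ : ℝ}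
    (hw : ∀ x, 0 ≤ w x) (hη : 0 ≤ η) (hs : Spread G P w b η) (hξ : 0 < ξ) (hX : ξ ≤ ms w X) :
    Spread G P (cnd w X) b (η / ξ) := by
  intro Y hY
  have hX' : 0 < ms w X := lt_of_lt_of_le hξ hX
  calc ms (cnd w X) (fun ω => ¬ Disjoint (b ω) Y)
      ≤ ms w (fun ω => ¬ Disjoint (b ω) Y) / ms w X := ms_cnd_le hw hX' _
    _ ≤ η / ms w X := div_le_div_of_nonneg_right (hs Y hY) hX'.le
    _ ≤ η / ξ := div_le_div_of_nonneg_left hη hξ hX

end

end Pool.Agent.Work.MP_44e7ab_co
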