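import Mathlib
import Pool.Agent.Work.MP_44e7ab_co.Q1.Prob

set_option autoImplicit false

/-! M7a: basic facts about tiled routes. -/

namespace Pool.Agent.Work.MP_44e7ab_co

open Finset Classical

section
variable {V : Type} {G : SimpleGraph V} {l r : V → ℕ} {D : ℕ} {Ω : Type} {b : Ω → Finset V}

/-- distinct vertices of a route have disjoint open intervals -/
theorem tiled_disj (hT : Tiled G l r D b) {ω : Ω} {x y : V} (hx : x ∈ b ω) (hy : y ∈ b ω)
    (hxy : x ≠ y) : r x ≤ l y ∨ r y ≤ l x := by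
  by_contra hcon
  push Not at hcon
  have h1 := hT.lt x
  have h2 := hT.lt y
  have h3 := hT.le ω x hx
  have h4 := hT.le ω y hy
  obtain ⟨z, _, hz⟩ := hT.cell ω (max (l x) (l y)) (by omega)
  have e1 := hz x ⟨hx, by omega, by omega⟩
  have e2 := hz y ⟨hy, by omega, by omega⟩
  exact hxy (e1.trans e2.symm)

theorem touch_pos (hT : Tiled G l r D b) {x y : V} (h : G.Adj x y ∨ x = y) :
    l x ≤ r y ∧ l y ≤ r x := by
  rcases h with h | h
  · exact ⟨hT.adj _ _ h, hT.adj _ _ h.symm⟩
  · subst h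
    have := hT.lt x
    exact ⟨this.le, this.le⟩

theorem tiled_omLe (hT : Tiled G l r D b) (ω : Ω) : OmLe G (b ω) 2 := by
  intro C hC hcl
  by_contra hcon
  push Not at hcon
  obtain ⟨x, hx, y, hy, z, hz, hxy, hxz, hyz⟩ := Finset.two_lt_card.mp hcon
  have a1 := hcl (by exact_mod_cast hx) (by exact_mod_cast hy) hxy
  have a2 := hcl (by exact_mod_cast hx) (by exact_mod_cast hz) hxz
  have a3 := hcl (by exact_mod_cast hy) (by exact_mod_cast hz) hyz
  have p1 := touch_pos hT (Or.inl a1)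
  have p2 := touch_pos hT (Or.inl a2)
  have p3 := touch_pos hT (Or.inl a3)
  have d1 := tiled_disj hT (hC hx) (hC hy) hxy
  have d2 := tiled_disj hT (hC hx) (hC hz) hxz
  have d3 := tiled_disj hT (hC hy) (hC hz) hyz
  have l1 := hT.lt x
  have l2 := hT.lt y
  have l3 := hT.lt z
  omega

/-- the successor of a vertex in a route -/
theorem tiled_next (hT : Tiled G l r D b) {ω : Ω} {x : V} (hx : x ∈ b ω) (h : r x < D) :
    ∃ z ∈ b ω, l z = r x ∧ G.Adj x z := by
  obtain ⟨z, ⟨hz, h1, h2⟩, _⟩ := hT.cell ω (r x) h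
  have hlx := hT.lt x
  have hxz : x ≠ z := by
    intro he
    subst he
    omega
  have hd := tiled_disj hT hx hz hxz
  have he : l z = r x := by omega
  exact ⟨z, hz, he, hT.next ω x hx z hz he.symm⟩

/-- order-convex parts of routes are connected -/
theorem tiled_conn (hT : Tiled G l r D b) (ω : Ω) {S : Finset V} (hS : S ⊆ b ω)
    (hconv : ∀ x ∈ S, ∀ y ∈ S, ∀ z ∈ b ω, l x ≤ l z → l z ≤ l y → z ∈ S) : ConnSet G S := by
  have key : ∀ n : ℕ, ∀ x ∈ S, ∀ y ∈ S, l x ≤ l y → l y - l x ≤ n →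
      ConnIn G (S : Set V) x y := by
    intro n
    induction n with
    | zero =>
      intro x hx y hy h1 h2
      have hxy : x = y := by
        by_contra hne
        have hd := tiled_disj hT (hS hx) (hS hy) hne
        have l1 := hT.lt x
        have l2 := hT.lt y
        omega
      subst hxy
      exact ConnIn.refl (by exact_mod_cast hx)
    | succ n ih =>
      intro x hx y hy h1 h2
      by_cases hxy : x = y
      · subst hxy
        exact ConnIn.refl (by exact_mod_cast hx)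
      · have hd := tiled_disj hT (hS hx) (hS hy) hxy
        have l1 := hT.lt x
        have l2 := hT.lt y
        have l3 := hT.le ω y (hS hy)
        obtain ⟨z, hz, hlz, hadj⟩ := tiled_next hT (hS hx) (by omega)
        have hzS : z ∈ S := hconv x hx y hy z hz (by omega) (by omega)
        exact (ConnIn.adj hadj (by exact_mod_cast hx) (by exact_mod_cast hzS)).trans
          (ih z hzS y hy (by omega) (by omega))
  intro x hx y hy
  rcases le_total (l x) (l y) with h | h
  · exact key _ x hx y hy h le_rfl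
  · exact (key _ y hy x hx h le_rfl).symm

theorem tiled_conn_nwin (hT : Tiled G l r D b) (ω : Ω) (lo hi : ℕ) :
    ConnSet G (nwin l r lo hi (b ω)) := by
  apply tiled_conn hT ω (Finset.filter_subset _ _)
  intro x hx y hy z hz h1 h2
  simp only [nwin, Finset.mem_filter] at hx hy ⊢
  refine ⟨hz, by omega, ?_⟩
  by_cases hzy : z = y
  · subst hzy; exact hy.2.2
  · have hd := tiled_disj hT hz hy.1 hzy
    have l1 := hT.lt z
    have l2 := hT.lt y
    omega

theorem tiled_conn_mwin (hT : Tiled G l r D b) (ω : Ω) (u0 u1 lo hi : ℕ) :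
    ConnSet G (mwin l r lo hi (nwin l r u0 u1 (b ω))) := by
  apply tiled_conn hT ω ((Finset.filter_subset _ _).trans (Finset.filter_subset _ _))
  intro x hx y hy z hz h1 h2
  simp only [mwin, nwin, Finset.mem_filter] at hx hy ⊢
  have l0 := hT.lt x
  have l1 := hT.lt z
  have l2 := hT.lt y
  refine ⟨⟨hz, by omega, ?_⟩, by omega, ?_⟩
  · by_cases hzy : z = y
    · subst hzy; exact hy.1.2.2
    · have hd := tiled_disj hT hz hy.1.1 hzy
      omega
  · by_cases hzx : x = z
    · subst hzx; exact hx.2.2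
    · have hd := tiled_disj hT hx.1.1 hz hzx
      omega

theorem hub_card_le (hT : Tiled G l r D b) (ω : Ω) (e : ℕ) : (hub l r e (b ω)).card ≤ 1 := by
  rw [Finset.card_le_one]
  intro x hx y hy
  simp only [hub, Finset.mem_filter] at hx hy
  by_contra hne
  have := tiled_disj hT hx.1 hy.1 hne
  omega

theorem hub_subset (e : ℕ) (S : Finset V) : hub l r e S ⊆ S := Finset.filter_subset _ _

theorem connSet_of_card_le_one {S : Finset V} (h : S.card ≤ 1) : ConnSet G S := by
  intro x hx y hy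
  rw [Finset.card_le_one] at h
  rw [h x hx y hy]
  exact ConnIn.refl (by exact_mod_cast hy)

theorem omLe_of_card_le {S : Finset V} {n : ℕ} (h : S.card ≤ n) : OmLe G S n :=
  fun C hC _ => (Finset.card_le_card hC).trans h

theorem OmLe.mono {S T : Finset V} {n : ℕ} (h : OmLe G T n) (hST : S ⊆ T) : OmLe G S n :=
  fun C hC hcl => h C (hC.trans hST) hcl

theorem OmLe.le {S : Finset V} {n m : ℕ} (h : OmLe G S n) (hnm : n ≤ m) : OmLe G S m :=
  fun C hC hcl => (h C hC hcl).trans hnm

theorem Touch.mono {X Y X' Y' : Finset V} (h : Touch G X Y) (hX : X ⊆ X') (hY : Y ⊆ Y') :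
    Touch G X' Y' := by
  obtain ⟨u, hu, v, hv, huv⟩ := h
  exact ⟨u, hX hu, v, hY hv, huv⟩

theorem Touch.symm {X Y : Finset V} (h : Touch G X Y) : Touch G Y X := by
  obtain ⟨u, hu, v, hv, huv⟩ := h
  refine ⟨v, hv, u, hu, ?_⟩
  rcases huv with h | h
  · exact Or.inl h.symm
  · exact Or.inr h.symm

/-- vertex sets inside disjoint windows do not touch -/
theorem not_touch_of_windows (hT : Tiled G l r D b) {X Y : Finset V} {lo hi lo' hi' : ℕ}
    (hX : ∀ v ∈ X, lo ≤ l v ∧ r v ≤ hi) (hY : ∀ v ∈ Y, lo' ≤ l v ∧ r v ≤ hi')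
    (h : hi < lo' ∨ hi' < lo) : ¬ Touch G X Y := by
  rintro ⟨u, hu, v, hv, huv⟩
  have h1 := touch_pos hT huv
  have h2 := hX u hu
  have h3 := hY v hv
  have l1 := hT.lt u
  have l2 := hT.lt v
  omega

/-- a vertex meeting a window is inside it or a hub at one of its ends -/
theorem mem_nwin_or_hub {S : Finset V} {v : V} {lo hi e : ℕ}
    (hv : v ∈ S) (h1 : lo ≤ e) (h2 : e ≤ hi) (h3 : l v ≤ e) (h4 : e ≤ r v) :
    v ∈ nwin l r lo hi S ∨ ∃ q ∈ ends lo hi, v ∈ hub l r q S := by
  by_cases ha : lo ≤ l v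
  · by_cases hb : r v ≤ hi
    · left
      simp only [nwin, Finset.mem_filter]
      exact ⟨hv, ha, hb⟩
    · right
      refine ⟨hi, by simp [ends], ?_⟩
      simp only [hub, Finset.mem_filter]
      exact ⟨hv, by omega, by omega⟩
  · right
    refine ⟨lo - 1, by simp [ends], ?_⟩
    simp only [hub, Finset.mem_filter]
    exact ⟨hv, by omega, by omega⟩

theorem cont_symm {u0 u1 lo hi : ℕ} {X Y : Finset V} (h : cont G l r u0 u1 lo hi X Y) :
    cont G l r u0 u1 lo hi Y X := by
  obtain ⟨e, h1, h2, x, hx, y, hy, hxy, h3, h4, h5, h6⟩ := h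
  refine ⟨e, h1, h2, y, hy, x, hx, ?_, h5, h6, h3, h4⟩
  rcases hxy with h | h
  · exact Or.inl h.symm
  · exact Or.inr h.symm

/-- contact in the window = touching of the parts meeting the window -/
theorem cont_iff_touch_mwin (hT : Tiled G l r D b) (u0 u1 lo hi : ℕ) (hlh : lo ≤ hi) (x y : Ω) :
    cont G l r u0 u1 lo hi (b x) (b y) ↔
      Touch G (mwin l r lo hi (nwin l r u0 u1 (b x)))
        (mwin l r lo hi (nwin l r u0 u1 (b y))) := by
  constructor
  · rintro ⟨e, h1, h2, u, hu, v, hv, huv, h3, h4, h5, h6⟩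
    refine ⟨u, ?_, v, ?_, huv⟩
    · simp only [mwin, Finset.mem_filter]
      exact ⟨hu, by omega, by omega⟩
    · simp only [mwin, Finset.mem_filter]
      exact ⟨hv, by omega, by omega⟩
  · rintro ⟨u, hu, v, hv, huv⟩
    simp only [mwin, Finset.mem_filter] at hu hv
    have h1 := touch_pos hT huv
    have l1 := hT.lt u
    have l2 := hT.lt v
    exact ⟨max lo (max (l u) (l v)), by omega, by omega, u, hu.1, v, hv.1, huv,
      by omega, by omega, by omega, by omega⟩

/-- in a window `[u0,u1]` contact is touching -/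
theorem cont_full (hT : Tiled G l r D b) (u0 u1 : ℕ) (x y : Ω) :
    cont G l r u0 u1 u0 u1 (b x) (b y) ↔
      Touch G (nwin l r u0 u1 (b x)) (nwin l r u0 u1 (b y)) := by
  constructor
  · rintro ⟨e, h1, h2, u, hu, v, hv, huv, h3, h4, h5, h6⟩
    exact ⟨u, hu, v, hv, huv⟩
  · rintro ⟨u, hu, v, hv, huv⟩
    have hu' := hu
    have hv' := hv
    simp only [nwin, Finset.mem_filter] at hu' hv'
    have h1 := touch_pos hT huv
    have l1 := hT.lt u
    have l2 := hT.lt v
    exact ⟨max (l u) (l v), by omega, by omega, u, hu, v, hv, huv,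
      by omega, by omega, by omega, by omega⟩

section prob
variable [Fintype Ω] {w : Ω → ℝ}

theorem TT_sub (hw : ∀ x, 0 ≤ w x) (u0 u1 a m c : ℕ) (h1 : a ≤ m) (h2 : m < c) :
    TT G l r b w u0 u1 a c ≤ TT G l r b w u0 u1 a m + TT G l r b w u0 u1 (m+1) c := by
  unfold TT
  refine le_trans ?_ (pr_or_le hw hw _ _)
  apply pr_mono hw hw
  rintro x y ⟨e, h3, h4, hr⟩
  by_cases he : e ≤ m
  · exact Or.inl ⟨e, h3, he, hr⟩
  · exact Or.inr ⟨e, by omega, h4, hr⟩

theorem TT_mono (hw : ∀ x, 0 ≤ w x) (u0 u1 a c a' c' : ℕ) (h1 : a' ≤ a) (h2 : c ≤ c') :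
    TT G l r b w u0 u1 a c ≤ TT G l r b w u0 u1 a' c' := by
  unfold TT
  apply pr_mono hw hw
  rintro x y ⟨e, h3, h4, hr⟩
  exact ⟨e, by omega, by omega, hr⟩

theorem TT_nonneg (hw : ∀ x, 0 ≤ w x) (u0 u1 a c : ℕ) : 0 ≤ TT G l r b w u0 u1 a c :=
  pr_nonneg hw hw _

theorem mem_hub_of_point {S : Finset V} {v : V} (hlt : l v < r v) {e : ℕ} (hv : v ∈ S)
    (h1 : l v ≤ e) (h2 : e ≤ r v) : ∃ q ∈ ({e - 1, e} : Finset ℕ), v ∈ hub l r q S := by
  by_cases h : l v < e
  · refine ⟨e - 1, by simp, ?_⟩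
    simp only [hub, Finset.mem_filter]
    exact ⟨hv, by omega, by omega⟩
  · refine ⟨e, by simp, ?_⟩
    simp only [hub, Finset.mem_filter]
    exact ⟨hv, by omega, by omega⟩

theorem TT_point (hT : Tiled G l r D b) (hw : ∀ x, 0 ≤ w x) {ε : ℝ}
    (hH : HubSmall G l r b w ε) (u0 u1 e : ℕ) : TT G l r b w u0 u1 e e ≤ 4 * ε := by
  have hε : 0 ≤ ε := le_trans (pr_nonneg hw hw _) (hH 0 0)
  set S : Finset (ℕ × ℕ) := ({e - 1, e} : Finset ℕ) ×ˢ ({e - 1, e} : Finset ℕ) with hS
  calc TT G l r b w u0 u1 e e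
      ≤ pr w w (fun x y => ∃ i ∈ S, Touch G (hub l r i.1 (b x)) (hub l r i.2 (b y))) := by
        unfold TT
        apply pr_mono hw hw
        rintro x y ⟨e', h3, h4, u, hu, v, hv, huv, h5, h6, h7, h8⟩
        have he : e' = e := by omega
        subst he
        obtain ⟨q, hq, hq'⟩ := mem_hub_of_point (hT.lt u) (S := b x)
          ((Finset.filter_subset _ _) hu) h5 h6
        obtain ⟨q2, hq2, hq2'⟩ := mem_hub_of_point (hT.lt v) (S := b y)
          ((Finset.filter_subset _ _) hv) h7 h8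
        exact ⟨(q, q2), by simpa [hS] using ⟨by simpa using hq, by simpa using hq2⟩,
          u, hq', v, hq2', huv⟩
    _ ≤ ∑ i ∈ S, pr w w (fun x y => Touch G (hub l r i.1 (b x)) (hub l r i.2 (b y))) :=
        pr_exists_le hw hw S _
    _ ≤ ∑ _i ∈ S, ε := Finset.sum_le_sum fun i _ => hH i.1 i.2
    _ = S.card * ε := by rw [Finset.sum_const, nsmul_eq_mul]
    _ ≤ 4 * ε := by
        apply mul_le_mul_of_nonneg_right _ hε
        have h1 : S.card ≤ 2 * 2 := by
          rw [hS, Finset.card_product]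
          exact Nat.mul_le_mul Finset.card_le_two Finset.card_le_two
        exact_mod_cast h1

end prob

end

end Pool.Agent.Work.MP_44e7ab_co
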