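import Mathlib
import Pool.Agent.Work.MP_44e7ab_co.Q1.Defs

set_option autoImplicit false
set_option linter.unusedVariables false

/-! Module M1: path decompositions and connected sets. -/

namespace Pool.Agent.Work.MP_44e7ab_co

open Finset Classical

namespace Tools

theorem walk_closed {V : Type} {G : SimpleGraph V} {U : Set V} {x y : V} (p : G.Walk x y)
    (hp : ∀ z ∈ p.support, z ∈ U) {Q : V → Prop} (hx : Q x)
    (hQ : ∀ u v, u ∈ U → v ∈ U → G.Adj u v → Q u → Q v) : Q y := by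
  induction p with
  | nil => exact hx
  | @cons u v w h q ih =>
    apply ih
    · intro z hz
      exact hp z (by rw [SimpleGraph.Walk.support_cons]; exact List.mem_cons_of_mem _ hz)
    · refine hQ u v (hp u (by simp)) (hp v ?_) h hx
      rw [SimpleGraph.Walk.support_cons]
      exact List.mem_cons_of_mem _ q.start_mem_support

/-- if a connected set meets two bags then it meets every bag in between -/
theorem meets_between {V : Type} {G : SimpleGraph V} {ι : Type} [LinearOrder ι]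
    {W : Finset V} (X : ι → Finset V)
    (h3 : ∀ u v, u ∈ W → v ∈ W → G.Adj u v → ∃ i, u ∈ X i ∧ v ∈ X i)
    (h4 : ∀ v, ∀ i j l : ι, i ≤ j → j ≤ l → v ∈ X i → v ∈ X l → v ∈ X j)
    {D : Finset V} (hD : ConnSet G D) (hDW : D ⊆ W) {i j l : ι} (hij : i ≤ j) (hjl : j ≤ l)
    (hi : ∃ x ∈ D, x ∈ X i) (hl : ∃ x ∈ D, x ∈ X l) : ∃ x ∈ D, x ∈ X j := by
  by_contra hcon
  push Not at hcon
  obtain ⟨x, hxD, hxi⟩ := hi
  obtain ⟨y, hyD, hyl⟩ := hl
  obtain ⟨p, hp⟩ := hD x hxD y hyD
  have key : ∀ m, y ∈ X m → m < j := by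
    refine walk_closed (U := (D : Set V)) p hp (Q := fun v => ∀ m, v ∈ X m → m < j) ?_ ?_
    · intro m hm
      by_contra hlt
      exact hcon x hxD (h4 x i j m hij (not_lt.mp hlt) hxi hm)
    · intro u v hu hv huv hQu m hm
      by_contra hlt
      obtain ⟨t, htu, htv⟩ := h3 u v (hDW hu) (hDW hv) huv
      exact hcon v hv (h4 v t j m (hQu t htu).le (not_lt.mp hlt) htv hm)
  exact absurd (key l hyl) (not_lt.mpr hjl)

/-- path decomposition indexed by the natural numbers -/
theorem PWLe.nat {V : Type} {G : SimpleGraph V} {W : Finset V} {P : ℕ} (h : PWLe G W P) :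
    ∃ X : ℕ → Finset V,
      (∀ v ∈ W, ∃ i, v ∈ X i) ∧
      (∀ u v, u ∈ W → v ∈ W → G.Adj u v → ∃ i, u ∈ X i ∧ v ∈ X i) ∧
      (∀ v, ∀ i j l : ℕ, i ≤ j → j ≤ l → v ∈ X i → v ∈ X l → v ∈ X j) ∧
      (∀ i, (X i).card ≤ P) := by
  obtain ⟨n, X, h1, h2, h3, h4, h5⟩ := h
  obtain ⟨Y, hY, hY'⟩ : ∃ Y : ℕ → Finset V, (∀ i (h : i < n), Y i = X ⟨i, h⟩) ∧
      ∀ i, ¬ i < n → Y i = ∅ :=
    ⟨fun i => if hi : i < n then X ⟨i, hi⟩ else ∅, fun i h => dif_pos h, fun i h => dif_neg h⟩
  refine ⟨Y, ?_, ?_, ?_, ?_⟩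
  · intro v hv
    obtain ⟨i, hi⟩ := h2 v hv
    refine ⟨i, ?_⟩
    rw [hY i i.2]
    exact hi
  · intro u v hu hv huv
    obtain ⟨i, hi, hi'⟩ := h3 u v hu hv huv
    refine ⟨i, ?_, ?_⟩
    · rw [hY i i.2]; exact hi
    · rw [hY i i.2]; exact hi'
  · intro v i j l hij hjl hi hl
    by_cases hln : l < n
    · have hjn : j < n := by omega
      have hin : i < n := by omega
      rw [hY i hin] at hi
      rw [hY l hln] at hl
      rw [hY j hjn]
      exact h4 v ⟨i, hin⟩ ⟨j, hjn⟩ ⟨l, hln⟩ hij hjl hi hl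
    · rw [hY' l hln] at hl
      simp at hl
  · intro i
    by_cases hi : i < n
    · rw [hY i hi]; exact h5 _
    · rw [hY' i hi]; simp

/-- the first bag meeting a nonempty set -/
theorem exists_first {V : Type} {W : Finset V} (X : ℕ → Finset V)
    (h2 : ∀ v ∈ W, ∃ i, v ∈ X i) {D : Finset V} (hD : D.Nonempty) (hDW : D ⊆ W) :
    ∃ i, (∃ x ∈ D, x ∈ X i) ∧ ∀ j, (∃ x ∈ D, x ∈ X j) → i ≤ j := by
  obtain ⟨x, hx⟩ := hD
  obtain ⟨i, hi⟩ := h2 x (hDW hx)
  have hex : ∃ i, ∃ x ∈ D, x ∈ X i := ⟨i, x, hx, hi⟩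
  exact ⟨Nat.find hex, Nat.find_spec hex, fun j hj => Nat.find_min' hex hj⟩

theorem touch_symm {V : Type} {G : SimpleGraph V} {A B : Finset V} (h : Touch G A B) :
    Touch G B A := by
  obtain ⟨u, hu, v, hv, h⟩ := h
  refine ⟨v, hv, u, hu, ?_⟩
  rcases h with h | h
  · exact Or.inl h.symm
  · exact Or.inr h.symm

theorem touch_bag {V : Type} {G : SimpleGraph V} {W : Finset V} (X : ℕ → Finset V)
    (h2 : ∀ v ∈ W, ∃ i, v ∈ X i)
    (h3 : ∀ u v, u ∈ W → v ∈ W → G.Adj u v → ∃ i, u ∈ X i ∧ v ∈ X i)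
    {A B : Finset V} (hA : A ⊆ W) (hB : B ⊆ W) (h : Touch G A B) :
    ∃ i, (∃ x ∈ A, x ∈ X i) ∧ (∃ x ∈ B, x ∈ X i) := by
  obtain ⟨u, hu, v, hv, h⟩ := h
  rcases h with h | h
  · obtain ⟨i, hi, hi'⟩ := h3 u v (hA hu) (hB hv) h
    exact ⟨i, ⟨u, hu, hi⟩, ⟨v, hv, hi'⟩⟩
  · subst h
    obtain ⟨i, hi⟩ := h2 u (hA hu)
    exact ⟨i, ⟨u, hu, hi⟩, ⟨u, hv, hi⟩⟩

theorem touch_ne_left {V : Type} {G : SimpleGraph V} {A B : Finset V} (h : Touch G A B) :
    A.Nonempty := by
  obtain ⟨u, hu, _⟩ := h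
  exact ⟨u, hu⟩

theorem touch_ne_right {V : Type} {G : SimpleGraph V} {A B : Finset V}
    (h : Touch G A B) : B.Nonempty := by
  obtain ⟨_, _, v, hv, _⟩ := h
  exact ⟨v, hv⟩

/-- one-sided count: for each `k` choose a bag `b k`; the pairs `(i, k)` such that `F i` meets
the bag `b k` are at most `P` for each `k`. -/
theorem count_side {V : Type} {G : SimpleGraph V} {P : ℕ} {ι κ : Type} [Fintype ι] [Fintype κ]
    (F : ι → Finset V) (hFF : ∀ i j, i ≠ j → ¬ Touch G (F i) (F j))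
    (Y : κ → Finset V) (hY : ∀ k, (Y k).card ≤ P) :
    ((univ : Finset (ι × κ)).filter (fun p => ∃ x ∈ F p.1, x ∈ Y p.2)).card
      ≤ P * Fintype.card κ := by
  have h1 : ∀ k, ((univ : Finset ι).filter (fun i => ∃ x ∈ F i, x ∈ Y k)).card ≤ P := by
    intro k
    refine le_trans ?_ (hY k)
    rcases isEmpty_or_nonempty V with hV | hV
    · rw [Finset.filter_eq_empty_iff.mpr]
      · simp
      · rintro i - ⟨x, -⟩
        exact hV.false x
    choose! g hg hg' using fun (i : ι) (h : ∃ x ∈ F i, x ∈ Y k) => h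
    refine Finset.card_le_card_of_injOn g ?_ ?_
    · intro i hi
      rw [Finset.coe_filter] at hi
      exact hg' i hi.2
    · intro i hi j hj hij
      by_contra hne
      rw [Finset.coe_filter] at hi hj
      exact hFF i j hne ⟨g i, hg i hi.2, g j, hg j hj.2, Or.inr hij⟩
  have h2 : (univ : Finset (ι × κ)).filter (fun p => ∃ x ∈ F p.1, x ∈ Y p.2) =
      (univ : Finset κ).biUnion (fun k =>
        ((univ : Finset ι).filter (fun i => ∃ x ∈ F i, x ∈ Y k)).image (fun i => (i, k))) := by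
    ext ⟨i, k⟩
    simp
  rw [h2]
  refine Finset.card_biUnion_le.trans ?_
  refine (Finset.sum_le_card_nsmul _ _ P ?_).trans ?_
  · intro k _
    exact Finset.card_image_le.trans (h1 k)
  · simp [mul_comm]

end Tools

open Tools

theorem touch_bound {V : Type} {G : SimpleGraph V} {P : ℕ} {W : Finset V} (hW : PWLe G W P)
    {ι κ : Type} [Fintype ι] [Fintype κ] (F : ι → Finset V) (E : κ → Finset V)
    (hF : ∀ i, ConnSet G (F i)) (hE : ∀ k, ConnSet G (E k))
    (hFW : ∀ i, F i ⊆ W) (hEW : ∀ k, E k ⊆ W)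
    (hFF : ∀ i j, i ≠ j → ¬ Touch G (F i) (F j))
    (hEE : ∀ i j, i ≠ j → ¬ Touch G (E i) (E j)) :
    ((univ : Finset (ι × κ)).filter (fun p => Touch G (F p.1) (E p.2))).card
      ≤ P * (Fintype.card ι + Fintype.card κ) := by
  obtain ⟨X, h2, h3, h4, h5⟩ := Tools.PWLe.nat hW
  choose! mF hmF hmF' using fun (i : ι) (h : (F i).Nonempty) => exists_first X h2 h (hFW i)
  choose! mE hmE hmE' using fun (k : κ) (h : (E k).Nonempty) => exists_first X h2 h (hEW k)
  have hsub : (univ : Finset (ι × κ)).filter (fun p => Touch G (F p.1) (E p.2)) ⊆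
      ((univ : Finset (ι × κ)).filter (fun p => ∃ x ∈ F p.1, x ∈ X (mE p.2))) ∪
      ((univ : Finset (ι × κ)).filter (fun p => ∃ x ∈ E p.2, x ∈ X (mF p.1))) := by
    rintro ⟨i, k⟩ hik
    rw [Finset.mem_filter] at hik
    have ht : Touch G (F i) (E k) := hik.2
    obtain ⟨j, hj1, hj2⟩ := touch_bag X h2 h3 (hFW i) (hEW k) ht
    rw [Finset.mem_union, Finset.mem_filter, Finset.mem_filter]
    rcases le_total (mF i) (mE k) with h | h
    · left
      refine ⟨Finset.mem_univ _, ?_⟩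
      exact meets_between X h3 h4 (hF i) (hFW i) h (hmE' k (touch_ne_right ht) j hj2)
        (hmF i (touch_ne_left ht)) hj1
    · right
      refine ⟨Finset.mem_univ _, ?_⟩
      exact meets_between X h3 h4 (hE k) (hEW k) h (hmF' i (touch_ne_left ht) j hj1)
        (hmE k (touch_ne_right ht)) hj2
  refine (Finset.card_le_card hsub).trans ((Finset.card_union_le _ _).trans ?_)
  have e1 := count_side F hFF (fun k => X (mE k)) (fun k => h5 (mE k))
  have e2 := count_side E hEE (fun i => X (mF i)) (fun i => h5 (mF i))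
  have e3 : ((univ : Finset (ι × κ)).filter (fun p => ∃ x ∈ E p.2, x ∈ X (mF p.1))).card ≤
      ((univ : Finset (κ × ι)).filter (fun p => ∃ x ∈ E p.1, x ∈ X (mF p.2))).card := by
    refine Finset.card_le_card_of_injOn Prod.swap ?_ (Prod.swap_injective.injOn)
    rintro ⟨i, k⟩ h
    rw [Finset.coe_filter] at h ⊢
    exact ⟨Finset.mem_univ _, h.2⟩
  have e4 := e3.trans e2
  rw [Nat.mul_add]
  omega

theorem bramble_bound {V : Type} {G : SimpleGraph V} {P : ℕ} {W : Finset V} (hW : PWLe G W P)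
    {ι : Type} [Fintype ι] (B : ι → Finset V) (hB : ∀ i, ConnSet G (B i))
    (hBW : ∀ i, B i ⊆ W) (hBB : ∀ i j, Touch G (B i) (B j)) (m : ℕ)
    (hm : ∀ v, ((univ : Finset ι).filter (fun i => v ∈ B i)).card ≤ m) :
    Fintype.card ι ≤ m * P := by
  obtain ⟨X, h2, h3, h4, h5⟩ := Tools.PWLe.nat hW
  choose f hf hf' using fun (i : ι) =>
    exists_first X h2 (touch_ne_left (hBB i i)) (hBW i)
  rcases isEmpty_or_nonempty ι with hι | hι
  · simp
  obtain ⟨i0, -, hi0⟩ := Finset.exists_max_image (univ : Finset ι) f Finset.univ_nonempty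
  have hall : ∀ i, ∃ x ∈ B i, x ∈ X (f i0) := by
    intro i
    obtain ⟨j, hj1, hj2⟩ := touch_bag X h2 h3 (hBW i) (hBW i0) (hBB i i0)
    exact meets_between X h3 h4 (hB i) (hBW i) (hi0 i (Finset.mem_univ _)) (hf' i0 j hj2)
      (hf i) hj1
  have hsub : (univ : Finset ι) ⊆
      (X (f i0)).biUnion (fun v => (univ : Finset ι).filter (fun i => v ∈ B i)) := by
    intro i _
    obtain ⟨x, hx, hx'⟩ := hall i
    rw [Finset.mem_biUnion]
    exact ⟨x, hx', Finset.mem_filter.mpr ⟨Finset.mem_univ _, hx⟩⟩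
  calc Fintype.card ι = (univ : Finset ι).card := rfl
    _ ≤ _ := Finset.card_le_card hsub
    _ ≤ ∑ v ∈ X (f i0), ((univ : Finset ι).filter (fun i => v ∈ B i)).card :=
        Finset.card_biUnion_le
    _ ≤ (X (f i0)).card • m := Finset.sum_le_card_nsmul _ _ _ fun v _ => hm v
    _ = (X (f i0)).card * m := by rw [smul_eq_mul]
    _ ≤ P * m := Nat.mul_le_mul_right _ (h5 _)
    _ = m * P := Nat.mul_comm _ _

theorem noKnn_of_pwb {V : Type} {G : SimpleGraph V} {P : ℕ} (hG : PWB G P) :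
    NoKnn G (P + 1) := by
  intro A B hA hB hAi hBi hAB
  have hdisj : Disjoint A B := by
    rw [Finset.disjoint_left]
    intro x hxA hxB
    exact G.loopless.irrefl x (hAB x hxA x hxB)
  have hom : OmLe G (A ∪ B) 7 := by
    intro C hC hclique
    have hsplit : C = (C ∩ A) ∪ (C ∩ B) := by
      rw [← Finset.inter_union_distrib_left]
      exact (Finset.inter_eq_left.mpr hC).symm
    have h1 : ∀ D : Finset V, G.IsIndepSet (D : Set V) → (C ∩ D).card ≤ 1 := by
      intro D hD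
      rw [Finset.card_le_one]
      intro a ha b hb
      rw [Finset.mem_inter] at ha hb
      by_contra hne
      exact hD ha.2 hb.2 hne (hclique ha.1 hb.1 hne)
    have h2 := h1 A hAi
    have h3 := h1 B hBi
    have h4 : C.card ≤ (C ∩ A).card + (C ∩ B).card := by
      conv_lhs => rw [hsplit]
      exact Finset.card_union_le _ _
    omega
  have hW := hG _ hom
  let eA := A.equivFinOfCardEq hA
  let eB := B.equivFinOfCardEq hB
  have key := bramble_bound hW (ι := Fin (P + 1))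
    (fun i => {((eA.symm i : A) : V), ((eB.symm i : B) : V)}) ?_ ?_ ?_ 1 ?_
  · simp at key
  · intro i x hx y hy
    have ha := (eA.symm i).2
    have hb := (eB.symm i).2
    have hadj := hAB _ ha _ hb
    have c1 : ConnIn G (({((eA.symm i : A) : V), ((eB.symm i : B) : V)} : Finset V) : Set V)
        (eA.symm i : A) (eB.symm i : B) := ConnIn.adj hadj (by simp) (by simp)
    rw [Finset.mem_insert, Finset.mem_singleton] at hx hy
    rcases hx with rfl | rfl <;> rcases hy with rfl | rfl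
    · exact ConnIn.refl (by simp)
    · exact c1
    · exact c1.symm
    · exact ConnIn.refl (by simp)
  · intro i x hx
    rw [Finset.mem_insert, Finset.mem_singleton] at hx
    rw [Finset.mem_union]
    rcases hx with rfl | rfl
    · exact Or.inl (eA.symm i).2
    · exact Or.inr (eB.symm i).2
  · intro i j
    exact ⟨_, Finset.mem_insert_self _ _, _, Finset.mem_insert_of_mem (Finset.mem_singleton_self _),
      Or.inl (hAB _ (eA.symm i).2 _ (eB.symm j).2)⟩
  · intro v
    rw [Finset.card_le_one]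
    intro i hi j hj
    rw [Finset.mem_filter, Finset.mem_insert, Finset.mem_singleton] at hi hj
    rcases hi.2 with h | h <;> rcases hj.2 with h' | h'
    · rw [h] at h'
      exact eA.symm.injective (Subtype.ext h')
    · exfalso
      exact (Finset.disjoint_left.mp hdisj) (h ▸ (eA.symm i).2) (h' ▸ (eB.symm j).2)
    · exfalso
      exact (Finset.disjoint_left.mp hdisj) (h' ▸ (eA.symm j).2) (h ▸ (eB.symm i).2)
    · rw [h] at h'
      exact eB.symm.injective (Subtype.ext h')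

theorem pw_three {V : Type} {G : SimpleGraph V} {W : Finset V} {j : ℕ}
    (H K : Fin 3 → Finset V) (hHW : ∀ l, H l ⊆ W) (hKW : ∀ l, K l ⊆ W)
    (hK : ∀ l, ConnSet G (K l)) (hj : ∀ l, ¬ PWLe G (H l) j)
    (hHH : ∀ l l', l ≠ l' → Disjoint (H l) (H l')) (hKH : ∀ l, Disjoint (K l) (H l))
    (hHK : ∀ l l', l ≠ l' → H l' ⊆ K l) : ¬ PWLe G W (j + 1) := by
  rintro ⟨n, X, h1, h2, h3, h4, h5⟩
  have hbag : ∀ l, ∃ i, X i ⊆ H l ∧ (X i).Nonempty := by
    intro l
    by_contra hcon
    push Not at hcon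
    refine hj l ⟨n, fun i => X i ∩ H l, fun i => Finset.inter_subset_right, ?_, ?_, ?_, ?_⟩
    · intro v hv
      obtain ⟨i, hi⟩ := h2 v (hHW l hv)
      exact ⟨i, Finset.mem_inter.mpr ⟨hi, hv⟩⟩
    · intro u v hu hv huv
      obtain ⟨i, hi, hi'⟩ := h3 u v (hHW l hu) (hHW l hv) huv
      exact ⟨i, Finset.mem_inter.mpr ⟨hi, hu⟩, Finset.mem_inter.mpr ⟨hi', hv⟩⟩
    · intro v a b c hab hbc ha hc
      rw [Finset.mem_inter] at ha hc ⊢
      exact ⟨h4 v a b c hab hbc ha.1 hc.1, ha.2⟩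
    · intro i
      by_contra hgt
      push Not at hgt
      have h6 : (X i ∩ H l) = X i := by
        apply Finset.eq_of_subset_of_card_le Finset.inter_subset_left
        have := h5 i
        omega
      have h7 : X i ⊆ H l := by rw [← h6]; exact Finset.inter_subset_right
      have h8 := hcon i h7
      rw [h6, h8] at hgt
      simp at hgt
  choose t ht ht' using hbag
  have key : ∀ a b c : Fin 3, a ≠ b → c ≠ b → t a ≤ t b → t b ≤ t c → False := by
    intro a b c hab hcb h6 h7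
    obtain ⟨x, hx⟩ := ht' a
    obtain ⟨y, hy⟩ := ht' c
    obtain ⟨z, hz, hz'⟩ := meets_between X h3 h4 (hK b) (hKW b) h6 h7
      ⟨x, hHK b a hab.symm (ht a hx), hx⟩ ⟨y, hHK b c hcb.symm (ht c hy), hy⟩
    exact (Finset.disjoint_left.mp (hKH b)) hz (ht b hz')
  rcases le_total (t 0) (t 1) with h01 | h01 <;> rcases le_total (t 1) (t 2) with h12 | h12 <;>
    rcases le_total (t 0) (t 2) with h02 | h02
  · exact key 0 1 2 (by decide) (by decide) h01 h12
  · exact key 0 1 2 (by decide) (by decide) h01 h12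
  · exact key 0 2 1 (by decide) (by decide) h02 h12
  · exact key 2 0 1 (by decide) (by decide) h02 h01
  · exact key 1 0 2 (by decide) (by decide) h01 h02
  · exact key 1 2 0 (by decide) (by decide) h12 h02
  · exact key 2 1 0 (by decide) (by decide) h12 h01
  · exact key 2 1 0 (by decide) (by decide) h12 h01

end Pool.Agent.Work.MP_44e7ab_co
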