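import Mathlib
import Pool.Agent.Work.MP_44e7ab_co.Q1.TiledBasics
import Pool.Agent.Work.MP_44e7ab_co.Q1.Tools

set_option autoImplicit false

/-! Part A, steps (d) and (e): choice of three carriers and combination. -/

namespace Pool.Agent.Work.MP_44e7ab_co

open Finset Classical

private theorem cu' {V : Type} {G : SimpleGraph V} {A B : Finset V} (hA : ConnSet G A)
    (hB : ConnSet G B) (h : Touch G A B) : ConnSet G (A ∪ B) := by
  obtain ⟨u, hu, v, hv, huv⟩ := h
  have hAs : (A : Set V) ⊆ ((A ∪ B : Finset V) : Set V) := by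
    intro x hx
    simp only [Finset.coe_union]
    exact Or.inl hx
  have hBs : (B : Set V) ⊆ ((A ∪ B : Finset V) : Set V) := by
    intro x hx
    simp only [Finset.coe_union]
    exact Or.inr hx
  have huv' : ConnIn G ((A ∪ B : Finset V) : Set V) u v := by
    rcases huv with h | h
    · exact ConnIn.adj h (hAs (by exact_mod_cast hu)) (hBs (by exact_mod_cast hv))
    · rw [← h]
      exact ConnIn.refl (hAs (by exact_mod_cast hu))
  have key : ∀ x ∈ A ∪ B, ConnIn G ((A ∪ B : Finset V) : Set V) x u := by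
    intro x hx
    rcases Finset.mem_union.mp hx with h | h
    · exact (hA x h u hu).mono hAs
    · exact ((hB x h v hv).mono hBs).trans huv'.symm
  intro x hx y hy
  exact (key x hx).trans (key y hy).symm

private theorem cbU' {V : Type} {G : SimpleGraph V} {ι : Type} {S : Finset V} (hS : ConnSet G S)
    (B : ι → Finset V) (hB : ∀ i, ConnSet G (B i)) (hT : ∀ i, Touch G S (B i)) (I : Finset ι) :
    ConnSet G (S ∪ I.biUnion B) := by
  induction I using Finset.induction_on with
  | empty => simpa using hS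
  | insert i I _ ih =>
    have h1 : S ∪ (insert i I).biUnion B = (S ∪ I.biUnion B) ∪ B i := by
      ext x
      simp only [Finset.mem_union, Finset.mem_biUnion, Finset.mem_insert]
      constructor
      · rintro (h | ⟨k, (rfl | hk), hx⟩)
        · exact Or.inl (Or.inl h)
        · exact Or.inr hx
        · exact Or.inl (Or.inr ⟨k, hk, hx⟩)
      · rintro ((h | ⟨k, hk, hx⟩) | h)
        · exact Or.inl h
        · exact Or.inr ⟨k, Or.inr hk, hx⟩
        · exact Or.inr ⟨i, Or.inl rfl, h⟩
    rw [h1]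
    apply cu' ih (hB i)
    obtain ⟨u, hu, v, hv, huv⟩ := hT i
    exact ⟨u, Finset.mem_union_left _ hu, v, hv, huv⟩

/-- tiles of one route: `l v < l y` implies `r v ≤ l y` -/
private theorem tile_order {V : Type} {G : SimpleGraph V} {l r : V → ℕ} {D : ℕ} {Ω : Type}
    {b : Ω → Finset V} (hT : Tiled G l r D b) {ω : Ω} {v y : V} (hv : v ∈ b ω) (hy : y ∈ b ω)
    (h : l v ≤ l y) (hne : v ≠ y) : r v ≤ l y := by
  by_contra hcon
  push Not at hcon
  have h1 := hT.lt y
  have h2 := hT.le ω y hy
  obtain ⟨z, _, hz⟩ := hT.cell ω (l y) (by omega)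
  have h3 := hz v ⟨hv, h, hcon⟩
  have h4 := hz y ⟨hy, le_rfl, h1⟩
  exact hne (h3.trans h4.symm)

/-- (e) -/
theorem combine {V : Type} {G : SimpleGraph V} {l r : V → ℕ} {D : ℕ} {Ω : Type}
    {b : Ω → Finset V} (hT : Tiled G l r D b) {j u0 u1 : ℕ} {s : Ω} {c : Fin 3 → Ω}
    {H : Fin 3 → Finset V} {lo hi : Fin 3 → ℕ}
    (hU : ∀ i, u0 ≤ lo i ∧ lo i ≤ hi i ∧ hi i ≤ u1)
    (hdis : ∀ i i', i ≠ i' → hi i < lo i' ∨ hi i' < lo i)
    (hcont : ∀ i, cont G l r u0 u1 (lo i) (hi i) (b s) (b (c i)))
    (hstr : ∀ i, RStr G l r j (lo i) (hi i) (b (c i)) (H i))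
    (hsH : ∀ i, ¬ Touch G (b s) (H i))
    (hhub : ∀ i i', i ≠ i' → ∀ e ∈ ends (lo i) (hi i), ∀ e' ∈ ends (lo i') (hi i'),
      ¬ Touch G (hub l r e (b (c i))) (hub l r e' (b (c i'))))
    (hhubH : ∀ i i', i ≠ i' → ∀ e ∈ ends (lo i) (hi i),
      ¬ Touch G (hub l r e (b (c i))) (H i')) :
    ∃ Hn : Finset V, RStr G l r (j + 1) u0 u1 (b s) Hn := by
  choose e he1 he2 x hx y hy hxy hx1 hx2 hy1 hy2 using hcont
  choose hH1 hH2 hH3 hH4 z hz1 hz2 using hstr
  have hyc : ∀ i, y i ∈ b (c i) := fun i => (Finset.mem_filter.mp (hy i)).1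
  have hyU : ∀ i, u0 ≤ l (y i) ∧ r (y i) ≤ u1 := fun i => (Finset.mem_filter.mp (hy i)).2
  -- the connecting parts
  let Pt : Fin 3 → Finset V := fun i => (b (c i)).filter (fun v =>
    min (l (z i)) (l (y i)) ≤ l v ∧ l v ≤ max (l (z i)) (l (y i)))
  have hPc : ∀ i, Pt i ⊆ b (c i) := fun i => Finset.filter_subset _ _
  have hPconn : ∀ i, ConnSet G (Pt i) := by
    intro i
    apply tiled_conn hT (c i) (hPc i)
    intro p hp q hq v hv h1 h2
    rw [Finset.mem_filter] at hp hq ⊢
    exact ⟨hv, hp.2.1.trans h1, h2.trans hq.2.2⟩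
  have hzP : ∀ i, z i ∈ Pt i := fun i =>
    Finset.mem_filter.mpr ⟨hz2 i, min_le_left _ _, le_max_left _ _⟩
  have hyP : ∀ i, y i ∈ Pt i := fun i =>
    Finset.mem_filter.mpr ⟨hyc i, min_le_right _ _, le_max_right _ _⟩
  have hPin : ∀ i, ∀ v ∈ Pt i, v ≠ y i → lo i ≤ l v ∧ r v ≤ hi i := by
    intro i v hv hne
    rw [Finset.mem_filter] at hv
    obtain ⟨hvc, h1, h2⟩ := hv
    have hzi := hH1 i (z i) (hz1 i)
    have a1 := he1 i
    have a2 := he2 i
    have a3 := hy1 i
    have a4 := hy2 i
    rcases le_total (l (z i)) (l (y i)) with h | h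
    · rw [min_eq_left h] at h1
      rw [max_eq_right h] at h2
      have := tile_order hT hvc (hyc i) h2 hne
      omega
    · rw [min_eq_right h] at h1
      rw [max_eq_left h] at h2
      have h3 := tile_order hT (hyc i) hvc h1 (Ne.symm hne)
      by_cases hvz : v = z i
      · rw [hvz]
        exact hzi
      · have h4 := tile_order hT hvc (hz2 i) h2 hvz
        have h5 := hT.lt (z i)
        omega
  have hyin : ∀ i, (lo i ≤ l (y i) ∧ r (y i) ≤ hi i) ∨
      ∃ q ∈ ends (lo i) (hi i), y i ∈ hub l r q (b (c i)) := by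
    intro i
    rcases mem_nwin_or_hub (hyc i) (he1 i) (he2 i) (hy1 i) (hy2 i) with h | h
    · exact Or.inl (Finset.mem_filter.mp h).2
    · exact Or.inr h
  -- elements of `Pt i` are inside the window or hubs at its ends
  have hPin' : ∀ i, ∀ v ∈ Pt i, (lo i ≤ l v ∧ r v ≤ hi i) ∨
      ∃ q ∈ ends (lo i) (hi i), v ∈ hub l r q (b (c i)) := by
    intro i v hv
    by_cases h : v = y i
    · rw [h]
      exact hyin i
    · exact Or.inl (hPin i v hv h)
  have hsep : ∀ i i', i ≠ i' → ∀ u v : V, (lo i ≤ l u ∧ r u ≤ hi i) → (lo i' ≤ l v ∧ r v ≤ hi i') →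
      ¬ (G.Adj u v ∨ u = v) := by
    intro i i' hii u v hu hv huv
    have h1 := hT.lt u
    have h2 := hT.lt v
    have h3 : l u ≤ r v ∧ l v ≤ r u := by
      rcases huv with h | h
      · exact ⟨hT.adj u v h, hT.adj v u h.symm⟩
      · subst h
        omega
    rcases hdis i i' hii with h | h <;> omega
  -- an element of `Pt i` does not touch `H i'`
  have hPH : ∀ i i', i ≠ i' → ∀ u ∈ Pt i, ∀ v ∈ H i', ¬ (G.Adj u v ∨ u = v) := by
    intro i i' hii u hu v hv huv
    rcases hPin' i u hu with h | ⟨q, hq, h⟩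
    · exact hsep i i' hii u v h (hH1 i' v hv) huv
    · exact hhubH i i' hii q hq ⟨u, h, v, hv, huv⟩
  have hsHv : ∀ i, ∀ u ∈ b s, ∀ v ∈ H i, ¬ (G.Adj u v ∨ u = v) := by
    intro i u hu v hv huv
    exact hsH i ⟨u, hu, v, hv, huv⟩
  let B : Fin 3 → Finset V := fun i => H i ∪ Pt i
  let S0 : Finset V := nwin l r u0 u1 (b s)
  have hBconn : ∀ i, ConnSet G (B i) := fun i =>
    cu' (hH2 i) (hPconn i) ⟨z i, hz1 i, z i, hzP i, Or.inr rfl⟩
  have hS0 : ConnSet G S0 := tiled_conn_nwin hT s u0 u1
  have hS0B : ∀ i, Touch G S0 (B i) := fun i =>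
    ⟨x i, hx i, y i, Finset.mem_union_right _ (hyP i), hxy i⟩
  have hHn : ∀ i, B i ⊆ S0 ∪ (univ : Finset (Fin 3)).biUnion B := by
    intro i v hv
    exact Finset.mem_union_right _ (Finset.mem_biUnion.mpr ⟨i, Finset.mem_univ i, hv⟩)
  refine ⟨S0 ∪ (univ : Finset (Fin 3)).biUnion B, ?_, ?_, ?_, ?_, ?_⟩
  · -- inside the window
    intro v hv
    rcases Finset.mem_union.mp hv with h | h
    · exact (Finset.mem_filter.mp h).2
    · obtain ⟨i, _, hi'⟩ := Finset.mem_biUnion.mp h
      have hu := hU i
      rcases Finset.mem_union.mp hi' with h | h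
      · have := hH1 i v h
        omega
      · by_cases hvy : v = y i
        · rw [hvy]
          exact hyU i
        · have := hPin i v h hvy
          omega
  · exact cbU' hS0 B hBconn hS0B univ
  · -- rank
    apply pw_three (H := H) (K := fun t => S0 ∪ ((univ : Finset (Fin 3)).erase t).biUnion B)
    · intro t v hv
      exact hHn t (Finset.mem_union_left _ hv)
    · intro t v hv
      rcases Finset.mem_union.mp hv with h | h
      · exact Finset.mem_union_left _ h
      · obtain ⟨i, _, hi'⟩ := Finset.mem_biUnion.mp h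
        exact hHn i hi'
    · intro t
      exact cbU' hS0 B hBconn hS0B _
    · exact hH3
    · intro t t' htt
      rw [Finset.disjoint_left]
      intro v hv hv'
      exact hsep t t' htt v v (hH1 t v hv) (hH1 t' v hv') (Or.inr rfl)
    · intro t
      rw [Finset.disjoint_left]
      intro v hv hv'
      rcases Finset.mem_union.mp hv with h | h
      · exact hsHv t v (Finset.mem_filter.mp h).1 v hv' (Or.inr rfl)
      · obtain ⟨i, hi1, hi2⟩ := Finset.mem_biUnion.mp h
        have hit : i ≠ t := (Finset.mem_erase.mp hi1).1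
        rcases Finset.mem_union.mp hi2 with h | h
        · exact hsep i t hit v v (hH1 i v h) (hH1 t v hv') (Or.inr rfl)
        · exact hPH i t hit v h v hv' (Or.inr rfl)
    · intro t t' htt v hv
      apply Finset.mem_union_right
      rw [Finset.mem_biUnion]
      exact ⟨t', Finset.mem_erase.mpr ⟨Ne.symm htt, Finset.mem_univ _⟩, Finset.mem_union_left _ hv⟩
  · -- clique number
    intro C hC hcl
    have hcl' : ∀ u ∈ C, ∀ v ∈ C, G.Adj u v ∨ u = v := by
      intro u hu v hv
      by_cases h : u = v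
      · exact Or.inr h
      · exact Or.inl (hcl (by exact_mod_cast hu) (by exact_mod_cast hv) h)
    have hCm : ∀ v ∈ C, v ∈ b s ∨ ∃ i, v ∈ H i ∨ v ∈ Pt i := by
      intro v hv
      rcases Finset.mem_union.mp (hC hv) with h | h
      · exact Or.inl h
      · rcases Finset.mem_union.mp h with h | h
        · exact Or.inl (Finset.mem_filter.mp h).1
        · obtain ⟨i, _, hi'⟩ := Finset.mem_biUnion.mp h
          exact Or.inr ⟨i, Finset.mem_union.mp hi'⟩
    by_cases hA : ∃ i, ∃ v ∈ C, v ∈ H i
    · obtain ⟨i, v, hv, hvH⟩ := hA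
      apply hH4 i C _ hcl
      intro u hu
      rcases hCm u hu with h | ⟨i', h⟩
      · exact absurd (hcl' u hu v hv) (hsHv i u h v hvH)
      · by_cases hii : i' = i
        · subst hii
          rcases h with h | h
          · exact Finset.mem_union_right _ h
          · exact Finset.mem_union_left _ (hPc _ h)
        · exfalso
          rcases h with h | h
          · exact hsep i' i hii u v (hH1 i' u h) (hH1 i v hvH) (hcl' u hu v hv)
          · exact hPH i' i hii u h v hvH (hcl' u hu v hv)
    · push Not at hA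
      have hCm' : ∀ v ∈ C, v ∈ b s ∨ ∃ i, v ∈ Pt i := by
        intro v hv
        rcases hCm v hv with h | ⟨i, h | h⟩
        · exact Or.inl h
        · exact absurd h (hA i v hv)
        · exact Or.inr ⟨i, h⟩
      let C1 := C.filter (fun v => v ∈ b s)
      let C2 := C.filter (fun v => ∃ i, v = y i ∧ ∃ q ∈ ends (lo i) (hi i), v ∈ hub l r q (b (c i)))
      let C3 := C.filter (fun v => ∃ i, v ∈ Pt i ∧ lo i ≤ l v ∧ r v ≤ hi i)
      have hcover : C ⊆ C1 ∪ C2 ∪ C3 := by
        intro v hv
        simp only [C1, C2, C3, Finset.mem_union, Finset.mem_filter]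
        rcases hCm' v hv with h | ⟨i, h⟩
        · exact Or.inl (Or.inl ⟨hv, h⟩)
        · by_cases hvy : v = y i
          · rcases hyin i with h1 | h1
            · right
              rw [← hvy] at h1
              exact ⟨hv, i, h, h1⟩
            · left; right
              rw [← hvy] at h1
              exact ⟨hv, i, hvy, h1⟩
          · right
            exact ⟨hv, i, h, hPin i v h hvy⟩
      have hC1 : C1.card ≤ 2 := by
        apply tiled_omLe hT s
        · intro v hv
          exact (Finset.mem_filter.mp hv).2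
        · exact hcl.subset (Finset.coe_subset.mpr (Finset.filter_subset _ _))
      have hC2 : C2.card ≤ 1 := by
        rw [Finset.card_le_one]
        intro u hu v hv
        rw [Finset.mem_filter] at hu hv
        obtain ⟨huC, i, hui, q, hq, huq⟩ := hu
        obtain ⟨hvC, i', hvi, q', hq', hvq⟩ := hv
        by_cases hii : i = i'
        · subst hii
          rw [hui, hvi]
        · exact absurd ⟨u, huq, v, hvq, hcl' u huC v hvC⟩ (hhub i i' hii q hq q' hq')
      have hC3 : C3.card ≤ 2 := by
        rcases C3.eq_empty_or_nonempty with h0 | ⟨v0, hv0⟩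
        · rw [h0]
          simp
        · have hv0' := (Finset.mem_filter.mp hv0)
          obtain ⟨hv0C, i, hi1, hi2⟩ := hv0'
          apply tiled_omLe hT (c i)
          · intro v hv
            obtain ⟨hvC, i', hi1', hi2'⟩ := Finset.mem_filter.mp hv
            by_cases hii : i = i'
            · subst hii
              exact hPc _ hi1'
            · exact absurd (hcl' v0 hv0C v hvC) (hsep i i' hii v0 v hi2 hi2')
          · exact hcl.subset (Finset.coe_subset.mpr (Finset.filter_subset _ _))
      calc C.card ≤ (C1 ∪ C2 ∪ C3).card := Finset.card_le_card hcover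
        _ ≤ (C1 ∪ C2).card + C3.card := Finset.card_union_le _ _
        _ ≤ C1.card + C2.card + C3.card := by
            have := Finset.card_union_le C1 C2
            omega
        _ ≤ 5 := by omega
  · exact ⟨x 0, Finset.mem_union_left _ (hx 0), (Finset.mem_filter.mp (hx 0)).1⟩

/-- sampling three independent elements -/
private theorem triple_c {Ω : Type} [Fintype Ω] {w : Ω → ℝ} (hw : IsLaw w) (g : Fin 3 → Ω → Prop)
    (B : Fin 3 → Fin 3 → Ω → Ω → Prop) {hs β : ℝ} (hhs : 0 < hs)
    (hg : ∀ i, hs ≤ ms w (g i)) (hB : ∀ i i', i ≠ i' → pr w w (B i i') ≤ β)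
    (hsmall : 3 * β < hs ^ 3) :
    ∃ x : Fin 3 → Ω, (∀ i, g i (x i)) ∧ ∀ i i', i < i' → ¬ B i i' (x i) (x i') := by
  by_contra hcon
  push Not at hcon
  have hpt : ∀ x y z : Ω, (if g 0 x then (1 : ℝ) else 0) * (if g 1 y then 1 else 0) *
      (if g 2 z then 1 else 0) ≤ (if B 0 1 x y then 1 else 0) + (if B 0 2 x z then 1 else 0) +
        (if B 1 2 y z then 1 else 0) := by
    intro x y z
    by_cases h0 : g 0 x
    · by_cases h1 : g 1 y
      · by_cases h2 : g 2 z
        · obtain ⟨i, i', hii, hb⟩ := hcon ![x, y, z] (by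
            intro i
            fin_cases i
            · exact h0
            · exact h1
            · exact h2)
          rw [if_pos h0, if_pos h1, if_pos h2]
          have hnn : ∀ p : Prop, (0 : ℝ) ≤ (if p then 1 else 0) := by
            intro p
            split_ifs <;> norm_num
          have n1 := hnn (B 0 1 x y)
          have n2 := hnn (B 0 2 x z)
          have n3 := hnn (B 1 2 y z)
          have hcase : B 0 1 x y ∨ B 0 2 x z ∨ B 1 2 y z := by
            fin_cases i <;> fin_cases i' <;> simp_all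
          rcases hcase with h | h | h
          · rw [if_pos h] at n1 ⊢
            linarith
          · rw [if_pos h] at n2 ⊢
            linarith
          · rw [if_pos h] at n3 ⊢
            linarith
        · rw [if_neg h2, mul_zero]
          positivity
      · rw [if_neg h1, mul_zero, zero_mul]
        positivity
    · rw [if_neg h0, zero_mul, zero_mul]
      positivity
  have hprod : ms w (g 0) * ms w (g 1) * ms w (g 2) =
      ∑ x, ∑ y, ∑ z, w x * w y * w z * ((if g 0 x then (1 : ℝ) else 0) * (if g 1 y then 1 else 0) *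
      (if g 2 z then 1 else 0)) := by
    unfold ms
    rw [Finset.sum_mul_sum, Finset.sum_mul]
    apply Finset.sum_congr rfl
    intro x _
    rw [Finset.sum_mul]
    apply Finset.sum_congr rfl
    intro y _
    rw [Finset.mul_sum]
    apply Finset.sum_congr rfl
    intro z _
    ring
  have hle : ∑ x, ∑ y, ∑ z, w x * w y * w z * ((if g 0 x then (1 : ℝ) else 0) * (if g 1 y then 1 else 0) *
      (if g 2 z then 1 else 0)) ≤ ∑ x, ∑ y, ∑ z, w x * w y * w z *
        ((if B 0 1 x y then 1 else 0) + (if B 0 2 x z then 1 else 0) +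
        (if B 1 2 y z then 1 else 0)) := by
    apply Finset.sum_le_sum; intro x _
    apply Finset.sum_le_sum; intro y _
    apply Finset.sum_le_sum; intro z _
    exact mul_le_mul_of_nonneg_left (hpt x y z)
      (mul_nonneg (mul_nonneg (hw.1 x) (hw.1 y)) (hw.1 z))
  have hsum : ∑ x, ∑ y, ∑ z, w x * w y * w z *
        ((if B 0 1 x y then (1 : ℝ) else 0) + (if B 0 2 x z then 1 else 0) +
        (if B 1 2 y z then 1 else 0)) =
      pr w w (B 0 1) + pr w w (B 0 2) + pr w w (B 1 2) := by
    have e1 : pr w w (B 0 1) = ∑ x, ∑ y, ∑ z, w x * w y * w z * (if B 0 1 x y then 1 else 0) := by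
      unfold pr
      apply Finset.sum_congr rfl; intro x _
      apply Finset.sum_congr rfl; intro y _
      have : ∀ z, w x * w y * w z * (if B 0 1 x y then (1 : ℝ) else 0) =
        w x * w y * (if B 0 1 x y then 1 else 0) * w z := by intro z; ring
      simp only [this]
      rw [← Finset.mul_sum, hw.2, mul_one]
    have e2 : pr w w (B 0 2) = ∑ x, ∑ y, ∑ z, w x * w y * w z * (if B 0 2 x z then 1 else 0) := by
      unfold pr
      apply Finset.sum_congr rfl; intro x _
      rw [Finset.sum_comm]
      apply Finset.sum_congr rfl; intro z _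
      have : ∀ y, w x * w y * w z * (if B 0 2 x z then (1 : ℝ) else 0) =
        w x * w z * (if B 0 2 x z then 1 else 0) * w y := by intro y; ring
      simp only [this]
      rw [← Finset.mul_sum, hw.2, mul_one]
    have e3 : pr w w (B 1 2) = ∑ x, ∑ y, ∑ z, w x * w y * w z * (if B 1 2 y z then 1 else 0) := by
      have : ∀ x, ∑ y, ∑ z, w x * w y * w z * (if B 1 2 y z then (1 : ℝ) else 0) =
        w x * pr w w (B 1 2) := by
        intro x
        unfold pr
        rw [Finset.mul_sum]
        apply Finset.sum_congr rfl; intro y _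
        rw [Finset.mul_sum]
        apply Finset.sum_congr rfl; intro z _
        ring
      simp only [this]
      rw [← Finset.sum_mul, hw.2, one_mul]
    rw [e1, e2, e3]
    simp only [← Finset.sum_add_distrib, mul_add]
  have h1 := hB 0 1 (by decide)
  have h2 := hB 0 2 (by decide)
  have h3 := hB 1 2 (by decide)
  have h4 : hs ^ 3 ≤ ms w (g 0) * ms w (g 1) * ms w (g 2) := by
    have a0 := hg 0
    have a1 := hg 1
    have a2 := hg 2
    calc hs ^ 3 = hs * hs * hs := by ring
      _ ≤ ms w (g 0) * ms w (g 1) * ms w (g 2) := by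
        apply mul_le_mul _ a2 hhs.le _
        · exact mul_le_mul a0 a1 hhs.le (hhs.le.trans a0)
        · exact mul_nonneg (hhs.le.trans a0) (hhs.le.trans a1)
  rw [hprod] at h4
  rw [hsum] at hle
  linarith

private theorem pr_exists_le_c {Ω : Type} [Fintype Ω] {w : Ω → ℝ} (hw : IsLaw w) {ι : Type}
    (I : Finset ι) (B : ι → Ω → Ω → Prop) :
    pr w w (fun x y => ∃ i ∈ I, B i x y) ≤ ∑ i ∈ I, pr w w (B i) := by
  unfold pr
  rw [Finset.sum_comm]
  have e : ∑ i ∈ I, ∑ x, ∑ y, w x * w y * (if B i x y then (1 : ℝ) else 0) =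
      ∑ y, ∑ x, w x * w y * ∑ i ∈ I, (if B i x y then (1 : ℝ) else 0) := by
    rw [Finset.sum_comm]
    rw [Finset.sum_comm (s := (univ : Finset Ω)) (t := (univ : Finset Ω))
      (f := fun y x => w x * w y * ∑ i ∈ I, (if B i x y then (1 : ℝ) else 0))]
    apply Finset.sum_congr rfl; intro x _
    rw [Finset.sum_comm]
    apply Finset.sum_congr rfl; intro y _
    rw [Finset.mul_sum]
  rw [e]
  apply Finset.sum_le_sum; intro y _
  apply Finset.sum_le_sum; intro x _
  apply mul_le_mul_of_nonneg_left _ (mul_nonneg (hw.1 x) (hw.1 y))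
  have hnn : ∀ i ∈ I, (0 : ℝ) ≤ (if B i x y then 1 else 0) := by
    intro i _
    split_ifs <;> norm_num
  split_ifs with h
  · obtain ⟨i, hi, hb⟩ := h
    have := Finset.single_le_sum hnn hi
    rw [if_pos hb] at this
    exact this
  · exact Finset.sum_nonneg hnn

private theorem pr_or_le_c {Ω : Type} [Fintype Ω] {w : Ω → ℝ} (hw : IsLaw w)
    (B B' : Ω → Ω → Prop) :
    pr w w (fun x y => B x y ∨ B' x y) ≤ pr w w B + pr w w B' := by
  unfold pr
  rw [← Finset.sum_add_distrib]
  apply Finset.sum_le_sum; intro x _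
  rw [← Finset.sum_add_distrib]
  apply Finset.sum_le_sum; intro y _
  rw [← mul_add]
  apply mul_le_mul_of_nonneg_left _ (mul_nonneg (hw.1 x) (hw.1 y))
  by_cases h1 : B x y
  · by_cases h2 : B' x y <;> simp [h1, h2]
  · by_cases h2 : B' x y <;> simp [h1, h2]

private theorem pr_swap_c {Ω : Type} [Fintype Ω] {w : Ω → ℝ} (B : Ω → Ω → Prop) :
    pr w w (fun x y => B y x) = pr w w B := by
  unfold pr
  rw [Finset.sum_comm]
  apply Finset.sum_congr rfl; intro x _
  apply Finset.sum_congr rfl; intro y _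
  ring

/-- (d): choice of the three carriers -/
theorem choose_three {V : Type} {G : SimpleGraph V} {l r : V → ℕ} {D : ℕ} {Ω : Type} [Fintype Ω]
    {b : Ω → Finset V} (hT : Tiled G l r D b) {w : Ω → ℝ} (hw : IsLaw w) {ε : ℝ}
    (hH : HubSmall G l r b w ε) {j u0 u1 : ℕ} {Q : Finset ℕ} {c3 hs : ℝ} (hhs : 0 < hs)
    {lo hi : Fin 3 → ℕ} (hU : ∀ i, u0 ≤ lo i ∧ lo i ≤ hi i ∧ hi i ≤ u1)
    (hdis : ∀ i i', i ≠ i' → hi i < lo i' ∨ hi i' < lo i)
    (hQ : ∀ i, ends (lo i) (hi i) ⊆ Q) (s : Ω)
    (hgood : ∀ i, hs ≤ ms w (fun c => Good G l r b w j u0 u1 Q c3 (lo i) (hi i) s c))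
    (hsmall : 12 * ε + 12 * c3 < hs ^ 3) :
    ∃ Hn : Finset V, RStr G l r (j + 1) u0 u1 (b s) Hn := by
  -- the chosen structures
  have hex : ∀ (i : Fin 3) (c : Ω), ∃ H : Finset V,
      Good G l r b w j u0 u1 Q c3 (lo i) (hi i) s c →
      (RStr G l r j (lo i) (hi i) (b c) H ∧ ¬ Touch G (b s) H ∧
        ∀ q ∈ Q, ms w (fun ω => Touch G (hub l r q (b ω)) H) ≤ c3) := by
    intro i c
    by_cases h : Good G l r b w j u0 u1 Q c3 (lo i) (hi i) s c
    · obtain ⟨_, H, hH'⟩ := h
      exact ⟨H, fun _ => hH'⟩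
    · exact ⟨∅, fun h' => absurd h' h⟩
  choose Hf hHf using hex
  have hc3 : 0 ≤ c3 ∨ ∃ i : Fin 3, ∀ c, ¬ Good G l r b w j u0 u1 Q c3 (lo i) (hi i) s c := by
    by_cases h : ∃ c, Good G l r b w j u0 u1 Q c3 (lo 0) (hi 0) s c
    · left
      obtain ⟨c, _, H, _, _, h3⟩ := h
      have h4 := h3 (hi 0) (hQ 0 (by simp [ends]))
      refine le_trans ?_ h4
      unfold ms
      apply Finset.sum_nonneg
      intro x _
      apply mul_nonneg (hw.1 x)
      split_ifs <;> norm_num
    · right
      push Not at h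
      exact ⟨0, h⟩
  have hc3' : 0 ≤ c3 := by
    rcases hc3 with h | ⟨i, h⟩
    · exact h
    · exfalso
      have h1 := hgood i
      have h2 : ms w (fun c => Good G l r b w j u0 u1 Q c3 (lo i) (hi i) s c) = 0 := by
        unfold ms
        apply Finset.sum_eq_zero
        intro x _
        rw [if_neg (h x), mul_zero]
      linarith
  have hε : 0 ≤ ε := by
    refine le_trans ?_ (hH 0 0)
    unfold pr
    apply Finset.sum_nonneg; intro x _
    apply Finset.sum_nonneg; intro y _
    apply mul_nonneg (mul_nonneg (hw.1 x) (hw.1 y))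
    split_ifs <;> norm_num
  have hcard : ∀ a d : ℕ, ((ends a d).card : ℝ) ≤ 2 := by
    intro a d
    have : (ends a d).card ≤ 2 := Finset.card_le_two
    exact_mod_cast this
  let g : Fin 3 → Ω → Prop := fun i c => Good G l r b w j u0 u1 Q c3 (lo i) (hi i) s c
  let B1 : Fin 3 → Fin 3 → Ω → Ω → Prop := fun i i' x y =>
    ∃ e ∈ ends (lo i) (hi i), ∃ e' ∈ ends (lo i') (hi i'),
      Touch G (hub l r e (b x)) (hub l r e' (b y))
  let B2 : Fin 3 → Fin 3 → Ω → Ω → Prop := fun i i' x y =>
    ∃ e ∈ ends (lo i) (hi i), g i' y ∧ Touch G (hub l r e (b x)) (Hf i' y)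
  have hB1 : ∀ i i', pr w w (B1 i i') ≤ 4 * ε := by
    intro i i'
    have h1 : pr w w (B1 i i') ≤ ∑ e ∈ ends (lo i) (hi i), pr w w (fun x y =>
        ∃ e' ∈ ends (lo i') (hi i'), Touch G (hub l r e (b x)) (hub l r e' (b y))) :=
      pr_exists_le_c hw _ _
    have h2 : ∀ e ∈ ends (lo i) (hi i), pr w w (fun x y =>
        ∃ e' ∈ ends (lo i') (hi i'), Touch G (hub l r e (b x)) (hub l r e' (b y))) ≤ 2 * ε := by
      intro e _
      refine (pr_exists_le_c hw _ _).trans ?_
      refine (Finset.sum_le_sum (fun e' _ => hH e e')).trans ?_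
      rw [Finset.sum_const, nsmul_eq_mul]
      exact mul_le_mul_of_nonneg_right (hcard _ _) hε
    refine h1.trans ((Finset.sum_le_sum h2).trans ?_)
    rw [Finset.sum_const, nsmul_eq_mul]
    have := mul_le_mul_of_nonneg_right (hcard (lo i) (hi i)) (by linarith : 0 ≤ 2 * ε)
    linarith
  have hB2 : ∀ i i', pr w w (B2 i i') ≤ 2 * c3 := by
    intro i i'
    refine (pr_exists_le_c hw _ _).trans ?_
    have h2 : ∀ e ∈ ends (lo i) (hi i), pr w w (fun x y =>
        g i' y ∧ Touch G (hub l r e (b x)) (Hf i' y)) ≤ c3 := by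
      intro e he
      have key : ∀ Pp : Ω → Ω → Prop, (∀ x y, Pp x y ↔ (g i' y ∧ Touch G (hub l r e (b x)) (Hf i' y)))
          → pr w w Pp ≤ c3 := by
        intro Pp hPp
        unfold pr
        rw [Finset.sum_comm]
        calc _ ≤ ∑ y, w y * c3 := by
              apply Finset.sum_le_sum
              intro y _
              by_cases hg : g i' y
              · have h3 := ((hHf i' y) hg).2.2 e (hQ i he)
                have h4 : ∑ x, w x * w y * (if Pp x y then (1 : ℝ) else 0)
                    = w y * ms w (fun ω => Touch G (hub l r e (b ω)) (Hf i' y)) := by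
                  unfold ms
                  rw [Finset.mul_sum]
                  apply Finset.sum_congr rfl
                  intro x _
                  have h5 : Pp x y ↔ Touch G (hub l r e (b x)) (Hf i' y) := by
                    rw [hPp]
                    exact ⟨fun h => h.2, fun h => ⟨hg, h⟩⟩
                  simp only [h5]
                  ring
                rw [h4]
                exact mul_le_mul_of_nonneg_left h3 (hw.1 y)
              · have h4 : ∑ x, w x * w y * (if Pp x y then (1 : ℝ) else 0) = 0 := by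
                  apply Finset.sum_eq_zero
                  intro x _
                  rw [if_neg (fun h => hg ((hPp x y).mp h).1), mul_zero]
                rw [h4]
                exact mul_nonneg (hw.1 y) hc3'
          _ = c3 := by rw [← Finset.sum_mul, hw.2, one_mul]
      exact key _ (fun x y => Iff.rfl)
    refine (Finset.sum_le_sum h2).trans ?_
    rw [Finset.sum_const, nsmul_eq_mul]
    exact mul_le_mul_of_nonneg_right (hcard _ _) hc3'
  obtain ⟨c, hc1, hc2⟩ := triple_c hw g (fun i i' x y => B1 i i' x y ∨ (B2 i i' x y ∨ B2 i' i y x))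
    (β := 4 * ε + (2 * c3 + 2 * c3)) hhs hgood (by
      intro i i' _
      refine (pr_or_le_c hw _ _).trans (add_le_add (hB1 i i') ?_)
      refine (pr_or_le_c hw _ _).trans (add_le_add (hB2 i i') ?_)
      rw [pr_swap_c (B2 i' i)]
      exact hB2 i' i) (by linarith)
  have hb1 : ∀ i i', i ≠ i' → ¬ B1 i i' (c i) (c i') := by
    intro i i' hii h
    rcases lt_or_gt_of_ne hii with h1 | h1
    · exact hc2 i i' h1 (Or.inl h)
    · apply hc2 i' i h1
      left
      obtain ⟨e, he, e', he', h2⟩ := h
      refine ⟨e', he', e, he, ?_⟩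
      obtain ⟨u, hu, v, hv, huv⟩ := h2
      refine ⟨v, hv, u, hu, ?_⟩
      rcases huv with h3 | h3
      · exact Or.inl h3.symm
      · exact Or.inr h3.symm
  have hb2 : ∀ i i', i ≠ i' → ¬ B2 i i' (c i) (c i') := by
    intro i i' hii h
    rcases lt_or_gt_of_ne hii with h1 | h1
    · exact hc2 i i' h1 (Or.inr (Or.inl h))
    · exact hc2 i' i h1 (Or.inr (Or.inr h))
  refine combine hT (c := c) (H := fun i => Hf i (c i)) hU hdis ?_ ?_ ?_ ?_ ?_
  · intro i
    exact (hc1 i).1
  · intro i
    exact (hHf i (c i) (hc1 i)).1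
  · intro i
    exact (hHf i (c i) (hc1 i)).2.1
  · intro i i' hii e he e' he' h
    exact hb1 i i' hii ⟨e, he, e', he', h⟩
  · intro i i' hii e he h
    exact hb2 i i' hii ⟨e, he, hc1 i', h⟩

end Pool.Agent.Work.MP_44e7ab_co
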