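import Mathlib
import Pool.Agent.Work.MP_44e7ab_co.Q1.Defs
import Pool.Agent.Work.MP_44e7ab_co.Q1.Tools

set_option autoImplicit false

/-! M6: random vertices of spread laws rarely touch (from the density lemma). -/

namespace Pool.Agent.Work.MP_44e7ab_co

open Finset Classical

/-- vertex version: two spread sub-probability laws -/
theorem density_two (n : ℕ) (hn2 : 2 ≤ n) (ε : ℝ) (hε : 0 < ε) :
    ∃ η : ℝ, 0 < η ∧ ∀ (V : Type) [Fintype V] (G : SimpleGraph V), NoKnn G n →
      ∀ μ ν : V → ℝ, (∀ v, 0 ≤ μ v) → (∀ v, 0 ≤ ν v) → ∑ v, μ v ≤ 1 → ∑ v, ν v ≤ 1 →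
      (∀ X : Finset V, Small G n X → ∑ v ∈ X, μ v ≤ η) →
      (∀ X : Finset V, Small G n X → ∑ v ∈ X, ν v ≤ η) →
      ∑ u, ∑ v, μ u * ν v * (if G.Adj u v ∨ u = v then 1 else 0) ≤ ε := by
  obtain ⟨η, hη, hd⟩ := density.{0} n hn2 (ε / 8) (by positivity)
  refine ⟨min η (ε / 2), lt_min hη (by positivity), ?_⟩
  intro V _ G hK μ ν hμ0 hν0 hμ1 hν1 hμ hν
  have hE := hd V G hK (fun v => (μ v + ν v) / 2)
    (fun v => by have := hμ0 v; have := hν0 v; positivity) (by
      unfold m
      rw [← Finset.sum_div, Finset.sum_add_distrib]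
      linarith) (by
      intro X hX
      unfold m
      rw [← Finset.sum_div, Finset.sum_add_distrib]
      have h1 := (hμ X hX).trans (min_le_left _ _)
      have h2 := (hν X hX).trans (min_le_left _ _)
      linarith)
  unfold E at hE
  have h1 : ∑ u, ∑ v, (if G.Adj u v then μ u * ν v else 0) ≤ ε / 2 := by
    have h2 : ∑ u, ∑ v, (if G.Adj u v then μ u * ν v else 0) ≤
        4 * ∑ u, ∑ v, (if G.Adj u v then (μ u + ν u) / 2 * ((μ v + ν v) / 2) else 0) := by
      rw [Finset.mul_sum]
      apply Finset.sum_le_sum; intro u _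
      rw [Finset.mul_sum]
      apply Finset.sum_le_sum; intro v _
      have a1 := hμ0 u
      have a2 := hμ0 v
      have a3 := hν0 u
      have a4 := hν0 v
      split_ifs
      · nlinarith [mul_nonneg a1 a2, mul_nonneg a3 a4, mul_nonneg a3 a2]
      · simp
    linarith
  have hpt : ∀ v, ν v ≤ ε / 2 := by
    intro v
    have h3 := (hν {v} (by
      intro I hI _
      have := Finset.card_le_card hI
      rw [Finset.card_singleton] at this
      omega)).trans (min_le_right _ _)
    simpa using h3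
  have h4 : ∑ u, ∑ v, (if u = v then μ u * ν v else 0) ≤ ε / 2 := by
    calc ∑ u, ∑ v, (if u = v then μ u * ν v else 0) = ∑ u, μ u * ν u := by
          apply Finset.sum_congr rfl; intro u _
          rw [Finset.sum_ite_eq, if_pos (mem_univ u)]
      _ ≤ ∑ u, μ u * (ε / 2) :=
          Finset.sum_le_sum fun u _ => mul_le_mul_of_nonneg_left (hpt u) (hμ0 u)
      _ = (∑ u, μ u) * (ε / 2) := by rw [Finset.sum_mul]
      _ ≤ 1 * (ε / 2) := mul_le_mul_of_nonneg_right hμ1 (by positivity)
      _ = ε / 2 := one_mul _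
  calc ∑ u, ∑ v, μ u * ν v * (if G.Adj u v ∨ u = v then 1 else 0)
      ≤ ∑ u, ∑ v, ((if G.Adj u v then μ u * ν v else 0) +
        (if u = v then μ u * ν v else 0)) := by
        apply Finset.sum_le_sum; intro u _
        apply Finset.sum_le_sum; intro v _
        by_cases h5 : G.Adj u v <;> by_cases h6 : u = v <;> simp [h5, h6]
    _ = ∑ u, ∑ v, (if G.Adj u v then μ u * ν v else 0) +
        ∑ u, ∑ v, (if u = v then μ u * ν v else 0) := by
        simp only [Finset.sum_add_distrib]
    _ ≤ ε := by linarith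

theorem hub_density_of (P : ℕ)
    (hK : ∀ (V : Type) [Fintype V] (G : SimpleGraph V), PWB G P → NoKnn G (P + 1))
    (ε : ℝ) (hε : 0 < ε) :
    ∃ η : ℝ, 0 < η ∧ ∀ (V : Type) [Fintype V] (G : SimpleGraph V), PWB G P →
      ∀ (Ω Ω' : Type) [Fintype Ω] [Fintype Ω'] (p : Ω → ℝ) (q : Ω' → ℝ), IsLaw p → IsLaw q →
      ∀ (h : Ω → Finset V) (h' : Ω' → Finset V), (∀ x, (h x).card ≤ 1) →
      (∀ x, (h' x).card ≤ 1) → Spread G P p h η → Spread G P q h' η →
      pr p q (fun x y => Touch G (h x) (h' y)) ≤ ε := by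
  rcases Nat.eq_zero_or_pos P with hP | hP
  · -- no vertices at all
    subst hP
    refine ⟨1, one_pos, ?_⟩
    intro V _ G hG Ω Ω' _ _ p q hp hq h h' _ _ _ _
    have hV : IsEmpty V := by
      by_contra hne
      rw [not_isEmpty_iff] at hne
      obtain ⟨v⟩ := hne
      obtain ⟨n, X, hX1, hX2, -, -, hX5⟩ := hG {v} (by
        intro C hC _
        have := Finset.card_le_card hC
        rw [Finset.card_singleton] at this
        omega)
      obtain ⟨i, hi⟩ := hX2 v (Finset.mem_singleton_self v)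
      have h1 := hX5 i
      have h2 := Finset.card_pos.mpr ⟨v, hi⟩
      omega
    have : pr p q (fun x y => Touch G (h x) (h' y)) = 0 := by
      unfold pr
      apply Finset.sum_eq_zero; intro x _
      apply Finset.sum_eq_zero; intro y _
      rw [if_neg, mul_zero]
      rintro ⟨u, _⟩
      exact hV.false u
    rw [this]
    exact hε.le
  · obtain ⟨η, hη, hd⟩ := density_two (P + 1) (by omega) ε hε
    refine ⟨η, hη, ?_⟩
    intro V _ G hG Ω Ω' _ _ p q hp hq h h' hc hc' hs hs'
    have hlaw : ∀ (Ω : Type) [Fintype Ω] (p : Ω → ℝ) (h : Ω → Finset V), IsLaw p →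
        (∀ x, (h x).card ≤ 1) → Spread G P p h η →
        (∀ v, 0 ≤ ∑ x, p x * (if v ∈ h x then 1 else 0)) ∧
        ∑ v, ∑ x, p x * (if v ∈ h x then 1 else 0) ≤ 1 ∧
        ∀ X : Finset V, Small G (P + 1) X →
          ∑ v ∈ X, ∑ x, p x * (if v ∈ h x then 1 else 0) ≤ η := by
      intro Ω _ p h hp hc hs
      have key : ∀ (X : Finset V), ∑ v ∈ X, ∑ x, p x * (if v ∈ h x then (1 : ℝ) else 0) ≤
          ms p (fun x => ¬ Disjoint (h x) X) := by
        intro X
        rw [Finset.sum_comm]
        unfold ms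
        apply Finset.sum_le_sum
        intro x _
        rw [← Finset.mul_sum]
        apply mul_le_mul_of_nonneg_left _ (hp.1 x)
        rw [Finset.sum_ite_mem, Finset.sum_const, nsmul_eq_mul, mul_one]
        by_cases hd : Disjoint (h x) X
        · rw [if_neg (not_not.mpr hd)]
          rw [Finset.disjoint_iff_inter_eq_empty] at hd
          rw [Finset.inter_comm, hd]
          simp
        · rw [if_pos hd]
          have : (X ∩ h x).card ≤ 1 := (Finset.card_le_card Finset.inter_subset_right).trans (hc x)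
          exact_mod_cast this
      refine ⟨?_, ?_, ?_⟩
      · intro v
        apply Finset.sum_nonneg
        intro x _
        apply mul_nonneg (hp.1 x)
        split_ifs <;> norm_num
      · refine (key univ).trans ?_
        refine le_trans (Finset.sum_le_sum (g := p) fun x _ => ?_) hp.2.le
        have := hp.1 x
        split_ifs <;> simp [this]
      · intro X hX
        refine (key X).trans (hs X ?_)
        intro I hI hind
        have := hX I hI hind
        omega
    obtain ⟨a1, a2, a3⟩ := hlaw Ω p h hp hc hs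
    obtain ⟨b1, b2, b3⟩ := hlaw Ω' q h' hq hc' hs'
    refine le_trans ?_ (hd V G (hK V G hG) _ _ a1 b1 a2 b2 a3 b3)
    have e1 : ∀ u v, (∑ x, p x * (if u ∈ h x then (1 : ℝ) else 0)) *
        (∑ y, q y * (if v ∈ h' y then (1 : ℝ) else 0)) * (if G.Adj u v ∨ u = v then 1 else 0) =
        ∑ x, ∑ y, p x * q y * ((if u ∈ h x then (1 : ℝ) else 0) *
          (if v ∈ h' y then (1 : ℝ) else 0) * (if G.Adj u v ∨ u = v then 1 else 0)) := by
      intro u v
      rw [Finset.sum_mul_sum, Finset.sum_mul]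
      apply Finset.sum_congr rfl; intro x _
      rw [Finset.sum_mul]
      apply Finset.sum_congr rfl; intro y _
      ring
    simp only [e1]
    have e2 : ∑ u : V, ∑ v : V, ∑ x, ∑ y, p x * q y * ((if u ∈ h x then (1 : ℝ) else 0) *
          (if v ∈ h' y then (1 : ℝ) else 0) * (if G.Adj u v ∨ u = v then 1 else 0)) =
        ∑ x, ∑ y, p x * q y * ∑ u : V, ∑ v : V, ((if u ∈ h x then (1 : ℝ) else 0) *
          (if v ∈ h' y then (1 : ℝ) else 0) * (if G.Adj u v ∨ u = v then 1 else 0)) := by
      simp only [Finset.mul_sum]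
      have s1 : ∀ u : V, ∑ v : V, ∑ x, ∑ y, p x * q y * ((if u ∈ h x then (1 : ℝ) else 0) *
          (if v ∈ h' y then (1 : ℝ) else 0) * (if G.Adj u v ∨ u = v then 1 else 0)) =
          ∑ x, ∑ y, ∑ v : V, p x * q y * ((if u ∈ h x then (1 : ℝ) else 0) *
          (if v ∈ h' y then (1 : ℝ) else 0) * (if G.Adj u v ∨ u = v then 1 else 0)) := by
        intro u
        rw [Finset.sum_comm]
        apply Finset.sum_congr rfl; intro x _
        rw [Finset.sum_comm]
      simp only [s1]
      rw [Finset.sum_comm]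
      apply Finset.sum_congr rfl; intro x _
      rw [Finset.sum_comm]
    rw [e2]
    unfold pr
    apply Finset.sum_le_sum; intro x _
    apply Finset.sum_le_sum; intro y _
    apply mul_le_mul_of_nonneg_left _ (mul_nonneg (hp.1 x) (hq.1 y))
    have hnn : ∀ u v : V, (0 : ℝ) ≤ (if u ∈ h x then (1 : ℝ) else 0) *
          (if v ∈ h' y then (1 : ℝ) else 0) * (if G.Adj u v ∨ u = v then 1 else 0) := by
      intro u v
      split_ifs <;> norm_num
    by_cases hT : Touch G (h x) (h' y)
    · rw [if_pos hT]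
      obtain ⟨u, hu, v, hv, huv⟩ := hT
      calc (1 : ℝ) = (if u ∈ h x then (1 : ℝ) else 0) *
          (if v ∈ h' y then (1 : ℝ) else 0) * (if G.Adj u v ∨ u = v then 1 else 0) := by
            rw [if_pos hu, if_pos hv, if_pos huv]; norm_num
        _ ≤ ∑ v : V, (if u ∈ h x then (1 : ℝ) else 0) *
          (if v ∈ h' y then (1 : ℝ) else 0) * (if G.Adj u v ∨ u = v then 1 else 0) :=
            Finset.single_le_sum (f := fun v : V => (if u ∈ h x then (1 : ℝ) else 0) *
              (if v ∈ h' y then (1 : ℝ) else 0) * (if G.Adj u v ∨ u = v then 1 else 0))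
              (fun v _ => hnn u v) (mem_univ v)
        _ ≤ _ := Finset.single_le_sum (f := fun u : V => ∑ v : V,
              (if u ∈ h x then (1 : ℝ) else 0) *
              (if v ∈ h' y then (1 : ℝ) else 0) * (if G.Adj u v ∨ u = v then 1 else 0))
              (fun u _ => Finset.sum_nonneg fun v _ => hnn u v) (mem_univ u)
    · rw [if_neg hT]
      exact Finset.sum_nonneg fun u _ => Finset.sum_nonneg fun v _ => hnn u v

theorem hub_density (P : ℕ) (ε : ℝ) (hε : 0 < ε) :
    ∃ η : ℝ, 0 < η ∧ ∀ (V : Type) [Fintype V] (G : SimpleGraph V), PWB G P →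
      ∀ (Ω Ω' : Type) [Fintype Ω] [Fintype Ω'] (p : Ω → ℝ) (q : Ω' → ℝ), IsLaw p → IsLaw q →
      ∀ (h : Ω → Finset V) (h' : Ω' → Finset V), (∀ x, (h x).card ≤ 1) →
      (∀ x, (h' x).card ≤ 1) → Spread G P p h η → Spread G P q h' η →
      pr p q (fun x y => Touch G (h x) (h' y)) ≤ ε :=
  hub_density_of P (fun _ _ _ hG => noKnn_of_pwb hG) ε hε

end Pool.Agent.Work.MP_44e7ab_co
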