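import Mathlib
import Pool.Agent.Work.MP_44e7ab_co.Q1.Tools

set_option autoImplicit false
set_option linter.unusedVariables false

/-! Module M2: sampling lemmas. -/

namespace Pool.Agent.Work.MP_44e7ab_co

open Finset Classical

namespace Sampling

section prod

variable {ι : Type} [Fintype ι] [DecidableEq ι] {Ω : ι → Type} [∀ i, Fintype (Ω i)]

theorem sum_prod_mul (p h : ∀ i, Ω i → ℝ) :
    ∑ x : ∀ i, Ω i, (∏ l, p l (x l)) * (∏ l, h l (x l)) = ∏ l, ∑ a, p l a * h l a := by
  rw [Finset.prod_univ_sum]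
  rw [Fintype.piFinset_univ]
  refine Finset.sum_congr rfl fun x _ => ?_
  rw [Finset.prod_mul_distrib]

theorem sum_prod_one (p : ∀ i, Ω i → ℝ) (hp : ∀ i, ∑ a, p i a = 1) :
    ∑ x : ∀ i, Ω i, (∏ l, p l (x l)) = 1 := by
  have := sum_prod_mul p (fun _ _ => 1)
  simp only [Finset.prod_const_one, mul_one] at this
  rw [this]
  exact Finset.prod_eq_one fun i _ => hp i

theorem sum_prod_ind (p : ∀ i, Ω i → ℝ) (hp : ∀ i, ∑ a, p i a = 1) (i : ι) (a : Ω i) :
    ∑ x : ∀ i, Ω i, (∏ l, p l (x l)) * (if x i = a then 1 else 0) = p i a := by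
  let h : ∀ i, Ω i → ℝ := Function.update (fun _ _ => 1) i (fun ω => if ω = a then 1 else 0)
  have h1 : ∀ x : ∀ i, Ω i, ∏ l, h l (x l) = if x i = a then 1 else 0 := by
    intro x
    rw [Finset.prod_eq_single i]
    · simp [h]
    · intro l _ hl
      simp [h, Function.update_of_ne hl]
    · intro hi
      exact absurd (Finset.mem_univ i) hi
  have h2 := sum_prod_mul p h
  simp only [h1] at h2
  rw [h2, Finset.prod_eq_single i]
  · simp [h]
  · intro l _ hl
    simp [h, Function.update_of_ne hl, hp l]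
  · intro hi
    exact absurd (Finset.mem_univ i) hi

theorem sum_prod_ind2 (p : ∀ i, Ω i → ℝ) (hp : ∀ i, ∑ a, p i a = 1) {i j : ι} (hij : i ≠ j)
    (a : Ω i) (b : Ω j) :
    ∑ x : ∀ i, Ω i, (∏ l, p l (x l)) * ((if x i = a then 1 else 0) * (if x j = b then 1 else 0))
      = p i a * p j b := by
  let h : ∀ i, Ω i → ℝ := Function.update (Function.update (fun _ _ => 1) i
    (fun ω => if ω = a then 1 else 0)) j (fun ω => if ω = b then 1 else 0)
  have hi' : h i = fun ω => if ω = a then 1 else 0 := by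
    simp [h, Function.update_of_ne hij]
  have hj' : h j = fun ω => if ω = b then 1 else 0 := by
    simp [h]
  have h1 : ∀ x : ∀ i, Ω i, ∏ l, h l (x l) =
      (if x i = a then 1 else 0) * (if x j = b then 1 else 0) := by
    intro x
    rw [Finset.prod_eq_mul i j hij]
    · rw [hi', hj']
    · intro l _ hl
      simp [h, Function.update_of_ne hl.1, Function.update_of_ne hl.2]
    · intro hi
      exact absurd (Finset.mem_univ i) hi
    · intro hi
      exact absurd (Finset.mem_univ j) hi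
  have h2 := sum_prod_mul p h
  simp only [h1] at h2
  rw [h2, Finset.prod_eq_mul i j hij]
  · rw [hi', hj']; simp
  · intro l _ hl
    simp [h, Function.update_of_ne hl.1, Function.update_of_ne hl.2, hp l]
  · intro hi
    exact absurd (Finset.mem_univ i) hi
  · intro hi
    exact absurd (Finset.mem_univ j) hi

/-- one-coordinate marginal of a product law -/
theorem sum_prod_one_coord (p : ∀ i, Ω i → ℝ) (hp : ∀ i, ∑ a, p i a = 1) (i : ι)
    (g : Ω i → ℝ) :
    ∑ x : ∀ i, Ω i, (∏ l, p l (x l)) * g (x i) = ∑ a, p i a * g a := by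
  have h1 : ∀ x : ∀ i, Ω i, (∏ l, p l (x l)) * g (x i) =
      ∑ a, (∏ l, p l (x l)) * (if x i = a then 1 else 0) * g a := by
    intro x
    rw [Finset.sum_eq_single (x i)]
    · simp
    · intro a _ ha
      simp [ha.symm]
    · intro h
      exact absurd (Finset.mem_univ _) h
  simp only [h1]
  rw [Finset.sum_comm]
  refine Finset.sum_congr rfl fun a _ => ?_
  rw [← Finset.sum_mul, sum_prod_ind p hp i a]

/-- two-coordinate marginal of a product law -/
theorem sum_prod_two_coord (p : ∀ i, Ω i → ℝ) (hp : ∀ i, ∑ a, p i a = 1) {i j : ι}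
    (hij : i ≠ j) (g : Ω i → Ω j → ℝ) :
    ∑ x : ∀ i, Ω i, (∏ l, p l (x l)) * g (x i) (x j) =
      ∑ a, ∑ b, p i a * p j b * g a b := by
  have h1 : ∀ x : ∀ i, Ω i, (∏ l, p l (x l)) * g (x i) (x j) =
      ∑ a, ∑ b, (∏ l, p l (x l)) * ((if x i = a then 1 else 0) * (if x j = b then 1 else 0))
        * g a b := by
    intro x
    rw [Finset.sum_eq_single (x i)]
    · rw [Finset.sum_eq_single (x j)]
      · simp
      · intro b _ hb
        simp [hb.symm]
      · intro h
        exact absurd (Finset.mem_univ _) h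
    · intro a _ ha
      refine Finset.sum_eq_zero fun b _ => ?_
      simp [ha.symm]
    · intro h
      exact absurd (Finset.mem_univ _) h
  simp only [h1]
  rw [Finset.sum_comm]
  refine Finset.sum_congr rfl fun a _ => ?_
  rw [Finset.sum_comm]
  refine Finset.sum_congr rfl fun b _ => ?_
  rw [← Finset.sum_mul, sum_prod_ind2 p hp hij a b]

end prod

theorem pr_nonneg {Ω Ω' : Type} [Fintype Ω] [Fintype Ω'] {p : Ω → ℝ} {q : Ω' → ℝ}
    (hp : ∀ x, 0 ≤ p x) (hq : ∀ x, 0 ≤ q x) (Q : Ω → Ω' → Prop) : 0 ≤ pr p q Q := by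
  refine Finset.sum_nonneg fun x _ => Finset.sum_nonneg fun y _ => ?_
  refine mul_nonneg (mul_nonneg (hp x) (hq y)) ?_
  split_ifs <;> norm_num

/-- a clique inside the union of pairwise anticomplete sets lies in one of them -/
theorem clique_in_one {V : Type} {G : SimpleGraph V} {ι : Type} (F : ι → Finset V)
    (hFF : ∀ i j, i ≠ j → ¬ Touch G (F i) (F j)) {a : ℕ} (ha : ∀ i, OmLe G (F i) a)
    {C : Finset V} (hC : G.IsClique (C : Set V)) (hCF : ∀ v ∈ C, ∃ i, v ∈ F i) : C.card ≤ a := by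
  rcases C.eq_empty_or_nonempty with h | ⟨v, hv⟩
  · subst h; simp
  · obtain ⟨i, hi⟩ := hCF v hv
    refine ha i C ?_ hC
    intro w hw
    obtain ⟨j, hj⟩ := hCF w hw
    by_cases hij : i = j
    · subst hij; exact hj
    · exfalso
      refine hFF i j hij ⟨v, hi, w, hj, ?_⟩
      by_cases hvw : v = w
      · exact Or.inr hvw
      · exact Or.inl (hC hv hw hvw)

/-- the deterministic inequality behind the sampling lemma -/
theorem det_bound {V : Type} [Fintype V] {G : SimpleGraph V} {P : ℕ} (hG : PWB G P)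
    {k : ℕ} (F E : Fin k → Finset V) (hF : ∀ i, ConnSet G (F i)) (hE : ∀ i, ConnSet G (E i))
    {a a' : ℕ} (ha : ∀ i, OmLe G (F i) a) (ha' : ∀ i, OmLe G (E i) a') (haa : a + a' ≤ 7) :
    ((univ : Finset (Fin k × Fin k)).filter (fun q => Touch G (F q.1) (E q.2))).card
      ≤ 2 * P * k +
        k * ((univ : Finset (Fin k × Fin k)).filter
          (fun q => q.1 < q.2 ∧ Touch G (F q.1) (F q.2))).card +
        k * ((univ : Finset (Fin k × Fin k)).filter
          (fun q => q.1 < q.2 ∧ Touch G (E q.1) (E q.2))).card := by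
  -- deleted indices
  set DF := (univ : Finset (Fin k)).filter (fun i => ∃ j, i < j ∧ Touch G (F i) (F j)) with hDF
  set DE := (univ : Finset (Fin k)).filter (fun i => ∃ j, i < j ∧ Touch G (E i) (E j)) with hDE
  have hdel : ∀ (H : Fin k → Finset V),
      ((univ : Finset (Fin k)).filter (fun i => ∃ j, i < j ∧ Touch G (H i) (H j))).card ≤
      ((univ : Finset (Fin k × Fin k)).filter
          (fun q => q.1 < q.2 ∧ Touch G (H q.1) (H q.2))).card := by
    intro H
    have : (univ : Finset (Fin k)).filter (fun i => ∃ j, i < j ∧ Touch G (H i) (H j)) =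
        ((univ : Finset (Fin k × Fin k)).filter
          (fun q => q.1 < q.2 ∧ Touch G (H q.1) (H q.2))).image Prod.fst := by
      ext i
      simp
    rw [this]
    exact Finset.card_image_le
  -- survivors
  have hsurv : ∀ (H : Fin k → Finset V),
      ∀ i j : {i : Fin k // ¬ ∃ j, i < j ∧ Touch G (H i) (H j)}, i ≠ j →
        ¬ Touch G (H i.1) (H j.1) := by
    rintro H ⟨i, hi⟩ ⟨j, hj⟩ hij ht
    have hij' : i ≠ j := fun h => hij (Subtype.ext h)
    rcases lt_or_gt_of_ne hij' with h | h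
    · exact hi ⟨j, h, ht⟩
    · exact hj ⟨i, h, Tools.touch_symm ht⟩
  let I0 := {i : Fin k // ¬ ∃ j, i < j ∧ Touch G (F i) (F j)}
  let J0 := {i : Fin k // ¬ ∃ j, i < j ∧ Touch G (E i) (E j)}
  set W : Finset V := (univ : Finset I0).biUnion (fun i => F i.1) ∪
    (univ : Finset J0).biUnion (fun j => E j.1) with hWdef
  have hW : OmLe G W 7 := by
    intro C hC hcl
    have h1 : (C.filter (fun v => ∃ i : I0, v ∈ F i.1)).card ≤ a :=
      clique_in_one (fun i : I0 => F i.1) (hsurv F) (fun i => ha i.1)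
        (hcl.subset (by exact_mod_cast Finset.filter_subset _ _))
        (fun v hv => (Finset.mem_filter.mp hv).2)
    have h2 : (C.filter (fun v => ∃ i : J0, v ∈ E i.1)).card ≤ a' :=
      clique_in_one (fun i : J0 => E i.1) (hsurv E) (fun i => ha' i.1)
        (hcl.subset (by exact_mod_cast Finset.filter_subset _ _))
        (fun v hv => (Finset.mem_filter.mp hv).2)
    have h3 : C ⊆ (C.filter (fun v => ∃ i : I0, v ∈ F i.1)) ∪
        (C.filter (fun v => ∃ i : J0, v ∈ E i.1)) := by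
      intro v hv
      have := hC hv
      rw [hWdef, Finset.mem_union, Finset.mem_biUnion, Finset.mem_biUnion] at this
      rw [Finset.mem_union, Finset.mem_filter, Finset.mem_filter]
      rcases this with ⟨i, -, hi⟩ | ⟨i, -, hi⟩
      · exact Or.inl ⟨hv, i, hi⟩
      · exact Or.inr ⟨hv, i, hi⟩
    have h4 := (Finset.card_le_card h3).trans (Finset.card_union_le _ _)
    omega
  have htb := touch_bound (hG W hW) (fun i : I0 => F i.1) (fun j : J0 => E j.1)
    (fun i => hF i.1) (fun j => hE j.1)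
    (fun i => (Finset.subset_biUnion_of_mem (fun i : I0 => F i.1) (Finset.mem_univ i)).trans
      Finset.subset_union_left)
    (fun j => (Finset.subset_biUnion_of_mem (fun j : J0 => E j.1) (Finset.mem_univ j)).trans
      Finset.subset_union_right) (hsurv F) (hsurv E)
  have hI0 : Fintype.card I0 ≤ k := by
    have := Fintype.card_subtype_le (fun i : Fin k => ¬ ∃ j, i < j ∧ Touch G (F i) (F j))
    rw [Fintype.card_fin] at this
    exact this
  have hJ0 : Fintype.card J0 ≤ k := by
    have := Fintype.card_subtype_le (fun i : Fin k => ¬ ∃ j, i < j ∧ Touch G (E i) (E j))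
    rw [Fintype.card_fin] at this
    exact this
  have hsub : (univ : Finset (Fin k × Fin k)).filter (fun q => Touch G (F q.1) (E q.2)) ⊆
      (((univ : Finset (I0 × J0)).filter (fun q => Touch G (F q.1.1) (E q.2.1))).image
        (fun q => (q.1.1, q.2.1)) ∪ (DF ×ˢ (univ : Finset (Fin k)))) ∪
        ((univ : Finset (Fin k)) ×ˢ DE) := by
    rintro ⟨i, j⟩ hij
    rw [Finset.mem_filter] at hij
    rw [Finset.mem_union, Finset.mem_union, Finset.mem_product, Finset.mem_product,
      Finset.mem_image]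
    by_cases h1 : i ∈ DF
    · exact Or.inl (Or.inr ⟨h1, Finset.mem_univ _⟩)
    · by_cases h2 : j ∈ DE
      · exact Or.inr ⟨Finset.mem_univ _, h2⟩
      · rw [hDF, Finset.mem_filter] at h1
        rw [hDE, Finset.mem_filter] at h2
        refine Or.inl (Or.inl ⟨(⟨i, fun h => h1 ⟨Finset.mem_univ _, h⟩⟩,
          ⟨j, fun h => h2 ⟨Finset.mem_univ _, h⟩⟩), ?_, rfl⟩)
        rw [Finset.mem_filter]
        exact ⟨Finset.mem_univ _, hij.2⟩
  have hcard := Finset.card_le_card hsub
  have hu1 := Finset.card_union_le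
    (((univ : Finset (I0 × J0)).filter (fun q => Touch G (F q.1.1) (E q.2.1))).image
        (fun q => (q.1.1, q.2.1)) ∪ (DF ×ˢ (univ : Finset (Fin k))))
    ((univ : Finset (Fin k)) ×ˢ DE)
  have hu2 := Finset.card_union_le
    (((univ : Finset (I0 × J0)).filter (fun q => Touch G (F q.1.1) (E q.2.1))).image
        (fun q => (q.1.1, q.2.1))) (DF ×ˢ (univ : Finset (Fin k)))
  have hu3 := Finset.card_image_le
    (s := (univ : Finset (I0 × J0)).filter (fun q => Touch G (F q.1.1) (E q.2.1)))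
    (f := fun q => (q.1.1, q.2.1))
  have hp1 : (DF ×ˢ (univ : Finset (Fin k))).card ≤
      k * ((univ : Finset (Fin k × Fin k)).filter
          (fun q => q.1 < q.2 ∧ Touch G (F q.1) (F q.2))).card := by
    rw [Finset.card_product, Finset.card_univ, Fintype.card_fin, Nat.mul_comm]
    exact Nat.mul_le_mul_left _ (hdel F)
  have hp2 : ((univ : Finset (Fin k)) ×ˢ DE).card ≤
      k * ((univ : Finset (Fin k × Fin k)).filter
          (fun q => q.1 < q.2 ∧ Touch G (E q.1) (E q.2))).card := by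
    rw [Finset.card_product, Finset.card_univ, Fintype.card_fin]
    exact Nat.mul_le_mul_left _ (hdel E)
  have hq : P * (Fintype.card I0 + Fintype.card J0) ≤ 2 * P * k := by
    calc P * (Fintype.card I0 + Fintype.card J0) ≤ P * (k + k) :=
          Nat.mul_le_mul_left _ (Nat.add_le_add hI0 hJ0)
      _ = 2 * P * k := by ring
  omega

/-- linearity of a double expectation -/
theorem ex_sum {A B I : Type} [Fintype A] [Fintype B] (w : A → ℝ) (w' : B → ℝ)
    (f : I → A → B → ℝ) (s : Finset I) :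
    ∑ x, ∑ y, w x * w' y * ∑ i ∈ s, f i x y = ∑ i ∈ s, ∑ x, ∑ y, w x * w' y * f i x y := by
  symm
  rw [Finset.sum_comm]
  refine Finset.sum_congr rfl fun x _ => ?_
  rw [Finset.sum_comm]
  refine Finset.sum_congr rfl fun y _ => ?_
  rw [Finset.mul_sum]

theorem card_lt_pairs (k : ℕ) :
    2 * ((univ : Finset (Fin k × Fin k)).filter (fun q => q.1 < q.2)).card ≤ k ^ 2 := by
  have h1 : ((univ : Finset (Fin k × Fin k)).filter (fun q => q.1 < q.2)).card =
      ((univ : Finset (Fin k × Fin k)).filter (fun q => q.2 < q.1)).card := by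
    refine Finset.card_bij (fun q _ => q.swap) ?_ ?_ ?_
    · rintro ⟨i, j⟩ h
      simpa using h
    · rintro ⟨i, j⟩ _ ⟨i', j'⟩ _ h
      exact Prod.swap_injective h
    · rintro ⟨i, j⟩ h
      exact ⟨(j, i), by simpa using h, rfl⟩
  have h2 : Disjoint ((univ : Finset (Fin k × Fin k)).filter (fun q => q.1 < q.2))
      ((univ : Finset (Fin k × Fin k)).filter (fun q => q.2 < q.1)) := by
    rw [Finset.disjoint_left]
    rintro ⟨i, j⟩ h h'
    rw [Finset.mem_filter] at h h'
    exact absurd h.2 (lt_asymm h'.2)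
  have h3 := Finset.card_le_univ
    (((univ : Finset (Fin k × Fin k)).filter (fun q => q.1 < q.2)) ∪
      ((univ : Finset (Fin k × Fin k)).filter (fun q => q.2 < q.1)))
  rw [Finset.card_union_of_disjoint h2, ← h1, Fintype.card_prod, Fintype.card_fin] at h3
  nlinarith

end Sampling

open Sampling

theorem unified {V : Type} [Fintype V] {G : SimpleGraph V} {P : ℕ} (hG : PWB G P)
    {Ω Ω' : Type} [Fintype Ω] [Fintype Ω'] {p : Ω → ℝ} {p' : Ω' → ℝ} (hp : IsLaw p)
    (hp' : IsLaw p') (F : Ω → Finset V) (E : Ω' → Finset V)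
    (hF : ∀ x, ConnSet G (F x)) (hE : ∀ x, ConnSet G (E x)) {a a' : ℕ}
    (ha : ∀ x, OmLe G (F x) a) (ha' : ∀ x, OmLe G (E x) a') (haa : a + a' ≤ 7)
    {c : ℝ} (hc : 0 < c) {k : ℕ} (hk : 4 * (P : ℝ) < c * k)
    (hFF : pr p p (fun x y => Touch G (F x) (F y)) ≤ c / (2 * k))
    (hEE : pr p' p' (fun x y => Touch G (E x) (E y)) ≤ c / (2 * k)) :
    pr p p' (fun x y => Touch G (F x) (E y)) < c := by
  have hk0 : (0 : ℝ) < k := by
    by_contra hcon
    have h1 : (k : ℝ) = 0 := le_antisymm (not_lt.mp hcon) (Nat.cast_nonneg k)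
    rw [h1, mul_zero] at hk
    have : (0 : ℝ) ≤ 4 * (P : ℝ) := by positivity
    linarith
  -- weights
  set w : (Fin k → Ω) → ℝ := fun x => ∏ i, p (x i) with hw
  set w' : (Fin k → Ω') → ℝ := fun y => ∏ i, p' (y i) with hw'
  have hw1 : ∑ x, w x = 1 := sum_prod_one (fun _ : Fin k => p) (fun _ => hp.2)
  have hw1' : ∑ y, w' y = 1 := sum_prod_one (fun _ : Fin k => p') (fun _ => hp'.2)
  have hw0 : ∀ x, 0 ≤ w x := fun x => Finset.prod_nonneg fun i _ => hp.1 _
  have hw0' : ∀ y, 0 ≤ w' y := fun y => Finset.prod_nonneg fun i _ => hp'.1 _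
  -- the deterministic bound, in real indicator form
  have hcount : ∀ (R : Fin k × Fin k → Prop) [DecidablePred R],
      (((univ : Finset (Fin k × Fin k)).filter R).card : ℝ) =
        ∑ q, (if R q then (1 : ℝ) else 0) := by
    intro R _
    rw [Finset.card_filter, Nat.cast_sum]
    refine Finset.sum_congr rfl fun i _ => ?_
    split_ifs <;> simp
  have hdet : ∀ (x : Fin k → Ω) (y : Fin k → Ω'),
      ∑ q : Fin k × Fin k, (if Touch G (F (x q.1)) (E (y q.2)) then (1 : ℝ) else 0) ≤
      2 * P * k +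
        k * (∑ q : Fin k × Fin k, (if (q.1 < q.2 ∧ Touch G (F (x q.1)) (F (x q.2)))
          then (1 : ℝ) else 0)) +
        k * (∑ q : Fin k × Fin k, (if (q.1 < q.2 ∧ Touch G (E (y q.1)) (E (y q.2)))
          then (1 : ℝ) else 0)) := by
    intro x y
    have := det_bound hG (fun i => F (x i)) (fun j => E (y j)) (fun i => hF _) (fun j => hE _)
      (fun i => ha _) (fun j => ha' _) haa
    have e1 : (((univ : Finset (Fin k × Fin k)).filter
        (fun q => Touch G (F (x q.1)) (E (y q.2)))).card : ℝ) =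
        ∑ q : Fin k × Fin k, (if Touch G (F (x q.1)) (E (y q.2)) then (1 : ℝ) else 0) :=
      hcount (fun q => Touch G (F (x q.1)) (E (y q.2)))
    have e2 : (((univ : Finset (Fin k × Fin k)).filter
        (fun q => q.1 < q.2 ∧ Touch G (F (x q.1)) (F (x q.2)))).card : ℝ) =
        ∑ q : Fin k × Fin k, (if (q.1 < q.2 ∧ Touch G (F (x q.1)) (F (x q.2)))
          then (1 : ℝ) else 0) := hcount (fun q => q.1 < q.2 ∧ Touch G (F (x q.1)) (F (x q.2)))
    have e3 : (((univ : Finset (Fin k × Fin k)).filter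
        (fun q => q.1 < q.2 ∧ Touch G (E (y q.1)) (E (y q.2)))).card : ℝ) =
        ∑ q : Fin k × Fin k, (if (q.1 < q.2 ∧ Touch G (E (y q.1)) (E (y q.2)))
          then (1 : ℝ) else 0) := hcount (fun q => q.1 < q.2 ∧ Touch G (E (y q.1)) (E (y q.2)))
    rw [← e1, ← e2, ← e3]
    exact_mod_cast this
  -- expectations
  have hexp : ∑ x, ∑ y, w x * w' y *
      (∑ q : Fin k × Fin k, (if Touch G (F (x q.1)) (E (y q.2)) then (1 : ℝ) else 0)) =
      (k : ℝ) ^ 2 * pr p p' (fun x y => Touch G (F x) (E y)) := by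
    rw [ex_sum]
    have h1 : ∀ q : Fin k × Fin k, ∑ x, ∑ y, w x * w' y *
        (if Touch G (F (x q.1)) (E (y q.2)) then (1 : ℝ) else 0) =
        pr p p' (fun x y => Touch G (F x) (E y)) := by
      rintro ⟨i, j⟩
      have h2 : ∀ x, ∑ y, w x * w' y * (if Touch G (F (x i)) (E (y j)) then (1 : ℝ) else 0) =
          w x * ∑ b, p' b * (if Touch G (F (x i)) (E b) then (1 : ℝ) else 0) := by
        intro x
        rw [← sum_prod_one_coord (fun _ : Fin k => p') (fun _ => hp'.2) j
          (fun b => if Touch G (F (x i)) (E b) then (1 : ℝ) else 0), Finset.mul_sum]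
        refine Finset.sum_congr rfl fun y _ => ?_
        rw [mul_assoc]
      simp only [h2]
      rw [hw, sum_prod_one_coord (fun _ : Fin k => p) (fun _ => hp.2) i
        (fun a => ∑ b, p' b * (if Touch G (F a) (E b) then (1 : ℝ) else 0))]
      unfold pr
      refine Finset.sum_congr rfl fun a _ => ?_
      rw [Finset.mul_sum]
      refine Finset.sum_congr rfl fun b _ => ?_
      rw [mul_assoc]
    rw [Finset.sum_congr rfl fun q _ => h1 q, Finset.sum_const, Finset.card_univ,
      Fintype.card_prod, Fintype.card_fin, nsmul_eq_mul]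
    push_cast
    ring
  have hself : ∀ {Θ : Type} [Fintype Θ] (r : Θ → ℝ) (_ : IsLaw r) (T : Θ → Θ → Prop),
      pr r r T ≤ c / (2 * k) →
      ∑ x : Fin k → Θ, (∏ i, r (x i)) * ∑ q : Fin k × Fin k,
        (if (q.1 < q.2 ∧ T (x q.1) (x q.2)) then (1 : ℝ) else 0) ≤ c * k / 4 := by
    intro Θ _ r hr T hT
    have h0 : 0 ≤ pr r r T := pr_nonneg hr.1 hr.1 T
    have h1 : ∑ x : Fin k → Θ, (∏ i, r (x i)) * ∑ q : Fin k × Fin k,
        (if (q.1 < q.2 ∧ T (x q.1) (x q.2)) then (1 : ℝ) else 0) =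
        ∑ q : Fin k × Fin k, ∑ x : Fin k → Θ, (∏ i, r (x i)) *
        (if (q.1 < q.2 ∧ T (x q.1) (x q.2)) then (1 : ℝ) else 0) := by
      rw [Finset.sum_comm]
      refine Finset.sum_congr rfl fun x _ => ?_
      rw [Finset.mul_sum]
    have h2 : ∀ q : Fin k × Fin k, ∑ x : Fin k → Θ, (∏ i, r (x i)) *
        (if (q.1 < q.2 ∧ T (x q.1) (x q.2)) then (1 : ℝ) else 0) =
        if q.1 < q.2 then pr r r T else 0 := by
      rintro ⟨i, j⟩
      by_cases hij : i < j
      · simp only [hij, true_and, if_true]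
        rw [sum_prod_two_coord (fun _ : Fin k => r) (fun _ => hr.2) hij.ne
          (fun a b => if T a b then (1 : ℝ) else 0)]
        rfl
      · simp [hij]
    rw [h1, Finset.sum_congr rfl fun q _ => h2 q, ← Finset.sum_filter, Finset.sum_const,
      nsmul_eq_mul]
    have h3 : (2 : ℝ) * (((univ : Finset (Fin k × Fin k)).filter
        (fun q => q.1 < q.2)).card : ℝ) ≤ (k : ℝ) ^ 2 := by exact_mod_cast card_lt_pairs k
    calc (((univ : Finset (Fin k × Fin k)).filter (fun q => q.1 < q.2)).card : ℝ) * pr r r T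
        ≤ ((k : ℝ) ^ 2 / 2) * (c / (2 * k)) := by
          refine mul_le_mul (by linarith) hT h0 (by positivity)
      _ = c * k / 4 := by field_simp; ring
  -- combine
  have hle : ∑ x, ∑ y, w x * w' y *
      (∑ q : Fin k × Fin k, (if Touch G (F (x q.1)) (E (y q.2)) then (1 : ℝ) else 0)) ≤
      ∑ x, ∑ y, w x * w' y * (2 * P * k +
        k * (∑ q : Fin k × Fin k, (if (q.1 < q.2 ∧ Touch G (F (x q.1)) (F (x q.2)))
          then (1 : ℝ) else 0)) +
        k * (∑ q : Fin k × Fin k, (if (q.1 < q.2 ∧ Touch G (E (y q.1)) (E (y q.2)))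
          then (1 : ℝ) else 0))) :=
    Finset.sum_le_sum fun x _ => Finset.sum_le_sum fun y _ =>
      mul_le_mul_of_nonneg_left (hdet x y) (mul_nonneg (hw0 x) (hw0' y))
  set A : (Fin k → Ω) → ℝ := fun x => ∑ q : Fin k × Fin k,
    (if (q.1 < q.2 ∧ Touch G (F (x q.1)) (F (x q.2))) then (1 : ℝ) else 0) with hA
  set B : (Fin k → Ω') → ℝ := fun y => ∑ q : Fin k × Fin k,
    (if (q.1 < q.2 ∧ Touch G (E (y q.1)) (E (y q.2))) then (1 : ℝ) else 0) with hB
  have hAle : ∑ x, w x * A x ≤ c * k / 4 := hself p hp (fun x y => Touch G (F x) (F y)) hFF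
  have hBle : ∑ y, w' y * B y ≤ c * k / 4 := hself p' hp' (fun x y => Touch G (E x) (E y)) hEE
  have hrhs : ∑ x, ∑ y, w x * w' y * (2 * P * k + k * A x + k * B y) =
      2 * P * k + k * (∑ x, w x * A x) + k * (∑ y, w' y * B y) := by
    have h1 : ∀ x, ∑ y, w x * w' y * (2 * P * k + k * A x + k * B y) =
        w x * (2 * P * k) + k * (w x * A x) + w x * (k * ∑ y, w' y * B y) := by
      intro x
      have h2 : ∀ y, w x * w' y * (2 * P * k + k * A x + k * B y) =
          (w x * (2 * P * k)) * w' y + (k * (w x * A x)) * w' y + (w x * k) * (w' y * B y) := by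
        intro y; ring
      simp only [h2]
      rw [Finset.sum_add_distrib, Finset.sum_add_distrib, ← Finset.mul_sum, ← Finset.mul_sum,
        ← Finset.mul_sum, hw1']
      ring
    simp only [h1]
    rw [Finset.sum_add_distrib, Finset.sum_add_distrib, ← Finset.sum_mul, ← Finset.sum_mul,
      ← Finset.mul_sum, hw1]
    ring
  have hfin : (k : ℝ) ^ 2 * pr p p' (fun x y => Touch G (F x) (E y)) ≤
      2 * P * k + c * k ^ 2 / 2 := by
    rw [← hexp]
    refine hle.trans ?_
    change ∑ x, ∑ y, w x * w' y * (2 * P * k + k * A x + k * B y) ≤ _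
    rw [hrhs]
    have h1 := mul_le_mul_of_nonneg_left hAle hk0.le
    have h2 := mul_le_mul_of_nonneg_left hBle hk0.le
    nlinarith
  by_contra hcon
  push Not at hcon
  have h1 : (k : ℝ) ^ 2 * c ≤ (k : ℝ) ^ 2 * pr p p' (fun x y => Touch G (F x) (E y)) :=
    mul_le_mul_of_nonneg_left hcon (by positivity)
  have h2 : (k : ℝ) * (c * k) ≤ k * (4 * P) := by nlinarith
  have h3 := le_of_mul_le_mul_left h2 hk0
  linarith

theorem few_heavy {V : Type} [Fintype V] {G : SimpleGraph V} {P : ℕ} (hG : PWB G P)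
    {Ω : Type} [Fintype Ω] {p : Ω → ℝ} (hp : IsLaw p) (F : Ω → Finset V)
    (hF : ∀ x, ConnSet G (F x)) {a a' : ℕ} (ha : ∀ x, OmLe G (F x) a) (haa : a + a' ≤ 7)
    {c : ℝ} (hc : 0 < c) {k : ℕ} (hk : 4 * (P : ℝ) < c * k)
    (hFF : pr p p (fun x y => Touch G (F x) (F y)) ≤ c / (2 * k))
    {K : ℕ} (hK : 1 ≤ (K : ℝ) * (c / (2 * k))) (E : Fin K → Finset V)
    (hE : ∀ x, ConnSet G (E x)) (ha' : ∀ x, OmLe G (E x) a')
    (hEE : ∀ i j, i ≠ j → ¬ Touch G (E i) (E j)) :
    ∃ i, ms p (fun x => Touch G (F x) (E i)) < c := by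
  have hK0 : 0 < K := by
    rcases Nat.eq_zero_or_pos K with h | h
    · subst h
      norm_num at hK
    · exact h
  have hK0' : (0 : ℝ) < K := by exact_mod_cast hK0
  have hlaw : IsLaw (fun _ : Fin K => (1 : ℝ) / K) := by
    refine ⟨fun _ => by positivity, ?_⟩
    rw [Finset.sum_const, Finset.card_univ, Fintype.card_fin, nsmul_eq_mul]
    field_simp
  have hself : pr (fun _ : Fin K => (1 : ℝ) / K) (fun _ : Fin K => (1 : ℝ) / K)
      (fun x y => Touch G (E x) (E y)) ≤ c / (2 * k) := by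
    have h1 : pr (fun _ : Fin K => (1 : ℝ) / K) (fun _ : Fin K => (1 : ℝ) / K)
      (fun x y => Touch G (E x) (E y)) ≤ 1 / K := by
      calc pr (fun _ : Fin K => (1 : ℝ) / K) (fun _ : Fin K => (1 : ℝ) / K)
            (fun x y => Touch G (E x) (E y))
          ≤ ∑ x : Fin K, ∑ y : Fin K, (1 : ℝ) / K * (1 / K) * (if x = y then 1 else 0) := by
            refine Finset.sum_le_sum fun x _ => Finset.sum_le_sum fun y _ => ?_
            refine mul_le_mul_of_nonneg_left ?_ (by positivity)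
            by_cases hxy : x = y
            · rw [if_pos hxy]; split_ifs <;> norm_num
            · rw [if_neg hxy, if_neg (hEE x y hxy)]
        _ = 1 / K := by
            simp only [mul_ite, mul_one, mul_zero, Finset.sum_ite_eq, Finset.mem_univ, if_true,
              Finset.sum_const, Finset.card_univ, Fintype.card_fin, nsmul_eq_mul]
            field_simp
    refine h1.trans ?_
    rw [div_le_iff₀ hK0']
    linarith [mul_comm (K : ℝ) (c / (2 * k))]
  have hu := unified hG hp hlaw F E hF hE ha ha' haa hc hk hFF hself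
  by_contra hcon
  push Not at hcon
  have h1 : c ≤ pr p (fun _ : Fin K => (1 : ℝ) / K) (fun x y => Touch G (F x) (E y)) := by
    have h2 : pr p (fun _ : Fin K => (1 : ℝ) / K) (fun x y => Touch G (F x) (E y)) =
        ∑ i : Fin K, (1 : ℝ) / K * ms p (fun x => Touch G (F x) (E i)) := by
      unfold pr ms
      rw [Finset.sum_comm]
      refine Finset.sum_congr rfl fun i _ => ?_
      rw [Finset.mul_sum]
      refine Finset.sum_congr rfl fun x _ => ?_
      ring
    rw [h2]
    calc c = ∑ i : Fin K, (1 : ℝ) / K * c := by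
          rw [Finset.sum_const, Finset.card_univ, Fintype.card_fin, nsmul_eq_mul]
          field_simp
      _ ≤ _ := Finset.sum_le_sum fun i _ => mul_le_mul_of_nonneg_left (hcon i) (by positivity)
  linarith

/-- choose one element for every index so that no two are in conflict -/
theorem choose_all {ι : Type} [Fintype ι] {Ω : ι → Type} [∀ i, Fintype (Ω i)]
    (p : ∀ i, Ω i → ℝ) (hp : ∀ i, IsLaw (p i)) (Bad : ∀ i j, Ω i → Ω j → Prop) (c : ℝ)
    (hB : ∀ i j, i ≠ j → pr (p i) (p j) (Bad i j) ≤ c)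
    (hc : (Fintype.card ι : ℝ) ^ 2 * c < 1) :
    ∃ x : ∀ i, Ω i, ∀ i j, i ≠ j → ¬ Bad i j (x i) (x j) := by
  by_contra hcon
  push Not at hcon
  have h1 : ∑ x : ∀ i, Ω i, (∏ l, p l (x l)) = 1 := sum_prod_one p (fun i => (hp i).2)
  have h2 : ∀ x : ∀ i, Ω i, (1 : ℝ) ≤ ∑ q : ι × ι,
      (if (q.1 ≠ q.2 ∧ Bad q.1 q.2 (x q.1) (x q.2)) then (1 : ℝ) else 0) := by
    intro x
    obtain ⟨i, j, hij, hbad⟩ := hcon x
    have := Finset.single_le_sum (f := fun q : ι × ι =>
      (if (q.1 ≠ q.2 ∧ Bad q.1 q.2 (x q.1) (x q.2)) then (1 : ℝ) else 0))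
      (fun q _ => by split_ifs <;> norm_num) (Finset.mem_univ (i, j))
    simpa [hij, hbad] using this
  have h3 : (1 : ℝ) ≤ ∑ x : ∀ i, Ω i, (∏ l, p l (x l)) * ∑ q : ι × ι,
      (if (q.1 ≠ q.2 ∧ Bad q.1 q.2 (x q.1) (x q.2)) then (1 : ℝ) else 0) := by
    refine h1.symm.le.trans (Finset.sum_le_sum fun x _ => ?_)
    exact le_mul_of_one_le_right (Finset.prod_nonneg fun l _ => (hp l).1 _) (h2 x)
  have h4 : ∑ x : ∀ i, Ω i, (∏ l, p l (x l)) * ∑ q : ι × ι,
      (if (q.1 ≠ q.2 ∧ Bad q.1 q.2 (x q.1) (x q.2)) then (1 : ℝ) else 0) =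
      ∑ q : ι × ι, if q.1 ≠ q.2 then pr (p q.1) (p q.2) (Bad q.1 q.2) else 0 := by
    have h5 : ∑ x : ∀ i, Ω i, (∏ l, p l (x l)) * ∑ q : ι × ι,
        (if (q.1 ≠ q.2 ∧ Bad q.1 q.2 (x q.1) (x q.2)) then (1 : ℝ) else 0) =
        ∑ q : ι × ι, ∑ x : ∀ i, Ω i, (∏ l, p l (x l)) *
        (if (q.1 ≠ q.2 ∧ Bad q.1 q.2 (x q.1) (x q.2)) then (1 : ℝ) else 0) := by
      rw [Finset.sum_comm]
      refine Finset.sum_congr rfl fun x _ => ?_
      rw [Finset.mul_sum]
    rw [h5]
    refine Finset.sum_congr rfl ?_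
    rintro ⟨i, j⟩ -
    by_cases hij : i = j
    · simp [hij]
    · simp only [ne_eq, hij, not_false_eq_true, true_and, if_true]
      rw [sum_prod_two_coord p (fun i => (hp i).2) hij
        (fun a b => if Bad i j a b then (1 : ℝ) else 0)]
      rfl
  rw [h4, ← Finset.sum_filter] at h3
  rcases le_or_gt 0 c with hc0 | hc0
  · have h5 : ∑ q ∈ (univ : Finset (ι × ι)).filter (fun q => q.1 ≠ q.2),
        pr (p q.1) (p q.2) (Bad q.1 q.2) ≤
        ((univ : Finset (ι × ι)).filter (fun q => q.1 ≠ q.2)).card • c :=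
      Finset.sum_le_card_nsmul _ _ _ fun q hq => hB _ _ (Finset.mem_filter.mp hq).2
    have h6 : (((univ : Finset (ι × ι)).filter (fun q => q.1 ≠ q.2)).card : ℝ) ≤
        (Fintype.card ι : ℝ) ^ 2 := by
      have := Finset.card_le_univ ((univ : Finset (ι × ι)).filter (fun q => q.1 ≠ q.2))
      rw [Fintype.card_prod] at this
      have h7 : (((univ : Finset (ι × ι)).filter (fun q => q.1 ≠ q.2)).card : ℝ) ≤
        ((Fintype.card ι * Fintype.card ι : ℕ) : ℝ) := by exact_mod_cast this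
      rw [Nat.cast_mul] at h7
      rw [pow_two]
      exact h7
    rw [nsmul_eq_mul] at h5
    have h8 := mul_le_mul_of_nonneg_right h6 hc0
    linarith
  · have h5 : ∑ q ∈ (univ : Finset (ι × ι)).filter (fun q => q.1 ≠ q.2),
        pr (p q.1) (p q.2) (Bad q.1 q.2) ≤ 0 :=
      Finset.sum_nonpos fun q hq => (hB _ _ (Finset.mem_filter.mp hq).2).trans hc0.le
    linarith

end Pool.Agent.Work.MP_44e7ab_co
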