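import Mathlib
import Pool.Agent.Work.MP_44e7ab_co.Q1.TiledBasics
import Pool.Agent.Work.MP_44e7ab_co.Q1.Unified

set_option autoImplicit false

/-! M7b: Lemma I. -/

namespace Pool.Agent.Work.MP_44e7ab_co

open Finset Classical

theorem ends_card (lo hi : ℕ) : (ends lo hi).card ≤ 2 := Finset.card_le_two

theorem sum_le_card_mul {ι : Type} (s : Finset ι) (f : ι → ℝ) {c : ℝ} {n : ℕ} (hc : 0 ≤ c)
    (hs : s.card ≤ n) (h : ∀ i ∈ s, f i ≤ c) : ∑ i ∈ s, f i ≤ n * c := by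
  calc ∑ i ∈ s, f i ≤ ∑ _i ∈ s, c := Finset.sum_le_sum h
    _ = s.card * c := by rw [Finset.sum_const, nsmul_eq_mul]
    _ ≤ n * c := by
        apply mul_le_mul_of_nonneg_right _ hc
        exact_mod_cast hs

theorem lemmaI (P : ℕ) (κ : ℝ) (hκ : 0 < κ) : ∃ τ : ℝ, 0 < τ ∧ ∃ ε : ℝ, 0 < ε ∧
    ∀ (V : Type) [Fintype V] (G : SimpleGraph V), PWB G P →
    ∀ (l r : V → ℕ) (D : ℕ) (Ω : Type) [Fintype Ω] (b : Ω → Finset V), Tiled G l r D b →
    ∀ w : Ω → ℝ, IsLaw w → HubSmall G l r b w ε → ∀ u0 u1 lo hi : ℕ,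
    κ ≤ TT G l r b w u0 u1 lo hi →
    τ ≤ pr w w (fun x y => Touch G (nwin l r lo hi (b x)) (nwin l r lo hi (b y))) := by
  set c : ℝ := κ / 8 with hc
  have hc0 : 0 < c := by positivity
  set k : ℕ := ⌊4 * (P : ℝ) / c⌋₊ + 1 with hk
  have hk1 : 4 * (P : ℝ) < c * k := by
    have h1 := Nat.lt_floor_add_one (4 * (P : ℝ) / c)
    rw [div_lt_iff₀ hc0] at h1
    rw [hk]
    push_cast
    linarith
  have hk0 : (0 : ℝ) < k := by rw [hk]; positivity
  have hck : 0 < c / (2 * k) := by positivity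
  refine ⟨min (κ / 8) (c / (2 * k)), lt_min (by positivity) hck,
    min (κ / 32) (c / (2 * k)), lt_min (by positivity) hck, ?_⟩
  intro V _ G hG l r D Ω _ b hT w hw hH u0 u1 lo hi hTT
  by_contra hcon
  push Not at hcon
  set ε := min (κ / 32) (c / (2 * k)) with hε
  have hε1 : ε ≤ κ / 32 := min_le_left _ _
  have hε2 : ε ≤ c / (2 * k) := min_le_right _ _
  have hε0 : 0 ≤ ε := (lt_min (by positivity) hck).le
  have hFF := hcon.le.trans (min_le_right _ _)
  have hFF' := hcon.le.trans (min_le_left _ _)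
  have hhub : ∀ q, pr w w (fun x y => Touch G (nwin l r lo hi (b x)) (hub l r q (b y))) < c := by
    intro q
    exact unified hG hw hw (fun x => nwin l r lo hi (b x)) (fun x => hub l r q (b x))
      (fun x => tiled_conn_nwin hT x lo hi)
      (fun x => connSet_of_card_le_one (hub_card_le hT x q))
      (a := 2) (a' := 1)
      (fun x => (tiled_omLe hT x).mono (Finset.filter_subset _ _))
      (fun x => omLe_of_card_le (hub_card_le hT x q)) (by norm_num) hc0 hk1 hFF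
      ((hH q q).trans hε2)
  have hhub' : ∀ q, pr w w (fun x y => Touch G (hub l r q (b x)) (nwin l r lo hi (b y))) < c := by
    intro q
    rw [pr_comm]
    refine lt_of_le_of_lt ?_ (hhub q)
    apply pr_mono hw.1 hw.1
    intro x y h
    exact h.symm
  have hsplit : TT G l r b w u0 u1 lo hi ≤
      pr w w (fun x y => Touch G (nwin l r lo hi (b x)) (nwin l r lo hi (b y))) +
      (pr w w (fun x y => ∃ q ∈ ends lo hi, Touch G (hub l r q (b x)) (nwin l r lo hi (b y))) +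
      (pr w w (fun x y => ∃ q ∈ ends lo hi, Touch G (nwin l r lo hi (b x)) (hub l r q (b y))) +
      pr w w (fun x y => ∃ i ∈ ends lo hi ×ˢ ends lo hi,
        Touch G (hub l r i.1 (b x)) (hub l r i.2 (b y))))) := by
    refine le_trans ?_ (add_le_add_right (add_le_add_right (pr_or_le hw.1 hw.1 _ _) _) _)
    refine le_trans ?_ (add_le_add_right (pr_or_le hw.1 hw.1 _ _) _)
    refine le_trans ?_ (pr_or_le hw.1 hw.1 _ _)
    unfold TT
    apply pr_mono hw.1 hw.1
    rintro x y ⟨e, h1, h2, u, hu, v, hv, huv, h3, h4, h5, h6⟩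
    have hu' : u ∈ b x := (Finset.filter_subset _ _) hu
    have hv' : v ∈ b y := (Finset.filter_subset _ _) hv
    rcases mem_nwin_or_hub hu' h1 h2 h3 h4 with ha | ⟨q, hq, ha⟩
    · rcases mem_nwin_or_hub hv' h1 h2 h5 h6 with hb | ⟨q', hq', hb⟩
      · exact Or.inl ⟨u, ha, v, hb, huv⟩
      · exact Or.inr (Or.inr (Or.inl ⟨q', hq', u, ha, v, hb, huv⟩))
    · rcases mem_nwin_or_hub hv' h1 h2 h5 h6 with hb | ⟨q', hq', hb⟩
      · exact Or.inr (Or.inl ⟨q, hq, u, ha, v, hb, huv⟩)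
      · exact Or.inr (Or.inr (Or.inr ⟨(q, q'), Finset.mem_product.mpr ⟨hq, hq'⟩,
          u, ha, v, hb, huv⟩))
  have e1 : pr w w (fun x y => ∃ q ∈ ends lo hi,
      Touch G (hub l r q (b x)) (nwin l r lo hi (b y))) ≤ (2 : ℕ) * c :=
    (pr_exists_le hw.1 hw.1 _ _).trans
      (sum_le_card_mul _ _ hc0.le (ends_card lo hi) (fun q _ => (hhub' q).le))
  have e2 : pr w w (fun x y => ∃ q ∈ ends lo hi,
      Touch G (nwin l r lo hi (b x)) (hub l r q (b y))) ≤ (2 : ℕ) * c :=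
    (pr_exists_le hw.1 hw.1 _ _).trans
      (sum_le_card_mul _ _ hc0.le (ends_card lo hi) (fun q _ => (hhub q).le))
  have e3 : pr w w (fun x y => ∃ i ∈ ends lo hi ×ˢ ends lo hi,
        Touch G (hub l r i.1 (b x)) (hub l r i.2 (b y))) ≤ (4 : ℕ) * ε := by
    refine (pr_exists_le hw.1 hw.1 _ _).trans
      (sum_le_card_mul _ _ hε0 ?_ (fun i _ => hH i.1 i.2))
    rw [Finset.card_product]
    exact (Nat.mul_le_mul (ends_card lo hi) (ends_card lo hi))
  push_cast at e1 e2 e3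
  rw [hc] at e1 e2
  linarith

end Pool.Agent.Work.MP_44e7ab_co
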