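import Mathlib
import Pool.Agent.Work.MP_44e7ab_co.Q1.Defs

set_option autoImplicit false

namespace Pool.Agent.Work.MP_44e7ab_co

open Finset Classical

/-- greedy choice of disjoint windows for a subadditive function of windows -/
theorem greedy_windows (T : ℕ → ℕ → ℝ) {δ κ : ℝ}
    (hsub : ∀ a m b, a ≤ m → m < b → T a b ≤ T a m + T (m + 1) b)
    (hsing : ∀ e, T e e ≤ δ) (hκ : 0 < κ) (hδ : 0 ≤ δ) (n : ℕ) :
    ∀ a b : ℕ, a ≤ b → (n : ℝ) * (κ + δ) ≤ T a b → ∃ p q : ℕ → ℕ,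
      (∀ k < n, a ≤ p k ∧ p k ≤ q k ∧ q k ≤ b ∧ κ ≤ T (p k) (q k) ∧ T (p k) (q k) ≤ κ + δ) ∧
      (∀ i j, i < j → j < n → q i < p j) := by
  induction n with
  | zero =>
    intro a b _ _
    exact ⟨fun _ => 0, fun _ => 0, by simp, by intro i j _ h; omega⟩
  | succ n ih =>
    intro a b hab h
    push_cast at h
    have hnn : 0 ≤ (n : ℝ) * (κ + δ) := by positivity
    have hTpos : κ ≤ T a b := by nlinarith
    -- the first q with κ ≤ T a q
    have hex : ∃ q, a ≤ q ∧ κ ≤ T a q := ⟨b, hab, hTpos⟩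
    set q0 := Nat.find hex with hq0
    have hq0s : κ ≤ T a q0 := (Nat.find_spec hex).2
    have hq0b : q0 ≤ b := Nat.find_min' hex ⟨hab, hTpos⟩
    have hq0a : a ≤ q0 := (Nat.find_spec hex).1
    have hq0u : T a q0 ≤ κ + δ := by
      rcases Nat.eq_or_lt_of_le hq0a with h1 | h1
      · rw [← h1]
        have := hsing a
        linarith
      · obtain ⟨q1, hq1⟩ : ∃ q1, q0 = q1 + 1 := ⟨q0 - 1, by omega⟩
        have h2 : ¬ (a ≤ q1 ∧ κ ≤ T a q1) := Nat.find_min hex (by omega)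
        have h2' : ¬ κ ≤ T a q1 := fun h => h2 ⟨by omega, h⟩
        push Not at h2'
        have h3 := hsub a q1 q0 (by omega) (by omega)
        rw [hq1] at h3 ⊢
        have h4 := hsing (q1 + 1)
        linarith
    by_cases hn : n = 0
    · subst hn
      refine ⟨fun _ => a, fun _ => q0, ?_, ?_⟩
      · intro k _
        exact ⟨le_rfl, hq0a, hq0b, hq0s, hq0u⟩
      · intro i j hij hj
        omega
    · have hn1 : (1 : ℝ) ≤ n := by exact_mod_cast (by omega : 1 ≤ n)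
      have hq0b' : q0 < b := by
        rcases Nat.eq_or_lt_of_le hq0b with h1 | h1
        · exfalso
          rw [← h1] at h
          nlinarith
        · exact h1
      have h5 := hsub a q0 b hq0a hq0b'
      obtain ⟨p, q, h6, h7⟩ := ih (q0 + 1) b (by omega) (by linarith)
      refine ⟨fun k => if k = 0 then a else p (k - 1), fun k => if k = 0 then q0 else q (k - 1), ?_, ?_⟩
      · intro k hk
        by_cases hk0 : k = 0
        · simp only [hk0, if_true]
          exact ⟨le_rfl, hq0a, hq0b, hq0s, hq0u⟩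
        · simp only [hk0, if_false]
          obtain ⟨h8, h9, h10, h11, h12⟩ := h6 (k - 1) (by omega)
          exact ⟨by omega, h9, h10, h11, h12⟩
      · intro i j hij hj
        have hj0 : j ≠ 0 := by omega
        by_cases hi0 : i = 0
        · simp only [hi0, hj0, if_true, if_false]
          have := (h6 (j - 1) (by omega)).1
          omega
        · simp only [hi0, hj0, if_false]
          exact h7 (i - 1) (j - 1) (by omega) (by omega)

/-- abstract greedy cutting -/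
theorem greedy_cut (g : ℕ → ℕ → ℝ) {δ κ : ℝ} (hδ : 0 ≤ δ) (hκ : 0 < κ)
    (hsub : ∀ a m c, a ≤ m → m < c → g a c ≤ g a m + g (m + 1) c) (hpt : ∀ e, g e e ≤ δ)
    (n : ℕ) (lo hi : ℕ) (hlh : lo ≤ hi) (hn : (n : ℝ) * (κ + δ) ≤ g lo hi) :
    ∃ a c : Fin n → ℕ, (∀ i, lo ≤ a i ∧ a i ≤ c i ∧ c i ≤ hi) ∧
      (∀ i, κ ≤ g (a i) (c i) ∧ g (a i) (c i) ≤ κ + δ) ∧ ∀ i j, i < j → c i < a j := by
  obtain ⟨p, q, h1, h2⟩ := greedy_windows g hsub hpt hκ hδ n lo hi hlh hn
  refine ⟨fun i => p i, fun i => q i, ?_, ?_, ?_⟩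
  · intro i
    obtain ⟨h3, h4, h5, _, _⟩ := h1 i i.2
    exact ⟨h3, h4, h5⟩
  · intro i
    obtain ⟨_, _, _, h6, h7⟩ := h1 i i.2
    exact ⟨h6, h7⟩
  · intro i j hij
    exact h2 i j hij j.2

end Pool.Agent.Work.MP_44e7ab_co
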