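import Mathlib
import Pool.Agent.Work.MP_44e7ab_co.Q1.LemmaI
import Pool.Agent.Work.MP_44e7ab_co.Q1.Greedy
import Pool.Agent.Work.MP_44e7ab_co.Q1.Hub

set_option autoImplicit false

/-! M7d: peeling. -/

namespace Pool.Agent.Work.MP_44e7ab_co

open Finset Classical

theorem Spread.mono {V : Type} {G : SimpleGraph V} {P : ℕ} {Ω : Type} [Fintype Ω] {w : Ω → ℝ}
    {b b' : Ω → Finset V} {η η' : ℝ} (hw : ∀ x, 0 ≤ w x) (h : Spread G P w b η)
    (hb : ∀ ω, b' ω ⊆ b ω) (hη : η ≤ η') : Spread G P w b' η' := by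
  intro X hX
  refine (ms_mono hw ?_).trans ((h X hX).trans hη)
  intro ω h1 h2
  exact h1 (h2.mono_left (hb ω))

theorem hubSmall_of_spread {P : ℕ} {ε η : ℝ}
    (hη : ∀ (V : Type) [Fintype V] (G : SimpleGraph V), PWB G P →
      ∀ (Ω Ω' : Type) [Fintype Ω] [Fintype Ω'] (p : Ω → ℝ) (q : Ω' → ℝ), IsLaw p → IsLaw q →
      ∀ (h : Ω → Finset V) (h' : Ω' → Finset V), (∀ x, (h x).card ≤ 1) →
      (∀ x, (h' x).card ≤ 1) → Spread G P p h η → Spread G P q h' η →
      pr p q (fun x y => Touch G (h x) (h' y)) ≤ ε)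
    {V : Type} [Fintype V] {G : SimpleGraph V} (hG : PWB G P) {l r : V → ℕ} {D : ℕ} {Ω : Type}
    [Fintype Ω] {b : Ω → Finset V} (hT : Tiled G l r D b) {w : Ω → ℝ} (hw : IsLaw w) {η' : ℝ}
    (hs : Spread G P w b η') (hη' : η' ≤ η) : HubSmall G l r b w ε := by
  intro e e'
  exact hη V G hG Ω Ω w w hw hw (fun x => hub l r e (b x)) (fun x => hub l r e' (b x))
    (fun x => hub_card_le hT x e) (fun x => hub_card_le hT x e')
    (hs.mono hw.1 (fun ω => hub_subset e _) hη') (hs.mono hw.1 (fun ω => hub_subset e' _) hη')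

theorem exists_k (P : ℕ) {c : ℝ} (hc : 0 < c) : ∃ k : ℕ, 4 * (P : ℝ) < c * k ∧ 1 ≤ k := by
  refine ⟨⌊4 * (P : ℝ) / c⌋₊ + 1, ?_, by omega⟩
  have h1 := Nat.lt_floor_add_one (4 * (P : ℝ) / c)
  rw [div_lt_iff₀ hc] at h1
  push_cast
  linarith

theorem exists_K {τ : ℝ} (hτ : 0 < τ) : ∃ K : ℕ, 1 ≤ (K : ℝ) * τ ∧ 1 ≤ K := by
  refine ⟨⌈1 / τ⌉₊ + 1, ?_, by omega⟩
  have h1 := Nat.le_ceil (1 / τ)
  rw [div_le_iff₀ hτ] at h1
  push_cast
  nlinarith

/-- if a property fails for too many windows, one of the types is heavy for `K` of them -/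
theorem pigeon_option {n K nQ : ℕ} (Q : Finset ℕ) (hQ : Q.card ≤ nQ) (hK : 1 ≤ K)
    (hn : n = K * (nQ + 1)) (R : Fin n → Prop) (H : ℕ → Fin n → Prop)
    (h : ∀ i, R i ∨ ∃ q ∈ Q, H q i) :
    (∃ e : Fin K → Fin n, Function.Injective e ∧ ∀ i, R (e i)) ∨
    ∃ q ∈ Q, ∃ e : Fin K → Fin n, Function.Injective e ∧ ∀ i, H q (e i) := by
  have hf : ∀ i, ∃ o : Option ℕ, o ∈ insert none (Q.image some) ∧
      ((o = none ∧ R i) ∨ ∃ q ∈ Q, o = some q ∧ H q i) := by
    intro i
    rcases h i with hR | ⟨q, hq, hH⟩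
    · exact ⟨none, by simp, Or.inl ⟨rfl, hR⟩⟩
    · exact ⟨some q, by simp [hq], Or.inr ⟨q, hq, rfl, hH⟩⟩
  choose f hf1 hf2 using hf
  have hcard : (insert none (Q.image some) : Finset (Option ℕ)).card * K ≤
      (univ : Finset (Fin n)).card := by
    rw [Finset.card_univ, Fintype.card_fin, hn]
    have h1 : (insert none (Q.image some) : Finset (Option ℕ)).card ≤ nQ + 1 := by
      refine (Finset.card_insert_le _ _).trans ?_
      have := Finset.card_image_le (s := Q) (f := (some : ℕ → Option ℕ))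
      omega
    calc _ ≤ (nQ + 1) * K := Nat.mul_le_mul_right _ h1
      _ = K * (nQ + 1) := Nat.mul_comm _ _
  obtain ⟨y, hy, hyc⟩ := Finset.exists_le_card_fiber_of_mul_le_card_of_maps_to
    (s := (univ : Finset (Fin n))) (t := insert none (Q.image some)) (f := f)
    (fun i _ => hf1 i) ⟨none, by simp⟩ hcard
  obtain ⟨T, hT, hTc⟩ := Finset.exists_subset_card_eq hyc
  have hinj : Function.Injective (fun i : Fin K => (T.orderEmbOfFin hTc i : Fin n)) :=
    (T.orderEmbOfFin hTc).injective
  have hmem : ∀ i : Fin K, f (T.orderEmbOfFin hTc i) = y := by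
    intro i
    have := hT (T.orderEmbOfFin_mem hTc i)
    exact (Finset.mem_filter.mp this).2
  have hK0 : 0 < K := hK
  rcases hf2 (T.orderEmbOfFin hTc ⟨0, hK0⟩) with ⟨h0, _⟩ | ⟨q, hq, h0, _⟩
  · left
    refine ⟨_, hinj, ?_⟩
    intro i
    rcases hf2 (T.orderEmbOfFin hTc i) with ⟨_, h1⟩ | ⟨q, _, h1, _⟩
    · exact h1
    · rw [hmem i, ← hmem ⟨0, hK0⟩, h0] at h1
      exact absurd h1 (by simp)
  · right
    refine ⟨q, hq, _, hinj, ?_⟩
    intro i
    rcases hf2 (T.orderEmbOfFin hTc i) with ⟨h1, _⟩ | ⟨q', _, h1, h2⟩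
    · rw [hmem i, ← hmem ⟨0, hK0⟩, h0] at h1
      exact absurd h1 (by simp)
    · rw [hmem i, ← hmem ⟨0, hK0⟩, h0] at h1
      have : q = q' := Option.some_injective _ h1
      rw [this]
      exact h2

theorem le_ms {Ω : Type} [Fintype Ω] {w : Ω → ℝ} (hw : ∀ x, 0 ≤ w x) {Q : Ω → Prop} {c : Ω}
    (h : Q c) : w c ≤ ms w Q := by
  unfold ms
  have h1 : w c = w c * (if Q c then 1 else 0) := by rw [if_pos h, mul_one]
  rw [h1]
  exact Finset.single_le_sum (f := fun x => w x * (if Q x then (1 : ℝ) else 0))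
    (fun x _ => mul_nonneg (hw x) (by split_ifs <;> norm_num)) (mem_univ c)

theorem pos_of_pwb {V : Type} {G : SimpleGraph V} {P : ℕ} (hG : PWB G P) (v : V) : 1 ≤ P := by
  obtain ⟨n, X, h1, h2, h3, h4, h5⟩ := hG {v} (by
    intro C hC _
    have := Finset.card_le_card hC
    rw [Finset.card_singleton] at this
    omega)
  obtain ⟨i, hi⟩ := h2 v (by simp)
  have := Finset.card_pos.mpr ⟨v, hi⟩
  have := h5 i
  omega

/-- the atoms of a spread law -/
theorem atom_le {V : Type} {G : SimpleGraph V} {P : ℕ} (hG : PWB G P) {Ω : Type} [Fintype Ω]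
    {w : Ω → ℝ} (hw : ∀ x, 0 ≤ w x) {b : Ω → Finset V} {η : ℝ} (hs : Spread G P w b η) {c : Ω}
    {v : V} (hv : v ∈ b c) : w c ≤ η := by
  have hP := pos_of_pwb hG v
  refine le_trans ?_ (hs {v} ?_)
  · apply le_ms hw
    rw [Finset.disjoint_singleton_right]
    exact fun h => h hv
  · intro I hI _
    have := Finset.card_le_card hI
    rw [Finset.card_singleton] at this
    omega

/-- sums over `N` of a mass -/
theorem find_carrier (P j : ℕ) (ih : ∀ t : ℝ, 0 < t → RankAt P j t) (κ c3 : ℝ) (hκ : 0 < κ)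
    (hc3 : 0 < c3) (hc3' : c3 ≤ κ / 48) (nQ : ℕ) :
    ∃ η : ℝ, 0 < η ∧ ∀ (V : Type) [Fintype V] (G : SimpleGraph V), PWB G P →
      ∀ (l r : V → ℕ) (D : ℕ) (Ω : Type) [Fintype Ω] (b : Ω → Finset V), Tiled G l r D b →
      ∀ w : Ω → ℝ, IsLaw w → Spread G P w b η → ∀ (u0 u1 lo hi : ℕ), lo ≤ hi →
      ∀ Q : Finset ℕ, Q.card ≤ nQ → ∀ X : Ω → Prop,
      κ / 4 < pr w w (fun s t => X s ∧ X t ∧ cont G l r u0 u1 lo hi (b s) (b t)) →
      ∃ c, X c ∧ 0 < w c ∧ ∃ H : Finset V, RStr G l r j lo hi (b c) H ∧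
        ms w (fun ω => X ω ∧ Touch G (nwin l r u0 u1 (b ω)) H) ≤ c3 ∧
        ∀ q ∈ Q, ms w (fun ω => Touch G (hub l r q (b ω)) H) ≤ c3 := by
  obtain ⟨k, hk, hk1⟩ := exists_k P hc3
  have hk0 : (0 : ℝ) < k := by exact_mod_cast hk1
  set τ3 : ℝ := c3 / (2 * k) with hτ3
  have hτ30 : 0 < τ3 := by positivity
  have hτ3c : τ3 ≤ c3 / 2 := by
    rw [hτ3]
    apply div_le_div_of_nonneg_left hc3.le (by norm_num)
    have : (1 : ℝ) ≤ k := by exact_mod_cast hk1
    linarith
  obtain ⟨K, hK, hK1⟩ := exists_K hτ30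
  set n : ℕ := K * (nQ + 1) with hn
  have hn0 : (0 : ℝ) < n := by
    have : 0 < n := by rw [hn]; positivity
    exact_mod_cast this
  set κ' : ℝ := τ3 / (4 * n) with hκ'
  have hκ'0 : 0 < κ' := by positivity
  obtain ⟨τ, hτ, εI, hεI, hI⟩ := lemmaI P κ' hκ'0
  obtain ⟨ηj, hηj, hrank⟩ := ih τ hτ
  set ε : ℝ := min εI (min (κ' / 4) (τ3 / 8)) with hε
  have hε0 : 0 < ε := lt_min hεI (lt_min (by positivity) (by positivity))
  have hε1 : ε ≤ εI := min_le_left _ _
  have hε2 : ε ≤ κ' / 4 := (min_le_right _ _).trans (min_le_left _ _)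
  have hε3 : ε ≤ τ3 / 8 := (min_le_right _ _).trans (min_le_right _ _)
  obtain ⟨ηH, hηH, hhub⟩ := hub_density P ε hε0
  set ξ : ℝ := min (κ / 4) 1 with hξ
  have hξ0 : 0 < ξ := lt_min (by positivity) one_pos
  have hξ1 : ξ ≤ 1 := min_le_right _ _
  set η0 : ℝ := min ηH ηj with hη0
  have hη00 : 0 < η0 := lt_min hηH hηj
  refine ⟨η0 * ξ, by positivity, ?_⟩
  intro V _ G hG l r D Ω _ b hT w hw hs u0 u1 lo hi hlh Q hQ X hX
  -- mass of X
  have hXpr : pr w w (fun s t => X s ∧ X t ∧ cont G l r u0 u1 lo hi (b s) (b t)) ≤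
      ms w X * ms w X := by
    rw [pr_eq_ms]
    unfold ms
    rw [Finset.sum_mul]
    apply Finset.sum_le_sum
    intro x _
    rw [mul_assoc]
    apply mul_le_mul_of_nonneg_left _ (hw.1 x)
    by_cases hx : X x
    · rw [if_pos hx, one_mul]
      apply Finset.sum_le_sum
      intro y _
      apply mul_le_mul_of_nonneg_left _ (hw.1 y)
      by_cases hy : X y
      · rw [if_pos hy]
        split_ifs <;> norm_num
      · rw [if_neg hy, if_neg (by tauto)]
    · rw [if_neg hx, zero_mul]
      apply le_of_eq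
      apply Finset.sum_eq_zero
      intro y _
      rw [if_neg (by tauto), mul_zero]
  have hX0 := ms_nonneg hw.1 X
  have hX1 := ms_le_one hw X
  have hXκ : κ / 4 < ms w X := by nlinarith
  have hXpos : 0 < ms w X := by linarith
  have hXξ : ξ ≤ ms w X := (min_le_left _ _).trans hXκ.le
  set wN := cnd w X with hwN
  have hwNlaw : IsLaw wN := cnd_isLaw hw.1 hXpos
  have hsN : Spread G P wN b η0 := by
    have := spread_cnd hw.1 (by positivity) hs hξ0 hXξ
    rw [mul_div_assoc, div_self hξ0.ne', mul_one] at this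
    exact this
  have hs' : Spread G P w b η0 := by
    apply hs.mono hw.1 (fun _ => Finset.Subset.refl _)
    nlinarith
  have hHN : HubSmall G l r b wN ε :=
    hubSmall_of_spread hhub hG hT hwNlaw hsN (min_le_left _ _)
  have hH : HubSmall G l r b w ε :=
    hubSmall_of_spread hhub hG hT hw hs' (min_le_left _ _)
  have hTN : κ / 4 ≤ TT G l r b wN u0 u1 lo hi := by
    unfold TT
    rw [hwN, pr_cnd]
    rw [le_div_iff₀ (by positivity)]
    have : κ / 4 * (ms w X * ms w X) ≤ κ / 4 * 1 := by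
      apply mul_le_mul_of_nonneg_left _ (by positivity)
      nlinarith
    linarith
  -- the block
  obtain ⟨a0, c0, h1, h2, _⟩ := greedy_cut (fun a c => TT G l r b wN u0 u1 a c)
    (δ := 4 * ε) (κ := τ3 / 2) (by positivity) (by positivity)
    (fun a m c ha hb => TT_sub hwNlaw.1 u0 u1 a m c ha hb)
    (fun e => TT_point hT hwNlaw.1 hHN u0 u1 e) 1 lo hi hlh (by
      push_cast
      refine le_trans ?_ hTN
      linarith)
  have hB1 := (h2 0).1
  have hB2 := (h2 0).2
  have hB3 : TT G l r b wN u0 u1 (a0 0) (c0 0) ≤ τ3 := by linarith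
  obtain ⟨a, c, h3, h4, h5⟩ := greedy_cut (fun a c => TT G l r b wN u0 u1 a c)
    (δ := 4 * ε) (κ := κ') (by positivity) hκ'0
    (fun a m c ha hb => TT_sub hwNlaw.1 u0 u1 a m c ha hb)
    (fun e => TT_point hT hwNlaw.1 hHN u0 u1 e) n (a0 0) (c0 0) (h1 0).2.1 (by
      refine le_trans ?_ hB1
      have e1 : (n : ℝ) * (κ' + 4 * ε) ≤ n * (2 * κ') := by
        apply mul_le_mul_of_nonneg_left _ hn0.le
        linarith
      have e2 : (n : ℝ) * (2 * κ') = τ3 / 2 := by
        rw [hκ']; field_simp; ring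
      linarith)
  have hdis : ∀ i j, i ≠ j → c i < a j ∨ c j < a i := by
    intro i j hij
    rcases lt_or_gt_of_ne hij with h | h
    · exact Or.inl (h5 i j h)
    · exact Or.inr (h5 j i h)
  -- a clean window
  have hclean : ∃ i : Fin n,
      (∀ E : Finset V, (∀ v ∈ E, a i ≤ l v ∧ r v ≤ c i) → ConnSet G E → OmLe G E 5 →
        ms wN (fun ω => Touch G (nwin l r u0 u1 (b ω)) E) < c3) ∧
      ∀ q ∈ Q, ∀ E : Finset V, (∀ v ∈ E, a i ≤ l v ∧ r v ≤ c i) → ConnSet G E → OmLe G E 5 →
        ms w (fun ω => Touch G (hub l r q (b ω)) E) < c3 := by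
    by_contra hcon
    push Not at hcon
    have hcon' : ∀ i : Fin n,
        (∃ E : Finset V, (∀ v ∈ E, a i ≤ l v ∧ r v ≤ c i) ∧ ConnSet G E ∧ OmLe G E 5 ∧
          c3 ≤ ms wN (fun ω => Touch G (nwin l r u0 u1 (b ω)) E)) ∨
        ∃ q ∈ Q, ∃ E : Finset V, (∀ v ∈ E, a i ≤ l v ∧ r v ≤ c i) ∧ ConnSet G E ∧ OmLe G E 5 ∧
          c3 ≤ ms w (fun ω => Touch G (hub l r q (b ω)) E) := by
      intro i
      by_cases hR : ∃ E : Finset V, (∀ v ∈ E, a i ≤ l v ∧ r v ≤ c i) ∧ ConnSet G E ∧
          OmLe G E 5 ∧ c3 ≤ ms wN (fun ω => Touch G (nwin l r u0 u1 (b ω)) E)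
      · exact Or.inl hR
      · right
        push Not at hR
        obtain ⟨q, hq, E, e1, e2, e3, e4⟩ := hcon i (fun E e1 e2 e3 => hR E e1 e2 e3)
        exact ⟨q, hq, E, e1, e2, e3, e4⟩
    rcases pigeon_option Q hQ hK1 hn _ (fun q i => ∃ E : Finset V,
        (∀ v ∈ E, a i ≤ l v ∧ r v ≤ c i) ∧ ConnSet G E ∧ OmLe G E 5 ∧
          c3 ≤ ms w (fun ω => Touch G (hub l r q (b ω)) E)) hcon' with
      ⟨e, he, hE⟩ | ⟨q, hq, e, he, hE⟩
    · choose E hE1 hE2 hE3 hE4 using hE
      obtain ⟨i, hi⟩ := few_heavy hG hwNlaw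
        (fun ω => mwin l r (a0 0) (c0 0) (nwin l r u0 u1 (b ω)))
        (fun ω => tiled_conn_mwin hT ω u0 u1 _ _) (a := 2) (a' := 5)
        (fun ω => (tiled_omLe hT ω).mono
          ((Finset.filter_subset _ _).trans (Finset.filter_subset _ _)))
        (by norm_num) hc3 hk (by
          refine le_trans (le_of_eq ?_) hB3
          unfold TT
          congr 1
          funext x y
          exact propext (cont_iff_touch_mwin hT u0 u1 _ _ (h1 0).2.1 x y).symm)
        hK E hE2 hE3 (fun i j hij => not_touch_of_windows hT (hE1 i) (hE1 j)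
          (hdis _ _ (fun h => hij (he h))))
      have h7 := hE4 i
      have h8 : ms wN (fun ω => Touch G (nwin l r u0 u1 (b ω)) (E i)) ≤
          ms wN (fun ω => Touch G (mwin l r (a0 0) (c0 0) (nwin l r u0 u1 (b ω))) (E i)) := by
        apply ms_mono hwNlaw.1
        rintro ω ⟨u, hu, v, hv, huv⟩
        refine ⟨u, ?_, v, hv, huv⟩
        have hv1 := hE1 i v hv
        have hv2 := h3 (e i)
        have hp := touch_pos hT huv
        have := hT.lt v
        simp only [mwin, Finset.mem_filter]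
        exact ⟨hu, by omega, by omega⟩
      linarith
    · choose E hE1 hE2 hE3 hE4 using hE
      obtain ⟨i, hi⟩ := few_heavy hG hw (fun ω => hub l r q (b ω))
        (fun ω => connSet_of_card_le_one (hub_card_le hT ω q)) (a := 1) (a' := 5)
        (fun ω => omLe_of_card_le (hub_card_le hT ω q)) (by norm_num) hc3 hk
        ((hH q q).trans (by linarith))
        hK E hE2 hE3 (fun i j hij => not_touch_of_windows hT (hE1 i) (hE1 j)
          (hdis _ _ (fun h => hij (he h))))
      have h7 := hE4 i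
      linarith
  obtain ⟨i, hi1, hi2⟩ := hclean
  have hTi := (h4 i).1
  have hprI := hI V G hG l r D Ω b hT wN hwNlaw
    (fun e e' => (hHN e e').trans hε1) u0 u1 (a i) (c i) hTi
  obtain ⟨cc, hcc, H, hH1, hH2, hH3, hH4, hH5⟩ := hrank V G hG l r D Ω b hT wN hwNlaw
    (hsN.mono hwNlaw.1 (fun _ => Finset.Subset.refl _) (min_le_right _ _)) (a i) (c i) hprI
  obtain ⟨hccX, hccw⟩ := cnd_pos hXpos hcc
  have h3i := h3 i
  have h10 := h1 0
  have hHom : OmLe G H 5 := hH4.mono Finset.subset_union_right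
  refine ⟨cc, hccX, hccw, H, ⟨?_, hH2, hH3, hH4, hH5⟩, ?_, ?_⟩
  · intro v hv
    have := hH1 v hv
    omega
  · have h6 := hi1 H hH1 hH2 hHom
    rw [hwN, ms_cnd] at h6
    rw [div_lt_iff₀ hXpos] at h6
    have : c3 * ms w X ≤ c3 * 1 := mul_le_mul_of_nonneg_left hX1 hc3.le
    linarith
  · intro q hq
    exact (hi2 q hq H hH1 hH2 hHom).le

/-- the counting behind the peeling -/
theorem peel_abstract {Ω : Type} [Fintype Ω] {w : Ω → ℝ} (hw : IsLaw w) (C Gd : Ω → Ω → Prop)
    (hsym : ∀ s t, C s t → C t s) {θ e η : ℝ} (hθ : 0 ≤ θ) (he : 0 ≤ e) (hη : 0 ≤ η)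
    (hfind : ∀ X : Ω → Prop, θ < pr w w (fun s t => X s ∧ X t ∧ C s t) →
      ∃ c, X c ∧ w c ≤ η ∧ ms w (fun s => X s ∧ C s c ∧ ¬ Gd s c) ≤ e) :
    (pr w w C - θ) / 2 - (e + η) ≤ pr w w Gd := by
  let massN : Finset Ω → ℝ := fun N => ∑ t ∈ N, w t * ms w (fun s => s ∈ N ∧ C s t)
  let goodN : Finset Ω → ℝ := fun N => ∑ t ∈ N, w t * ms w (fun s => s ∈ N ∧ Gd s t)
  have hgood0 : ∀ N, 0 ≤ goodN N := fun N =>
    Finset.sum_nonneg fun t _ => mul_nonneg (hw.1 t) (ms_nonneg hw.1 _)
  have hmassN : ∀ N : Finset Ω, massN N = pr w w (fun s t => s ∈ N ∧ t ∈ N ∧ C s t) := by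
    intro N
    rw [pr_comm, pr_eq_ms]
    simp only [massN]
    rw [← Finset.sum_filter_add_sum_filter_not univ (fun t => t ∈ N)
      (fun t => w t * ms w (fun s => s ∈ N ∧ t ∈ N ∧ C s t))]
    have h2 : ∑ t ∈ univ.filter (fun t => ¬ t ∈ N),
        w t * ms w (fun s => s ∈ N ∧ t ∈ N ∧ C s t) = 0 := by
      apply Finset.sum_eq_zero
      intro t ht
      rw [Finset.mem_filter] at ht
      have : (fun s => s ∈ N ∧ t ∈ N ∧ C s t) = fun _ => False := by
        funext s
        simp [ht.2]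
      rw [this, ms_false, mul_zero]
    rw [h2, add_zero]
    have h3 : univ.filter (fun t => t ∈ N) = N := by
      ext t; simp
    rw [h3]
    apply Finset.sum_congr rfl
    intro t ht
    have : (fun s => s ∈ N ∧ t ∈ N ∧ C s t) = fun s => s ∈ N ∧ C s t := by
      funext s
      simp [ht]
    rw [this]
  have key : ∀ n : ℕ, ∀ N : Finset Ω, N.card = n →
      (massN N - θ) / 2 - (e + η) * ∑ t ∈ N, w t ≤ goodN N := by
    intro n
    induction n with
    | zero =>
      intro N hN
      rw [Finset.card_eq_zero] at hN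
      subst hN
      simp only [massN, goodN, Finset.sum_empty]
      linarith
    | succ n ih =>
      intro N hN
      by_cases hm : massN N ≤ θ
      · have h1 : 0 ≤ ∑ t ∈ N, w t := Finset.sum_nonneg fun t _ => hw.1 t
        have h2 := hgood0 N
        have h3 : 0 ≤ (e + η) * ∑ t ∈ N, w t := mul_nonneg (by linarith) h1
        linarith
      · push Not at hm
        rw [hmassN] at hm
        obtain ⟨c, hcN, hwc, hbad⟩ := hfind (fun s => s ∈ N) hm
        set N' := N.erase c with hN'
        have hcard : N'.card = n := by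
          rw [hN', Finset.card_erase_of_mem hcN, hN]; rfl
        have hi := ih N' hcard
        have hwc0 := hw.1 c
        set deg := ms w (fun s => s ∈ N' ∧ C s c) with hdeg
        have hmem : ∀ s, s ∈ N ↔ s = c ∨ s ∈ N' := by
          intro s
          rw [hN', Finset.mem_erase]
          by_cases hs : s = c
          · subst hs; simp [hcN]
          · simp [hs]
        -- total weights
        have hW : ∑ t ∈ N, w t = w c + ∑ t ∈ N', w t := (Finset.add_sum_erase N w hcN).symm
        have hms_c : ms w (fun s => s = c) = w c := by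
          unfold ms
          rw [Finset.sum_eq_single c]
          · simp
          · intro x _ hx
            simp [hx]
          · simp
        -- mass
        have hmass : massN N ≤ massN N' + 2 * (w c * deg) + w c * w c := by
          have h1 : massN N = w c * ms w (fun s => s ∈ N ∧ C s c) +
              ∑ t ∈ N', w t * ms w (fun s => s ∈ N ∧ C s t) :=
            (Finset.add_sum_erase N (fun t => w t * ms w (fun s => s ∈ N ∧ C s t)) hcN).symm
          have h2 : ms w (fun s => s ∈ N ∧ C s c) ≤ w c + deg := by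
            rw [← hms_c]
            refine le_trans ?_ (ms_or_le hw.1 _ _)
            apply ms_mono hw.1
            intro s hs
            rcases (hmem s).mp hs.1 with h | h
            · exact Or.inl h
            · exact Or.inr ⟨h, hs.2⟩
          have h3 : ∀ t ∈ N', w t * ms w (fun s => s ∈ N ∧ C s t) ≤
              w t * ms w (fun s => s ∈ N' ∧ C s t) + w c * (w t * (if C t c then 1 else 0)) := by
            intro t _
            have h4 : ms w (fun s => s ∈ N ∧ C s t) ≤
                ms w (fun s => s ∈ N' ∧ C s t) + w c * (if C t c then 1 else 0) := by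
              have h5 : ms w (fun s => s = c ∧ C s t) ≤ w c * (if C t c then 1 else 0) := by
                by_cases hC : C t c
                · rw [if_pos hC, mul_one, ← hms_c]
                  apply ms_mono hw.1
                  intro s hs
                  exact hs.1
                · rw [if_neg hC, mul_zero]
                  apply le_of_eq
                  unfold ms
                  apply Finset.sum_eq_zero
                  intro x _
                  rw [if_neg, mul_zero]
                  rintro ⟨rfl, h6⟩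
                  exact hC (hsym _ _ h6)
              refine le_trans ?_ (add_le_add_right h5 _)
              refine le_trans ?_ (ms_or_le hw.1 _ _)
              apply ms_mono hw.1
              intro s hs
              rcases (hmem s).mp hs.1 with h | h
              · exact Or.inr ⟨h, hs.2⟩
              · exact Or.inl ⟨h, hs.2⟩
            calc w t * ms w (fun s => s ∈ N ∧ C s t)
                ≤ w t * (ms w (fun s => s ∈ N' ∧ C s t) + w c * (if C t c then 1 else 0)) :=
                  mul_le_mul_of_nonneg_left h4 (hw.1 t)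
              _ = _ := by ring
          have h6 : ∑ t ∈ N', w t * (if C t c then (1 : ℝ) else 0) = deg := by
            rw [hdeg]
            unfold ms
            rw [← Finset.sum_subset (Finset.subset_univ N')]
            · apply Finset.sum_congr rfl
              intro t ht
              simp [ht]
            · intro t _ ht
              simp [ht]
          calc massN N ≤ w c * (w c + deg) + (massN N' + w c * deg) := by
                rw [h1]
                apply add_le_add
                · exact mul_le_mul_of_nonneg_left h2 hwc0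
                · refine (Finset.sum_le_sum h3).trans ?_
                  rw [Finset.sum_add_distrib, ← Finset.mul_sum, h6]
            _ = massN N' + 2 * (w c * deg) + w c * w c := by ring
        -- good
        have hgood : goodN N' + w c * (deg - e) ≤ goodN N := by
          have h1 : goodN N = w c * ms w (fun s => s ∈ N ∧ Gd s c) +
              ∑ t ∈ N', w t * ms w (fun s => s ∈ N ∧ Gd s t) :=
            (Finset.add_sum_erase N (fun t => w t * ms w (fun s => s ∈ N ∧ Gd s t)) hcN).symm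
          have h2 : deg - e ≤ ms w (fun s => s ∈ N ∧ Gd s c) := by
            have h3 : deg ≤ ms w (fun s => s ∈ N ∧ Gd s c) +
                ms w (fun s => s ∈ N ∧ C s c ∧ ¬ Gd s c) := by
              refine le_trans ?_ (ms_or_le hw.1 _ _)
              apply ms_mono hw.1
              intro s hs
              have hsN : s ∈ N := (hmem s).mpr (Or.inr hs.1)
              by_cases hg : Gd s c
              · exact Or.inl ⟨hsN, hg⟩
              · exact Or.inr ⟨hsN, hs.2, hg⟩
            linarith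
          rw [h1, add_comm]
          apply add_le_add
          · exact mul_le_mul_of_nonneg_left h2 hwc0
          · apply Finset.sum_le_sum
            intro t _
            apply mul_le_mul_of_nonneg_left _ (hw.1 t)
            apply ms_mono hw.1
            intro s hs
            exact ⟨(hmem s).mpr (Or.inr hs.1), hs.2⟩
        rw [hW]
        have hww : w c * w c ≤ η * w c := mul_le_mul_of_nonneg_right hwc hwc0
        nlinarith
  have h := key _ univ rfl
  have e1 : massN univ = pr w w C := by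
    rw [hmassN]
    simp
  have e2 : goodN univ = pr w w Gd := by
    rw [pr_comm, pr_eq_ms]
    simp only [goodN]
    simp
  rw [e1, e2, hw.2, mul_one] at h
  exact h

theorem peel (P j : ℕ) (ih : ∀ t : ℝ, 0 < t → RankAt P j t) (κ c3 : ℝ) (hκ : 0 < κ)
    (hc3 : 0 < c3) (hc3' : c3 ≤ κ / 48) (nQ : ℕ) :
    ∃ η : ℝ, 0 < η ∧ ∀ (V : Type) [Fintype V] (G : SimpleGraph V), PWB G P →
      ∀ (l r : V → ℕ) (D : ℕ) (Ω : Type) [Fintype Ω] (b : Ω → Finset V), Tiled G l r D b →
      ∀ w : Ω → ℝ, IsLaw w → Spread G P w b η → ∀ (u0 u1 lo hi : ℕ), u0 ≤ lo → lo ≤ hi →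
      hi ≤ u1 → ∀ Q : Finset ℕ, Q.card ≤ nQ → ends u0 u1 ⊆ Q → κ ≤ TT G l r b w u0 u1 lo hi →
      κ / 4 ≤ pr w w (Good G l r b w j u0 u1 Q c3 lo hi) := by
  obtain ⟨η1, hη1, hf⟩ := find_carrier P j ih κ c3 hκ hc3 hc3' nQ
  refine ⟨min η1 (κ / 48), lt_min hη1 (by positivity), ?_⟩
  intro V _ G hG l r D Ω _ b hT w hw hs u0 u1 lo hi h1 h2 h3 Q hQ hQe hTT
  have hmain := peel_abstract hw (fun s t => cont G l r u0 u1 lo hi (b s) (b t))
    (Good G l r b w j u0 u1 Q c3 lo hi) (fun s t h => cont_symm h)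
    (θ := κ / 4) (e := 3 * c3) (η := κ / 48) (by positivity) (by positivity) (by positivity) ?_
  · have hTT' : κ ≤ pr w w (fun s t => cont G l r u0 u1 lo hi (b s) (b t)) := hTT
    linarith
  · intro X hX
    obtain ⟨c, hcX, hcw, H, hH, hH1, hH2⟩ := hf V G hG l r D Ω b hT w hw
      (hs.mono hw.1 (fun _ => Finset.Subset.refl _) (min_le_left _ _)) u0 u1 lo hi h2 Q hQ X hX
    obtain ⟨z, hzH, hzc⟩ := hH.2.2.2.2
    refine ⟨c, hcX, (atom_le hG hw.1 hs hzc).trans (min_le_right _ _), ?_⟩
    calc ms w (fun s => X s ∧ cont G l r u0 u1 lo hi (b s) (b c) ∧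
            ¬ Good G l r b w j u0 u1 Q c3 lo hi s c)
        ≤ ms w (fun s => (X s ∧ Touch G (nwin l r u0 u1 (b s)) H) ∨
            ∃ q ∈ ends u0 u1, Touch G (hub l r q (b s)) H) := by
          apply ms_mono hw.1
          rintro s ⟨hsX, hsc, hng⟩
          have ht : Touch G (b s) H := by
            by_contra hnt
            exact hng ⟨hsc, H, hH, hnt, hH2⟩
          obtain ⟨u, hu, v, hv, huv⟩ := ht
          have hp := touch_pos hT huv
          have hv1 := hH.1 v hv
          have lu := hT.lt u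
          have lv := hT.lt v
          rcases mem_nwin_or_hub (l := l) (r := r) (S := b s) (v := u) (lo := u0) (hi := u1)
            (e := max (l u) (l v)) hu (by omega) (by omega) (by omega) (by omega) with ha | ⟨q, hq, ha⟩
          · exact Or.inl ⟨hsX, u, ha, v, hv, huv⟩
          · exact Or.inr ⟨q, hq, u, ha, v, hv, huv⟩
      _ ≤ ms w (fun s => X s ∧ Touch G (nwin l r u0 u1 (b s)) H) +
            ms w (fun s => ∃ q ∈ ends u0 u1, Touch G (hub l r q (b s)) H) := ms_or_le hw.1 _ _
      _ ≤ c3 + (2 : ℕ) * c3 := by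
          apply add_le_add hH1
          exact (ms_exists_le hw.1 _ _).trans
            (sum_le_card_mul _ _ hc3.le (ends_card u0 u1) (fun q hq => hH2 q (hQe hq)))
      _ = 3 * c3 := by push_cast; ring

end Pool.Agent.Work.MP_44e7ab_co
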