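import Mathlib
import Pool.Agent.Work.MP_44e7ab_co.Q1.TiledBasics
import Pool.Agent.Work.MP_44e7ab_co.Q1.Unified
import Pool.Agent.Work.MP_44e7ab_co.Q1.Greedy

set_option autoImplicit false

/-! Part A, steps (a) and (b): selection of non-heavy windows, degree bounds. -/

namespace Pool.Agent.Work.MP_44e7ab_co

open Finset Classical

private theorem ms_mono' {Ω : Type} [Fintype Ω] {w : Ω → ℝ} (hw : ∀ x, 0 ≤ w x) {A B : Ω → Prop}
    (h : ∀ x, A x → B x) : ms w A ≤ ms w B := by
  unfold ms
  apply Finset.sum_le_sum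
  intro x _
  apply mul_le_mul_of_nonneg_left _ (hw x)
  by_cases hA : A x
  · rw [if_pos hA, if_pos (h x hA)]
  · rw [if_neg hA]
    split_ifs <;> norm_num

private theorem ms_or_le' {Ω : Type} [Fintype Ω] {w : Ω → ℝ} (hw : ∀ x, 0 ≤ w x)
    {A B C : Ω → Prop} (h : ∀ x, A x → B x ∨ C x) : ms w A ≤ ms w B + ms w C := by
  unfold ms
  rw [← Finset.sum_add_distrib]
  apply Finset.sum_le_sum
  intro x _
  rw [← mul_add]
  apply mul_le_mul_of_nonneg_left _ (hw x)
  by_cases hA : A x
  · rw [if_pos hA]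
    rcases h x hA with h1 | h1
    · rw [if_pos h1]
      split_ifs <;> norm_num
    · rw [if_pos h1]
      split_ifs <;> norm_num
  · rw [if_neg hA]
    split_ifs <;> norm_num

private theorem ms_bUnion_le' {Ω : Type} [Fintype Ω] {w : Ω → ℝ} (hw : ∀ x, 0 ≤ w x) {ι : Type}
    (s : Finset ι) (B : ι → Ω → Prop) :
    ms w (fun x => ∃ i ∈ s, B i x) ≤ ∑ i ∈ s, ms w (B i) := by
  unfold ms
  rw [Finset.sum_comm]
  apply Finset.sum_le_sum
  intro x _
  rw [← Finset.mul_sum]
  apply mul_le_mul_of_nonneg_left _ (hw x)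
  have hnn : ∀ i ∈ s, (0 : ℝ) ≤ (if B i x then 1 else 0) := by
    intro i _
    split_ifs <;> norm_num
  by_cases hA : ∃ i ∈ s, B i x
  · rw [if_pos hA]
    obtain ⟨i, hi, hB⟩ := hA
    have := Finset.single_le_sum hnn hi
    rw [if_pos hB] at this
    exact this
  · rw [if_neg hA]
    exact Finset.sum_nonneg hnn

private theorem touch_symm' {V : Type} {G : SimpleGraph V} {A B : Finset V}
    (h : Touch G A B) : Touch G B A := by
  obtain ⟨u, hu, v, hv, h1⟩ := h
  refine ⟨v, hv, u, hu, ?_⟩
  rcases h1 with h1 | h1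
  · exact Or.inl h1.symm
  · exact Or.inr h1.symm

/-- (b) degree bound for routes that are not exceptional -/
theorem degree_bound {V : Type} {G : SimpleGraph V} {l r : V → ℕ} {D : ℕ} {Ω : Type} [Fintype Ω]
    {b : Ω → Finset V} (hT : Tiled G l r D b) {w : Ω → ℝ} (hw : IsLaw w) {c : ℝ} {u0 u1 lo hi : ℕ}
    (hlh : lo ≤ hi) (s : Ω)
    (h1 : ms w (fun ω => Touch G (nwin l r u0 u1 (b ω)) (nwin l r lo hi (b s))) < c)
    (h2 : ∀ e ∈ ends lo hi, ms w (fun ω =>
      Touch G (hub l r e (b s)) (mwin l r lo hi (nwin l r u0 u1 (b ω)))) < c) :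
    ms w (fun ω => cont G l r u0 u1 lo hi (b s) (b ω)) ≤ 3 * c := by
  have hc : 0 ≤ c := by
    refine le_trans ?_ h1.le
    unfold ms
    apply Finset.sum_nonneg
    intro x _
    apply mul_nonneg (hw.1 x)
    split_ifs <;> norm_num
  have h3 : ms w (fun ω => cont G l r u0 u1 lo hi (b s) (b ω)) ≤
      ms w (fun ω => Touch G (nwin l r u0 u1 (b ω)) (nwin l r lo hi (b s))) +
      ms w (fun ω => ∃ e ∈ ends lo hi,
        Touch G (hub l r e (b s)) (mwin l r lo hi (nwin l r u0 u1 (b ω)))) := by
    apply ms_or_le' hw.1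
    rintro ω ⟨e, he1, he2, x, hx, y, hy, hxy, h4, h5, h6, h7⟩
    have hxs : x ∈ b s := (Finset.mem_filter.mp hx).1
    rcases mem_nwin_or_hub hxs he1 he2 h4 h5 with h8 | ⟨q, hq, h8⟩
    · left
      refine ⟨y, hy, x, h8, ?_⟩
      rcases hxy with h9 | h9
      · exact Or.inl h9.symm
      · exact Or.inr h9.symm
    · right
      refine ⟨q, hq, x, h8, y, ?_, hxy⟩
      rw [mwin, Finset.mem_filter]
      exact ⟨hy, by omega, by omega⟩
  have h4 := ms_bUnion_le' hw.1 (ends lo hi) (fun e ω =>
    Touch G (hub l r e (b s)) (mwin l r lo hi (nwin l r u0 u1 (b ω))))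
  have h5 : ∑ e ∈ ends lo hi, ms w (fun ω =>
      Touch G (hub l r e (b s)) (mwin l r lo hi (nwin l r u0 u1 (b ω)))) ≤
      ∑ _e ∈ ends lo hi, c := Finset.sum_le_sum fun e he => (h2 e he).le
  rw [Finset.sum_const, nsmul_eq_mul] at h5
  have h6 : ((ends lo hi).card : ℝ) ≤ 2 := by
    have : (ends lo hi).card ≤ 2 := Finset.card_le_two
    exact_mod_cast this
  have h7 : ((ends lo hi).card : ℝ) * c ≤ 2 * c := mul_le_mul_of_nonneg_right h6 hc
  linarith

private theorem cnd_isLaw' {Ω : Type} [Fintype Ω] {w : Ω → ℝ} (hw : IsLaw w) {X : Ω → Prop}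
    (h : 0 < ms w X) : IsLaw (cnd w X) := by
  constructor
  · intro x
    unfold cnd
    split_ifs
    · exact div_nonneg (hw.1 x) h.le
    · exact le_rfl
  · have : ∑ x, cnd w X x = (∑ x, w x * (if X x then 1 else 0)) / ms w X := by
      rw [Finset.sum_div]
      apply Finset.sum_congr rfl
      intro x _
      unfold cnd
      split_ifs <;> simp
    rw [this]
    exact div_self h.ne'

/-- (b) exceptional routes have small mass -/
theorem exceptional {V : Type} [Fintype V] {G : SimpleGraph V} {P : ℕ} (hG : PWB G P)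
    {l r : V → ℕ} {D : ℕ} {Ω : Type} [Fintype Ω] {b : Ω → Finset V} (hT : Tiled G l r D b)
    {w : Ω → ℝ} (hw : IsLaw w) {c : ℝ} (hc : 0 < c) {k : ℕ} (hk : 4 * (P : ℝ) < c * k)
    {ξ : ℝ} (hξ : 0 < ξ)
    (hH : ∀ X : Ω → Prop, ξ ≤ ms w X → HubSmall G l r b (cnd w X) (c / (2 * k)))
    {u0 u1 lo hi : ℕ} (hlh : lo ≤ hi) (hTT : TT G l r b w u0 u1 lo hi ≤ c / (2 * k)) (e : ℕ) :
    ms w (fun s => c ≤ ms w (fun ω =>
      Touch G (hub l r e (b s)) (mwin l r lo hi (nwin l r u0 u1 (b ω))))) < ξ := by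
  by_contra hcon
  push Not at hcon
  set X : Ω → Prop := fun s => c ≤ ms w (fun ω =>
      Touch G (hub l r e (b s)) (mwin l r lo hi (nwin l r u0 u1 (b ω)))) with hX
  have hpos : 0 < ms w X := lt_of_lt_of_le hξ hcon
  have hlaw := cnd_isLaw' hw hpos
  have hconn : ∀ x, ConnSet G (mwin l r lo hi (nwin l r u0 u1 (b x))) := fun x =>
    tiled_conn_mwin hT x u0 u1 lo hi
  have hconn' : ∀ x, ConnSet G (hub l r e (b x)) := by
    intro x y hy z hz
    have hc1 := hub_card_le hT x e
    have : y = z := Finset.card_le_one.mp hc1 y hy z hz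
    rw [this]
    exact ConnIn.refl (by exact_mod_cast hz)
  have hom : ∀ x, OmLe G (mwin l r lo hi (nwin l r u0 u1 (b x))) 2 := by
    intro x C hC hcl
    apply tiled_omLe hT x C _ hcl
    intro y hy
    have := hC hy
    rw [mwin, Finset.mem_filter, nwin, Finset.mem_filter] at this
    exact this.1.1
  have hom' : ∀ x, OmLe G (hub l r e (b x)) 1 := by
    intro x C hC _
    exact (Finset.card_le_card hC).trans (hub_card_le hT x e)
  have h1 := unified hG hw hlaw (fun x => mwin l r lo hi (nwin l r u0 u1 (b x)))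
    (fun x => hub l r e (b x)) hconn hconn' hom hom' (by norm_num) hc hk
    (by
      refine le_trans (le_of_eq ?_) hTT
      unfold TT
      congr 1
      funext x y
      exact propext (cont_iff_touch_mwin hT u0 u1 lo hi hlh x y).symm)
    (hH X hcon e e)
  have h2 : c ≤ pr w (cnd w X) (fun x y =>
      Touch G (mwin l r lo hi (nwin l r u0 u1 (b x))) (hub l r e (b y))) := by
    unfold pr
    rw [Finset.sum_comm]
    have h3 : ∀ y, cnd w X y * c ≤ ∑ x, w x * cnd w X y *
        (if Touch G (mwin l r lo hi (nwin l r u0 u1 (b x))) (hub l r e (b y)) then 1 else 0) := by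
      intro y
      have h4 : ∑ x, w x * cnd w X y *
        (if Touch G (mwin l r lo hi (nwin l r u0 u1 (b x))) (hub l r e (b y)) then 1 else 0)
        = cnd w X y * ms w (fun ω =>
          Touch G (hub l r e (b y)) (mwin l r lo hi (nwin l r u0 u1 (b ω)))) := by
        unfold ms
        rw [Finset.mul_sum]
        apply Finset.sum_congr rfl
        intro x _
        have : (Touch G (mwin l r lo hi (nwin l r u0 u1 (b x))) (hub l r e (b y))) ↔
          (Touch G (hub l r e (b y)) (mwin l r lo hi (nwin l r u0 u1 (b x)))) :=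
          ⟨touch_symm', touch_symm'⟩
        simp only [this]
        ring
      rw [h4]
      by_cases hXy : X y
      · exact mul_le_mul_of_nonneg_left hXy (hlaw.1 y)
      · have : cnd w X y = 0 := by
          unfold cnd
          rw [if_neg hXy]
        rw [this]
        simp
    calc c = ∑ y, cnd w X y * c := by rw [← Finset.sum_mul, hlaw.2, one_mul]
      _ ≤ _ := Finset.sum_le_sum fun y _ => h3 y
  linarith

/-- at least half of the windows of a block are not heavy -/
private theorem many_nonheavy {V : Type} [Fintype V] {G : SimpleGraph V} {P : ℕ} (hG : PWB G P)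
    {l r : V → ℕ} {D : ℕ} {Ω : Type} [Fintype Ω] {b : Ω → Finset V} (hT : Tiled G l r D b)
    {w : Ω → ℝ} (hw : IsLaw w) {c : ℝ} (hc : 0 < c) {k : ℕ} (hk : 4 * (P : ℝ) < c * k)
    {Kc : ℕ} (hK : 1 ≤ (Kc : ℝ) * (c / (2 * k))) {u0 u1 a d : ℕ} (had : a ≤ d)
    (hB : TT G l r b w u0 u1 a d ≤ c / (2 * k)) (p q : Fin (2 * Kc) → ℕ)
    (hpq : ∀ i, a ≤ p i ∧ p i ≤ q i ∧ q i ≤ d) (hord : ∀ i j, i < j → q i < p j) :
    ∃ f : Fin Kc → Fin (2 * Kc), Function.Injective f ∧ ∀ i s,
      ms w (fun ω => Touch G (nwin l r u0 u1 (b ω)) (nwin l r (p (f i)) (q (f i)) (b s))) < c := by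
  set NH : Finset (Fin (2 * Kc)) := univ.filter (fun t => ∀ s,
    ms w (fun ω => Touch G (nwin l r u0 u1 (b ω)) (nwin l r (p t) (q t) (b s))) < c) with hNH
  have hcard : Kc ≤ NH.card := by
    by_contra hcon
    push Not at hcon
    have h1 : Kc ≤ NHᶜ.card := by
      rw [Finset.card_compl, Fintype.card_fin]
      omega
    obtain ⟨T, hT1, hT2⟩ := Finset.exists_subset_card_eq h1
    let g : Fin Kc → Fin (2 * Kc) := fun i => T.orderEmbOfFin hT2 i
    have hg : ∀ i, g i ∈ T := fun i => Finset.orderEmbOfFin_mem T hT2 i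
    have hginj : Function.Injective g := (T.orderEmbOfFin hT2).injective
    have hheavy : ∀ i, ∃ s, c ≤
        ms w (fun ω => Touch G (nwin l r u0 u1 (b ω)) (nwin l r (p (g i)) (q (g i)) (b s))) := by
      intro i
      have h2 := hT1 (hg i)
      rw [Finset.mem_compl, hNH, Finset.mem_filter] at h2
      push Not at h2
      exact h2 (Finset.mem_univ _)
    choose s hs using hheavy
    have hom : ∀ x, OmLe G (mwin l r a d (nwin l r u0 u1 (b x))) 2 := by
      intro x C hC hcl
      apply tiled_omLe hT x C _ hcl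
      intro y hy
      have := hC hy
      rw [mwin, Finset.mem_filter, nwin, Finset.mem_filter] at this
      exact this.1.1
    obtain ⟨i, hi⟩ := few_heavy hG hw (fun x => mwin l r a d (nwin l r u0 u1 (b x)))
      (fun x => tiled_conn_mwin hT x u0 u1 a d) (a' := 2) hom (by norm_num) hc hk
      (by
        refine le_trans (le_of_eq ?_) hB
        unfold TT
        congr 1
        funext x y
        exact propext (cont_iff_touch_mwin hT u0 u1 a d had x y).symm)
      hK (fun i => nwin l r (p (g i)) (q (g i)) (b (s i)))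
      (fun i => tiled_conn_nwin hT (s i) _ _)
      (by
        intro x C hC hcl
        apply tiled_omLe hT (s x) C _ hcl
        intro y hy
        have := hC hy
        rw [nwin, Finset.mem_filter] at this
        exact this.1)
      (by
        intro i j hij
        apply not_touch_of_windows hT (lo := p (g i)) (hi := q (g i)) (lo' := p (g j)) (hi' := q (g j))
        · intro v hv
          rw [nwin, Finset.mem_filter] at hv
          exact hv.2
        · intro v hv
          rw [nwin, Finset.mem_filter] at hv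
          exact hv.2
        · rcases lt_trichotomy (g i) (g j) with h | h | h
          · exact Or.inl (hord _ _ h)
          · exact absurd (hginj h) hij
          · exact Or.inr (hord _ _ h))
    have h3 := hs i
    have h4 : ms w (fun ω => Touch G (nwin l r u0 u1 (b ω)) (nwin l r (p (g i)) (q (g i)) (b (s i))))
        ≤ ms w (fun ω => Touch G (mwin l r a d (nwin l r u0 u1 (b ω)))
          (nwin l r (p (g i)) (q (g i)) (b (s i)))) := by
      apply ms_mono' hw.1
      rintro ω ⟨x, hx, y, hy, hxy⟩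
      refine ⟨x, ?_, y, hy, hxy⟩
      rw [mwin, Finset.mem_filter]
      rw [nwin, Finset.mem_filter] at hy
      have h5 := hpq (g i)
      have h6 := hT.lt x
      have h7 := hT.lt y
      refine ⟨hx, ?_, ?_⟩
      · rcases hxy with h | h
        · have := hT.adj x y h
          omega
        · subst h
          omega
      · rcases hxy with h | h
        · have := hT.adj y x h.symm
          omega
        · subst h
          omega
    linarith
  obtain ⟨T, hT1, hT2⟩ := Finset.exists_subset_card_eq hcard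
  refine ⟨fun i => T.orderEmbOfFin hT2 i, (T.orderEmbOfFin hT2).injective, ?_⟩
  intro i
  have h2 := hT1 (Finset.orderEmbOfFin_mem T hT2 i)
  rw [hNH, Finset.mem_filter] at h2
  exact h2.2

/-- (a) selection of non-heavy windows -/
theorem select_windows {V : Type} [Fintype V] {G : SimpleGraph V} {P : ℕ} (hG : PWB G P)
    {l r : V → ℕ} {D : ℕ} {Ω : Type} [Fintype Ω] {b : Ω → Finset V} (hT : Tiled G l r D b)
    {w : Ω → ℝ} (hw : IsLaw w) {c : ℝ} (hc : 0 < c) {k : ℕ} (hk : 4 * (P : ℝ) < c * k)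
    {Kc : ℕ} (hK : 1 ≤ (Kc : ℝ) * (c / (2 * k))) {κ : ℝ} (hκ : κ = c / (2 * k) / (8 * Kc))
    {ε : ℝ} (hε : 0 ≤ ε) (hε' : 4 * ε ≤ κ) (hH : HubSmall G l r b w ε) {u0 u1 : ℕ}
    (Q : ℕ) (hQ : (Q : ℝ) * (c / (2 * k)) ≤ TT G l r b w u0 u1 u0 u1) :
    ∃ lo hi : Fin (Q * Kc) → ℕ, (∀ i, u0 ≤ lo i ∧ lo i ≤ hi i ∧ hi i ≤ u1) ∧
      (∀ i j, i ≠ j → hi i < lo j ∨ hi j < lo i) ∧
      (∀ i, κ ≤ TT G l r b w u0 u1 (lo i) (hi i) ∧ TT G l r b w u0 u1 (lo i) (hi i) ≤ 2 * κ) ∧
      (∀ i s, ms w (fun ω => Touch G (nwin l r u0 u1 (b ω)) (nwin l r (lo i) (hi i) (b s))) < c) := by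
  set τ : ℝ := c / (2 * k) with hτ
  have hk0 : (0 : ℝ) < k := by
    have h1 : (0 : ℝ) ≤ 4 * (P : ℝ) := by positivity
    have h2 : 0 < c * (k : ℝ) := by linarith
    exact (pos_iff_pos_of_mul_pos h2).mp hc
  have hτ0 : 0 < τ := by positivity
  have hKc0 : (0 : ℝ) < Kc := by
    by_contra hcon
    push Not at hcon
    have : (Kc : ℝ) * τ ≤ 0 := mul_nonpos_of_nonpos_of_nonneg hcon hτ0.le
    linarith
  have hKc1 : (1 : ℝ) ≤ Kc := by
    have : 0 < Kc := by exact_mod_cast hKc0
    exact_mod_cast this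
  have hκ0 : 0 < κ := by rw [hκ]; positivity
  have hκτ : 8 * Kc * κ = τ := by
    rw [hκ]
    field_simp
  have hκ8 : κ ≤ τ / 8 := by
    have : 8 * 1 * κ ≤ 8 * Kc * κ := by
      apply mul_le_mul_of_nonneg_right _ hκ0.le
      linarith
    linarith
  rcases Nat.eq_zero_or_pos Q with hQ0 | hQ0
  · subst hQ0
    have he : ∀ i : Fin (0 * Kc), False := fun i => by
      have := i.2
      simp at this
    exact ⟨fun i => (he i).elim, fun i => (he i).elim, fun i => (he i).elim,
      fun i => (he i).elim, fun i => (he i).elim, fun i => (he i).elim⟩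
  · have hQ1 : (1 : ℝ) ≤ Q := by exact_mod_cast hQ0
    have hu : u0 ≤ u1 := by
      by_contra hcon
      push Not at hcon
      have h1 : TT G l r b w u0 u1 u0 u1 = 0 := by
        unfold TT pr
        apply Finset.sum_eq_zero
        intro x _
        apply Finset.sum_eq_zero
        intro y _
        rw [if_neg, mul_zero]
        rintro ⟨e, he1, he2, -⟩
        omega
      rw [h1] at hQ
      nlinarith
    obtain ⟨a, d, h1, h2, h3⟩ := greedy_cut (TT G l r b w u0 u1) (δ := 4 * ε) (κ := τ / 2)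
      (by linarith) (by linarith) (fun a m c h h' => TT_sub hw.1 u0 u1 a m c h h')
      (fun e => TT_point hT hw.1 hH u0 u1 e) Q u0 u1 hu (by
        refine le_trans ?_ hQ
        apply mul_le_mul_of_nonneg_left _ (by positivity)
        linarith)
    have hblock : ∀ i : Fin Q, ∃ p q : Fin (2 * Kc) → ℕ,
        (∀ t, a i ≤ p t ∧ p t ≤ q t ∧ q t ≤ d i) ∧
        (∀ t, κ ≤ TT G l r b w u0 u1 (p t) (q t) ∧ TT G l r b w u0 u1 (p t) (q t) ≤ κ + 4 * ε) ∧
        ∀ t t', t < t' → q t < p t' := by
      intro i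
      refine greedy_cut (TT G l r b w u0 u1) (δ := 4 * ε) (κ := κ)
        (by linarith) hκ0 (fun a m c h h' => TT_sub hw.1 u0 u1 a m c h h')
        (fun e => TT_point hT hw.1 hH u0 u1 e) (2 * Kc) (a i) (d i) (h1 i).2.1 ?_
      refine le_trans ?_ (h2 i).1
      push_cast
      have : 2 * (Kc : ℝ) * (κ + 4 * ε) ≤ 2 * Kc * (2 * κ) := by
        apply mul_le_mul_of_nonneg_left _ (by positivity)
        linarith
      linarith
    choose p q h4 h5 h6 using hblock
    have hsel : ∀ i : Fin Q, ∃ f : Fin Kc → Fin (2 * Kc), Function.Injective f ∧ ∀ t s,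
        ms w (fun ω => Touch G (nwin l r u0 u1 (b ω))
          (nwin l r (p i (f t)) (q i (f t)) (b s))) < c := by
      intro i
      refine many_nonheavy hG hT hw hc hk hK (h1 i).2.1 ?_ (p i) (q i) (h4 i) (h6 i)
      have := (h2 i).2
      linarith
    choose f hf1 hf2 using hsel
    refine ⟨fun x => p (finProdFinEquiv.symm x).1 (f (finProdFinEquiv.symm x).1 (finProdFinEquiv.symm x).2),
      fun x => q (finProdFinEquiv.symm x).1 (f (finProdFinEquiv.symm x).1 (finProdFinEquiv.symm x).2), ?_, ?_, ?_, ?_⟩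
    · intro x
      have h7 := h4 (finProdFinEquiv.symm x).1 (f (finProdFinEquiv.symm x).1 (finProdFinEquiv.symm x).2)
      have h8 := h1 (finProdFinEquiv.symm x).1
      exact ⟨h8.1.trans h7.1, h7.2.1, h7.2.2.trans h8.2.2⟩
    · intro x y hxy
      set i := (finProdFinEquiv.symm x).1
      set i' := (finProdFinEquiv.symm y).1
      set t := (finProdFinEquiv.symm x).2
      set t' := (finProdFinEquiv.symm y).2
      have h7 := h4 i (f i t)
      have h8 := h4 i' (f i' t')
      rcases lt_trichotomy i i' with h | h | h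
      · left
        have := h3 i i' h
        show q i (f i t) < p i' (f i' t')
        omega
      · have htt : t ≠ t' := by
          intro htt
          apply hxy
          apply finProdFinEquiv.symm.injective
          exact Prod.ext h htt
        show q i (f i t) < p i' (f i' t') ∨ q i' (f i' t') < p i (f i t)
        rw [← h]
        rcases lt_trichotomy (f i t) (f i t') with h9 | h9 | h9
        · exact Or.inl (h6 i _ _ h9)
        · exact absurd (hf1 i h9) htt
        · exact Or.inr (h6 i _ _ h9)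
      · right
        have := h3 i' i h
        show q i' (f i' t') < p i (f i t)
        omega
    · intro x
      have h7 := h5 (finProdFinEquiv.symm x).1 (f (finProdFinEquiv.symm x).1 (finProdFinEquiv.symm x).2)
      exact ⟨h7.1, h7.2.trans (by linarith)⟩
    · intro x s
      exact hf2 _ _ s

end Pool.Agent.Work.MP_44e7ab_co
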