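import Mathlib
import Pool.Agent.Work.MP_44e7ab_co.Q1.Prob
import Pool.Agent.Work.MP_44e7ab_co.Q1.Select
import Pool.Agent.Work.MP_44e7ab_co.Q1.Combine
import Pool.Agent.Work.MP_44e7ab_co.Q1.Peel
import Pool.Agent.Work.MP_44e7ab_co.Q1.Hub
import Pool.Agent.Work.MP_44e7ab_co.Q1.LemmaI

set_option autoImplicit false

/-! The induction step `C(j, ·) ⟹ C(j+1, t)`, assembled from `select_windows`, `degree_bound`,
`exceptional`, `peel`, `choose_three`. -/

namespace Pool.Agent.Work.MP_44e7ab_co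

open Finset Classical

theorem spread_hub {V : Type} {G : SimpleGraph V} {P : ℕ} {l r : V → ℕ} {Ω : Type} [Fintype Ω]
    {b : Ω → Finset V} {w : Ω → ℝ} (hw : ∀ x, 0 ≤ w x) {η η' : ℝ} (h : Spread G P w b η)
    (hη : η ≤ η') (e : ℕ) : Spread G P w (fun ω => hub l r e (b ω)) η' := by
  intro X hX
  refine le_trans (ms_mono hw ?_) ((h X hX).trans hη)
  intro ω hω hd
  exact hω (hd.mono_left (hub_subset e _))

/-- if the sum of `h i ≤ 3c` is more than `7c`, at least three are at least `c/K` -/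
theorem three_large {K : ℕ} (h : Fin K → ℝ) {c : ℝ} (hc : 0 ≤ c) (hle : ∀ i, h i ≤ 3 * c)
    (hsum : 7 * c < ∑ i, h i) : ∃ f : Fin 3 → Fin K, Function.Injective f ∧ ∀ i, c / K ≤ h (f i) := by
  set I : Finset (Fin K) := univ.filter (fun i => c / K ≤ h i) with hI
  have hcard : 3 ≤ I.card := by
    by_contra hcon
    push Not at hcon
    have h1 : ∑ i, h i = ∑ i ∈ I, h i + ∑ i ∈ univ.filter (fun i => ¬ c / K ≤ h i), h i := by
      rw [hI, Finset.sum_filter_add_sum_filter_not]
    have h2 : ∑ i ∈ I, h i ≤ 2 * (3 * c) :=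
      sum_le_card_mul I h (n := 2) (by linarith) (by omega) (fun i _ => hle i)
    have h3 : ∑ i ∈ univ.filter (fun i => ¬ c / K ≤ h i), h i ≤ (K : ℝ) * (c / K) := by
      apply sum_le_card_mul _ h (div_nonneg hc (Nat.cast_nonneg K))
      · refine (Finset.card_filter_le _ _).trans ?_
        simp
      · intro i hi
        rw [Finset.mem_filter] at hi
        exact (not_le.mp hi.2).le
    have h4 : (K : ℝ) * (c / K) ≤ c := by
      rcases Nat.eq_zero_or_pos K with h0 | h0
      · subst h0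
        simpa using hc
      · have : (K : ℝ) ≠ 0 := by
          have : (0 : ℝ) < K := by exact_mod_cast h0
          exact this.ne'
        rw [mul_div_cancel₀ _ this]
    linarith
  obtain ⟨T, hT1, hT2⟩ := Finset.exists_subset_card_eq hcard
  refine ⟨fun i => T.orderEmbOfFin hT2 i, (T.orderEmbOfFin hT2).injective, ?_⟩
  intro i
  have h2 := hT1 (Finset.orderEmbOfFin_mem T hT2 i)
  rw [hI, Finset.mem_filter] at h2
  exact h2.2

theorem rank_step (P j : ℕ) (ih : ∀ t : ℝ, 0 < t → RankAt P j t) (t : ℝ) (ht : 0 < t) :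
    RankAt P (j + 1) t := by
  set c : ℝ := t / 1000 with hc
  have hc0 : 0 < c := by positivity
  obtain ⟨k, hk'⟩ := exists_nat_gt (4 * (P : ℝ) / c)
  have hk : 4 * (P : ℝ) < c * k := by
    rw [div_lt_iff₀ hc0] at hk'
    linarith
  have hk0 : (0 : ℝ) < k := by
    have : (0 : ℝ) ≤ 4 * (P : ℝ) / c := by positivity
    linarith
  have hk1 : (1 : ℝ) ≤ k := by
    have : 0 < k := by exact_mod_cast hk0
    exact_mod_cast this
  set τ : ℝ := c / (2 * k) with hτ
  have hτ0 : 0 < τ := by positivity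
  have hτc : τ ≤ c / 2 := by
    rw [hτ]
    apply div_le_div_of_nonneg_left hc0.le (by norm_num)
    linarith
  obtain ⟨Kc, hKc'⟩ := exists_nat_ge (1 / τ)
  have hKc : 1 ≤ (Kc : ℝ) * τ := by
    rw [div_le_iff₀ hτ0] at hKc'
    exact hKc'
  have hKc0 : (0 : ℝ) < Kc := lt_of_lt_of_le (by positivity) hKc'
  set κ : ℝ := τ / (8 * Kc) with hκ
  have hκ0 : 0 < κ := by positivity
  have hκτ : 8 * Kc * κ = τ := by
    rw [hκ]; field_simp
  set Q : ℕ := ⌊t / τ⌋₊ with hQ
  have hQ1 : (Q : ℝ) * τ ≤ t := by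
    have := Nat.floor_le (div_nonneg ht.le hτ0.le)
    rw [← hQ, le_div_iff₀ hτ0] at this
    exact this
  have hQ2 : t - τ < (Q : ℝ) * τ := by
    have := Nat.lt_floor_add_one (t / τ)
    rw [← hQ, div_lt_iff₀ hτ0] at this
    linarith
  set K : ℕ := Q * Kc with hK
  have hKκ : (K : ℝ) * κ = Q * τ / 8 := by
    rw [hK]
    push_cast
    have : (Q : ℝ) * Kc * κ = Q * (8 * Kc * κ) / 8 := by ring
    rw [this, hκτ]
  have hQ0 : (0 : ℝ) < Q := by
    by_contra hcon
    push Not at hcon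
    have : (Q : ℝ) * τ ≤ 0 := mul_nonpos_of_nonpos_of_nonneg hcon hτ0.le
    linarith
  have hK0 : (0 : ℝ) < K := by
    rw [hK]; push_cast; positivity
  set hs : ℝ := c / K with hhs
  have hhs0 : 0 < hs := by positivity
  set c3 : ℝ := min (κ / 48) (hs ^ 3 / 48) with hc3
  have hc30 : 0 < c3 := lt_min (by positivity) (by positivity)
  obtain ⟨ηp, hηp, hpeel⟩ := peel P j ih κ c3 hκ0 hc30 (min_le_left _ _) (2 + K * 2)
  set ε : ℝ := min (κ / 4) (hs ^ 3 / 48) with hε
  have hε0 : 0 < ε := lt_min (by positivity) (by positivity)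
  obtain ⟨η1, hη1, hhub1⟩ := hub_density P ε hε0
  obtain ⟨η2, hη2, hhub2⟩ := hub_density P τ hτ0
  set ξ : ℝ := t / (2000 * K ^ 2) with hξ
  have hξ0 : 0 < ξ := by positivity
  refine ⟨min ηp (min η1 (η2 * ξ)), lt_min hηp (lt_min hη1 (by positivity)), ?_⟩
  intro V _ G hG l r D Ω _ b hT w hw hsp u0 u1 hT0
  have hspp : Spread G P w b ηp := fun X hX => (hsp X hX).trans (min_le_left _ _)
  have hsp1 : Spread G P w b η1 := fun X hX =>
    (hsp X hX).trans ((min_le_right _ _).trans (min_le_left _ _))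
  have hsp2 : Spread G P w b (η2 * ξ) := fun X hX =>
    (hsp X hX).trans ((min_le_right _ _).trans (min_le_right _ _))
  have hH : HubSmall G l r b w ε := by
    intro e e'
    exact hhub1 V G hG Ω Ω w w hw hw _ _ (fun x => hub_card_le hT x e)
      (fun x => hub_card_le hT x e') (spread_hub hw.1 hsp1 le_rfl e) (spread_hub hw.1 hsp1 le_rfl e')
  have hHc : ∀ X : Ω → Prop, ξ ≤ ms w X → HubSmall G l r b (cnd w X) (c / (2 * k)) := by
    intro X hX e e'
    have hXp : 0 < ms w X := lt_of_lt_of_le hξ0 hX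
    have hlaw := cnd_isLaw hw.1 hXp
    have hsc : Spread G P (cnd w X) b η2 := by
      have := spread_cnd hw.1 (by positivity) hsp2 hξ0 hX
      rwa [mul_div_cancel_right₀ _ hξ0.ne'] at this
    exact hhub2 V G hG Ω Ω _ _ hlaw hlaw _ _ (fun x => hub_card_le hT x e)
      (fun x => hub_card_le hT x e') (spread_hub hlaw.1 hsc le_rfl e)
      (spread_hub hlaw.1 hsc le_rfl e')
  have hTT0 : t ≤ TT G l r b w u0 u1 u0 u1 := by
    refine hT0.trans (le_of_eq ?_)
    unfold TT
    congr 1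
    funext x y
    exact propext (cont_full hT u0 u1 x y).symm
  obtain ⟨lo, hi, hlh, hdis, hTTi, hheavy⟩ := select_windows hG hT hw hc0 hk hKc hκ hε0.le
    (by have := min_le_left (κ / 4) (hs ^ 3 / 48); linarith) hH (u0 := u0) (u1 := u1) Q
    (hQ1.trans hTT0)
  set Qs : Finset ℕ := ends u0 u1 ∪ (univ : Finset (Fin K)).biUnion (fun i => ends (lo i) (hi i))
    with hQs
  have hQcard : Qs.card ≤ 2 + K * 2 := by
    refine (Finset.card_union_le _ _).trans (add_le_add (ends_card _ _) ?_)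
    refine Finset.card_biUnion_le.trans ?_
    refine (Finset.sum_le_sum (fun i _ => ends_card (lo i) (hi i))).trans ?_
    rw [Finset.sum_const, Finset.card_fin, smul_eq_mul]
  have hQi : ∀ i, ends (lo i) (hi i) ⊆ Qs := by
    intro i x hx
    exact Finset.mem_union_right _ (Finset.mem_biUnion.mpr ⟨i, Finset.mem_univ i, hx⟩)
  let h : Fin K → Ω → ℝ := fun i s => ms w (fun c => Good G l r b w j u0 u1 Qs c3 (lo i) (hi i) s c)
  have hpr : ∀ i, κ / 4 ≤ ∑ s, w s * h i s := by
    intro i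
    have := hpeel V G hG l r D Ω b hT w hw hspp u0 u1 (lo i) (hi i) (hlh i).1 (hlh i).2.1 (hlh i).2.2
      Qs hQcard Finset.subset_union_left (hTTi i).1
    rw [pr_eq_ms] at this
    exact this
  have hh1 : ∀ i s, h i s ≤ 1 := fun i s => ms_le_one hw _
  have hh0 : ∀ i s, 0 ≤ h i s := fun i s => ms_nonneg hw.1 _
  -- exceptional routes
  obtain ⟨exc, hexcd⟩ : ∃ exc : Ω → Prop, ∀ s, exc s ↔ ∃ i ∈ (univ : Finset (Fin K)),
    ∃ e ∈ ends (lo i) (hi i),
    c ≤ ms w (fun ω => Touch G (hub l r e (b s)) (mwin l r (lo i) (hi i) (nwin l r u0 u1 (b ω)))) :=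
    ⟨_, fun _ => Iff.rfl⟩
  have hexc : ms w exc ≤ (K : ℝ) * (2 * ξ) := by
    refine (ms_mono hw.1 (fun s hs' => (hexcd s).mp hs')).trans ?_
    refine (ms_exists_le hw.1 _ _).trans ?_
    apply sum_le_card_mul _ _ (by positivity) (le_of_eq (Finset.card_fin K))
    intro i _
    refine (ms_exists_le hw.1 _ _).trans ?_
    have h2 : ((2 : ℕ) : ℝ) * ξ = 2 * ξ := by norm_num
    rw [← h2]
    apply sum_le_card_mul _ _ hξ0.le (ends_card _ _)
    intro e _
    refine (exceptional hG hT hw hc0 hk hξ0 hHc (hlh i).2.1 ?_ e).le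
    refine (hTTi i).2.trans ?_
    have : (1 : ℝ) ≤ Kc := by
      have : 0 < Kc := by exact_mod_cast hKc0
      exact_mod_cast this
    have : 8 * 1 * κ ≤ 8 * Kc * κ := by
      apply mul_le_mul_of_nonneg_right _ hκ0.le
      linarith
    linarith
  have hdeg : ∀ s, ¬ exc s → ∀ i, h i s ≤ 3 * c := by
    intro s hs' i
    refine le_trans (ms_mono hw.1 (fun c' hc' => hc'.1)) ?_
    apply degree_bound hT hw (hlh i).2.1 s (hheavy i s)
    intro e he
    by_contra hcon
    push Not at hcon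
    exact hs' ((hexcd s).mpr ⟨i, Finset.mem_univ i, e, he, hcon⟩)
  -- a good spine
  obtain ⟨s, hws, hsexc, hsum⟩ : ∃ s, 0 < w s ∧ ¬ exc s ∧ 7 * c < ∑ i, h i s := by
    by_contra hcon
    push Not at hcon
    have h1 : (K : ℝ) * (κ / 4) ≤ ∑ s, w s * ∑ i, h i s := by
      have : ∑ s, w s * ∑ i, h i s = ∑ i, ∑ s, w s * h i s := by
        rw [Finset.sum_comm]
        apply Finset.sum_congr rfl
        intro s _
        rw [Finset.mul_sum]
      rw [this]
      calc (K : ℝ) * (κ / 4) = ∑ _i : Fin K, κ / 4 := by simp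
        _ ≤ _ := Finset.sum_le_sum fun i _ => hpr i
    have h2 : ∑ s, w s * ∑ i, h i s ≤ ∑ s, (w s * (7 * c) + w s * (if exc s then 1 else 0) * K) := by
      apply Finset.sum_le_sum
      intro s _
      by_cases hs' : exc s
      · rw [if_pos hs']
        have h3 : ∑ i, h i s ≤ K := by
          calc ∑ i, h i s ≤ ∑ _i : Fin K, (1 : ℝ) := Finset.sum_le_sum fun i _ => hh1 i s
            _ = K := by simp
        have h4 := mul_le_mul_of_nonneg_left h3 (hw.1 s)
        have h5 : 0 ≤ w s * (7 * c) := mul_nonneg (hw.1 s) (by positivity)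
        linarith
      · rw [if_neg hs']
        rcases (hw.1 s).lt_or_eq with h0 | h0
        · have := mul_le_mul_of_nonneg_left (hcon s h0 hs') (hw.1 s)
          linarith
        · rw [← h0]
          simp
    rw [Finset.sum_add_distrib, ← Finset.sum_mul, hw.2, ← Finset.sum_mul] at h2
    have h3 : (∑ s, w s * (if exc s then (1 : ℝ) else 0)) * K ≤ (K * (2 * ξ)) * K :=
      mul_le_mul_of_nonneg_right hexc (by positivity)
    have h4 : ((K : ℝ) * (2 * ξ)) * K = t / 1000 := by
      rw [hξ]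
      field_simp
      norm_num
    have h5 : (K : ℝ) * (κ / 4) = Q * τ / 32 := by
      have : (K : ℝ) * (κ / 4) = (K * κ) / 4 := by ring
      rw [this, hKκ]
      ring
    rw [h4] at h3
    rw [h5] at h1
    have h6 : c = t / 1000 := hc
    linarith
  obtain ⟨f, hf1, hf2⟩ := three_large (fun i => h i s) hc0.le (hdeg s hsexc) hsum
  obtain ⟨Hn, hHn⟩ := choose_three hT hw hH hhs0 (lo := fun i => lo (f i)) (hi := fun i => hi (f i))
    (fun i => hlh (f i)) (fun i i' hii => hdis _ _ (fun he => hii (hf1 he))) (fun i => hQi (f i)) s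
    hf2 (by
      have h1 := min_le_right (κ / 4) (hs ^ 3 / 48)
      have h2 := min_le_right (κ / 48) (hs ^ 3 / 48)
      have h3 : 0 < hs ^ 3 := by positivity
      linarith)
  exact ⟨s, hws, Hn, hHn⟩

end Pool.Agent.Work.MP_44e7ab_co
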