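import Mathlib
import Pool.Agent.Work.MP_44e7ab_co.Q1.RankStep

set_option autoImplicit false

/-! The rank induction. -/

namespace Pool.Agent.Work.MP_44e7ab_co

open Finset Classical

theorem rank_zero (P : ℕ) (t : ℝ) (ht : 0 < t) : RankAt P 0 t := by
  refine ⟨1, one_pos, ?_⟩
  intro V _ G hG l r D Ω _ b hT w hw _ lo hi h
  have h1 : 0 < pr w w (fun x y => Touch G (nwin l r lo hi (b x)) (nwin l r lo hi (b y))) :=
    lt_of_lt_of_le ht h
  rw [pr_eq_ms] at h1
  obtain ⟨x, _, hx⟩ : ∃ x ∈ (univ : Finset Ω), 0 < w x * ms w (fun y =>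
      Touch G (nwin l r lo hi (b x)) (nwin l r lo hi (b y))) := by
    by_contra hcon
    push Not at hcon
    have := Finset.sum_nonpos hcon
    linarith
  have hwx : 0 < w x := by
    rcases (hw.1 x).lt_or_eq with h0 | h0
    · exact h0
    · rw [← h0, zero_mul] at hx
      exact absurd hx (lt_irrefl 0)
  have hms : 0 < ms w (fun y => Touch G (nwin l r lo hi (b x)) (nwin l r lo hi (b y))) := by
    by_contra hcon
    push Not at hcon
    have := mul_nonpos_of_nonneg_of_nonpos hwx.le hcon
    linarith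
  obtain ⟨y, _, u, hu, _⟩ := exists_of_ms_pos _ hms
  rw [nwin, Finset.mem_filter] at hu
  refine ⟨x, hwx, {u}, ?_, ?_, ?_, ?_, u, Finset.mem_singleton_self u, hu.1⟩
  · intro v hv
    rw [Finset.mem_singleton] at hv
    rw [hv]
    exact hu.2
  · exact connSet_of_card_le_one (by simp)
  · rintro ⟨n, X, _, h2, _, _, h5⟩
    obtain ⟨i, hi'⟩ := h2 u (Finset.mem_singleton_self u)
    have := h5 i
    have h6 : 0 < (X i).card := Finset.card_pos.mpr ⟨u, hi'⟩
    omega
  · have h2 : b x ∪ {u} = b x := by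
      ext v
      simp only [Finset.mem_union, Finset.mem_singleton]
      constructor
      · rintro (h | h)
        · exact h
        · rw [h]; exact hu.1
      · exact Or.inl
    rw [h2]
    exact (tiled_omLe hT x).le (by norm_num)

theorem rank (P j : ℕ) : ∀ t : ℝ, 0 < t → RankAt P j t := by
  induction j with
  | zero => exact fun t ht => rank_zero P t ht
  | succ j ih => exact fun t ht => rank_step P j ih t ht

/-- spread laws on tiled routes are sparse -/
theorem sparse_of_spread (P : ℕ) (γ : ℝ) (hγ : 0 < γ) : ∃ η : ℝ, 0 < η ∧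
    ∀ (V : Type) [Fintype V] (G : SimpleGraph V), PWB G P →
    ∀ (l r : V → ℕ) (D : ℕ) (Ω : Type) [Fintype Ω] (b : Ω → Finset V), Tiled G l r D b →
    ∀ w : Ω → ℝ, IsLaw w → Spread G P w b η →
    pr w w (fun x y => Touch G (b x) (b y)) ≤ γ := by
  obtain ⟨η, hη, h⟩ := rank P P γ hγ
  refine ⟨η, hη, ?_⟩
  intro V _ G hG l r D Ω _ b hT w hw hs
  by_contra hcon
  push Not at hcon
  have hfull : ∀ x, nwin l r 0 D (b x) = b x := by
    intro x
    ext v
    rw [nwin, Finset.mem_filter]
    constructor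
    · exact fun h => h.1
    · exact fun h => ⟨h, Nat.zero_le _, hT.le x v h⟩
  obtain ⟨c, _, H, _, _, h3, h4, _⟩ := h V G hG l r D Ω b hT w hw hs 0 D (by
    simp only [hfull]
    exact hcon.le)
  exact h3 (hG H ((h4.mono Finset.subset_union_right).le (by norm_num)))

end Pool.Agent.Work.MP_44e7ab_co
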