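import Mathlib
import Pool.Agent.Work.MP_44e7ab_co.Q1.Defs

set_option autoImplicit false

/-! M4: weighted distances from a set (`exists_potential`). -/

namespace Pool.Agent.Work.MP_44e7ab_co

open Finset Classical

namespace Pot

/-- a shortest walk inside `U` is an induced path -/
theorem ind_path {V : Type} {G : SimpleGraph V} {U : Set V} {x y : V}
    (h : ConnIn G U x y) :
    ∃ (p : ℕ → V) (m : ℕ), IndPath G p m ∧ p 0 = x ∧ p m = y ∧ ∀ i ≤ m, p i ∈ U := by
  obtain ⟨p0, hp0⟩ := h
  have hex : ∃ k, ∃ p : G.Walk x y, (∀ z ∈ p.support, z ∈ U) ∧ p.length = k := ⟨_, p0, hp0, rfl⟩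
  obtain ⟨p, hp, hk⟩ := Nat.find_spec hex
  have hmin : ∀ q : G.Walk x y, (∀ z ∈ q.support, z ∈ U) → p.length ≤ q.length := by
    intro q hq
    rw [hk]
    exact Nat.find_min' hex ⟨q, hq, rfl⟩
  have htake : ∀ i, ∀ z ∈ (p.take i).support, z ∈ U := by
    intro i z hz
    rw [SimpleGraph.Walk.support_take] at hz
    exact hp z (List.mem_of_mem_take hz)
  have hdrop : ∀ i, ∀ z ∈ (p.drop i).support, z ∈ U := by
    intro i z hz
    rw [SimpleGraph.Walk.drop_support_eq_support_drop_min] at hz
    exact hp z (List.mem_of_mem_drop hz)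
  have hne : ∀ i j, i < j → j ≤ p.length → p.getVert i ≠ p.getVert j := by
    intro i j hij hj heq
    have := hmin ((p.take i).append ((p.drop j).copy heq.symm rfl)) (by
      intro z hz
      rw [SimpleGraph.Walk.mem_support_append_iff] at hz
      rcases hz with hz | hz
      · exact htake i z hz
      · rw [SimpleGraph.Walk.support_copy] at hz
        exact hdrop j z hz)
    rw [SimpleGraph.Walk.length_append, SimpleGraph.Walk.length_copy,
      SimpleGraph.Walk.take_length, SimpleGraph.Walk.drop_length] at this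
    omega
  have hnadj : ∀ i j, i + 1 < j → j ≤ p.length → ¬ G.Adj (p.getVert i) (p.getVert j) := by
    intro i j hij hj hadj
    have := hmin ((p.take i).append (SimpleGraph.Walk.cons hadj (p.drop j))) (by
      intro z hz
      rw [SimpleGraph.Walk.mem_support_append_iff] at hz
      rcases hz with hz | hz
      · exact htake i z hz
      · rw [SimpleGraph.Walk.support_cons, List.mem_cons] at hz
        rcases hz with rfl | hz
        · exact hp _ (SimpleGraph.Walk.getVert_mem_support _ _)
        · exact hdrop j z hz)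
    rw [SimpleGraph.Walk.length_append, SimpleGraph.Walk.length_cons,
      SimpleGraph.Walk.take_length, SimpleGraph.Walk.drop_length] at this
    omega
  refine ⟨p.getVert, p.length, ⟨?_, ?_⟩, p.getVert_zero, p.getVert_length, ?_⟩
  · intro i j hi hj hij
    by_contra hne'
    rcases Nat.lt_or_gt_of_ne hne' with h | h
    · exact hne i j h hj hij
    · exact hne j i h hi hij.symm
  · intro i j hi hj
    constructor
    · intro hadj
      by_contra hcon
      push Not at hcon
      rcases Nat.lt_trichotomy i j with h | h | h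
      · exact hnadj i j (by omega) hj hadj
      · rw [h] at hadj
        exact G.irrefl hadj
      · exact hnadj j i (by omega) hi hadj.symm
    · intro h
      rcases h with h | h
      · rw [← h]
        exact p.adj_getVert_succ (by omega)
      · rw [← h]
        exact (p.adj_getVert_succ (by omega)).symm
  · intro i _
    exact hp _ (SimpleGraph.Walk.getVert_mem_support _ _)

/-- sub-paths are connected -/
theorem ind_conn {V : Type} {G : SimpleGraph V} {p : ℕ → V} {m : ℕ} (h : IndPath G p m)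
    {U : Set V} {i j : ℕ} (hij : i ≤ j) (hj : j ≤ m) (hU : ∀ k, i ≤ k → k ≤ j → p k ∈ U) :
    ConnIn G U (p i) (p j) := by
  induction j with
  | zero =>
    have : i = 0 := by omega
    subst this
    exact ConnIn.refl (hU 0 le_rfl le_rfl)
  | succ j ih =>
    rcases Nat.lt_or_ge i (j + 1) with hlt | hge
    · have h1 := ih (by omega) (by omega) (fun k hk hk' => hU k hk (by omega))
      have hadj : G.Adj (p j) (p (j + 1)) := (h.2 j (j + 1) (by omega) hj).mpr (Or.inl rfl)
      exact h1.trans (ConnIn.adj hadj (hU j (by omega) (by omega)) (hU (j + 1) hij le_rfl))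
    · have : i = j + 1 := by omega
      subst this
      exact ConnIn.refl (hU _ le_rfl le_rfl)

variable {V : Type} [Fintype V] (G : SimpleGraph V) (F A : Finset V) (lam : V → ℝ)

/-- connecting sets for `v` -/
noncomputable def fam (v : V) : Finset (Finset V) :=
  F.powerset.filter (fun S => Cn G A {v} S)

/-- minimal weight of a connecting set -/
noncomputable def dist (v : V) : ℝ :=
  if h : (fam G F A v).Nonempty then (fam G F A v).inf' h (fun S => ∑ u ∈ S, lam u)
  else ∑ u ∈ F, lam u

variable {G F A lam}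

theorem mem_fam {v : V} {S : Finset V} : S ∈ fam G F A v ↔ S ⊆ F ∧ Cn G A {v} S := by
  simp [fam]

theorem dist_le {v : V} {S : Finset V} (hS : S ⊆ F) (hc : Cn G A {v} S) :
    dist G F A lam v ≤ ∑ u ∈ S, lam u := by
  have hne : (fam G F A v).Nonempty := ⟨S, mem_fam.mpr ⟨hS, hc⟩⟩
  rw [dist, dif_pos hne]
  exact Finset.inf'_le _ (mem_fam.mpr ⟨hS, hc⟩)

theorem exists_dist {v : V} (h : (fam G F A v).Nonempty) :
    ∃ S : Finset V, S ⊆ F ∧ Cn G A {v} S ∧ dist G F A lam v = ∑ u ∈ S, lam u := by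
  obtain ⟨S, hS, hSe⟩ := Finset.exists_mem_eq_inf' h (fun S => ∑ u ∈ S, lam u)
  exact ⟨S, (mem_fam.mp hS).1, (mem_fam.mp hS).2, by rw [dist, dif_pos h, hSe]⟩

theorem cn_mem {B S : Finset V} (h : Cn G A B S) : ∃ b ∈ B, b ∈ S := by
  obtain ⟨a, _, b, hb, hab⟩ := h
  exact ⟨b, hb, by exact_mod_cast hab.right_mem⟩

theorem mem_of_cn {v : V} {S : Finset V} (h : Cn G A {v} S) : v ∈ S := by
  obtain ⟨b, hb, hbS⟩ := cn_mem h
  rw [Finset.mem_singleton] at hb
  rwa [hb] at hbS

theorem sum_mono {S T : Finset V} (hlam : ∀ v ∈ F, 0 < lam v) (hT : T ⊆ F) (h : S ⊆ T) :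
    ∑ u ∈ S, lam u ≤ ∑ u ∈ T, lam u :=
  Finset.sum_le_sum_of_subset_of_nonneg h fun i hi _ => (hlam i (hT hi)).le

theorem dist_le_total (hlam : ∀ v ∈ F, 0 < lam v) (v : V) :
    dist G F A lam v ≤ ∑ u ∈ F, lam u := by
  by_cases h : (fam G F A v).Nonempty
  · obtain ⟨S, hS, _, he⟩ := exists_dist (lam := lam) h
    rw [he]
    exact sum_mono hlam subset_rfl hS
  · rw [dist, dif_neg h]

theorem sum_union_le {S T : Finset V} (hlam : ∀ v ∈ F, 0 < lam v) (hT : T ⊆ F) (hS : S ⊆ F) :
    ∑ u ∈ S ∪ T, lam u ≤ ∑ u ∈ S, lam u + ∑ u ∈ T, lam u := by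
  rw [← Finset.sum_union_inter]
  have : 0 ≤ ∑ u ∈ S ∩ T, lam u :=
    Finset.sum_nonneg fun i hi => (hlam i (hS (Finset.mem_inter.mp hi).1)).le
  linarith

theorem main_path (hlam : ∀ v ∈ F, 0 < lam v) (B : Finset V) (L : ℝ)
    (hL : ∀ S : Finset V, S ⊆ F → Cn G A B S → L ≤ ∑ v ∈ S, lam v)
    (S : Finset V) (hS : S ⊆ F) (hc : Cn G A B S) (hw : ∑ v ∈ S, lam v ≤ L) :
    ∃ (p : ℕ → V) (m : ℕ), IndPath G p m ∧ supp p m = S ∧ p 0 ∈ A ∧ p m ∈ B ∧
      dist G F A lam (p 0) = lam (p 0) ∧
      (∀ i < m, dist G F A lam (p (i + 1)) = dist G F A lam (p i) + lam (p (i + 1))) ∧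
      dist G F A lam (p m) = L := by
  obtain ⟨a, ha, b, hb, hab⟩ := hc
  obtain ⟨p, m, hp, hp0, hpm, hpS⟩ := ind_path hab
  have hsub : supp p m ⊆ S := by
    intro v hv
    rw [supp, Finset.mem_image] at hv
    obtain ⟨i, hi, rfl⟩ := hv
    exact_mod_cast hpS i (by rw [Finset.mem_range] at hi; omega)
  have hsuppF : ∀ i ≤ m, supp p i ⊆ F := by
    intro i hi v hv
    rw [supp, Finset.mem_image] at hv
    obtain ⟨k, hk, rfl⟩ := hv
    rw [Finset.mem_range] at hk
    exact hS (by exact_mod_cast hpS k (by omega))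
  have hmemsupp : ∀ i k, k ≤ i → p k ∈ supp p i := by
    intro i k hk
    rw [supp]
    exact Finset.mem_image_of_mem _ (by rw [Finset.mem_range]; omega)
  have hcnsupp : ∀ i ≤ m, Cn G A {p i} (supp p i) := by
    intro i hi
    refine ⟨p 0, by rw [hp0]; exact ha, p i, by simp, ?_⟩
    exact ind_conn hp (Nat.zero_le i) hi fun k _ hk => by exact_mod_cast hmemsupp i k hk
  have hinj : ∀ i ≤ m, Set.InjOn p ((Finset.range (i + 1) : Finset ℕ) : Set ℕ) := by
    intro i hi x hx y hy hxy
    rw [Finset.coe_range, Set.mem_Iio] at hx hy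
    exact hp.1 x y (by omega) (by omega) hxy
  have hsum : ∀ i ≤ m, ∑ v ∈ supp p i, lam v = ∑ k ∈ Finset.range (i + 1), lam (p k) := by
    intro i hi
    rw [supp, Finset.sum_image (hinj i hi)]
  have hcnB : Cn G A B (supp p m) := by
    refine ⟨p 0, by rw [hp0]; exact ha, p m, by rw [hpm]; exact hb, ?_⟩
    exact ind_conn hp (Nat.zero_le m) le_rfl fun k _ hk => by exact_mod_cast hmemsupp m k hk
  have hge := hL _ (hsuppF m le_rfl) hcnB
  have hle := sum_mono hlam hS hsub
  have hsupp : supp p m = S := by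
    by_contra hne
    obtain ⟨v, hvS, hv⟩ := Finset.exists_of_ssubset (Finset.ssubset_iff_subset_ne.mpr ⟨hsub, hne⟩)
    have : ∑ u ∈ supp p m, lam u < ∑ u ∈ S, lam u :=
      Finset.sum_lt_sum_of_subset hsub hvS hv (hlam v (hS hvS))
        (fun j hj _ => (hlam j (hS hj)).le)
    linarith
  have hLsum : L = ∑ k ∈ Finset.range (m + 1), lam (p k) := by
    rw [← hsum m le_rfl]
    linarith
  -- exact distances
  have hd : ∀ i ≤ m, dist G F A lam (p i) = ∑ k ∈ Finset.range (i + 1), lam (p k) := by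
    intro i hi
    apply le_antisymm
    · rw [← hsum i hi]
      exact dist_le (hsuppF i hi) (hcnsupp i hi)
    · have hne : (fam G F A (p i)).Nonempty := ⟨_, mem_fam.mpr ⟨hsuppF i hi, hcnsupp i hi⟩⟩
      obtain ⟨T, hTF, hTc, hTe⟩ := exists_dist (lam := lam) hne
      rw [hTe]
      set R : Finset V := (Finset.Ico (i + 1) (m + 1)).image p with hR
      have hRF : R ⊆ F := by
        intro v hv
        rw [hR, Finset.mem_image] at hv
        obtain ⟨k, hk, rfl⟩ := hv
        rw [Finset.mem_Ico] at hk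
        exact hS (by exact_mod_cast hpS k (by omega))
      have hcon : Cn G A B (T ∪ R) := by
        obtain ⟨a', ha', c, hc, hac⟩ := hTc
        rw [Finset.mem_singleton] at hc
        subst hc
        refine ⟨a', ha', p m, by rw [hpm]; exact hb, ?_⟩
        refine (hac.mono (by intro z hz; simp only [Finset.coe_union, Set.mem_union]; left; exact hz)).trans ?_
        refine ind_conn hp hi le_rfl fun k hk hk' => ?_
        rw [Finset.coe_union, Set.mem_union]
        rcases Nat.lt_or_ge i k with h1 | h1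
        · right
          rw [hR]
          exact_mod_cast Finset.mem_image_of_mem p (Finset.mem_Ico.mpr ⟨by omega, by omega⟩)
        · left
          have : k = i := by omega
          rw [this]
          exact hac.right_mem
      have h1 := hL _ (Finset.union_subset hTF hRF) hcon
      have h2 := sum_union_le hlam hRF hTF
      have h3 : ∑ u ∈ R, lam u = ∑ k ∈ Finset.Ico (i + 1) (m + 1), lam (p k) := by
        rw [hR, Finset.sum_image]
        intro x hx y hy hxy
        rw [Finset.coe_Ico, Set.mem_Ico] at hx hy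
        exact hp.1 x y (by omega) (by omega) hxy
      have h4 : ∑ k ∈ Finset.range (i + 1), lam (p k) + ∑ k ∈ Finset.Ico (i + 1) (m + 1), lam (p k)
          = ∑ k ∈ Finset.range (m + 1), lam (p k) := by
        rw [Finset.range_eq_Ico, Finset.range_eq_Ico]
        exact Finset.sum_Ico_consecutive _ (by omega) (by omega)
      linarith
  refine ⟨p, m, hp, hsupp, by rw [hp0]; exact ha, by rw [hpm]; exact hb, ?_, ?_, ?_⟩
  · rw [hd 0 (Nat.zero_le m)]
    simp
  · intro i hi
    rw [hd (i + 1) (by omega), hd i (by omega), Finset.sum_range_succ]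
  · rw [hd m le_rfl, hLsum]

end Pot

/-- M4: the weighted distance from `A` inside `F`. -/
theorem exists_potential {V : Type} [Fintype V] (G : SimpleGraph V) (F A : Finset V)
    (lam : V → ℝ) (hlam : ∀ v ∈ F, 0 < lam v) :
    ∃ d : V → ℝ,
      (∀ v ∈ F, lam v ≤ d v) ∧
      (∀ a ∈ A, a ∈ F → d a = lam a) ∧
      (∀ u ∈ F, ∀ v ∈ F, G.Adj u v → d v ≤ d u + lam v) ∧
      (∀ S : Finset V, S ⊆ F → ∀ v, Cn G A {v} S → d v ≤ ∑ u ∈ S, lam u) ∧
      (∀ v, Cn G A {v} F → ∃ (p : ℕ → V) (m : ℕ), IndPath G p m ∧ (∀ i ≤ m, p i ∈ F) ∧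
        p 0 ∈ A ∧ p m = v ∧ d (p 0) = lam (p 0) ∧
        ∀ i < m, d (p (i + 1)) = d (p i) + lam (p (i + 1))) ∧
      (∀ (B : Finset V) (L : ℝ), (∀ S : Finset V, S ⊆ F → Cn G A B S → L ≤ ∑ v ∈ S, lam v) →
        ∀ S : Finset V, S ⊆ F → Cn G A B S → ∑ v ∈ S, lam v ≤ L →
        ∃ (p : ℕ → V) (m : ℕ), IndPath G p m ∧ supp p m = S ∧ p 0 ∈ A ∧ p m ∈ B ∧
          d (p 0) = lam (p 0) ∧ (∀ i < m, d (p (i + 1)) = d (p i) + lam (p (i + 1))) ∧
          d (p m) = L) := by
  have h1 : ∀ v ∈ F, lam v ≤ Pot.dist G F A lam v := by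
    intro v hv
    by_cases h : (Pot.fam G F A v).Nonempty
    · obtain ⟨S, hS, hc, he⟩ := Pot.exists_dist (lam := lam) h
      rw [he]
      have hvS := Pot.mem_of_cn hc
      exact Finset.single_le_sum (f := lam) (fun i hi => (hlam i (hS hi)).le) hvS
    · rw [Pot.dist, dif_neg h]
      exact Finset.single_le_sum (f := lam) (fun i hi => (hlam i hi).le) hv
  have h4 : ∀ S : Finset V, S ⊆ F → ∀ v, Cn G A {v} S → Pot.dist G F A lam v ≤ ∑ u ∈ S, lam u :=
    fun S hS v hc => Pot.dist_le hS hc
  refine ⟨Pot.dist G F A lam, h1, ?_, ?_, h4, ?_, ?_⟩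
  · intro a ha haF
    apply le_antisymm _ (h1 a haF)
    have : Cn G A {a} {a} := ⟨a, ha, a, by simp, ConnIn.refl (by simp)⟩
    have h := h4 {a} (by simpa using haF) a this
    simpa using h
  · intro u hu v hv huv
    by_cases h : (Pot.fam G F A u).Nonempty
    · obtain ⟨S, hS, hc, he⟩ := Pot.exists_dist (lam := lam) h
      rw [he]
      have hvF : ({v} : Finset V) ⊆ F := by simpa using hv
      have hcn : Cn G A {v} (S ∪ {v}) := by
        obtain ⟨a, ha, b, hb, hab⟩ := hc
        rw [Finset.mem_singleton] at hb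
        subst hb
        refine ⟨a, ha, v, by simp, ?_⟩
        refine (hab.mono (by intro z hz; simp only [Finset.coe_union, Set.mem_union]; left; exact hz)).trans ?_
        refine ConnIn.adj huv ?_ ?_
        · rw [Finset.coe_union, Set.mem_union]
          left
          exact hab.right_mem
        · simp
      have h5 := h4 _ (Finset.union_subset hS hvF) v hcn
      have h6 := Pot.sum_union_le hlam hvF hS
      simp only [Finset.sum_singleton] at h6
      linarith
    · have h5 : Pot.dist G F A lam u = ∑ w ∈ F, lam w := by rw [Pot.dist, dif_neg h]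
      have h6 := Pot.dist_le_total (G := G) (A := A) hlam v
      have h7 := hlam v hv
      linarith
  · intro v hv
    have hne : (Pot.fam G F A v).Nonempty := ⟨F, Pot.mem_fam.mpr ⟨subset_rfl, hv⟩⟩
    obtain ⟨S, hS, hc, he⟩ := Pot.exists_dist (lam := lam) hne
    obtain ⟨p, m, hp, hsupp, hp0, hpm, hd0, hds, _⟩ := Pot.main_path hlam {v}
      (Pot.dist G F A lam v) (fun T hT hcT => h4 T hT v hcT) S hS hc (by rw [he])
    refine ⟨p, m, hp, ?_, hp0, by simpa using hpm, hd0, hds⟩
    intro i hi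
    apply hS
    rw [← hsupp, supp]
    exact Finset.mem_image_of_mem _ (by rw [Finset.mem_range]; omega)
  · intro B L hL S hS hc hw
    exact Pot.main_path hlam B L hL S hS hc hw

end Pool.Agent.Work.MP_44e7ab_co
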