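import Mathlib
import Pool.Agent.Work.MP_44e7ab_co.Q1.Defs
import Pool.Agent.Work.MP_44e7ab_co.Q1.Saddle
import Pool.Agent.Work.MP_44e7ab_co.Q1.Potential

set_option autoImplicit false

/-! M5: tiled laws of routes from a fractional connectivity hypothesis. -/

namespace Pool.Agent.Work.MP_44e7ab_co

open Finset Classical

/-- the rank of a real number in a finite set -/
noncomputable def rk (T : Finset ℝ) (x : ℝ) : ℕ := (T.filter (fun y => y < x)).card

lemma rk_mono (T : Finset ℝ) {x y : ℝ} (h : x ≤ y) : rk T x ≤ rk T y := by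
  apply Finset.card_le_card
  intro z hz
  rw [Finset.mem_filter] at hz ⊢
  exact ⟨hz.1, lt_of_lt_of_le hz.2 h⟩

lemma rk_lt (T : Finset ℝ) {x y : ℝ} (hx : x ∈ T) (h : x < y) : rk T x < rk T y := by
  apply Finset.card_lt_card
  rw [Finset.ssubset_iff_of_subset]
  · exact ⟨x, Finset.mem_filter.mpr ⟨hx, h⟩, fun h' => lt_irrefl _ (Finset.mem_filter.mp h').2⟩
  · intro z hz
    rw [Finset.mem_filter] at hz ⊢
    exact ⟨hz.1, hz.2.trans h⟩

lemma rk_inj (T : Finset ℝ) {x y : ℝ} (hx : x ∈ T) (hy : y ∈ T) (h : rk T x = rk T y) :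
    x = y := by
  rcases lt_trichotomy x y with h' | h' | h'
  · have := rk_lt T hx h'
    omega
  · exact h'
  · have := rk_lt T hy h'
    omega

theorem tiled_of_potential {V Ω : Type} [Fintype V] (G : SimpleGraph V) (lam d : V → ℝ) (L : ℝ)
    (hlam : ∀ v, 0 < lam v) (h1 : ∀ v, lam v ≤ d v)
    (h2 : ∀ u v, G.Adj u v → d v ≤ d u + lam v) (b : Ω → Finset V)
    (hb : ∀ ω, ∃ (p : ℕ → V) (m : ℕ), IndPath G p m ∧ supp p m = b ω ∧ d (p 0) = lam (p 0) ∧
      (∀ i < m, d (p (i + 1)) = d (p i) + lam (p (i + 1))) ∧ d (p m) = L) :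
    ∃ (l r : V → ℕ) (D : ℕ), Tiled G l r D b := by
  set T : Finset ℝ := univ.image d ∪ univ.image (fun v => d v - lam v) with hT
  have hTd : ∀ v, d v ∈ T := by
    intro v
    rw [hT, Finset.mem_union]
    exact Or.inl (Finset.mem_image_of_mem _ (mem_univ v))
  have hTl : ∀ v, d v - lam v ∈ T := by
    intro v
    rw [hT, Finset.mem_union]
    exact Or.inr (Finset.mem_image_of_mem (fun v => d v - lam v) (mem_univ v))
  have hT0 : ∀ y ∈ T, 0 ≤ y := by
    intro y hy
    rw [hT, Finset.mem_union] at hy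
    rcases hy with hy | hy
    · obtain ⟨v, _, rfl⟩ := Finset.mem_image.mp hy
      exact (hlam v).le.trans (h1 v)
    · obtain ⟨v, _, rfl⟩ := Finset.mem_image.mp hy
      have := h1 v
      linarith
  have hrk0 : rk T 0 = 0 := by
    unfold rk
    rw [Finset.card_eq_zero, Finset.filter_eq_empty_iff]
    intro y hy
    have := hT0 y hy
    linarith
  -- monotonicity along the paths
  have hmono : ∀ (p : ℕ → V) (m : ℕ), (∀ i < m, d (p (i + 1)) = d (p i) + lam (p (i + 1))) →
      ∀ j, j ≤ m → ∀ i, i < j → d (p i) ≤ d (p j) - lam (p j) := by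
    intro p m hstep j
    induction j with
    | zero => intro _ i hi; omega
    | succ j ih =>
      intro hj i hi
      have h3 := hstep j (by omega)
      rcases Nat.lt_succ_iff_lt_or_eq.mp hi with h | h
      · have h4 := ih (by omega) i h
        have h5 := hlam (p j)
        linarith
      · subst h
        linarith
  refine ⟨fun v => rk T (d v - lam v), fun v => rk T (d v), rk T L, ?_, ?_, ?_, ?_, ?_⟩
  · intro v
    exact rk_lt T (hTl v) (by have := hlam v; linarith)
  · intro u v huv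
    apply rk_mono
    have := h2 v u huv.symm
    linarith
  · intro ω x hx
    obtain ⟨p, m, hp, hs, h0, hstep, hm⟩ := hb ω
    rw [← hs, supp, Finset.mem_image] at hx
    obtain ⟨i, hi, rfl⟩ := hx
    apply rk_mono
    rw [← hm]
    rw [Finset.mem_range] at hi
    rcases Nat.lt_or_ge i m with h | h
    · have := hmono p m hstep m le_rfl i h
      have := hlam (p m)
      linarith
    · have : i = m := by omega
      rw [this]
  · intro ω e he
    obtain ⟨p, m, hp, hs, h0, hstep, hm⟩ := hb ω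
    have hex : ∃ i, i ≤ m ∧ e < rk T (d (p i)) := ⟨m, le_rfl, by rw [hm]; exact he⟩
    obtain ⟨him, hi⟩ := Nat.find_spec hex
    have hmin : ∀ j, j < Nat.find hex → ¬ (j ≤ m ∧ e < rk T (d (p j))) :=
      fun j hj => Nat.find_min hex hj
    set i := Nat.find hex with hidef
    have hli : rk T (d (p i) - lam (p i)) ≤ e := by
      rcases Nat.eq_zero_or_pos i with h | h
      · rw [h, h0, sub_self, hrk0]
        exact Nat.zero_le _
      · have h3 := hmin (i - 1) (by omega)
        have h4 := hstep (i - 1) (by omega)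
        rw [Nat.sub_add_cancel h] at h4
        have h5 : d (p i) - lam (p i) = d (p (i - 1)) := by linarith
        rw [h5]
        by_contra hcon
        exact h3 ⟨by omega, by omega⟩
    refine ⟨p i, ⟨?_, hli, hi⟩, ?_⟩
    · rw [← hs, supp]
      exact Finset.mem_image_of_mem _ (by rw [Finset.mem_range]; omega)
    · rintro y ⟨hy, hly, hry⟩
      rw [← hs, supp, Finset.mem_image] at hy
      obtain ⟨j, hj, rfl⟩ := hy
      rw [Finset.mem_range] at hj
      rcases lt_trichotomy j i with h | h | h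
      · exact absurd ⟨by omega, hry⟩ (hmin j h)
      · rw [h]
      · exfalso
        have h3 := hmono p m hstep j (by omega) i h
        have h4 := rk_mono T h3
        omega
  · intro ω x hx y hy hxy
    obtain ⟨p, m, hp, hs, h0, hstep, hm⟩ := hb ω
    rw [← hs, supp, Finset.mem_image] at hx hy
    obtain ⟨i, hi, rfl⟩ := hx
    obtain ⟨j, hj, rfl⟩ := hy
    rw [Finset.mem_range] at hi hj
    have hxy' := rk_inj T (hTd _) (hTl _) hxy
    have hij : i + 1 = j := by
      rcases Nat.eq_zero_or_pos j with h | h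
      · exfalso
        rw [h, h0, sub_self] at hxy'
        have h3 := hlam (p i)
        have h4 := h1 (p i)
        linarith
      · have h4 := hstep (j - 1) (by omega)
        rw [Nat.sub_add_cancel h] at h4
        have h5 : d (p i) = d (p (j - 1)) := by linarith
        rcases lt_trichotomy i (j - 1) with h' | h' | h'
        · have h6 := hmono p m hstep (j - 1) (by omega) i h'
          have h7 := hlam (p (j - 1))
          linarith
        · omega
        · have h6 := hmono p m hstep i (by omega) (j - 1) h'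
          have h7 := hlam (p i)
          linarith
    exact (hp.2 i j (by omega) (by omega)).mpr (Or.inl hij)

/-- the statement of `exists_potential` on the whole vertex set, as needed here -/
def PotHyp {V : Type} [Fintype V] (G : SimpleGraph V) (A B : Finset V) : Prop :=
  ∀ lam : V → ℝ, (∀ v, 0 < lam v) → ∃ d : V → ℝ, (∀ v, lam v ≤ d v) ∧
    (∀ u v, G.Adj u v → d v ≤ d u + lam v) ∧
    ∀ L : ℝ, (∀ S : Finset V, Cn G A B S → L ≤ ∑ v ∈ S, lam v) →
      ∀ S : Finset V, Cn G A B S → ∑ v ∈ S, lam v ≤ L →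
      ∃ (p : ℕ → V) (m : ℕ), IndPath G p m ∧ supp p m = S ∧ d (p 0) = lam (p 0) ∧
        (∀ i < m, d (p (i + 1)) = d (p i) + lam (p (i + 1))) ∧ d (p m) = L

theorem exists_tiled_of {V : Type} [Fintype V] (G : SimpleGraph V) (A B : Finset V)
    (hpot : PotHyp G A B) (n : ℕ)
    (hn : 1 ≤ n) (P : ℕ)
    (hfrac : ∀ y : V → ℝ, (∀ v, 0 ≤ y v) → ∃ S : Finset V, Cn G A B S ∧
      ∃ I : Finset V, G.IsIndepSet (I : Set V) ∧ (n : ℝ) * ∑ v ∈ S, y v ≤ ∑ v ∈ I, y v) :
    ∃ (l r : V → ℕ) (D : ℕ) (Ω : Type) (_ : Fintype Ω) (b : Ω → Finset V) (w : Ω → ℝ),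
      IsLaw w ∧ Tiled G l r D b ∧ (∀ ω, Cn G A B (b ω)) ∧
      Spread G P w b (((P : ℝ) + 1) / n) := by
  obtain ⟨S0, hS0, I0, hI0, -⟩ := hfrac (fun _ => 0) (fun _ => le_rfl)
  obtain ⟨a0, ha0, b0, hb0, hab0⟩ := id hS0
  have hn' : (0 : ℝ) < n := by exact_mod_cast hn
  have hV : Nonempty V := ⟨a0⟩
  have hcard : (0 : ℝ) < Fintype.card V := by exact_mod_cast Fintype.card_pos
  set N : ℝ := (Fintype.card V : ℝ) with hN
  set ε : ℝ := 1 / (n * N) with hε
  have hε0 : 0 < ε := by positivity
  -- strategies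
  let Φ : Type := {z : Finset V × Finset V // Cn G A B z.1 ∧ G.IsIndepSet (z.2 : Set V)}
  have hΦ : Nonempty Φ := ⟨⟨(S0, I0), hS0, hI0⟩⟩
  let pay : Φ → V → ℝ := fun z v => (ε / N) * (z.1.1.card : ℝ) +
    (if v ∈ z.1.1 then 1 else 0) - (if v ∈ z.1.2 then 1 else 0) / n
  obtain ⟨σ, y, val, hσ0, hσ1, hy0, hy1, hσ, hy⟩ := saddle_fin pay
  let lam : V → ℝ := fun v => ε / N + y v
  have hlam : ∀ v, 0 < lam v := fun v => add_pos_of_pos_of_nonneg (by positivity) (hy0 v)
  have hpay : ∀ z : Φ, ∑ v, y v * pay z v = ∑ v ∈ z.1.1, lam v - (∑ v ∈ z.1.2, y v) / n := by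
    intro z
    simp only [pay, lam]
    have e1 : ∀ v, y v * ((ε / N) * (z.1.1.card : ℝ) + (if v ∈ z.1.1 then 1 else 0) -
        (if v ∈ z.1.2 then 1 else 0) / n) = y v * ((ε / N) * (z.1.1.card : ℝ)) +
        (if v ∈ z.1.1 then y v else 0) - (if v ∈ z.1.2 then y v else 0) / n := by
      intro v
      split_ifs <;> ring
    rw [Finset.sum_congr rfl (fun v _ => e1 v), Finset.sum_sub_distrib, Finset.sum_add_distrib,
      ← Finset.sum_mul, hy1, ← Finset.sum_div, Finset.sum_ite_mem, Finset.univ_inter,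
      Finset.sum_ite_mem, Finset.univ_inter, Finset.sum_add_distrib, Finset.sum_const,
      nsmul_eq_mul]
    ring
  have hval : val ≤ ε := by
    obtain ⟨S, hS, I, hI, hSI⟩ := hfrac y hy0
    have h1 := hy ⟨(S, I), hS, hI⟩
    rw [hpay] at h1
    simp only [lam] at h1
    rw [Finset.sum_add_distrib, Finset.sum_const, nsmul_eq_mul] at h1
    have h2 : (∑ v ∈ S, y v) ≤ (∑ v ∈ I, y v) / n := by
      rw [le_div_iff₀ hn']
      linarith
    have h3 : (S.card : ℝ) * (ε / N) ≤ ε := by
      have : (S.card : ℝ) ≤ N := by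
        rw [hN]
        exact_mod_cast Finset.card_le_univ S
      calc (S.card : ℝ) * (ε / N) ≤ N * (ε / N) :=
            mul_le_mul_of_nonneg_right this (by positivity)
        _ = ε := by field_simp
    linarith
  -- complementary slackness
  have hslack : ∀ z : Φ, 0 < σ z → ∑ v ∈ z.1.1, lam v - (∑ v ∈ z.1.2, y v) / n = val := by
    have hsum : ∑ z, σ z * (∑ v, y v * pay z v - val) ≤ 0 := by
      have e1 : ∑ z, σ z * (∑ v, y v * pay z v - val) = ∑ v, y v * (∑ z, σ z * pay z v) - val := by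
        simp only [mul_sub, Finset.sum_sub_distrib, ← Finset.sum_mul, hσ1, one_mul, Finset.mul_sum]
        rw [Finset.sum_comm]
        congr 1
        apply Finset.sum_congr rfl; intro v _
        apply Finset.sum_congr rfl; intro z _
        ring
      rw [e1]
      have h2 : ∑ v, y v * (∑ z, σ z * pay z v) ≤ ∑ v, y v * val :=
        Finset.sum_le_sum fun v _ => mul_le_mul_of_nonneg_left (hσ v) (hy0 v)
      rw [← Finset.sum_mul, hy1, one_mul] at h2
      linarith
    have hnn : ∀ z ∈ (univ : Finset Φ), 0 ≤ σ z * (∑ v, y v * pay z v - val) := by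
      intro z _
      apply mul_nonneg (hσ0 z)
      have := hy z
      linarith
    have hz := (Finset.sum_eq_zero_iff_of_nonneg hnn).mp
      (le_antisymm hsum (Finset.sum_nonneg hnn))
    intro z hσz
    have h1 := hz z (mem_univ z)
    rw [← hpay]
    rcases mul_eq_zero.mp h1 with h | h
    · linarith
    · linarith
  obtain ⟨d, hd1, hd2, hd3⟩ := hpot lam hlam
  -- all supported sets have the same minimal weight
  have hpos : ∃ z : Φ, 0 < σ z := by
    by_contra hcon
    push Not at hcon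
    have : ∑ z, σ z ≤ 0 := Finset.sum_nonpos fun z _ => hcon z
    linarith
  obtain ⟨z0, hz0⟩ := hpos
  set L : ℝ := ∑ v ∈ z0.1.1, lam v with hL
  have hmin : ∀ z : Φ, 0 < σ z → ∀ S : Finset V, Cn G A B S →
      ∑ v ∈ z.1.1, lam v ≤ ∑ v ∈ S, lam v := by
    intro z hz S hS
    have h1 := hslack z hz
    have h2 := hy ⟨(S, z.1.2), hS, z.2.2⟩
    rw [hpay] at h2
    simp only at h2
    linarith
  let Ω : Type := {z : Φ // 0 < σ z}
  let bb : Ω → Finset V := fun ω => ω.1.1.1
  let w : Ω → ℝ := fun ω => σ ω.1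
  have hsumΩ : ∀ g : Φ → ℝ, ∑ ω : Ω, σ ω.1 * g ω.1 = ∑ z, σ z * g z := by
    intro g
    have e1 : ∑ z, σ z * g z = ∑ z ∈ univ.filter (fun z => 0 < σ z), σ z * g z := by
      rw [Finset.sum_filter]
      apply Finset.sum_congr rfl
      intro z _
      by_cases h : 0 < σ z
      · rw [if_pos h]
      · rw [if_neg h, le_antisymm (not_lt.mp h) (hσ0 z), zero_mul]
    rw [e1, Finset.sum_subtype (univ.filter (fun z => 0 < σ z)) (p := fun z => 0 < σ z)
      (by simp) (fun z => σ z * g z)]
  have hbb : ∀ ω, ∃ (p : ℕ → V) (m : ℕ), IndPath G p m ∧ supp p m = bb ω ∧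
      d (p 0) = lam (p 0) ∧ (∀ i < m, d (p (i + 1)) = d (p i) + lam (p (i + 1))) ∧
      d (p m) = L := by
    intro ω
    apply hd3 L (fun S hS => hmin z0 hz0 S hS) _ ω.1.2.1
    exact hmin ω.1 ω.2 _ z0.2.1
  obtain ⟨l, r, D, hT⟩ := tiled_of_potential G lam d L hlam hd1 hd2 bb hbb
  refine ⟨l, r, D, Ω, inferInstance, bb, w, ⟨fun ω => ω.2.le, ?_⟩, hT, fun ω => ω.1.2.1, ?_⟩
  · have := hsumΩ (fun _ => 1)
    simpa [hσ1] using this
  · intro X hX
    -- the probability that a fixed vertex is used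
    have hv : ∀ v, ∑ z, σ z * (if v ∈ z.1.1 then 1 else 0) ≤
        (∑ z, σ z * (if v ∈ z.1.2 then 1 else 0)) / n + ε := by
      intro v
      have h1 := hσ v
      simp only [pay] at h1
      have e1 : ∀ z : Φ, σ z * ((ε / N) * (z.1.1.card : ℝ) + (if v ∈ z.1.1 then 1 else 0) -
          (if v ∈ z.1.2 then 1 else 0) / n) = σ z * ((ε / N) * (z.1.1.card : ℝ)) +
          σ z * (if v ∈ z.1.1 then 1 else 0) - σ z * (if v ∈ z.1.2 then 1 else 0) / n := by
        intro z
        ring
      rw [Finset.sum_congr rfl (fun z _ => e1 z), Finset.sum_sub_distrib, Finset.sum_add_distrib,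
        ← Finset.sum_div] at h1
      have h2 : 0 ≤ ∑ z, σ z * ((ε / N) * (z.1.1.card : ℝ)) :=
        Finset.sum_nonneg fun z _ => mul_nonneg (hσ0 z) (by positivity)
      linarith
    have hms : ms w (fun ω => ¬ Disjoint (bb ω) X) = ∑ z, σ z *
        (if Disjoint z.1.1 X then 0 else 1) := by
      rw [← hsumΩ (fun z => if Disjoint z.1.1 X then 0 else 1)]
      unfold ms
      apply Finset.sum_congr rfl
      intro ω _
      by_cases h : Disjoint (bb ω) X
      · rw [if_neg (by simpa using h), if_pos h]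
      · rw [if_pos h, if_neg h]
    rw [hms]
    calc ∑ z, σ z * (if Disjoint z.1.1 X then (0 : ℝ) else 1)
        ≤ ∑ z, σ z * ∑ v ∈ X, (if v ∈ z.1.1 then (1 : ℝ) else 0) := by
          apply Finset.sum_le_sum
          intro z _
          apply mul_le_mul_of_nonneg_left _ (hσ0 z)
          split_ifs with hd
          · exact Finset.sum_nonneg fun v _ => by split_ifs <;> norm_num
          · rw [Finset.not_disjoint_iff] at hd
            obtain ⟨v, hv, hvX⟩ := hd
            refine le_trans (le_of_eq (if_pos hv).symm)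
              (Finset.single_le_sum (f := fun v => (if v ∈ z.1.1 then (1 : ℝ) else 0))
              (fun v _ => ?_) hvX)
            show (0 : ℝ) ≤ (if v ∈ z.1.1 then (1 : ℝ) else 0)
            split_ifs <;> norm_num
      _ = ∑ v ∈ X, ∑ z, σ z * (if v ∈ z.1.1 then (1 : ℝ) else 0) := by
          simp only [Finset.mul_sum]
          rw [Finset.sum_comm]
      _ ≤ ∑ v ∈ X, ((∑ z, σ z * (if v ∈ z.1.2 then 1 else 0)) / n + ε) :=
          Finset.sum_le_sum fun v _ => hv v
      _ = (∑ z, σ z * ((z.1.2 ∩ X).card : ℝ)) / n + X.card * ε := by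
          rw [Finset.sum_add_distrib, Finset.sum_const, nsmul_eq_mul, ← Finset.sum_div,
            Finset.sum_comm]
          congr 2
          apply Finset.sum_congr rfl
          intro z _
          rw [← Finset.mul_sum]
          congr 1
          rw [Finset.sum_ite, Finset.sum_const_zero, add_zero, Finset.sum_const, nsmul_eq_mul,
            mul_one, Finset.filter_mem_eq_inter, Finset.inter_comm]
      _ ≤ (∑ z, σ z * (P : ℝ)) / n + N * ε := by
          apply add_le_add
          · apply div_le_div_of_nonneg_right _ hn'.le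
            apply Finset.sum_le_sum
            intro z _
            apply mul_le_mul_of_nonneg_left _ (hσ0 z)
            have := hX (z.1.2 ∩ X) Finset.inter_subset_right (z.2.2.mono (by simp))
            exact_mod_cast this
          · apply mul_le_mul_of_nonneg_right _ hε0.le
            rw [hN]
            exact_mod_cast Finset.card_le_univ X
      _ = ((P : ℝ) + 1) / n := by
          rw [← Finset.sum_mul, hσ1, hε]
          field_simp

theorem potHyp {V : Type} [Fintype V] (G : SimpleGraph V) (A B : Finset V) : PotHyp G A B := by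
  intro lam hlam
  obtain ⟨d, h1, -, h3, -, -, h6⟩ := exists_potential G univ A lam (fun v _ => hlam v)
  refine ⟨d, fun v => h1 v (mem_univ v),
    fun u v huv => h3 u (mem_univ u) v (mem_univ v) huv, ?_⟩
  intro L hL S hS hSL
  obtain ⟨p, m, hp, hs, -, -, h0, hstep, hm⟩ := h6 B L (fun S _ hS => hL S hS) S
    (Finset.subset_univ S) hS hSL
  exact ⟨p, m, hp, hs, h0, hstep, hm⟩

theorem exists_tiled {V : Type} [Fintype V] (G : SimpleGraph V) (A B : Finset V) (n : ℕ)
    (hn : 1 ≤ n) (P : ℕ)
    (hfrac : ∀ y : V → ℝ, (∀ v, 0 ≤ y v) → ∃ S : Finset V, Cn G A B S ∧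
      ∃ I : Finset V, G.IsIndepSet (I : Set V) ∧ (n : ℝ) * ∑ v ∈ S, y v ≤ ∑ v ∈ I, y v) :
    ∃ (l r : V → ℕ) (D : ℕ) (Ω : Type) (_ : Fintype Ω) (b : Ω → Finset V) (w : Ω → ℝ),
      IsLaw w ∧ Tiled G l r D b ∧ (∀ ω, Cn G A B (b ω)) ∧
      Spread G P w b (((P : ℝ) + 1) / n) :=
  exists_tiled_of G A B (potHyp G A B) n hn P hfrac

end Pool.Agent.Work.MP_44e7ab_co
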