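import Mathlib
import Pool.Agent.Work.MP_44e7ab_co.Q1.Rank
import Pool.Agent.Work.MP_44e7ab_co.Q1.TiledLaw

set_option autoImplicit false

/-! Theorem A. -/

namespace Pool.Agent.Work.MP_44e7ab_co

open Finset Classical

theorem thmA (P : ℕ) (γ : ℝ) (hγ : 0 < γ) :
    ∃ n : ℕ, 1 ≤ n ∧ ∀ (V : Type) [Fintype V] (G : SimpleGraph V), PWB G P →
      ∀ A B : Finset V,
      (∀ y : V → ℝ, (∀ v, 0 ≤ y v) → ∃ S : Finset V, Cn G A B S ∧
        ∃ I : Finset V, G.IsIndepSet (I : Set V) ∧ (n : ℝ) * ∑ v ∈ S, y v ≤ ∑ v ∈ I, y v) →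
      ∃ (Ω : Type) (_ : Fintype Ω) (b : Ω → Finset V) (w : Ω → ℝ), IsLaw w ∧
        (∀ ω, Cn G A B (b ω) ∧ ConnSet G (b ω) ∧ OmLe G (b ω) 2) ∧
        pr w w (fun x y => Touch G (b x) (b y)) ≤ γ := by
  obtain ⟨η, hη, h⟩ := sparse_of_spread P γ hγ
  obtain ⟨n, hn⟩ := exists_nat_ge (((P : ℝ) + 1) / η)
  have hn0 : (0 : ℝ) < n := lt_of_lt_of_le (by positivity) hn
  have hn1 : 1 ≤ n := by
    have : 0 < n := by exact_mod_cast hn0
    exact this
  refine ⟨n, hn1, ?_⟩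
  intro V _ G hG A B hfrac
  obtain ⟨l, r, D, Ω, _, b, w, hw, hT, hC, hS⟩ := exists_tiled G A B n hn1 P hfrac
  refine ⟨Ω, inferInstance, b, w, hw, ?_, ?_⟩
  · intro ω
    refine ⟨hC ω, ?_, tiled_omLe hT ω⟩
    have := tiled_conn_nwin hT ω 0 D
    have hfull : nwin l r 0 D (b ω) = b ω := by
      ext v
      rw [nwin, Finset.mem_filter]
      constructor
      · exact fun h => h.1
      · exact fun h => ⟨h, Nat.zero_le _, hT.le ω v h⟩
    rwa [hfull] at this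
  · apply h V G hG l r D Ω b hT w hw
    intro X hX
    refine (hS X hX).trans ?_
    rw [div_le_iff₀ hn0]
    rw [div_le_iff₀ hη] at hn
    linarith

end Pool.Agent.Work.MP_44e7ab_co
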