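import Mathlib
import Pool.Agent.Work.MP_44e7ab_co.Q1.Paths

set_option autoImplicit false

/-! M8: the crossing lemma. -/

namespace Pool.Agent.Work.MP_44e7ab_co

open Finset Classical

/-- crossing lemma -/
theorem crossing {V : Type} [Fintype V] {G : SimpleGraph V} {F : Finset V} {l r : V → ℝ}
    (hp : Pos G F l r) {x y th : ℝ} (hth : 0 ≤ th) (hxy : 2 * th < y - x)
    {S A B : Finset V} (hS : ¬ Cn G (lft F l r x y th) (rgt F l r x y th) (win F l r x y \ S))
    (hA : ∀ a ∈ A, a ∈ F → l a < x) (hB : ∀ b ∈ B, b ∈ F → y < r b) :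
    ¬ Cn G A B (F \ (S ∪ F.filter (fun v => th < r v - l v ∧ l v ≤ y ∧ x ≤ r v))) := by
  rintro ⟨a, ha, b, hb, hab⟩
  set W : Finset V := F \ (S ∪ F.filter (fun v => th < r v - l v ∧ l v ≤ y ∧ x ≤ r v)) with hW
  have hWF : ∀ v, v ∈ W → v ∈ F ∧ v ∉ S ∧ (l v ≤ y → x ≤ r v → r v - l v ≤ th) := by
    intro v hv
    rw [hW, Finset.mem_sdiff, Finset.mem_union, Finset.mem_filter] at hv
    refine ⟨hv.1, fun h => hv.2 (Or.inl h), ?_⟩
    intro h1 h2
    by_contra h3
    push Not at h3
    exact hv.2 (Or.inr ⟨hv.1, h3, h1, h2⟩)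
  have haW : a ∈ W := by exact_mod_cast hab.left_mem
  have hbW : b ∈ W := by exact_mod_cast hab.right_mem
  let Q : V → Prop := fun v => l v < x ∨ ∃ u ∈ lft F l r x y th,
    ConnIn G ((win F l r x y \ S : Finset V) : Set V) u v
  have hQb : Q b := by
    refine connIn_closed hab (Q := Q) (Or.inl (hA a ha (hWF a haW).1)) ?_
    intro u v huW hvW hadj hQu
    obtain ⟨huF, huS, huc⟩ := hWF u (by exact_mod_cast huW)
    obtain ⟨hvF, hvS, hvc⟩ := hWF v (by exact_mod_cast hvW)
    have h1 := hp.lt u huF
    have h2 := hp.lt v hvF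
    have h3 := hp.adj u huF v hvF hadj
    have h4 := hp.adj v hvF u huF hadj.symm
    by_cases hvx : l v < x
    · exact Or.inl hvx
    push Not at hvx
    rcases hQu with hux | ⟨s, hs, hsu⟩
    · -- `u` is left of the window
      have h5 := huc (by linarith) (by linarith)
      have h6 := hvc (by linarith) (by linarith)
      have hvwin : v ∈ win F l r x y := by
        simp only [win, Finset.mem_filter]
        exact ⟨hvF, hvx, by linarith⟩
      right
      refine ⟨v, ?_, ConnIn.refl ?_⟩
      · simp only [lft, Finset.mem_filter]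
        exact ⟨hvwin, by linarith⟩
      · rw [Finset.mem_coe, Finset.mem_sdiff]
        exact ⟨hvwin, hvS⟩
    · have hu' : u ∈ win F l r x y \ S := by exact_mod_cast hsu.right_mem
      have hu'' := (Finset.mem_sdiff.mp hu').1
      simp only [win, Finset.mem_filter] at hu''
      have hur : r u < y - th := by
        by_contra hcon
        push Not at hcon
        apply hS
        refine ⟨s, hs, u, ?_, hsu⟩
        simp only [rgt, Finset.mem_filter]
        exact ⟨(Finset.mem_sdiff.mp hu').1, hcon⟩
      have h6 := hvc (by linarith) (by linarith)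
      have hvwin : v ∈ win F l r x y := by
        simp only [win, Finset.mem_filter]
        exact ⟨hvF, hvx, by linarith⟩
      right
      refine ⟨s, hs, hsu.trans (ConnIn.adj hadj (by exact_mod_cast hu') ?_)⟩
      rw [Finset.mem_coe, Finset.mem_sdiff]
      exact ⟨hvwin, hvS⟩
  obtain ⟨hbF, hbS, hbc⟩ := hWF b hbW
  have hby := hB b hb hbF
  rcases hQb with h | ⟨s, hs, hsb⟩
  · have := hbc (by linarith) (by linarith)
    linarith
  · have hb' : b ∈ win F l r x y \ S := by exact_mod_cast hsb.right_mem
    have hb'' := (Finset.mem_sdiff.mp hb').1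
    simp only [win, Finset.mem_filter] at hb''
    linarith

end Pool.Agent.Work.MP_44e7ab_co
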