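import Mathlib
import Pool.Agent.Work.MP_44e7ab_co.Q1.Defs

set_option autoImplicit false

/-! A finite Vitali lemma and a point of bounded maximal density (for M8). -/

namespace Pool.Agent.Work.MP_44e7ab_co

open Finset Classical

/-- finite Vitali covering lemma on the line -/
theorem vitali_fin (c R : ℕ → ℝ) :
    ∀ (n : ℕ) (s : Finset ℕ), s.card ≤ n → ∃ u ⊆ s,
      (∀ i ∈ u, ∀ j ∈ u, i ≠ j → R i + R j < |c i - c j|) ∧
      ∀ j ∈ s, ∃ i ∈ u, (i = j ∨ |c j - c i| ≤ R i + R j) ∧ R j ≤ R i := by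
  intro n
  induction n with
  | zero =>
    intro s hs
    have : s = ∅ := Finset.card_eq_zero.mp (by omega)
    subst this
    exact ⟨∅, Finset.Subset.refl _, by simp, by simp⟩
  | succ n ih =>
    intro s hs
    rcases s.eq_empty_or_nonempty with rfl | hne
    · exact ⟨∅, Finset.Subset.refl _, by simp, by simp⟩
    obtain ⟨i0, hi0, hmax⟩ := Finset.exists_max_image s R hne
    set s' := s.filter (fun j => j ≠ i0 ∧ R i0 + R j < |c j - c i0|) with hs'
    have hcard : s'.card ≤ n := by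
      have : s' ⊂ s := by
        rw [Finset.ssubset_iff_of_subset (Finset.filter_subset _ _)]
        exact ⟨i0, hi0, fun h => (Finset.mem_filter.mp h).2.1 rfl⟩
      have := Finset.card_lt_card this
      omega
    obtain ⟨u, hu, hdisj, hcov⟩ := ih s' hcard
    refine ⟨insert i0 u, ?_, ?_, ?_⟩
    · intro x hx
      rcases Finset.mem_insert.mp hx with rfl | hx
      · exact hi0
      · exact (Finset.mem_filter.mp (hu hx)).1
    · intro i hi j hj hij
      rcases Finset.mem_insert.mp hi with h1 | h1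
      · rcases Finset.mem_insert.mp hj with h2 | h2
        · exact absurd (h1.trans h2.symm) hij
        · have h3 := (Finset.mem_filter.mp (hu h2)).2.2
          rw [h1, abs_sub_comm]
          exact h3
      · rcases Finset.mem_insert.mp hj with h2 | h2
        · have h3 := (Finset.mem_filter.mp (hu h1)).2.2
          rw [h2]
          linarith
        · exact hdisj i h1 j h2 hij
    · intro j hj
      by_cases hj' : j ∈ s'
      · obtain ⟨i, hi, h1, h2⟩ := hcov j hj'
        exact ⟨i, Finset.mem_insert_of_mem hi, h1, h2⟩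
      · refine ⟨i0, Finset.mem_insert_self _ _, ?_, hmax j hj⟩
        by_cases hji : i0 = j
        · exact Or.inl hji
        · right
          by_contra hcon
          push Not at hcon
          exact hj' (Finset.mem_filter.mpr ⟨hj, fun h => hji h.symm, hcon⟩)

/-- number of integers near a given one -/
theorem card_near (s : Finset ℕ) (i : ℕ) (t : ℝ) (ht : 0 ≤ t) :
    ((s.filter (fun j : ℕ => |(j : ℝ) - i| ≤ t)).card : ℝ) ≤ 2 * t + 1 := by
  have hsub : s.filter (fun j : ℕ => |(j : ℝ) - i| ≤ t) ⊆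
      (Finset.Icc (i - ⌊t⌋₊) (i + ⌊t⌋₊) : Finset ℕ) := by
    intro j hj
    have h1 := (Finset.mem_filter.mp hj).2
    rw [abs_le] at h1
    have h2 := Nat.lt_floor_add_one t
    rw [Finset.mem_Icc]
    constructor
    · by_contra hcon
      have h3 : j + ⌊t⌋₊ + 1 ≤ i := by omega
      have h4 : (j : ℝ) + ⌊t⌋₊ + 1 ≤ i := by exact_mod_cast h3
      linarith
    · by_contra hcon
      have h3 : i + ⌊t⌋₊ + 1 ≤ j := by omega
      have h4 : (i : ℝ) + ⌊t⌋₊ + 1 ≤ j := by exact_mod_cast h3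
      linarith
  have h1 := Finset.card_le_card hsub
  rw [Nat.card_Icc] at h1
  have h2 : (s.filter (fun j : ℕ => |(j : ℝ) - i| ≤ t)).card ≤ 2 * ⌊t⌋₊ + 1 := by omega
  have h3 : ((s.filter (fun j : ℕ => |(j : ℝ) - i| ≤ t)).card : ℝ) ≤ 2 * (⌊t⌋₊ : ℝ) + 1 := by
    exact_mod_cast h2
  have h4 := Nat.floor_le ht
  linarith

/-- a point in the middle half where all densities are bounded -/
theorem max_point {V : Type} {G : SimpleGraph V} {F : Finset V} {l r : V → ℝ}
    (hp : Pos G F l r) {x y n1 : ℝ} (hxy : x < y) (hn1 : 0 < n1)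
    (hd : ∀ I : Finset V, I ⊆ win F l r x y → G.IsIndepSet (I : Set V) →
      ∑ u ∈ I, (r u - l u) ≤ n1 * (y - x)) :
    ∃ z : ℝ, x + (y - x) / 4 ≤ z ∧ z ≤ y - (y - x) / 4 ∧ ∀ ρ : ℝ, 0 < ρ → ρ ≤ (y - x) / 8 →
      ∀ I : Finset V, I ⊆ win F l r (z - ρ) (z + ρ) → G.IsIndepSet (I : Set V) →
      ∑ u ∈ I, (r u - l u) ≤ 12 * n1 * ρ := by
  by_contra hcon
  push Not at hcon
  have hw : 0 < y - x := by linarith
  -- a positive lower bound for the lengths
  obtain ⟨m0, hm0, hm⟩ : ∃ m0 : ℝ, 0 < m0 ∧ ∀ v ∈ F, m0 ≤ r v - l v := by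
    rcases F.eq_empty_or_nonempty with rfl | hne
    · exact ⟨1, one_pos, by simp⟩
    · obtain ⟨v, hv, hmin⟩ := Finset.exists_min_image F (fun v => r v - l v) hne
      exact ⟨r v - l v, by have := hp.lt v hv; linarith, hmin⟩
  obtain ⟨M, hM⟩ := exists_nat_gt ((y - x) / m0)
  have hM0 : (0 : ℝ) < M := lt_of_le_of_lt (by positivity) hM
  set δ : ℝ := (y - x) / (2 * M) with hδ
  have hδ0 : 0 < δ := by positivity
  have hδm : δ ≤ m0 / 2 := by
    rw [hδ, div_le_div_iff₀ (by positivity) (by norm_num)]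
    rw [div_lt_iff₀ hm0] at hM
    linarith
  have hMδ : M * δ = (y - x) / 2 := by rw [hδ]; field_simp
  let c : ℕ → ℝ := fun i => x + (y - x) / 4 + i * δ
  have hbad : ∀ i : ℕ, ∃ (ρ : ℝ) (I : Finset V), i < M → 0 < ρ ∧ ρ ≤ (y - x) / 8 ∧
      I ⊆ win F l r (c i - ρ) (c i + ρ) ∧ G.IsIndepSet (I : Set V) ∧
      12 * n1 * ρ < ∑ u ∈ I, (r u - l u) := by
    intro i
    by_cases hi : i < M
    · have hi' : (i : ℝ) ≤ M := by exact_mod_cast hi.le
      have h1 : (i : ℝ) * δ ≤ (y - x) / 2 := by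
        rw [← hMδ]
        exact mul_le_mul_of_nonneg_right hi' hδ0.le
      have h2 : (0 : ℝ) ≤ i * δ := by positivity
      obtain ⟨ρ, h3, h4, I, h5, h6, h7⟩ := hcon (c i) (by simp only [c]; linarith)
        (by simp only [c]; linarith)
      exact ⟨ρ, I, fun _ => ⟨h3, h4, h5, h6, h7⟩⟩
    · exact ⟨1, ∅, fun h => absurd h hi⟩
  choose R I hRI using hbad
  have hRδ : ∀ i, i < M → δ ≤ R i := by
    intro i hi
    obtain ⟨h1, h2, h3, h4, h5⟩ := hRI i hi
    have hne : (I i).Nonempty := by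
      rw [Finset.nonempty_iff_ne_empty]
      intro he
      rw [he, Finset.sum_empty] at h5
      have : 0 < 12 * n1 * R i := by positivity
      linarith
    obtain ⟨v, hv⟩ := hne
    have h6 := h3 hv
    rw [win, Finset.mem_filter] at h6
    have h7 := hm v h6.1
    linarith [h6.2.1, h6.2.2]
  obtain ⟨u, hu, hdisj, hcov⟩ := vitali_fin c R M (range M) (by simp)
  -- the union of the chosen independent sets
  have hmem : ∀ i ∈ u, i < M := fun i hi => Finset.mem_range.mp (hu hi)
  have hpos : ∀ i ∈ u, ∀ v ∈ I i, v ∈ F ∧ c i - R i ≤ l v ∧ r v ≤ c i + R i := by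
    intro i hi v hv
    have := (hRI i (hmem i hi)).2.2.1 hv
    rw [win, Finset.mem_filter] at this
    exact this
  have hsep : ∀ i ∈ u, ∀ j ∈ u, i ≠ j → ∀ v ∈ I i, ∀ w ∈ I j, r v < l w ∨ r w < l v := by
    intro i hi j hj hij v hv w hw
    have h1 := hdisj i hi j hj hij
    have h2 := hpos i hi v hv
    have h3 := hpos j hj w hw
    rcases lt_abs.mp h1 with h | h
    · right; linarith [h2.2.1, h3.2.2]
    · left; linarith [h2.2.2, h3.2.1]
  have hindep : G.IsIndepSet ((u.biUnion I : Finset V) : Set V) := by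
    intro v hv w hw hvw hadj
    rw [Finset.mem_coe, Finset.mem_biUnion] at hv hw
    obtain ⟨i, hi, hv⟩ := hv
    obtain ⟨j, hj, hw⟩ := hw
    by_cases hij : i = j
    · subst hij
      exact (hRI i (hmem i hi)).2.2.2.1 (Finset.mem_coe.mpr hv) (Finset.mem_coe.mpr hw) hvw hadj
    · have h1 := hpos i hi v hv
      have h2 := hpos j hj w hw
      have h3 := hp.adj v h1.1 w h2.1 hadj
      have h4 := hp.adj w h2.1 v h1.1 hadj.symm
      rcases hsep i hi j hj hij v hv w hw with h | h
      · linarith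
      · linarith
  have hdis : ∀ i ∈ u, ∀ j ∈ u, i ≠ j → Disjoint (I i) (I j) := by
    intro i hi j hj hij
    rw [Finset.disjoint_left]
    intro v hv hv'
    have h1 := hpos i hi v hv
    have h2 := hp.lt v h1.1
    rcases hsep i hi j hj hij v hv v hv' with h | h <;> linarith
  have hsub : u.biUnion I ⊆ win F l r x y := by
    intro v hv
    rw [Finset.mem_biUnion] at hv
    obtain ⟨i, hi, hv⟩ := hv
    have h1 := hpos i hi v hv
    have h2 := (hRI i (hmem i hi)).2.1
    have hi' : (i : ℝ) ≤ M := by exact_mod_cast (hmem i hi).le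
    have h3 : (i : ℝ) * δ ≤ (y - x) / 2 := by
      rw [← hMδ]
      exact mul_le_mul_of_nonneg_right hi' hδ0.le
    have h4 : (0 : ℝ) ≤ i * δ := by positivity
    rw [win, Finset.mem_filter]
    simp only [c] at h1
    exact ⟨h1.1, by linarith [h1.2.1], by linarith [h1.2.2]⟩
  have htot := hd _ hsub hindep
  rw [Finset.sum_biUnion hdis] at htot
  have hlow : ∑ i ∈ u, 12 * n1 * R i ≤ ∑ i ∈ u, ∑ v ∈ I i, (r v - l v) :=
    Finset.sum_le_sum fun i hi => (hRI i (hmem i hi)).2.2.2.2.le
  rw [← Finset.mul_sum] at hlow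
  have hR : ∑ i ∈ u, R i ≤ (y - x) / 12 := by
    have h1 : 12 * n1 * ∑ i ∈ u, R i ≤ n1 * (y - x) := hlow.trans htot
    have h2 : 12 * ∑ i ∈ u, R i ≤ y - x := by
      have h3 : n1 * (12 * ∑ i ∈ u, R i) ≤ n1 * (y - x) := by linarith
      exact le_of_mul_le_mul_left h3 hn1
    linarith
  -- counting
  have hcount : (M : ℝ) ≤ ∑ i ∈ u, (5 * R i / δ) := by
    have h1 : range M ⊆ u.biUnion (fun i => (range M).filter
        (fun j : ℕ => |(j : ℝ) - i| ≤ 2 * R i / δ)) := by
      intro j hj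
      obtain ⟨i, hi, h2, h3⟩ := hcov j hj
      rw [Finset.mem_biUnion]
      refine ⟨i, hi, Finset.mem_filter.mpr ⟨hj, ?_⟩⟩
      have hRi : 0 < R i := lt_of_lt_of_le hδ0 (hRδ i (hmem i hi))
      rcases h2 with h2 | h2
      · subst h2
        simp only [sub_self, abs_zero]
        positivity
      · rw [le_div_iff₀ hδ0]
        have h4 : c j - c i = ((j : ℝ) - i) * δ := by simp only [c]; ring
        rw [h4, abs_mul, abs_of_pos hδ0] at h2
        linarith
    have h2 : (M : ℝ) ≤ ∑ i ∈ u, (((range M).filter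
        (fun j : ℕ => |(j : ℝ) - i| ≤ 2 * R i / δ)).card : ℝ) := by
      have h3 := (Finset.card_le_card h1).trans Finset.card_biUnion_le
      rw [Finset.card_range] at h3
      exact_mod_cast h3
    refine h2.trans (Finset.sum_le_sum fun i hi => ?_)
    have hRi := hRδ i (hmem i hi)
    have hRi0 : 0 < R i := lt_of_lt_of_le hδ0 hRi
    have h4 := card_near (range M) i (2 * R i / δ) (by positivity)
    have h5 : 1 ≤ R i / δ := by
      rw [le_div_iff₀ hδ0]
      linarith
    have h6 : 5 * R i / δ = 2 * (2 * R i / δ) + R i / δ := by ring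
    rw [h6]
    linarith
  have h7 : ∑ i ∈ u, (5 * R i / δ) = 5 * (∑ i ∈ u, R i) / δ := by
    rw [Finset.mul_sum, Finset.sum_div]
  rw [h7, le_div_iff₀ hδ0, hMδ] at hcount
  linarith

end Pool.Agent.Work.MP_44e7ab_co
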