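import Mathlib
import Pool.Agent.Work.MP_44e7ab_co.Q1.Defs
import Pool.Agent.Work.MP_44e7ab_co.Q1.Tools
import Pool.Agent.Work.MP_44e7ab_co.Q1.Paths
import Pool.Agent.Work.MP_44e7ab_co.Q1.Cross
import Pool.Agent.Work.MP_44e7ab_co.Q1.Vitali

set_option autoImplicit false

/-! M8: windows without non-dominating vertices have small separators. -/

namespace Pool.Agent.Work.MP_44e7ab_co

open Finset Classical

lemma alphaLE_union {V : Type} {G : SimpleGraph V} {S T : Finset V} {s t : ℕ}
    (hS : AlphaLE G S s) (hT : AlphaLE G T t) : AlphaLE G (S ∪ T) (s + t) := by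
  intro I hI hind
  have h1 : (I ∩ S).card ≤ s := hS _ Finset.inter_subset_right (hind.mono (by simp))
  have h2 : (I ∩ T).card ≤ t := hT _ Finset.inter_subset_right (hind.mono (by simp))
  have h3 : I ⊆ (I ∩ S) ∪ (I ∩ T) := by
    intro v hv
    rcases Finset.mem_union.mp (hI hv) with h | h
    · exact Finset.mem_union_left _ (Finset.mem_inter.mpr ⟨hv, h⟩)
    · exact Finset.mem_union_right _ (Finset.mem_inter.mpr ⟨hv, h⟩)
  have h4 := (Finset.card_le_card h3).trans (Finset.card_union_le _ _)
  omega

lemma alphaLE_mono {V : Type} {G : SimpleGraph V} {S T : Finset V} {s t : ℕ}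
    (hS : AlphaLE G S s) (hT : T ⊆ S) (hst : s ≤ t) : AlphaLE G T t :=
  fun I hI hind => (hS I (hI.trans hT) hind).trans hst

lemma alphaLE_biUnion {V ι : Type} {G : SimpleGraph V} (s : Finset ι) (S : ι → Finset V) {n : ℕ}
    (hS : ∀ i ∈ s, AlphaLE G (S i) n) : AlphaLE G (s.biUnion S) (s.card * n) := by
  induction s using Finset.induction_on with
  | empty =>
    intro I hI _
    rw [Finset.biUnion_empty, Finset.subset_empty] at hI
    simp [hI]
  | insert a s ha ih =>
    rw [Finset.biUnion_insert, Finset.card_insert_of_notMem ha, Nat.add_mul, one_mul, add_comm]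
    exact alphaLE_union (hS a (Finset.mem_insert_self _ _))
      (ih fun i hi => hS i (Finset.mem_insert_of_mem hi))

lemma indepSet_mono {V : Type} {G : SimpleGraph V} {I J : Finset V} (h : J ⊆ I)
    (hI : G.IsIndepSet (I : Set V)) : G.IsIndepSet (J : Set V) :=
  hI.mono (by exact_mod_cast h)

/-- the biclique argument -/
theorem b1_core {V : Type} [Fintype V] {G : SimpleGraph V} {P Nst k0 : ℕ} (hG : PWB G P)
    (hk0 : P < k0) {F : Finset V} {l r : V → ℝ} (hp : Pos G F l r) (ν : Fin k0 → V)
    (hνinj : Function.Injective ν)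
    (hνind : ∀ a b, ¬ G.Adj (ν a) (ν b)) (X Y : Fin k0 → ℝ)
    (hlong : ∀ a k, l (ν a) < X k ∧ Y k < r (ν a))
    (hdisj : ∀ k k', k ≠ k' → Y k < X k' ∨ Y k' < X k)
    (hdom : ∀ a k, ∃ S : Finset V, AlphaLE G S Nst ∧
      ¬ Cn G (lft F l r (X k) (Y k) ((Y k - X k) / 4)) (rgt F l r (X k) (Y k) ((Y k - X k) / 4))
        (rmN G (ν a) (win F l r (X k) (Y k)) \ S)) :
    ∃ k, ∃ S : Finset V, AlphaLE G S (k0 * Nst) ∧
      ¬ Cn G (lft F l r (X k) (Y k) ((Y k - X k) / 4)) (rgt F l r (X k) (Y k) ((Y k - X k) / 4))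
        (win F l r (X k) (Y k) \ S) := by
  by_contra hcon
  push Not at hcon
  choose S hS1 hS2 using hdom
  -- crossing paths
  have hpath : ∀ k, ∃ (c : Finset V), c ⊆ win F l r (X k) (Y k) ∧ ConnSet G c ∧ OmLe G c 2 ∧
      ∀ a, Touch G {ν a} c := by
    intro k
    obtain ⟨a1, ha1, b1, hb1, hab⟩ := hcon k (univ.biUnion (fun a => S a k)) (by
      have := alphaLE_biUnion (G := G) univ (fun a => S a k) (n := Nst) (fun a _ => hS1 a k)
      simpa using this)
    obtain ⟨p, m, hpm, hp0, hpm', hin⟩ := exists_indPath hab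
    refine ⟨supp p m, ?_, hpm.connSet, hpm.omLe, ?_⟩
    · intro v hv
      obtain ⟨i, hi, rfl⟩ := mem_supp.mp hv
      have := hin i hi
      rw [Finset.mem_coe, Finset.mem_sdiff] at this
      exact this.1
    · intro a
      by_contra hT
      apply hS2 a k
      refine ⟨a1, ha1, b1, hb1, ?_⟩
      have h1 := hpm.connSet (p 0) (mem_supp.mpr ⟨0, Nat.zero_le _, rfl⟩) (p m)
        (mem_supp.mpr ⟨m, le_rfl, rfl⟩)
      rw [hp0, hpm'] at h1
      refine h1.mono ?_
      intro v hv
      obtain ⟨i, hi, rfl⟩ := mem_supp.mp (Finset.mem_coe.mp hv)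
      have h2 := hin i hi
      rw [Finset.mem_coe, Finset.mem_sdiff] at h2
      rw [Finset.mem_coe, Finset.mem_sdiff, rmN, Finset.mem_filter]
      refine ⟨⟨h2.1, ?_, ?_⟩, ?_⟩
      · intro he
        exact hT ⟨ν a, Finset.mem_singleton_self _, p i, Finset.mem_coe.mp hv, Or.inr he.symm⟩
      · intro he
        exact hT ⟨ν a, Finset.mem_singleton_self _, p i, Finset.mem_coe.mp hv, Or.inl he⟩
      · intro he
        exact h2.2 (Finset.mem_biUnion.mpr ⟨a, mem_univ a, he⟩)
  choose c hc1 hc2 hc3 hc4 using hpath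
  have hcw : ∀ k, ∀ v ∈ c k, v ∈ F ∧ X k ≤ l v ∧ r v ≤ Y k := by
    intro k v hv
    have := hc1 k hv
    rw [win, Finset.mem_filter] at this
    exact this
  have hνc : ∀ a k, ν a ∉ c k := by
    intro a k h
    have h1 := hcw k _ h
    have h2 := hlong a k
    linarith [h1.2.1]
  -- two different crossing paths do not touch
  have hcc : ∀ k k', k ≠ k' → ∀ u ∈ c k, ∀ v ∈ c k', u ≠ v ∧ ¬ G.Adj u v := by
    intro k k' hkk u hu v hv
    have h1 := hcw k u hu
    have h2 := hcw k' v hv
    have h3 := hp.lt u h1.1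
    have h4 := hp.lt v h2.1
    constructor
    · rintro rfl
      rcases hdisj k k' hkk with h | h <;> linarith [h1.2.1, h1.2.2, h2.2.1, h2.2.2]
    · intro hadj
      have h5 := hp.adj u h1.1 v h2.1 hadj
      have h6 := hp.adj v h2.1 u h1.1 hadj.symm
      rcases hdisj k k' hkk with h | h <;> linarith [h1.2.1, h1.2.2, h2.2.1, h2.2.2]
  let B : Fin k0 → Finset V := fun a => {ν a} ∪ c a
  have hBom : OmLe G (univ.biUnion B) 7 := by
    intro C hC hcl
    -- at most one of the `ν a`
    have h1 : (C.filter (fun v => ∃ a, ν a = v)).card ≤ 1 := by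
      rw [Finset.card_le_one]
      intro u hu v hv
      obtain ⟨hu1, a, rfl⟩ := Finset.mem_filter.mp hu
      obtain ⟨hv1, b, rfl⟩ := Finset.mem_filter.mp hv
      by_contra hne
      exact hνind a b (hcl (Finset.mem_coe.mpr hu1) (Finset.mem_coe.mpr hv1) hne)
    have h2 : (C.filter (fun v => ¬ ∃ a, ν a = v)).card ≤ 2 := by
      rcases (C.filter (fun v => ¬ ∃ a, ν a = v)).eq_empty_or_nonempty with he | ⟨v, hv⟩
      · rw [he]; simp
      · have hmem : ∀ w ∈ C.filter (fun v => ¬ ∃ a, ν a = v), ∃ k, w ∈ c k := by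
          intro w hw
          obtain ⟨hw1, hw2⟩ := Finset.mem_filter.mp hw
          obtain ⟨k, _, hk⟩ := Finset.mem_biUnion.mp (hC hw1)
          rcases Finset.mem_union.mp hk with h | h
          · exact absurd ⟨k, (Finset.mem_singleton.mp h).symm⟩ hw2
          · exact ⟨k, h⟩
        obtain ⟨k, hk⟩ := hmem v hv
        apply hc3 k
        · intro w hw
          obtain ⟨k', hk'⟩ := hmem w hw
          by_cases hkk : k = k'
          · rw [hkk]; exact hk'
          · exfalso
            have h3 := hcc k k' hkk v hk w hk'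
            exact h3.2 (hcl (Finset.mem_coe.mpr (Finset.mem_filter.mp hv).1)
              (Finset.mem_coe.mpr (Finset.mem_filter.mp hw).1) h3.1)
        · exact hcl.subset (by
            intro w hw
            exact (Finset.mem_filter.mp (Finset.mem_coe.mp hw)).1)
    have h3 := Finset.card_filter_add_card_filter_not (s := C) (fun v => ∃ a, ν a = v)
    omega
  have hbr := bramble_bound (hG _ hBom) B (by
      intro a
      apply connSet_union _ (hc2 a) (hc4 a a)
      intro u hu v hv
      rw [Finset.mem_singleton] at hu hv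
      subst hu; subst hv
      exact ConnIn.refl (by simp)) (fun a => Finset.subset_biUnion_of_mem B (mem_univ a)) (by
      intro a b
      obtain ⟨u, hu, v, hv, huv⟩ := hc4 b a
      exact ⟨u, Finset.mem_union_left _ hu, v, Finset.mem_union_right _ hv, huv⟩) 1 (by
      intro v
      rw [Finset.card_le_one]
      intro a ha b hb
      rw [Finset.mem_filter] at ha hb
      have ha' := Finset.mem_union.mp ha.2
      have hb' := Finset.mem_union.mp hb.2
      rw [Finset.mem_singleton] at ha' hb'
      by_contra hab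
      rcases ha' with h | h
      · rcases hb' with h' | h'
        · exact hab (hνinj (h.symm.trans h'))
        · rw [h] at h'
          exact hνc _ _ h'
      · rcases hb' with h' | h'
        · rw [h'] at h
          exact hνc _ _ h
        · exact (hcc a b hab v h v h').1 rfl)
  rw [Fintype.card_fin] at hbr
  omega

/-- a slice is a separator -/
theorem slice_sep {V : Type} {G : SimpleGraph V} {F : Finset V} {l r : V → ℝ}
    (hp : Pos G F l r) {z : ℝ} {A B : Finset V} (hA : ∀ a ∈ A, l a < z) (hB : ∀ b ∈ B, z < r b) :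
    ¬ Cn G A B (F \ F.filter (fun v => l v ≤ z ∧ z ≤ r v)) := by
  rintro ⟨a, ha, b, hb, hab⟩
  have hmem : ∀ v, v ∈ ((F \ F.filter (fun v => l v ≤ z ∧ z ≤ r v) : Finset V) : Set V) →
      v ∈ F ∧ (l v ≤ z → r v < z) := by
    intro v hv
    rw [Finset.mem_coe, Finset.mem_sdiff, Finset.mem_filter] at hv
    refine ⟨hv.1, fun h => ?_⟩
    by_contra hcon
    exact hv.2 ⟨hv.1, h, not_lt.mp hcon⟩
  have h1 : r b < z := by
    apply connIn_closed hab (Q := fun v => r v < z) ((hmem a hab.left_mem).2 (hA a ha).le)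
    intro u v hu hv huv hru
    apply (hmem v hv).2
    have := hp.adj v (hmem v hv).1 u (hmem u hu).1 huv.symm
    linarith
  exact absurd (hB b hb) (not_lt.mpr h1.le)

theorem b1 (P : ℕ) (n1 : ℝ) (hn1 : 0 < n1) : ∃ n2 : ℝ, 0 < n2 ∧ ∀ Nst : ℕ, ∃ h1 : ℕ,
    ∀ (V : Type) [Fintype V] (G : SimpleGraph V), PWB G P → ∀ (F : Finset V) (l r : V → ℝ),
    Pos G F l r → ∀ x y : ℝ, x < y →
    (∀ I : Finset V, I ⊆ win F l r x y → G.IsIndepSet (I : Set V) →
      ∑ u ∈ I, (r u - l u) ≤ n1 * (y - x)) →
    (∀ v ∈ win F l r x y, ¬ ND G F l r n2 Nst v) →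
    ∀ th : ℝ, 0 ≤ th → th ≤ (y - x) / 16 →
    ∃ S : Finset V, AlphaLE G S h1 ∧
      ¬ Cn G (lft F l r x y th) (rgt F l r x y th) (win F l r x y \ S) := by
  set k0 : ℕ := P + 1 with hk0
  have hk0' : (1 : ℝ) ≤ k0 := by rw [hk0]; push_cast; linarith [(Nat.cast_nonneg P : (0:ℝ) ≤ P)]
  refine ⟨48 * k0 * n1, by positivity, ?_⟩
  intro Nst
  refine ⟨2 * k0 + (k0 * Nst + ⌈384 * (k0 : ℝ) * n1⌉₊), ?_⟩
  intro V _ G hG F l r hp x y hxy hd hND th hth hth2
  obtain ⟨z, hz1, hz2, hz⟩ := max_point hp hxy hn1 hd
  set w : ℝ := y - x with hw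
  have hw0 : 0 < w := by rw [hw]; linarith
  let ρ : ℕ → ℝ := fun i => w / 8 / 2 ^ i
  have hρ0 : ∀ i, 0 < ρ i := fun i => by positivity
  have hρs : ∀ i, ρ i = 2 * ρ (i + 1) := by
    intro i
    simp only [ρ]
    rw [pow_succ]
    field_simp
  have hρle : ∀ i, ρ i ≤ w / 8 := by
    intro i
    simp only [ρ]
    apply div_le_self (by positivity)
    exact one_le_pow₀ (by norm_num)
  have hFw : ∀ v, v ∈ win F l r x y ↔ v ∈ F ∧ x ≤ l v ∧ r v ≤ y := by
    intro v
    rw [win, Finset.mem_filter]
  have hpw : Pos G (win F l r x y) l r :=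
    ⟨fun v hv => hp.lt v ((hFw v).mp hv).1,
      fun u hu v hv => hp.adj u ((hFw u).mp hu).1 v ((hFw v).mp hv).1⟩
  let T : ℕ → Finset V := fun i => (win F l r x y).filter
    (fun v => l v ≤ z + ρ (i + 1) ∧ z - ρ (i + 1) ≤ r v ∧ ¬ (z - ρ i ≤ l v ∧ r v ≤ z + ρ i))
  by_cases hcase : ∀ i, AlphaLE G (T i) (2 * k0)
  · -- the slice at `z` is small
    obtain ⟨m0, hm0, hm⟩ : ∃ m0 : ℝ, 0 < m0 ∧ ∀ v ∈ F, m0 ≤ r v - l v := by
      rcases F.eq_empty_or_nonempty with rfl | hne
      · exact ⟨1, one_pos, by simp⟩
      · obtain ⟨v, hv, hmin⟩ := Finset.exists_min_image F (fun v => r v - l v) hne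
        exact ⟨r v - l v, by have := hp.lt v hv; linarith, hmin⟩
    obtain ⟨i, hi⟩ : ∃ i : ℕ, 2 * ρ i < m0 := by
      obtain ⟨i, hi⟩ := exists_nat_gt (w / 4 / m0)
      refine ⟨i, ?_⟩
      have h1 : (i : ℝ) < 2 ^ i := by exact_mod_cast Nat.lt_two_pow_self
      simp only [ρ]
      have h2 : (0 : ℝ) < 2 ^ i := by positivity
      rw [mul_div_assoc', div_lt_iff₀ h2]
      rw [div_lt_iff₀ hm0] at hi
      nlinarith
    refine ⟨(win F l r x y).filter (fun v => l v ≤ z ∧ z ≤ r v), ?_, ?_⟩
    · apply alphaLE_mono (hcase i) _ (by omega)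
      intro v hv
      obtain ⟨h1, h2, h3⟩ := Finset.mem_filter.mp hv
      refine Finset.mem_filter.mpr ⟨h1, by linarith [hρ0 (i + 1)], by linarith [hρ0 (i + 1)], ?_⟩
      rintro ⟨h4, h5⟩
      have := hm v ((hFw v).mp h1).1
      linarith
    · apply slice_sep hpw
      · intro a ha
        have := (Finset.mem_filter.mp ha).2
        linarith
      · intro b hb
        have := (Finset.mem_filter.mp hb).2
        linarith
  · push Not at hcase
    -- the first bad scale
    have hspec := Nat.find_spec hcase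
    have hmin : ∀ j, j < Nat.find hcase → AlphaLE G (T j) (2 * k0) := by
      intro j hj
      have := Nat.find_min hcase hj
      exact not_not.mp this
    set i := Nat.find hcase with hi
    have hbad := hspec
    unfold AlphaLE at hbad
    push Not at hbad
    obtain ⟨I, hIT, hIind, hIcard⟩ := hbad
    set e : ℝ := ρ (i + 1) / (2 * k0) with he
    have hk0pos : (0 : ℝ) < k0 := by linarith
    have he0 : 0 < e := by have := hρ0 (i + 1); positivity
    have he' : ρ (i + 1) = 2 * k0 * e := by rw [he]; field_simp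
    -- the common component
    have hcomp : ∃ (p : ℝ) (I' : Finset V), z - ρ i ≤ p ∧ p + ρ (i + 1) ≤ z + ρ i ∧ I' ⊆ I ∧
        I'.card = k0 ∧ ∀ v ∈ I', l v ≤ p ∧ p + ρ (i + 1) ≤ r v := by
      have hsplit := Finset.card_filter_add_card_filter_not (s := I) (fun v => z + ρ i < r v)
      have hρi := hρs i
      have hρi0 := hρ0 (i + 1)
      by_cases hR : k0 ≤ (I.filter (fun v => z + ρ i < r v)).card
      · obtain ⟨I', hI', hI'c⟩ := Finset.exists_subset_card_eq hR
        refine ⟨z + ρ (i + 1), I', by linarith, by linarith,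
          hI'.trans (Finset.filter_subset _ _), hI'c, ?_⟩
        intro v hv
        have h1 := Finset.mem_filter.mp (hI' hv)
        have h2 := (Finset.mem_filter.mp (hIT h1.1)).2
        exact ⟨h2.1, by linarith [h1.2]⟩
      · have hL : k0 ≤ (I.filter (fun v => ¬ z + ρ i < r v)).card := by omega
        obtain ⟨I', hI', hI'c⟩ := Finset.exists_subset_card_eq hL
        refine ⟨z - ρ i, I', by linarith, by linarith,
          hI'.trans (Finset.filter_subset _ _), hI'c, ?_⟩
        intro v hv
        have h1 := Finset.mem_filter.mp (hI' hv)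
        have h2 := (Finset.mem_filter.mp (hIT h1.1)).2
        have h3 : l v < z - ρ i := by
          by_contra hcon
          exact h2.2.2 ⟨not_lt.mp hcon, not_lt.mp h1.2⟩
        exact ⟨h3.le, by linarith [h2.2.1]⟩
    obtain ⟨p, I', hp1, hp2, hI', hI'c, hI'pos⟩ := hcomp
    -- windows
    let X : Fin k0 → ℝ := fun k => p + (2 * (k : ℕ) + 1 / 2) * e
    let Y : Fin k0 → ℝ := fun k => p + (2 * (k : ℕ) + 3 / 2) * e
    have hXp : ∀ k, p < X k := by
      intro k
      simp only [X]
      have : (0 : ℝ) < (2 * (k : ℕ) + 1 / 2) * e := by positivity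
      linarith
    have hYX : ∀ k, Y k - X k = e := by
      intro k
      simp only [X, Y]
      ring
    have hYp : ∀ k, Y k < p + ρ (i + 1) := by
      intro k
      have h1 : ((k : ℕ) : ℝ) + 1 ≤ k0 := by
        have := k.2
        exact_mod_cast this
      simp only [Y]
      rw [he']
      nlinarith
    let ν : Fin k0 → V := fun a => ((I'.equivFinOfCardEq hI'c).symm a : V)
    have hνI : ∀ a, ν a ∈ I' := fun a => ((I'.equivFinOfCardEq hI'c).symm a).2
    have hνinj : Function.Injective ν :=
      Subtype.val_injective.comp (I'.equivFinOfCardEq hI'c).symm.injective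
    have hνw : ∀ a, ν a ∈ win F l r x y := fun a => (Finset.mem_filter.mp (hIT (hI' (hνI a)))).1
    have hdens : ∀ k, ∀ J : Finset V, J ⊆ win F l r (X k) (Y k) → G.IsIndepSet (J : Set V) →
        ∑ u ∈ J, (r u - l u) ≤ 48 * k0 * n1 * (Y k - X k) := by
      intro k J hJ hJi
      have h1 := hz (ρ i) (hρ0 i) (hρle i) J (by
        intro v hv
        have h2 := hJ hv
        rw [win, Finset.mem_filter] at h2 ⊢
        exact ⟨h2.1, by linarith [hXp k, h2.2.1], by linarith [hYp k, h2.2.2]⟩) hJi
      rw [hYX]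
      rw [hρs i, he'] at h1
      calc ∑ u ∈ J, (r u - l u) ≤ 12 * n1 * (2 * (2 * k0 * e)) := h1
        _ = 48 * k0 * n1 * e := by ring
    obtain ⟨k, S0, hS0, hS0c⟩ := b1_core (k0 := k0) hG (by omega) hp ν hνinj (by
        intro a b hab
        have h1 : ν a ≠ ν b := hab.ne
        exact hIind (Finset.mem_coe.mpr (hI' (hνI a))) (Finset.mem_coe.mpr (hI' (hνI b))) h1 hab)
      X Y (by
        intro a k
        have h1 := hI'pos _ (hνI a)
        exact ⟨by linarith [hXp k, h1.1], by linarith [hYp k, h1.2]⟩) (by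
        intro k k' hkk
        rcases lt_or_gt_of_ne hkk with h | h
        · left
          have h1 : ((k : ℕ) : ℝ) + 1 ≤ (k' : ℕ) := by
            have := Fin.lt_def.mp h
            exact_mod_cast this
          simp only [X, Y]
          nlinarith
        · right
          have h1 : ((k' : ℕ) : ℝ) + 1 ≤ (k : ℕ) := by
            have := Fin.lt_def.mp h
            exact_mod_cast this
          simp only [X, Y]
          nlinarith) (by
        intro a k
        have h1 := hND _ (hνw a)
        unfold ND at h1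
        push Not at h1
        have h2 := hI'pos _ (hνI a)
        obtain ⟨S, hS, hSc⟩ := h1 (X k) (Y k) (by linarith [hXp k, h2.1])
          (by have := hYX k; linarith) (by linarith [hYp k, h2.2]) (hdens k)
        exact ⟨S, hS, hSc⟩)
    have hXx : x + w / 8 ≤ X k := by
      have h1 := hXp k
      have h2 := hρle i
      linarith
    have hYy : Y k ≤ y - w / 8 := by
      have h1 := hYp k
      have h2 := hρle i
      linarith
    have hww : win (win F l r x y) l r (X k) (Y k) = win F l r (X k) (Y k) := by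
      ext v
      simp only [win, Finset.mem_filter]
      constructor
      · rintro ⟨⟨h1, _, _⟩, h2, h3⟩
        exact ⟨h1, h2, h3⟩
      · rintro ⟨h1, h2, h3⟩
        exact ⟨⟨h1, by linarith, by linarith⟩, h2, h3⟩
    have hcross := crossing hpw (x := X k) (y := Y k) (th := (Y k - X k) / 4)
      (by rw [hYX]; positivity) (by rw [hYX]; linarith) (S := S0)
      (A := lft F l r x y th) (B := rgt F l r x y th) (by
        unfold lft rgt
        rw [hww]
        exact hS0c) (by
        intro a ha _
        have := (Finset.mem_filter.mp ha).2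
        linarith) (by
        intro b hb _
        have := (Finset.mem_filter.mp hb).2
        linarith)
    refine ⟨_, ?_, hcross⟩
    -- the long tiles
    set LT : Finset V := (win F l r x y).filter
      (fun v => (Y k - X k) / 4 < r v - l v ∧ l v ≤ Y k ∧ X k ≤ r v) with hLT
    have hLTα : AlphaLE G LT (2 * k0 + ⌈384 * (k0 : ℝ) * n1⌉₊) := by
      -- counting long intervals
      have hcnt : ∀ (J : Finset V) (D : ℝ), J ⊆ LT → ∑ u ∈ J, (r u - l u) ≤ D →
          (J.card : ℝ) * (e / 4) ≤ D := by
        intro J D hJ hJD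
        refine le_trans ?_ hJD
        rw [← nsmul_eq_mul, ← Finset.sum_const]
        apply Finset.sum_le_sum
        intro v hv
        have := (Finset.mem_filter.mp (hJ hv)).2.1
        rw [hYX] at this
        exact this.le
      rcases Nat.eq_zero_or_pos i with h0 | hpos
      · intro J hJ hJi
        have h1 := hcnt J _ hJ (hd J (hJ.trans (Finset.filter_subset _ _)) hJi)
        have h2 : w = 32 * k0 * e := by
          have h3 : ρ i = w / 8 := by
            rw [h0]
            simp only [ρ, pow_zero, div_one]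
          have h4 := hρs i
          rw [he'] at h4
          linarith
        have h3 : (J.card : ℝ) ≤ 384 * k0 * n1 := by
          have h4 : (J.card : ℝ) * (e / 4) ≤ (128 * k0 * n1) * (e / 4) := by
            calc (J.card : ℝ) * (e / 4) ≤ n1 * (y - x) := h1
              _ = (128 * k0 * n1) * (e / 4) := by rw [← hw, h2]; ring
          have h5 := le_of_mul_le_mul_right h4 (by positivity)
          have h6 : (0 : ℝ) ≤ k0 * n1 := by positivity
          linarith
        have h4 := h3.trans (Nat.le_ceil _)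
        have h5 : J.card ≤ ⌈384 * (k0 : ℝ) * n1⌉₊ := by exact_mod_cast h4
        omega
      · obtain ⟨i', hi'⟩ : ∃ i', i = i' + 1 := ⟨i - 1, by omega⟩
        intro J hJ hJi
        have h1 : (J.filter (fun v => v ∈ T i')).card ≤ 2 * k0 := by
          apply hmin i' (by omega)
          · intro v hv
            exact (Finset.mem_filter.mp hv).2
          · exact indepSet_mono (Finset.filter_subset _ _) hJi
        have h2 : (J.filter (fun v => ¬ v ∈ T i')).card ≤ ⌈384 * (k0 : ℝ) * n1⌉₊ := by
          have h3 := hz (ρ i') (hρ0 i') (hρle i') (J.filter (fun v => ¬ v ∈ T i')) (by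
            intro v hv
            obtain ⟨hvJ, hvT⟩ := Finset.mem_filter.mp hv
            obtain ⟨hvw, h4, h5, h6⟩ := Finset.mem_filter.mp (hJ hvJ)
            have h7 : z - ρ i' ≤ l v ∧ r v ≤ z + ρ i' := by
              by_contra hcon
              apply hvT
              refine Finset.mem_filter.mpr ⟨hvw, ?_, ?_, hcon⟩
              · rw [← hi']
                linarith [hYp k]
              · rw [← hi']
                linarith [hXp k]
            rw [win, Finset.mem_filter]
            exact ⟨((hFw v).mp hvw).1, h7⟩) (indepSet_mono (Finset.filter_subset _ _) hJi)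
          have h4 := hcnt _ _ ((Finset.filter_subset _ _).trans hJ) h3
          have h5 : ρ i' = 8 * k0 * e := by
            have h6 := hρs i'
            have h7 := hρs i
            rw [he'] at h7
            rw [← hi'] at h6
            linarith
          rw [h5] at h4
          have h6 : ((J.filter (fun v => ¬ v ∈ T i')).card : ℝ) * (e / 4) ≤
              (384 * k0 * n1) * (e / 4) := by
            refine h4.trans (le_of_eq ?_)
            ring
          have h7 := (le_of_mul_le_mul_right h6 (by positivity)).trans (Nat.le_ceil _)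
          exact_mod_cast h7
        have h3 := Finset.card_filter_add_card_filter_not (s := J) (fun v => v ∈ T i')
        omega
    have h9 := alphaLE_union hS0 hLTα
    exact alphaLE_mono h9 (Finset.Subset.refl _) (by omega)

end Pool.Agent.Work.MP_44e7ab_co
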