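import Mathlib
import Pool.Agent.Work.MP_44e7ab_co.Q1.Defs

set_option autoImplicit false

/-! Definitions for module M9 (rounding theorem, helper37). -/

namespace Pool.Agent.Work.MP_44e7ab_co

open Finset Classical

/-- induced path inside `F` whose intervals are consecutive (`r (p i) = l (p (i+1))`) -/
def TPath {V : Type} (G : SimpleGraph V) (F : Finset V) (l r : V → ℝ) (p : ℕ → V) (m : ℕ) :
    Prop :=
  IndPath G p m ∧ (∀ i ≤ m, p i ∈ F) ∧ ∀ i < m, r (p i) = l (p (i + 1))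

/-- prepared world: interval positions, all lengths in `[ζ, τ]`, geodesics from `A` to every
vertex, tight `A`-`B` paths through every vertex of length `> ζ` -/
structure PosWorld {V : Type} (G : SimpleGraph V) (F A B : Finset V) (l r : V → ℝ)
    (L τ ζ : ℝ) (N : ℕ) : Prop where
  pos : Pos G F l r
  Lpos : 0 < L
  zpos : 0 < ζ
  zlen : ∀ v ∈ F, ζ ≤ r v - l v
  tlen : ∀ v ∈ F, r v - l v ≤ τ
  lnn : ∀ v ∈ F, 0 ≤ l v
  startA : ∀ a ∈ A, a ∈ F → l a = 0
  endB : ∀ b ∈ B, b ∈ F → L ≤ r b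
  geo : ∀ v ∈ F, ∃ (p : ℕ → V) (m : ℕ), TPath G F l r p m ∧ p 0 ∈ A ∧ p m = v
  tight : ∀ v ∈ F, ζ < r v - l v → ∃ (p : ℕ → V) (m : ℕ), TPath G F l r p m ∧ p 0 ∈ A ∧
    p m ∈ B ∧ ∃ i ≤ m, p i = v
  conn : ∀ S : Finset V, AlphaLE G S N → Cn G A B (F \ S)

/-- any two vertices at the left end of the window `[x, y]` (fuzz `th`) which are connected to the
right end inside the window are connected to each other inside the window -/
def Linked {V : Type} (G : SimpleGraph V) (F : Finset V) (l r : V → ℝ) (x y th : ℝ) : Prop :=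
  ∀ u v u' v', u ∈ lft F l r x y th → v ∈ rgt F l r x y th → u' ∈ lft F l r x y th →
    v' ∈ rgt F l r x y th → ConnIn G (win F l r x y : Set V) u v →
    ConnIn G (win F l r x y : Set V) u' v' → ConnIn G (win F l r x y : Set V) u u'

/-- `K` of rank `j` in the window `[x, y]`, a path `p` from `A` to position `L` anticomplete
to `K`, and a path `q` from `A` to `a ∈ K`, anticomplete to `K \ {a}` -/
structure Gadget {V : Type} (G : SimpleGraph V) (F A : Finset V) (l r : V → ℝ) (L : ℝ) (j : ℕ)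
    (x y : ℝ) (K : Finset V) (a : V) (p : ℕ → V) (m : ℕ) (q : ℕ → V) (k : ℕ) : Prop where
  KF : K ⊆ win F l r x y
  conn : ConnSet G K
  om : OmLe G K 6
  rk : ¬ PWLe G K j
  aK : a ∈ K
  tp : TPath G F l r p m
  p0 : p 0 ∈ A
  pL : L ≤ r (p m)
  Kp : ∀ u ∈ K, ∀ i ≤ m, u ≠ p i ∧ ¬ G.Adj u (p i)
  tq : TPath G F l r q k
  q0 : q 0 ∈ A
  qa : q k = a
  Kq : ∀ u ∈ K, u ≠ a → ∀ i < k, u ≠ q i ∧ ¬ G.Adj u (q i)

end Pool.Agent.Work.MP_44e7ab_co
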