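import Mathlib
import Pool.Agent.Work.MP_44e7ab_co.Q1.BDefs

set_option autoImplicit false

/-! M9d, clique bound for the composition. -/

namespace Pool.Agent.Work.MP_44e7ab_co

open Finset Classical

/-- Clique bound: pieces of clique number 2 with ranges such that every point is in at most three
ranges, together with parts `K i` of clique number 6 whose vertices outside the pieces have all
their neighbours in `K i`. -/
theorem omLe_of_pieces {V : Type} {G : SimpleGraph V} {F : Finset V} {l r : V → ℝ}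
    (hp : Pos G F l r) {T : Type} [Fintype T] (Pc : T → Finset V) (α β : T → ℝ)
    (hF : ∀ t, Pc t ⊆ F) (hom : ∀ t, OmLe G (Pc t) 2)
    (hrange : ∀ t, ∀ v ∈ Pc t, α t ≤ l v ∧ r v ≤ β t)
    (h3 : ∀ z : ℝ, ((univ : Finset T).filter (fun t => α t ≤ z ∧ z ≤ β t)).card ≤ 3)
    {ι : Type} (K : ι → Finset V) (hK : ∀ i, OmLe G (K i) 6) (W : Finset V)
    (hW : ∀ v ∈ W, (∃ t, v ∈ Pc t) ∨ ∃ i, v ∈ K i)
    (hpriv : ∀ i, ∀ u ∈ K i, (∃ t, u ∈ Pc t) ∨ ∀ w ∈ W, G.Adj u w → w ∈ K i) :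
    OmLe G W 6 := by
  intro C hC hcl
  by_cases hcase : ∀ v ∈ C, ∃ t, v ∈ Pc t
  · -- all vertices in pieces
    rcases C.eq_empty_or_nonempty with h0 | h0
    · rw [h0]; simp
    · obtain ⟨v0, hv0, hmax⟩ := C.exists_max_image l h0
      have hz : ∀ v ∈ C, l v ≤ l v0 ∧ l v0 ≤ r v := by
        intro v hv
        refine ⟨hmax v hv, ?_⟩
        obtain ⟨t, ht⟩ := hcase v hv
        obtain ⟨t0, ht0⟩ := hcase v0 hv0
        by_cases hvv : v0 = v
        · rw [hvv]
          exact (hp.lt v (hF t ht)).le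
        · exact hp.adj v0 (hF t0 ht0) v (hF t ht)
            (hcl (by exact_mod_cast hv0) (by exact_mod_cast hv) hvv)
      set Tz := (univ : Finset T).filter (fun t => α t ≤ l v0 ∧ l v0 ≤ β t) with hTz
      have hcov : C ⊆ Tz.biUnion (fun t => C ∩ Pc t) := by
        intro v hv
        obtain ⟨t, ht⟩ := hcase v hv
        obtain ⟨h1, h2⟩ := hrange t v ht
        obtain ⟨h4, h5⟩ := hz v hv
        rw [Finset.mem_biUnion]
        refine ⟨t, ?_, Finset.mem_inter.mpr ⟨hv, ht⟩⟩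
        rw [hTz, Finset.mem_filter]
        exact ⟨Finset.mem_univ t, h1.trans h4, h5.trans h2⟩
      calc C.card ≤ (Tz.biUnion (fun t => C ∩ Pc t)).card := Finset.card_le_card hcov
        _ ≤ ∑ t ∈ Tz, (C ∩ Pc t).card := Finset.card_biUnion_le
        _ ≤ ∑ _t ∈ Tz, 2 := by
            apply Finset.sum_le_sum
            intro t _
            exact hom t _ Finset.inter_subset_right
              (hcl.subset (by exact_mod_cast Finset.inter_subset_left))
        _ = Tz.card * 2 := by rw [Finset.sum_const, smul_eq_mul]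
        _ ≤ 6 := by
            have := h3 (l v0)
            rw [← hTz] at this
            omega
  · push Not at hcase
    obtain ⟨u, hu, hut⟩ := hcase
    rcases hW u (hC hu) with ⟨t, ht⟩ | ⟨i, hi⟩
    · exact absurd ht (hut t)
    · rcases hpriv i u hi with ⟨t, ht⟩ | h
      · exact absurd ht (hut t)
      · apply hK i C _ hcl
        intro w hw
        by_cases huw : u = w
        · rw [← huw]; exact hi
        · exact h w (hC hw) (hcl (by exact_mod_cast hu) (by exact_mod_cast hw) huw)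

/-- left ends of the ranges of the 11 pieces
`Z1, Z2, Z3, M12, M23, G1, M1, G2, M2, G3, M3` -/
def pcA (x : ℕ → ℝ) : Fin 11 → ℝ := ![0, x 2, x 5, x 2, x 5, x 0, x 0, x 3, x 3, x 6, x 6]

/-- right ends of the ranges of the 11 pieces -/
def pcB (x : ℕ → ℝ) (w : ℝ) : Fin 11 → ℝ :=
  ![x 2 + w, x 5 + w, x 6 + w, x 2 + w, x 5 + w, x 1 + w, x 0 + w, x 4 + w, x 3 + w, x 7 + w,
    x 6 + w]

/-- every point is in the range of at most three of the 11 pieces -/
theorem ranges_le_three {x : ℕ → ℝ} {w : ℝ} (hw : 0 ≤ w) (hgap : ∀ k < 7, x k + w < x (k + 1))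
    (z : ℝ) :
    ((univ : Finset (Fin 11)).filter (fun t => pcA x t ≤ z ∧ z ≤ pcB x w t)).card ≤ 3 := by
  have g0 := hgap 0 (by norm_num)
  have g1 := hgap 1 (by norm_num)
  have g2 := hgap 2 (by norm_num)
  have g3 := hgap 3 (by norm_num)
  have g4 := hgap 4 (by norm_num)
  have g5 := hgap 5 (by norm_num)
  have g6 := hgap 6 (by norm_num)
  norm_num at g0 g1 g2 g3 g4 g5 g6
  have key : ∀ S : Finset (Fin 11), S.card ≤ 3 →
      (∀ t : Fin 11, pcA x t ≤ z → z ≤ pcB x w t → t ∈ S) →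
      ((univ : Finset (Fin 11)).filter (fun t => pcA x t ≤ z ∧ z ≤ pcB x w t)).card ≤ 3 := by
    intro S hS h
    refine (Finset.card_le_card ?_).trans hS
    intro t ht
    rw [Finset.mem_filter] at ht
    exact h t ht.2.1 ht.2.2
  rcases lt_or_ge z (x 2) with h2 | h2
  · apply key {0, 5, 6} (by decide)
    intro t h1 h1'
    fin_cases t <;> simp [pcA, pcB] at h1 h1' ⊢ <;> linarith
  rcases lt_or_ge z (x 3) with h3 | h3
  · apply key {0, 1, 3} (by decide)
    intro t h1 h1'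
    fin_cases t <;> simp [pcA, pcB] at h1 h1' ⊢ <;> linarith
  rcases lt_or_ge z (x 5) with h5 | h5
  · apply key {1, 7, 8} (by decide)
    intro t h1 h1'
    fin_cases t <;> simp [pcA, pcB] at h1 h1' ⊢ <;> linarith
  rcases lt_or_ge z (x 6) with h6 | h6
  · apply key {1, 2, 4} (by decide)
    intro t h1 h1'
    fin_cases t <;> simp [pcA, pcB] at h1 h1' ⊢ <;> linarith
  · apply key {2, 9, 10} (by decide)
    intro t h1 h1'
    fin_cases t <;> simp [pcA, pcB] at h1 h1' ⊢ <;> linarith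

/-- clique bound of the 11 path pieces, order `Z1, M12, Z2, M23, Z3, G1, M1, G2, M2, G3, M3` -/
theorem clique_bound {V : Type} {G : SimpleGraph V} {F : Finset V} {l r : V → ℝ}
    (hp : Pos G F l r) {w : ℝ} {x : ℕ → ℝ} (hx0 : 0 < x 0) (hw : 0 < w)
    (hgap : ∀ k < 7, x k + w < x (k + 1)) (S : Fin 11 → Finset V) (hSF : ∀ t, S t ⊆ F)
    (hS2 : ∀ t, OmLe G (S t) 2)
    (hl : ∀ t, ∀ v ∈ S t, (![0, x 2, x 2, x 5, x 5, x 0, x 0, x 3, x 3, x 6, x 6] : Fin 11 → ℝ) t ≤ l v)
    (hr : ∀ t, ∀ v ∈ S t, r v ≤ (![x 2 + w, x 2 + w, x 5 + w, x 5 + w, x 6 + w, x 1 + w, x 0 + w,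
      x 4 + w, x 3 + w, x 7 + w, x 6 + w] : Fin 11 → ℝ) t) :
    OmLe G (univ.biUnion S) 6 := by
  have g0 := hgap 0 (by norm_num)
  have g1 := hgap 1 (by norm_num)
  have g2 := hgap 2 (by norm_num)
  have g3 := hgap 3 (by norm_num)
  have g4 := hgap 4 (by norm_num)
  have g5 := hgap 5 (by norm_num)
  have g6 := hgap 6 (by norm_num)
  norm_num at g0 g1 g2 g3 g4 g5 g6
  refine omLe_of_pieces hp S _ _ hSF hS2 (fun t v hv => ⟨hl t v hv, hr t v hv⟩) ?_
    (ι := Empty) (fun i => i.elim) (fun i => i.elim) _ ?_ (fun i => i.elim)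
  · intro z
    have key : ∀ T : Finset (Fin 11), T.card ≤ 3 →
        (∀ t : Fin 11, (![0, x 2, x 2, x 5, x 5, x 0, x 0, x 3, x 3, x 6, x 6] : Fin 11 → ℝ) t ≤ z →
          z ≤ (![x 2 + w, x 2 + w, x 5 + w, x 5 + w, x 6 + w, x 1 + w, x 0 + w,
            x 4 + w, x 3 + w, x 7 + w, x 6 + w] : Fin 11 → ℝ) t → t ∈ T) →
        ((univ : Finset (Fin 11)).filter (fun t =>
          (![0, x 2, x 2, x 5, x 5, x 0, x 0, x 3, x 3, x 6, x 6] : Fin 11 → ℝ) t ≤ z ∧
          z ≤ (![x 2 + w, x 2 + w, x 5 + w, x 5 + w, x 6 + w, x 1 + w, x 0 + w,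
            x 4 + w, x 3 + w, x 7 + w, x 6 + w] : Fin 11 → ℝ) t)).card ≤ 3 := by
      intro T hT h
      refine (Finset.card_le_card ?_).trans hT
      intro t ht
      rw [Finset.mem_filter] at ht
      exact h t ht.2.1 ht.2.2
    rcases lt_or_ge z (x 2) with h2 | h2
    · apply key {0, 5, 6} (by decide)
      intro t h1 h1'
      fin_cases t <;> simp at h1 h1' ⊢ <;> linarith
    rcases lt_or_ge z (x 3) with h3 | h3
    · apply key {0, 1, 2} (by decide)
      intro t h1 h1'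
      fin_cases t <;> simp at h1 h1' ⊢ <;> linarith
    rcases lt_or_ge z (x 5) with h5 | h5
    · apply key {2, 7, 8} (by decide)
      intro t h1 h1'
      fin_cases t <;> simp at h1 h1' ⊢ <;> linarith
    rcases lt_or_ge z (x 6) with h6 | h6
    · apply key {2, 3, 4} (by decide)
      intro t h1 h1'
      fin_cases t <;> simp at h1 h1' ⊢ <;> linarith
    · apply key {4, 9, 10} (by decide)
      intro t h1 h1'
      fin_cases t <;> simp at h1 h1' ⊢ <;> linarith
  · intro v hv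
    rw [Finset.mem_biUnion] at hv
    obtain ⟨t, _, ht⟩ := hv
    exact Or.inl ⟨t, ht⟩

end Pool.Agent.Work.MP_44e7ab_co
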