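import Mathlib
import Pool.Agent.Work.MP_44e7ab_co.Q1.BDefs
import Pool.Agent.Work.MP_44e7ab_co.Q1.Paths
import Pool.Agent.Work.MP_44e7ab_co.Q1.Cross

set_option autoImplicit false

namespace Pool.Agent.Work.MP_44e7ab_co

open Finset Classical

lemma mem_winB {V : Type} {F : Finset V} {l r : V → ℝ} {x y : ℝ} {v : V} :
    v ∈ win F l r x y ↔ v ∈ F ∧ x ≤ l v ∧ r v ≤ y := by
  simp [win]

lemma mem_lftB {V : Type} {F : Finset V} {l r : V → ℝ} {x y th : ℝ} {v : V} :
    v ∈ lft F l r x y th ↔ v ∈ win F l r x y ∧ l v ≤ x + th := by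
  simp [lft]

lemma mem_rgtB {V : Type} {F : Finset V} {l r : V → ℝ} {x y th : ℝ} {v : V} :
    v ∈ rgt F l r x y th ↔ v ∈ win F l r x y ∧ y - th ≤ r v := by
  simp [rgt]

/-- the intervals of a connected set cover everything between two of its vertices -/
theorem len_le {V : Type} {G : SimpleGraph V} {F S : Finset V} {l r : V → ℝ} (hp : Pos G F l r)
    (hS : S ⊆ F) {u v : V} (h : ConnIn G (S : Set V) u v) :
    r v ≤ l u + ∑ w ∈ S, (r w - l w) := by
  obtain ⟨p, m, hip, h0, hm, hU⟩ := exists_indPath h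
  have hU' : ∀ i ≤ m, p i ∈ S := fun i hi => by simpa using hU i hi
  have key : ∀ i ≤ m, r (p i) ≤ l u + ∑ k ∈ Finset.range (i + 1), (r (p k) - l (p k)) := by
    intro i
    induction i with
    | zero =>
      intro _
      rw [zero_add, Finset.sum_range_one, h0]
      linarith
    | succ i ih =>
      intro hi
      have h1 := ih (by omega)
      rw [Finset.sum_range_succ]
      have hadj : G.Adj (p (i + 1)) (p i) := by
        rw [hip.2 (i + 1) i hi (by omega)]
        right
        rfl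
      have h2 := hp.adj _ (hS (hU' _ hi)) _ (hS (hU' i (by omega))) hadj
      linarith
  have h1 := key m le_rfl
  rw [hm] at h1
  refine h1.trans ?_
  have hinj : Set.InjOn p (Finset.range (m + 1) : Set ℕ) := by
    intro i hi j hj hij
    simp only [Finset.coe_range, Set.mem_Iio] at hi hj
    exact hip.1 i j (by omega) (by omega) hij
  have h2 : ∑ k ∈ Finset.range (m + 1), (r (p k) - l (p k)) = ∑ w ∈ supp p m, (r w - l w) := by
    unfold supp
    rw [Finset.sum_image hinj]
  rw [h2]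
  have h3 : ∑ w ∈ supp p m, (r w - l w) ≤ ∑ w ∈ S, (r w - l w) := by
    apply Finset.sum_le_sum_of_subset_of_nonneg
    · intro w hw
      obtain ⟨i, hi, rfl⟩ := mem_supp.mp hw
      exact hU' i hi
    · intro w hw _
      have := hp.lt w (hS hw)
      linarith
  linarith

theorem win_conn {V : Type} [Fintype V] {G : SimpleGraph V} {F A B : Finset V} {l r : V → ℝ}
    {L τ ζ : ℝ} {N : ℕ} (h : PosWorld G F A B l r L τ ζ N) {x y th : ℝ} (hx : 0 < x)
    (hy : y < L) (hth : τ ≤ th) (hxy : 2 * th < y - x) (S : Finset V) (hS : AlphaLE G S N) :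
    Cn G (lft F l r x y th) (rgt F l r x y th) (win F l r x y \ S) := by
  by_contra hcon
  obtain ⟨a, ha, b, hb, hab⟩ := h.conn S hS
  have haF : a ∈ F := by
    have := hab.left_mem
    simp only [Finset.coe_sdiff, Set.mem_sdiff, Finset.mem_coe] at this
    exact this.1
  have hτ0 : 0 ≤ τ := by
    have h1 := h.zlen a haF
    have h2 := h.tlen a haF
    have h3 := h.zpos
    linarith
  have hc := crossing h.pos (hτ0.trans hth) hxy hcon (A := A) (B := B) (by
    intro a ha haF
    rw [h.startA a ha haF]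
    exact hx) (by
    intro b hb hbF
    exact hy.trans_le (h.endB b hb hbF))
  apply hc
  have he : F.filter (fun v => th < r v - l v ∧ l v ≤ y ∧ x ≤ r v) = ∅ := by
    rw [Finset.filter_eq_empty_iff]
    rintro v hv ⟨h1, -⟩
    have := h.tlen v hv
    linarith
  rw [he, Finset.union_empty]
  exact ⟨a, ha, b, hb, hab⟩

/-- clique number when a set is attached at one vertex -/
lemma omLe_of_attach {V : Type} {G : SimpleGraph V} {K Q : Finset V} {a : V} {w : ℕ}
    (hK : OmLe G K w) (hQ : OmLe G Q w) (haK : a ∈ K) (haQ : a ∈ Q)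
    (hKQ : ∀ u ∈ K, u ≠ a → ∀ g ∈ Q, g ≠ a → ¬ G.Adj u g) : OmLe G (K ∪ Q) w := by
  intro C hC hcl
  by_cases hex : ∃ u ∈ C, u ∈ K ∧ u ∉ Q
  · obtain ⟨u, huC, huK, huQ⟩ := hex
    apply hK C _ hcl
    intro g hg
    rcases Finset.mem_union.mp (hC hg) with h | h
    · exact h
    · by_cases hga : g = a
      · rw [hga]
        exact haK
      · by_contra hgK
        have hgu : u ≠ g := fun h' => huQ (h' ▸ h)
        have hua : u ≠ a := fun h' => huQ (h' ▸ haQ)
        exact hKQ u huK hua g h hga (hcl huC hg hgu)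
  · push Not at hex
    apply hQ C _ hcl
    intro u hu
    rcases Finset.mem_union.mp (hC hu) with h | h
    · exact hex u hu h
    · exact h

lemma OmLe.monoB {V : Type} {G : SimpleGraph V} {S T : Finset V} {w w' : ℕ} (h : OmLe G S w)
    (hT : T ⊆ S) (hw : w ≤ w') : OmLe G T w' :=
  fun C hC hcl => (h C (hC.trans hT) hcl).trans hw

lemma PWLe.monoB {V : Type} {G : SimpleGraph V} {S T : Finset V} {p : ℕ} (h : PWLe G S p)
    (hT : T ⊆ S) : PWLe G T p := by
  obtain ⟨n, X, h1, h2, h3, h4, h5⟩ := h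
  refine ⟨n, fun i => X i ∩ T, fun i => Finset.inter_subset_right, ?_, ?_, ?_, ?_⟩
  · intro v hv
    obtain ⟨i, hi⟩ := h2 v (hT hv)
    exact ⟨i, Finset.mem_inter.mpr ⟨hi, hv⟩⟩
  · intro u v hu hv huv
    obtain ⟨i, hi, hi'⟩ := h3 u v (hT hu) (hT hv) huv
    exact ⟨i, Finset.mem_inter.mpr ⟨hi, hu⟩, Finset.mem_inter.mpr ⟨hi', hv⟩⟩
  · intro v i j k hij hjk hi hk
    rw [Finset.mem_inter] at hi hk ⊢
    exact ⟨h4 v i j k hij hjk hi.1 hk.1, hi.2⟩
  · intro i
    exact (Finset.card_le_card Finset.inter_subset_left).trans (h5 i)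

/-- positions increase along a tiled path -/
lemma TPath.le {V : Type} {G : SimpleGraph V} {F : Finset V} {l r : V → ℝ} {p : ℕ → V} {m : ℕ}
    (h : TPath G F l r p m) (hp : Pos G F l r) {i k : ℕ} (hik : i < k) (hk : k ≤ m) :
    r (p i) ≤ l (p k) := by
  induction k with
  | zero => omega
  | succ k ih =>
    rcases Nat.lt_or_ge i k with h1 | h1
    · have h2 := ih h1 (by omega)
      have h3 := hp.lt _ (h.2.1 k (by omega))
      have h4 := h.2.2 k (by omega)
      linarith
    · have : i = k := by omega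
      rw [this, h.2.2 k (by omega)]

/-- a structure inside a window extends to a structure -/
theorem bstr_extend {V : Type} [Fintype V] {G : SimpleGraph V} {F A B W : Finset V}
    {l r : V → ℝ} {L τ ζ : ℝ} {N j : ℕ} (h : PosWorld G F A B l r L τ ζ N) {x y th : ℝ}
    (hx : 0 < x) (hth : 0 ≤ th) (hW : W ⊆ win F l r x y) {K : Finset V}
    (hK : BStr G W (lft F l r x y th) j K) : ∃ K', BStr G F A j K' := by
  obtain ⟨hKW, hKc, hKo, hKr, a, haK, hal, hau⟩ := hK
  have haw := mem_winB.mp (hW (hKW haK))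
  obtain ⟨p, m, hp, hp0, hpm⟩ := h.geo a haw.1
  have ha' := (mem_lftB.mp hal).2
  refine ⟨K ∪ supp p m, ?_, ?_, ?_, ?_, p 0, ?_, hp0, ?_⟩
  · intro v hv
    rcases Finset.mem_union.mp hv with hv | hv
    · exact (mem_winB.mp (hW (hKW hv))).1
    · obtain ⟨i, hi, rfl⟩ := mem_supp.mp hv
      exact hp.2.1 i hi
  · apply connSet_union hKc (IndPath.connSet hp.1)
    exact ⟨a, haK, a, mem_supp.mpr ⟨m, le_rfl, hpm⟩, Or.inr rfl⟩
  · apply omLe_of_attach hKo ((IndPath.omLe hp.1).monoB (Finset.Subset.refl _) (by norm_num)) haK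
      (mem_supp.mpr ⟨m, le_rfl, hpm⟩)
    intro u hu hua g hg hga hadj
    obtain ⟨i, hi, rfl⟩ := mem_supp.mp hg
    have hiu : i < m := by
      rcases Nat.lt_or_ge i m with h1 | h1
      · exact h1
      · exact absurd (by rw [← hpm]; congr 1; omega) hga
    have h1 := hp.le h.pos hiu le_rfl
    rw [hpm] at h1
    have huw := hW (hKW hu)
    have h2 : ¬ l u ≤ x + th := fun h3 => hua (hau u hu (mem_lftB.mpr ⟨huw, h3⟩))
    have h3 := h.pos.adj u (mem_winB.mp huw).1 _ (hp.2.1 i hi) hadj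
    push Not at h2
    linarith
  · intro h1
    exact hKr (h1.monoB Finset.subset_union_left)
  · exact Finset.mem_union_right _ (mem_supp.mpr ⟨0, Nat.zero_le _, rfl⟩)
  · intro v hv hvA
    rcases Finset.mem_union.mp hv with hv | hv
    · have h1 := mem_winB.mp (hW (hKW hv))
      have h2 := h.startA v hvA h1.1
      linarith [h1.2.1]
    · obtain ⟨i, hi, rfl⟩ := mem_supp.mp hv
      rcases Nat.eq_zero_or_pos i with h0 | h0
      · rw [h0]
      · have h1 := hp.le h.pos h0 hi
        have h2 := h.startA _ hvA (hp.2.1 i hi)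
        have h3 := h.lnn _ (hp.2.1 0 (Nat.zero_le _))
        have h4 := h.pos.lt _ (hp.2.1 0 (Nat.zero_le _))
        linarith

/-- the world of a window -/
lemma window_world {V : Type} {G : SimpleGraph V} {F W : Finset V} {l r : V → ℝ}
    (hp : Pos G F l r) {x y th c' : ℝ} {N1 : ℕ} (hW : W ⊆ win F l r x y)
    (hpos : 0 < y - x - 2 * th)
    (hcost : ∀ I : Finset V, I ⊆ W → G.IsIndepSet (I : Set V) →
      ∑ v ∈ I, (r v - l v) ≤ c' * (y - x - 2 * th))
    (hconn : ∀ S : Finset V, AlphaLE G S N1 →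
      Cn G (lft F l r x y th) (rgt F l r x y th) (W \ S)) :
    World G W (lft F l r x y th) (rgt F l r x y th) (fun v => r v - l v) (y - x - 2 * th) c'
      N1 where
  pos := fun v hv => by
    have := hp.lt v (mem_winB.mp (hW hv)).1
    show 0 < r v - l v
    linarith
  Lpos := hpos
  dist := by
    intro S hS hcn
    obtain ⟨a, ha, b, hb, hab⟩ := hcn
    have hSF : S ⊆ F := fun v hv => (mem_winB.mp (hW (hS hv))).1
    have h1 := len_le hp hSF hab
    have h2 := (mem_lftB.mp ha).2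
    have h3 := (mem_rgtB.mp hb).2
    linarith
  cost := hcost
  conn := hconn

lemma exists_heavy {V : Type} [Fintype V] {G : SimpleGraph V} {F A B : Finset V} {l r : V → ℝ}
    {L τ ζ c' : ℝ} {N N1 j : ℕ} (h : PosWorld G F A B l r L τ ζ N) (hN : N1 ≤ N) {x y th : ℝ}
    (hx : 0 < x) (hy : y < L) (hth0 : 0 ≤ th) (hth : τ ≤ th) (hpos : 0 < y - x - 2 * th)
    (hclaim : ∀ (F' A' B' : Finset V) (lam' : V → ℝ) (L' : ℝ),
      World G F' A' B' lam' L' c' N1 → ∃ K, BStr G F' A' j K)
    (hno : ¬ ∃ K, BStr G F A j K) :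
    ∃ I : Finset V, I ⊆ win F l r x y ∧ G.IsIndepSet (I : Set V) ∧
      c' * (y - x - 2 * th) < ∑ v ∈ I, (r v - l v) := by
  by_contra hcon
  push Not at hcon
  obtain ⟨K, hK⟩ := hclaim _ _ _ _ _ (window_world h.pos (Finset.Subset.refl _) hpos hcon
    (fun S hS => win_conn h hx hy hth (by linarith) S (by
      intro I hI hI'
      exact (hS I hI hI').trans hN)))
  exact hno (bstr_extend h hx hth0 (Finset.Subset.refl _) hK)

lemma AlphaLE.unionB {V : Type} {G : SimpleGraph V} {S T : Finset V} {a b : ℕ}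
    (hS : AlphaLE G S a) (hT : AlphaLE G T b) : AlphaLE G (S ∪ T) (a + b) := by
  intro I hI hind
  have h1 : (I ∩ S).card ≤ a := hS _ Finset.inter_subset_right (hind.mono (by simp))
  have h2 : (I ∩ T).card ≤ b := hT _ Finset.inter_subset_right (hind.mono (by simp))
  have h3 : I ⊆ (I ∩ S) ∪ (I ∩ T) := by
    intro x hx
    rcases Finset.mem_union.mp (hI hx) with h | h
    · exact Finset.mem_union_left _ (Finset.mem_inter.mpr ⟨hx, h⟩)
    · exact Finset.mem_union_right _ (Finset.mem_inter.mpr ⟨hx, h⟩)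
  have h4 := (Finset.card_le_card h3).trans (Finset.card_union_le _ _)
  omega

/-- a walk inside `U` starting in a part closed under adjacency stays in that part -/
lemma connIn_stay {V : Type} {G : SimpleGraph V} {U : Set V} {x y : V} (h : ConnIn G U x y)
    {Q : V → Prop} (hx : Q x) (hQ : ∀ u v, u ∈ U → v ∈ U → G.Adj u v → Q u → Q v) :
    ConnIn G {z | z ∈ U ∧ Q z} x y := by
  obtain ⟨p, hp⟩ := h
  refine ⟨p, ?_⟩
  induction p with
  | nil =>
    intro z hz
    rw [SimpleGraph.Walk.support_nil, List.mem_singleton] at hz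
    rw [hz]
    exact ⟨hp _ (by simp), hx⟩
  | cons hadj q ih =>
    intro z hz
    rw [SimpleGraph.Walk.support_cons, List.mem_cons] at hz
    rcases hz with rfl | hz
    · exact ⟨hp _ (by simp), hx⟩
    · exact ih (hQ _ _ (hp _ (by simp)) (hp _ (by simp)) hadj hx)
        (fun z hz => hp z (by simp [hz])) z hz

lemma part_thick {V : Type} [Fintype V] {G : SimpleGraph V} {F A B W : Finset V}
    {l r : V → ℝ} {L τ ζ c' D : ℝ} {N N1 j : ℕ} (h : PosWorld G F A B l r L τ ζ N)
    {x y th : ℝ} (hx : 0 < x) (hth0 : 0 ≤ th) (hpos : 0 < y - x - 2 * th)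
    (hD : ∀ I : Finset V, I ⊆ win F l r x y → G.IsIndepSet (I : Set V) →
      ∑ v ∈ I, (r v - l v) ≤ D)
    (hnum : D - (y - x - 2 * th) / 2 ≤ c' * (y - x - 2 * th))
    (hclaim : ∀ (F' A' B' : Finset V) (lam' : V → ℝ) (L' : ℝ),
      World G F' A' B' lam' L' c' N1 → ∃ K, BStr G F' A' j K)
    (hno : ¬ ∃ K, BStr G F A j K) (hW : W ⊆ win F l r x y)
    (hcl : ∀ z ∈ W, ∀ z' ∈ win F l r x y, z' ∉ W → ¬ G.Adj z z')
    {u v : V} (hu : u ∈ lft F l r x y th) (hv : v ∈ rgt F l r x y th)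
    (huv : ConnIn G {z | z ∈ win F l r x y ∧ z ∉ W} u v)
    (hthick : ∀ S : Finset V, AlphaLE G S N1 →
      Cn G (lft F l r x y th) (rgt F l r x y th) (W \ S)) : False := by
  obtain ⟨p, m, hip, h0, hm, hU⟩ := exists_indPath huv
  obtain ⟨I', hI's, hI'i, hI'h⟩ := hip.half (fun v => r v - l v) (fun i hi => by
    have := h.pos.lt _ (mem_winB.mp (hU i hi).1).1
    show 0 ≤ r (p i) - l (p i)
    linarith)
  have hsF : supp p m ⊆ F := by
    intro z hz
    obtain ⟨i, hi, rfl⟩ := mem_supp.mp hz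
    exact (mem_winB.mp (hU i hi).1).1
  have hlen := len_le h.pos hsF (u := u) (v := v) (hip.connSet u
    (mem_supp.mpr ⟨0, Nat.zero_le _, h0⟩) v (mem_supp.mpr ⟨m, le_rfl, hm⟩))
  have h2 := (mem_lftB.mp hu).2
  have h3 := (mem_rgtB.mp hv).2
  obtain ⟨K, hK⟩ := hclaim _ _ _ _ _ (window_world h.pos hW hpos (by
    intro I hI hIi
    have hdisj : Disjoint I I' := by
      rw [Finset.disjoint_left]
      intro z hz hz'
      obtain ⟨i, hi, rfl⟩ := mem_supp.mp (hI's hz')
      exact (hU i hi).2 (hI hz)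
    have h4 := hD (I ∪ I') (by
      intro z hz
      rcases Finset.mem_union.mp hz with hz | hz
      · exact hW (hI hz)
      · obtain ⟨i, hi, rfl⟩ := mem_supp.mp (hI's hz)
        exact (hU i hi).1) (by
      intro z hz z' hz' hne hadj
      rw [Finset.mem_coe, Finset.mem_union] at hz hz'
      rcases hz with hz | hz
      · rcases hz' with hz' | hz'
        · exact hIi hz hz' hne hadj
        · obtain ⟨i, hi, rfl⟩ := mem_supp.mp (hI's hz')
          exact hcl z (hI hz) _ (hU i hi).1 (hU i hi).2 hadj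
      · rcases hz' with hz' | hz'
        · obtain ⟨i, hi, rfl⟩ := mem_supp.mp (hI's hz)
          exact hcl z' (hI hz') _ (hU i hi).1 (hU i hi).2 hadj.symm
        · exact hI'i hz hz' hne hadj)
    rw [Finset.sum_union hdisj] at h4
    linarith) hthick)
  exact hno (bstr_extend h hx hth0 hW hK)

lemma linked_of {V : Type} [Fintype V] {G : SimpleGraph V} {F A B : Finset V}
    {l r : V → ℝ} {L τ ζ c' D : ℝ} {N N1 j : ℕ} (h : PosWorld G F A B l r L τ ζ N)
    (hN : 2 * N1 ≤ N) {x y th : ℝ} (hx : 0 < x) (hy : y < L) (hth0 : 0 ≤ th) (hth : τ ≤ th)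
    (hpos : 0 < y - x - 2 * th)
    (hD : ∀ I : Finset V, I ⊆ win F l r x y → G.IsIndepSet (I : Set V) →
      ∑ v ∈ I, (r v - l v) ≤ D)
    (hnum : D - (y - x - 2 * th) / 2 ≤ c' * (y - x - 2 * th))
    (hclaim : ∀ (F' A' B' : Finset V) (lam' : V → ℝ) (L' : ℝ),
      World G F' A' B' lam' L' c' N1 → ∃ K, BStr G F' A' j K)
    (hno : ¬ ∃ K, BStr G F A j K) : Linked G F l r x y th := by
  intro u v u' v' hu hv hu' hv' huv huv'
  by_contra hne
  set W := win F l r x y with hWdef
  set C : Finset V := W.filter (fun z => ConnIn G (W : Set V) u z) with hC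
  have hmemC : ∀ z, z ∈ C ↔ ConnIn G (W : Set V) u z := by
    intro z
    rw [hC, Finset.mem_filter]
    exact ⟨fun h => h.2, fun h => ⟨by simpa using h.right_mem, h⟩⟩
  have hclose : ∀ z z', z ∈ (W : Set V) → z' ∈ (W : Set V) → G.Adj z z' → z ∈ C → z' ∈ C := by
    intro z z' hz hz' hadj hzC
    rw [hmemC] at hzC ⊢
    exact hzC.trans (ConnIn.adj hadj hz hz')
  have hclose' : ∀ z z', z ∈ (W : Set V) → z' ∈ (W : Set V) → G.Adj z z' → z ∉ C → z' ∉ C :=
    fun z z' hz hz' hadj hzC hz'C => hzC (hclose z' z hz' hz hadj.symm hz'C)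
  have huC : u ∈ C := (hmemC u).mpr (ConnIn.refl (by simpa using (mem_lftB.mp hu).1))
  have hu'C : u' ∉ C := fun h' => hne ((hmemC u').mp h')
  -- the part `C` is not thick
  have h1 : ∃ S : Finset V, AlphaLE G S N1 ∧
      ¬ Cn G (lft F l r x y th) (rgt F l r x y th) (C \ S) := by
    by_contra hcon
    push Not at hcon
    refine part_thick h hx hth0 hpos hD hnum hclaim hno (W := C) (Finset.filter_subset _ _)
      ?_ hu' hv' ?_ hcon
    · intro z hz z' hz' hz'C hadj
      exact hz'C (hclose z z' (Finset.filter_subset _ _ hz) hz' hadj hz)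
    · exact connIn_stay huv' hu'C hclose'
  have h2 : ∃ S : Finset V, AlphaLE G S N1 ∧
      ¬ Cn G (lft F l r x y th) (rgt F l r x y th) ((W \ C) \ S) := by
    by_contra hcon
    push Not at hcon
    refine part_thick h hx hth0 hpos hD hnum hclaim hno (W := W \ C) Finset.sdiff_subset
      ?_ hu hv ?_ hcon
    · intro z hz z' hz' hz'C hadj
      rw [Finset.mem_sdiff] at hz
      have : z' ∈ C := by
        by_contra h'
        exact hz'C (Finset.mem_sdiff.mpr ⟨hz', h'⟩)
      exact hz.2 (hclose z' z hz' hz.1 hadj.symm this)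
    · refine (connIn_stay huv huC hclose).mono ?_
      rintro z ⟨hz, hz'⟩
      exact ⟨hz, fun h' => (Finset.mem_sdiff.mp h').2 hz'⟩
  obtain ⟨S1, hS1, hS1'⟩ := h1
  obtain ⟨S2, hS2, hS2'⟩ := h2
  obtain ⟨a, ha, b, hb, hab⟩ := win_conn h hx hy hth (by linarith) (S1 ∪ S2) (by
    intro I hI hI'
    exact ((hS1.unionB hS2) I hI hI').trans (by omega))
  rw [← hWdef] at hab
  by_cases haC : a ∈ C
  · apply hS1'
    refine ⟨a, ha, b, hb, (connIn_stay hab haC ?_).mono ?_⟩
    · intro z z' hz hz' hadj hzC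
      simp only [Finset.coe_sdiff, Set.mem_sdiff, Finset.mem_coe] at hz hz'
      exact hclose z z' hz.1 hz'.1 hadj hzC
    · rintro z ⟨hz, hz'⟩
      simp only [Finset.coe_sdiff, Set.mem_sdiff, Finset.mem_coe, Finset.mem_union] at hz ⊢
      exact ⟨hz', fun h' => hz.2 (Or.inl h')⟩
  · apply hS2'
    refine ⟨a, ha, b, hb, (connIn_stay (Q := fun z => z ∉ C) hab haC ?_).mono ?_⟩
    · intro z z' hz hz' hadj hzC
      simp only [Finset.coe_sdiff, Set.mem_sdiff, Finset.mem_coe] at hz hz'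
      exact hclose' z z' hz.1 hz'.1 hadj hzC
    · rintro z ⟨hz, hz'⟩
      simp only [Finset.coe_sdiff, Set.mem_sdiff, Finset.mem_coe, Finset.mem_union] at hz ⊢
      exact ⟨⟨hz.1, hz'⟩, fun h' => hz.2 (Or.inr h')⟩

end Pool.Agent.Work.MP_44e7ab_co
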