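import Mathlib
import Pool.Agent.Work.MP_44e7ab_co.Q1.BDefs
import Pool.Agent.Work.MP_44e7ab_co.Q1.BWin
import Pool.Agent.Work.MP_44e7ab_co.Q1.BClique
import Pool.Agent.Work.MP_44e7ab_co.Q1.Tools
import Pool.Agent.Work.MP_44e7ab_co.Q1.Paths

set_option autoImplicit false

/-! M9d: combinatorial core of the composition. -/

namespace Pool.Agent.Work.MP_44e7ab_co

open Finset Classical

/-- no common vertex and no edge -/
def Anti {V : Type} (G : SimpleGraph V) (S T : Finset V) : Prop :=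
  ∀ u ∈ S, ∀ v ∈ T, u ≠ v ∧ ¬ G.Adj u v

theorem far_lt {V : Type} {G : SimpleGraph V} {F : Finset V} {l r : V → ℝ} (hp : Pos G F l r)
    {u v : V} (hu : u ∈ F) (hv : v ∈ F) (h : r u < l v) : u ≠ v ∧ ¬ G.Adj u v := by
  constructor
  · intro he
    subst he
    have := hp.lt u hu
    linarith
  · intro hadj
    have := hp.adj v hv u hu hadj.symm
    linarith

theorem far_gt {V : Type} {G : SimpleGraph V} {F : Finset V} {l r : V → ℝ} (hp : Pos G F l r)
    {u v : V} (hu : u ∈ F) (hv : v ∈ F) (h : r v < l u) : u ≠ v ∧ ¬ G.Adj u v := by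
  obtain ⟨h1, h2⟩ := far_lt hp hv hu h
  exact ⟨fun h => h1 h.symm, fun h => h2 h.symm⟩

theorem connSet_star {V : Type} {G : SimpleGraph V} {ι : Type} (s : Finset ι)
    (Bs : Finset V) (U : ι → Finset V) (hB : ConnSet G Bs) (hU : ∀ i ∈ s, ConnSet G (U i))
    (ht : ∀ i ∈ s, Touch G Bs (U i)) : ConnSet G (Bs ∪ s.biUnion U) := by
  induction s using Finset.induction_on with
  | empty => simpa using hB
  | insert i s hi ih =>
    have h1 := ih (fun j hj => hU j (Finset.mem_insert_of_mem hj))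
      (fun j hj => ht j (Finset.mem_insert_of_mem hj))
    have h2 : Bs ∪ (insert i s).biUnion U = (Bs ∪ s.biUnion U) ∪ U i := by
      rw [Finset.biUnion_insert]
      ext v
      simp only [Finset.mem_union]
      tauto
    rw [h2]
    apply connSet_union h1 (hU i (Finset.mem_insert_self _ _))
    obtain ⟨u, hu, v, hv, huv⟩ := ht i (Finset.mem_insert_self _ _)
    exact ⟨u, Finset.mem_union_left _ hu, v, hv, huv⟩

def zi : Fin 3 → Fin 11 := ![0, 1, 2]
def gi : Fin 3 → Fin 11 := ![5, 7, 9]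
def mi : Fin 3 → Fin 11 := ![6, 8, 10]

theorem touch_common {V : Type} {G : SimpleGraph V} {S T : Finset V} {u : V} (h1 : u ∈ S)
    (h2 : u ∈ T) : Touch G S T := ⟨u, h1, u, h2, Or.inr rfl⟩

theorem compose_core {V : Type} [Fintype V] {G : SimpleGraph V} {F A : Finset V} {l r : V → ℝ}
    (hp : Pos G F l r) (hA0 : ∀ a ∈ A, a ∈ F → l a = 0) {x : ℕ → ℝ} {w : ℝ} (hw : 0 ≤ w)
    (hx0 : 0 < x 0) (hgap : ∀ k < 7, x k + w < x (k + 1)) {j : ℕ}
    (Pc : Fin 11 → Finset V) (K : Fin 3 → Finset V) (a : Fin 3 → V)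
    (hF : ∀ t, Pc t ⊆ F) (hom : ∀ t, OmLe G (Pc t) 2) (hconn : ∀ t, ConnSet G (Pc t))
    (hrange : ∀ t, ∀ v ∈ Pc t, pcA x t ≤ l v ∧ r v ≤ pcB x w t)
    (hKF : ∀ i : Fin 3, K i ⊆ win F l r (x (3 * (i : ℕ) + 1)) (x (3 * (i : ℕ) + 1) + w))
    (hKc : ∀ i, ConnSet G (K i)) (hK6 : ∀ i, OmLe G (K i) 6) (hKpw : ∀ i, ¬ PWLe G (K i) j)
    (haK : ∀ i, a i ∈ K i) (hZ : ∀ i, Anti G (K i) (Pc (zi i)))
    (haG : ∀ i, a i ∈ Pc (gi i))
    (hG : ∀ i, ∀ u ∈ K i, u ≠ a i → ∀ z ∈ Pc (gi i), z ≠ a i → u ≠ z ∧ ¬ G.Adj u z)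
    (t03 : ∃ v, v ∈ Pc 0 ∧ v ∈ Pc 3) (t31 : ∃ v, v ∈ Pc 3 ∧ v ∈ Pc 1)
    (t14 : ∃ v, v ∈ Pc 1 ∧ v ∈ Pc 4) (t42 : ∃ v, v ∈ Pc 4 ∧ v ∈ Pc 2)
    (tz : ∀ i, ∃ v, v ∈ Pc (zi i) ∧ v ∈ Pc (mi i))
    (tm : ∀ i, ∃ v, v ∈ Pc (mi i) ∧ v ∈ Pc (gi i))
    {z0 : V} (hz0 : z0 ∈ Pc 0) (hz0A : z0 ∈ A) (hA : ∀ v ∈ Pc 0, v ∈ A → v = z0) :
    ∃ W, BStr G F A (j + 1) W := by
  have g0 := hgap 0 (by norm_num)
  have g1 := hgap 1 (by norm_num)
  have g2 := hgap 2 (by norm_num)
  have g3 := hgap 3 (by norm_num)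
  have g4 := hgap 4 (by norm_num)
  have g5 := hgap 5 (by norm_num)
  have g6 := hgap 6 (by norm_num)
  norm_num at g0 g1 g2 g3 g4 g5 g6
  -- ranges
  have hrg : ∀ (i : Fin 3) (t : Fin 11), t ≠ zi i → t ≠ gi i →
      pcB x w t < x (3 * (i : ℕ) + 1) ∨ x (3 * (i : ℕ) + 1) + w < pcA x t := by
    intro i t h1 h2
    fin_cases i <;> fin_cases t <;> simp [pcA, pcB, zi, gi] at h1 h2 ⊢ <;>
      first
      | (left; linarith)
      | (right; linarith)
  have f1 : ∀ (i : Fin 3) (t : Fin 11), t ≠ zi i → t ≠ gi i → Anti G (K i) (Pc t) := by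
    intro i t h1 h2 u hu v hv
    have hu' := mem_winB.mp (hKF i hu)
    have hv' := hrange t v hv
    rcases hrg i t h1 h2 with h3 | h3
    · exact far_gt hp hu'.1 (hF t hv) (by linarith)
    · exact far_lt hp hu'.1 (hF t hv) (by linarith)
  have f2 : ∀ i i' : Fin 3, i ≠ i' → Anti G (K i) (K i') := by
    intro i i' hii u hu v hv
    have hu' := mem_winB.mp (hKF i hu)
    have hv' := mem_winB.mp (hKF i' hv)
    have h3 : x (3 * (i : ℕ) + 1) + w < x (3 * (i' : ℕ) + 1) ∨
        x (3 * (i' : ℕ) + 1) + w < x (3 * (i : ℕ) + 1) := by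
      fin_cases i <;> fin_cases i' <;> simp at hii ⊢ <;>
        first
        | (left; linarith)
        | (right; linarith)
    rcases h3 with h3 | h3
    · exact far_lt hp hu'.1 hv'.1 (by linarith)
    · exact far_gt hp hu'.1 hv'.1 (by linarith)
  have f3 : ∀ (i : Fin 3) (t : Fin 11), t ≠ gi i → Anti G (K i) (Pc t) := by
    intro i t h2
    by_cases h1 : t = zi i
    · rw [h1]; exact hZ i
    · exact f1 i t h1 h2
  set U : Fin 3 → Finset V := fun i => K i ∪ (Pc (gi i) ∪ Pc (mi i)) with hU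
  set Bs : Finset V := Pc 0 ∪ (Pc 3 ∪ (Pc 1 ∪ (Pc 4 ∪ Pc 2))) with hBs
  have mB : ∀ v ∈ Bs, ∃ t, v ∈ Pc t ∧ ∀ i, t ≠ gi i := by
    intro v hv
    rw [hBs] at hv
    simp only [Finset.mem_union] at hv
    rcases hv with hv | hv | hv | hv | hv
    · exact ⟨0, hv, by decide⟩
    · exact ⟨3, hv, by decide⟩
    · exact ⟨1, hv, by decide⟩
    · exact ⟨4, hv, by decide⟩
    · exact ⟨2, hv, by decide⟩
  have mU : ∀ i, ∀ v ∈ U i, v ∈ K i ∨ v ∈ Pc (gi i) ∨ v ∈ Pc (mi i) := by
    intro i v hv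
    rw [hU] at hv
    simpa only [Finset.mem_union] using hv
  have hgg : ∀ i i' : Fin 3, i ≠ i' → gi i' ≠ gi i := by decide
  have hmg : ∀ i i' : Fin 3, mi i' ≠ gi i := by decide
  -- nothing of the rest touches `K i`
  have antiB : ∀ i, Anti G (K i) Bs := by
    intro i u hu v hv
    obtain ⟨t, ht, htg⟩ := mB v hv
    exact f3 i t (htg i) u hu v ht
  have antiU : ∀ i i', i ≠ i' → Anti G (K i) (U i') := by
    intro i i' hii u hu v hv
    rcases mU i' v hv with h1 | h1 | h1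
    · exact f2 i i' hii u hu v h1
    · exact f3 i _ (hgg i i' hii) u hu v h1
    · exact f3 i _ (hmg i i') u hu v h1
  -- connectivity
  have cB : ConnSet G Bs := by
    have h42 : ConnSet G (Pc 4 ∪ Pc 2) := by
      obtain ⟨v, h1, h2⟩ := t42
      exact connSet_union (hconn 4) (hconn 2) (touch_common h1 h2)
    have h142 : ConnSet G (Pc 1 ∪ (Pc 4 ∪ Pc 2)) := by
      obtain ⟨v, h1, h2⟩ := t14
      exact connSet_union (hconn 1) h42 (touch_common h1 (Finset.mem_union_left _ h2))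
    have h3142 : ConnSet G (Pc 3 ∪ (Pc 1 ∪ (Pc 4 ∪ Pc 2))) := by
      obtain ⟨v, h1, h2⟩ := t31
      exact connSet_union (hconn 3) h142 (touch_common h1 (Finset.mem_union_left _ h2))
    obtain ⟨v, h1, h2⟩ := t03
    exact connSet_union (hconn 0) h3142 (touch_common h1 (Finset.mem_union_left _ h2))
  have cU : ∀ i, ConnSet G (U i) := by
    intro i
    have h1 : ConnSet G (Pc (gi i) ∪ Pc (mi i)) := by
      obtain ⟨v, h1, h2⟩ := tm i
      exact connSet_union (hconn _) (hconn _) (touch_common h2 h1)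
    exact connSet_union (hKc i) h1 (touch_common (haK i) (Finset.mem_union_left _ (haG i)))
  have tU : ∀ i, Touch G Bs (U i) := by
    intro i
    obtain ⟨v, h1, h2⟩ := tz i
    refine touch_common (u := v) ?_ ?_
    · rw [hBs]
      simp only [Finset.mem_union]
      fin_cases i <;> simp [zi] at h1 <;> tauto
    · exact Finset.mem_union_right _ (Finset.mem_union_right _ h2)
  set W : Finset V := Bs ∪ (univ : Finset (Fin 3)).biUnion U with hWdef
  have mW : ∀ v ∈ W, v ∈ Bs ∨ ∃ i, v ∈ U i := by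
    intro v hv
    rw [hWdef, Finset.mem_union, Finset.mem_biUnion] at hv
    rcases hv with hv | ⟨i, _, hv⟩
    · exact Or.inl hv
    · exact Or.inr ⟨i, hv⟩
  have UW : ∀ i, U i ⊆ W := by
    intro i v hv
    rw [hWdef, Finset.mem_union, Finset.mem_biUnion]
    exact Or.inr ⟨i, Finset.mem_univ i, hv⟩
  have KU : ∀ i, K i ⊆ U i := fun i => Finset.subset_union_left
  have mPK : ∀ v ∈ W, (∃ t, v ∈ Pc t) ∨ ∃ i, v ∈ K i := by
    intro v hv
    rcases mW v hv with h1 | ⟨i, h1⟩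
    · obtain ⟨t, ht, _⟩ := mB v h1
      exact Or.inl ⟨t, ht⟩
    · rcases mU i v h1 with h1 | h1 | h1
      · exact Or.inr ⟨i, h1⟩
      · exact Or.inl ⟨_, h1⟩
      · exact Or.inl ⟨_, h1⟩
  have omW : OmLe G W 6 := by
    apply omLe_of_pieces hp Pc (pcA x) (pcB x w) hF hom hrange
      (fun z => ranges_le_three hw hgap z) K hK6 W mPK
    intro i u hu
    by_cases hua : u = a i
    · left
      exact ⟨gi i, by rw [hua]; exact haG i⟩
    · right
      intro v hv huv
      rcases mW v hv with h1 | ⟨i', h1⟩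
      · exact absurd huv (antiB i u hu v h1).2
      · by_cases hii : i = i'
        · subst hii
          rcases mU i v h1 with h1 | h1 | h1
          · exact h1
          · by_cases hva : v = a i
            · rw [hva]; exact haK i
            · exact absurd huv (hG i u hu hua v h1 hva).2
          · exact absurd huv (f3 i _ (hmg i i) u hu v h1).2
        · exact absurd huv (antiU i i' hii u hu v h1).2
  have pwW : ¬ PWLe G W (j + 1) := by
    apply pw_three K (fun i => Bs ∪ ((univ : Finset (Fin 3)).erase i).biUnion U)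
      (fun i => (KU i).trans (UW i))
    · intro i
      apply Finset.union_subset_union (Finset.Subset.refl _)
      exact Finset.biUnion_subset_biUnion_of_subset_left _ (Finset.erase_subset _ _)
    · intro i
      exact connSet_star _ Bs U cB (fun i _ => cU i) (fun i _ => tU i)
    · exact hKpw
    · intro i i' hii
      rw [Finset.disjoint_left]
      intro v hv hv'
      exact (f2 i i' hii v hv v hv').1 rfl
    · intro i
      rw [Finset.disjoint_left]
      intro v hv hv'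
      rw [Finset.mem_union, Finset.mem_biUnion] at hv
      rcases hv with hv | ⟨i', hi', hv⟩
      · exact (antiB i v hv' v hv).1 rfl
      · exact (antiU i i' (Finset.ne_of_mem_erase hi').symm v hv' v hv).1 rfl
    · intro i i' hii v hv
      show v ∈ Bs ∪ ((univ : Finset (Fin 3)).erase i).biUnion U
      rw [Finset.mem_union, Finset.mem_biUnion]
      exact Or.inr ⟨i', Finset.mem_erase.mpr ⟨hii.symm, Finset.mem_univ _⟩, KU i' hv⟩
  refine ⟨W, ?_, connSet_star _ Bs U cB (fun i _ => cU i) (fun i _ => tU i), omW, pwW, z0, ?_,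
    hz0A, ?_⟩
  · intro v hv
    rcases mPK v hv with ⟨t, ht⟩ | ⟨i, hi⟩
    · exact hF t ht
    · exact (mem_winB.mp (hKF i hi)).1
  · rw [hWdef, Finset.mem_union]
    left
    rw [hBs, Finset.mem_union]
    exact Or.inl hz0
  · intro v hv hvA
    have hlA : v ∈ F → l v = 0 := hA0 v hvA
    rcases mPK v hv with ⟨t, ht⟩ | ⟨i, hi⟩
    · by_cases ht0 : t = 0
      · subst ht0
        exact hA v ht hvA
      · exfalso
        have h1 := (hrange t v ht).1
        have h2 := hlA (hF t ht)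
        have h3 : 0 < pcA x t := by
          fin_cases t <;> simp [pcA] at ht0 ⊢ <;> linarith
        linarith
    · exfalso
      have h1 := mem_winB.mp (hKF i hi)
      have h2 := hlA h1.1
      have h3 : 0 < x (3 * (i : ℕ) + 1) := by
        fin_cases i <;> simp <;> linarith
      linarith [h1.2.1]

end Pool.Agent.Work.MP_44e7ab_co
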