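import Mathlib
import Pool.Agent.Work.MP_44e7ab_co.Q1.BDefs
import Pool.Agent.Work.MP_44e7ab_co.Q1.Paths

set_option autoImplicit false

/-! M9d: the part of a tiled path inside a window. -/

namespace Pool.Agent.Work.MP_44e7ab_co

open Finset Classical

/-- consecutive tiles of a tiled path: `r (p i) ≤ l (p j)` for `i < j` -/
theorem tpath_lt {V : Type} {G : SimpleGraph V} {F : Finset V} {l r : V → ℝ}
    (hp : Pos G F l r) {p : ℕ → V} {m : ℕ} (h : TPath G F l r p m) (i : ℕ) :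
    ∀ j, i < j → j ≤ m → r (p i) ≤ l (p j) := by
  intro j
  induction j with
  | zero => intro h1; omega
  | succ j ih =>
    intro h1 h2
    rcases Nat.lt_or_ge i j with h3 | h3
    · have h4 := ih h3 (by omega)
      have h5 := hp.lt (p j) (h.2.1 j (by omega))
      have h6 := h.2.2 j (by omega)
      linarith
    · have : i = j := by omega
      subst this
      exact (h.2.2 i (by omega)).le

theorem tpath_mono {V : Type} {G : SimpleGraph V} {F : Finset V} {l r : V → ℝ}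
    (hp : Pos G F l r) {p : ℕ → V} {m : ℕ} (h : TPath G F l r p m) {i j : ℕ} (hij : i ≤ j)
    (hj : j ≤ m) : l (p i) ≤ l (p j) ∧ r (p i) ≤ r (p j) := by
  rcases Nat.eq_or_lt_of_le hij with h1 | h1
  · rw [h1]; exact ⟨le_rfl, le_rfl⟩
  · have h2 := tpath_lt hp h i j h1 hj
    have h3 := hp.lt (p i) (h.2.1 i (by omega))
    have h4 := hp.lt (p j) (h.2.1 j hj)
    constructor <;> linarith

/-- the part of a tiled path crossing a window -/
theorem cross_seg {V : Type} {G : SimpleGraph V} {F A B : Finset V} {l r : V → ℝ} {L τ ζ : ℝ}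
    {N : ℕ} (h : PosWorld G F A B l r L τ ζ N) {p : ℕ → V} {m : ℕ} (hp : TPath G F l r p m)
    (h0 : p 0 ∈ A) {x y th : ℝ} (hth : τ ≤ th) (hxy : 4 * th < y - x) (hx : 0 < x)
    (hend : y < r (p m)) :
    ∃ i1 i2 : ℕ, i1 ≤ i2 ∧ i2 < m ∧ p i1 ∈ lft F l r x y th ∧ p i2 ∈ rgt F l r x y th ∧
      (∀ i, i1 ≤ i → i ≤ i2 → p i ∈ win F l r x y) ∧
      (∀ i, i < i1 → l (p i) < x) ∧ (∀ i ≤ m, i1 ≤ i → x ≤ l (p i)) ∧
      (∀ i, i ≤ i2 → r (p i) ≤ y) ∧ (∀ i ≤ m, i2 < i → y < r (p i)) := by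
  have hpos := h.pos
  have hτ0 : 0 < τ := by
    have h1 := hpos.lt (p m) (hp.2.1 m le_rfl)
    have h2 := h.tlen (p m) (hp.2.1 m le_rfl)
    linarith
  have hl0 : l (p 0) = 0 := h.startA (p 0) h0 (hp.2.1 0 (Nat.zero_le _))
  have hlast : x ≤ l (p m) := by
    have := h.tlen (p m) (hp.2.1 m le_rfl)
    linarith
  have hex1 : ∃ i, x ≤ l (p i) := ⟨m, hlast⟩
  have hex2 : ∃ i, y < r (p i) := ⟨m, hend⟩
  set i1 := Nat.find hex1 with hi1
  set j := Nat.find hex2 with hj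
  have h1 : x ≤ l (p i1) := Nat.find_spec hex1
  have h1' : ∀ i < i1, l (p i) < x := fun i hi => not_le.mp (Nat.find_min hex1 hi)
  have h2 : y < r (p j) := Nat.find_spec hex2
  have h2' : ∀ i < j, r (p i) ≤ y := fun i hi => not_lt.mp (Nat.find_min hex2 hi)
  have hi1m : i1 ≤ m := Nat.find_min' hex1 hlast
  have hjm : j ≤ m := Nat.find_min' hex2 hend
  have hi10 : 0 < i1 := by
    by_contra hcon
    have : i1 = 0 := by omega
    rw [this] at h1
    linarith
  have hl1 : l (p i1) ≤ x + th := by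
    obtain ⟨k, hk⟩ : ∃ k, i1 = k + 1 := ⟨i1 - 1, by omega⟩
    have h3 := hp.2.2 k (by omega)
    have h4 := h.tlen (p k) (hp.2.1 k (by omega))
    have h5 := h1' k (by omega)
    rw [hk, ← h3]
    linarith
  have hr1 : r (p i1) ≤ y := by
    have := h.tlen (p i1) (hp.2.1 i1 hi1m)
    linarith
  have hi1j : i1 < j := by
    by_contra hcon
    push Not at hcon
    have := (tpath_mono hpos hp hcon hi1m).2
    linarith
  obtain ⟨i2, hi2⟩ : ∃ i2, j = i2 + 1 := ⟨j - 1, by omega⟩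
  have hr2 : y - th ≤ r (p i2) := by
    have h3 := hp.2.2 i2 (by omega)
    have h4 := h.tlen (p j) (hp.2.1 j hjm)
    rw [h3, ← hi2]
    linarith
  have hin : ∀ i, i1 ≤ i → i ≤ i2 → p i ∈ win F l r x y := by
    intro i hi hi'
    rw [win, Finset.mem_filter]
    refine ⟨hp.2.1 i (by omega), ?_, ?_⟩
    · exact h1.trans (tpath_mono hpos hp hi (by omega)).1
    · exact h2' i (by omega)
  refine ⟨i1, i2, by omega, by omega, ?_, ?_, hin, h1', ?_, ?_, ?_⟩
  · rw [lft, Finset.mem_filter]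
    exact ⟨hin i1 le_rfl (by omega), hl1⟩
  · rw [rgt, Finset.mem_filter]
    exact ⟨hin i2 (by omega) le_rfl, by linarith⟩
  · intro i him hi
    exact h1.trans (tpath_mono hpos hp hi him).1
  · intro i hi
    exact h2' i (by omega)
  · intro i him hi
    have := (tpath_mono hpos hp (show j ≤ i by omega) him).2
    linarith

/-- the first vertex of a tiled path inside a window is connected to the right end of the
window -/
theorem seg_conn {V : Type} {G : SimpleGraph V} {F A B : Finset V} {l r : V → ℝ} {L τ ζ : ℝ}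
    {N : ℕ} (h : PosWorld G F A B l r L τ ζ N) {p : ℕ → V} {m : ℕ} (hp : TPath G F l r p m)
    (h0 : p 0 ∈ A) {x y th : ℝ} (hth : τ ≤ th) (hxy : 4 * th < y - x) (hx : 0 < x)
    (hend : y < r (p m)) {i : ℕ} (hi : i ≤ m) (hpi : p i ∈ lft F l r x y th) :
    ∃ v ∈ rgt F l r x y th, ConnIn G (win F l r x y : Set V) (p i) v := by
  obtain ⟨i1, i2, h12, h2m, hl1, hr2, hin, hlt, hge, hle, hgt⟩ :=
    cross_seg h hp h0 hth hxy hx hend
  have hpi' := hpi
  rw [lft, Finset.mem_filter, win, Finset.mem_filter] at hpi'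
  obtain ⟨⟨hFi, hxi, hyi⟩, hli⟩ := hpi'
  have hr2' := hr2
  rw [rgt, Finset.mem_filter] at hr2'
  have hlen := h.tlen (p i) hFi
  have hτ0 : 0 < τ := by
    have h1 := h.pos.lt (p i) hFi
    linarith
  have hi2 : i ≤ i2 := by
    by_contra hcon
    push Not at hcon
    have := (tpath_mono h.pos hp hcon.le hi).2
    linarith [hr2'.2]
  have hi1 : i1 ≤ i := by
    by_contra hcon
    push Not at hcon
    have := hlt i hcon
    linarith
  refine ⟨p i2, hr2, connIn_seg hi2 (fun k hk hk' => hp.1.adj (by omega)) ?_⟩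
  intro k hk hk'
  exact Finset.mem_coe.mpr (hin k (by omega) hk')

/-- two tiled paths entering a linked window are linked inside it by an induced path -/
theorem link_seg {V : Type} {G : SimpleGraph V} {F A B : Finset V} {l r : V → ℝ} {L τ ζ : ℝ}
    {N : ℕ} (h : PosWorld G F A B l r L τ ζ N) {x y th : ℝ} (hth : τ ≤ th)
    (hxy : 4 * th < y - x) (hx : 0 < x) (hlink : Linked G F l r x y th) {p : ℕ → V} {m : ℕ}
    (hp : TPath G F l r p m) (h0 : p 0 ∈ A) {q : ℕ → V} {k : ℕ} (hq : TPath G F l r q k)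
    (h0' : q 0 ∈ A) (hend : y < r (p m)) (hend' : y < r (q k)) {i j : ℕ} (hi : i ≤ m)
    (hpi : p i ∈ lft F l r x y th) (_hfi : ∀ i' ≤ m, i ≤ i' → x ≤ l (p i')) (hj : j ≤ k)
    (hqj : q j ∈ lft F l r x y th) (_hfj : ∀ j' ≤ k, j ≤ j' → x ≤ l (q j')) :
    ∃ M : Finset V, M ⊆ win F l r x y ∧ ConnSet G M ∧ OmLe G M 2 ∧ p i ∈ M ∧ q j ∈ M := by
  obtain ⟨v, hv, hcv⟩ := seg_conn h hp h0 hth hxy hx hend hi hpi
  obtain ⟨w, hw, hcw⟩ := seg_conn h hq h0' hth hxy hx hend' hj hqj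
  have hc := hlink (p i) v (q j) w hpi hv hqj hw hcv hcw
  obtain ⟨s, n, hs, hs0, hsn, hsU⟩ := exists_indPath hc
  refine ⟨supp s n, ?_, hs.connSet, hs.omLe, ?_, ?_⟩
  · intro z hz
    obtain ⟨t, ht, rfl⟩ := mem_supp.mp hz
    exact Finset.mem_coe.mp (hsU t ht)
  · exact mem_supp.mpr ⟨0, Nat.zero_le _, hs0⟩
  · exact mem_supp.mpr ⟨n, le_rfl, hsn⟩

end Pool.Agent.Work.MP_44e7ab_co
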