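import Mathlib
import Pool.Agent.Work.MP_44e7ab_co.Q1.BDefs
import Pool.Agent.Work.MP_44e7ab_co.Q1.BWin
import Pool.Agent.Work.MP_44e7ab_co.Q1.BCore
import Pool.Agent.Work.MP_44e7ab_co.Q1.BCrossPath

set_option autoImplicit false

/-! M9d: composition of three gadgets. -/

namespace Pool.Agent.Work.MP_44e7ab_co

open Finset Classical

/-- segment of a path -/
noncomputable def sg {V : Type} (p : ℕ → V) (i j : ℕ) : Finset V := (Finset.Icc i j).image p

theorem mem_sg {V : Type} {p : ℕ → V} {i j : ℕ} {v : V} :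
    v ∈ sg p i j ↔ ∃ n, i ≤ n ∧ n ≤ j ∧ p n = v := by
  simp only [sg, Finset.mem_image, Finset.mem_Icc, and_assoc]

theorem sg_F {V : Type} {G : SimpleGraph V} {F : Finset V} {l r : V → ℝ} {p : ℕ → V} {m : ℕ}
    (h : TPath G F l r p m) {i j : ℕ} (hj : j ≤ m) : sg p i j ⊆ F := by
  intro v hv
  obtain ⟨n, _, h2, rfl⟩ := mem_sg.mp hv
  exact h.2.1 n (by omega)

theorem sg_om {V : Type} {G : SimpleGraph V} {F : Finset V} {l r : V → ℝ} {p : ℕ → V} {m : ℕ}
    (h : TPath G F l r p m) {i j : ℕ} (hj : j ≤ m) : OmLe G (sg p i j) 2 := by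
  intro C hC
  apply h.1.omLe C
  intro v hv
  obtain ⟨n, _, h2, rfl⟩ := mem_sg.mp (hC hv)
  exact mem_supp.mpr ⟨n, by omega, rfl⟩

theorem sg_conn {V : Type} {G : SimpleGraph V} {F : Finset V} {l r : V → ℝ} {p : ℕ → V} {m : ℕ}
    (h : TPath G F l r p m) {i j : ℕ} (hj : j ≤ m) : ConnSet G (sg p i j) :=
  connSet_seg (fun _ _ h2 => h.1.adj (by omega))

theorem compose {V : Type} [Fintype V] {G : SimpleGraph V} {F A B : Finset V} {l r : V → ℝ}
    {L τ ζ w th : ℝ} {N j : ℕ} (h : PosWorld G F A B l r L τ ζ N) (hth : τ ≤ th)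
    (hw : 4 * th < w) {x : ℕ → ℝ} (hx0 : 0 < x 0)
    (hgap : ∀ k < 7, x k + w + 2 * τ < x (k + 1)) (hxL : x 7 + w < L)
    (hlink : ∀ k < 8, Linked G F l r (x k) (x k + w) th)
    (hgad : ∀ i < 3, ∃ K a p m q k, Gadget G F A l r L j (x (3 * i + 1)) (x (3 * i + 1) + w)
      K a p m q k) :
    ∃ K : Finset V, BStr G F A (j + 1) K := by
  have hg' : ∀ i : Fin 3, ∃ K a p m q k, Gadget G F A l r L j (x (3 * (i : ℕ) + 1))
      (x (3 * (i : ℕ) + 1) + w) K a p m q k := fun i => hgad i i.2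
  choose K a p m q k hg using hg'
  have hp := h.pos
  -- sizes
  have hτ : 0 < τ := by
    have h1 := (mem_winB.mp ((hg 0).KF (hg 0).aK)).1
    have h2 := h.zlen _ h1
    have h3 := h.tlen _ h1
    have h4 := h.zpos
    linarith
  have hw0 : 0 ≤ w := by linarith
  have hgap' : ∀ k < 7, x k + w < x (k + 1) := by
    intro c hc
    have := hgap c hc
    linarith
  have g0 := hgap' 0 (by norm_num)
  have g1 := hgap' 1 (by norm_num)
  have g2 := hgap' 2 (by norm_num)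
  have g3 := hgap' 3 (by norm_num)
  have g4 := hgap' 4 (by norm_num)
  have g5 := hgap' 5 (by norm_num)
  have g6 := hgap' 6 (by norm_num)
  norm_num at g0 g1 g2 g3 g4 g5 g6
  have hxm : ∀ c < 8, ∀ c' < 8, c < c' → x c + w < x c' := by
    intro c hc c' hc' hcc
    interval_cases c <;> interval_cases c' <;> first | omega | linarith
  have hxp : ∀ c < 8, 0 < x c := by
    intro c hc
    interval_cases c <;> linarith
  have hxe : ∀ c < 8, x c + w < L := by
    intro c hc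
    interval_cases c <;> linarith
  -- crossings of the long paths
  have hcr : ∀ (i : Fin 3) (c : ℕ), c < 8 → ∃ i1 i2 : ℕ, i1 ≤ i2 ∧ i2 < m i ∧
      p i i1 ∈ lft F l r (x c) (x c + w) th ∧ p i i2 ∈ rgt F l r (x c) (x c + w) th ∧
      (∀ n, i1 ≤ n → n ≤ i2 → p i n ∈ win F l r (x c) (x c + w)) ∧
      (∀ n, n < i1 → l (p i n) < x c) ∧ (∀ n ≤ m i, i1 ≤ n → x c ≤ l (p i n)) ∧
      (∀ n, n ≤ i2 → r (p i n) ≤ x c + w) ∧ (∀ n ≤ m i, i2 < n → x c + w < r (p i n)) := by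
    intro i c hc
    refine cross_seg h (hg i).tp (hg i).p0 hth (by linarith) (hxp c hc) ?_
    have := (hg i).pL
    have := hxe c hc
    linarith
  choose! s e hs using hcr
  -- crossings of the short paths
  have hak : ∀ i : Fin 3, q i (k i) = a i := fun i => (hg i).qa
  have haF : ∀ i : Fin 3, a i ∈ F ∧ x (3 * (i : ℕ) + 1) ≤ l (a i) ∧
      r (a i) ≤ x (3 * (i : ℕ) + 1) + w := fun i => mem_winB.mp ((hg i).KF (hg i).aK)
  have h3i : ∀ i : Fin 3, x (3 * (i : ℕ)) + w < r (q i (k i)) := by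
    intro i
    have h1 := haF i
    have h2 := hp.lt _ h1.1
    have h3 := hxm (3 * (i : ℕ)) (by omega) (3 * (i : ℕ) + 1) (by omega) (by omega)
    rw [hak i]
    linarith
  have hcq : ∀ i : Fin 3, ∃ i1 i2 : ℕ, i1 ≤ i2 ∧ i2 < k i ∧
      q i i1 ∈ lft F l r (x (3 * (i : ℕ))) (x (3 * (i : ℕ)) + w) th ∧
      q i i2 ∈ rgt F l r (x (3 * (i : ℕ))) (x (3 * (i : ℕ)) + w) th ∧
      (∀ n, i1 ≤ n → n ≤ i2 → q i n ∈ win F l r (x (3 * (i : ℕ))) (x (3 * (i : ℕ)) + w)) ∧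
      (∀ n, n < i1 → l (q i n) < x (3 * (i : ℕ))) ∧
      (∀ n ≤ k i, i1 ≤ n → x (3 * (i : ℕ)) ≤ l (q i n)) ∧
      (∀ n, n ≤ i2 → r (q i n) ≤ x (3 * (i : ℕ)) + w) ∧
      (∀ n ≤ k i, i2 < n → x (3 * (i : ℕ)) + w < r (q i n)) := by
    intro i
    exact cross_seg h (hg i).tq (hg i).q0 hth (by linarith) (hxp _ (by omega)) (h3i i)
  choose u u' hu using hcq
  -- order of the crossings
  have hse : ∀ i : Fin 3, ∀ c < 8, ∀ c' < 8, c ≤ c' → s i c ≤ e i c' := by
    intro i c hc c' hc' hcc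
    by_contra hcon
    push Not at hcon
    obtain ⟨h1, h2, h3, _, _, _, _, h8, _⟩ := hs i c hc
    obtain ⟨_, _, _, _, _, _, _, _, h9⟩ := hs i c' hc'
    have h10 := h9 (s i c) (by omega) hcon
    have h11 := h8 (s i c) h1
    rcases Nat.lt_or_ge c c' with h12 | h12
    · have := hxm c hc c' hc' h12
      linarith
    · have : c = c' := by omega
      subst this
      linarith
  have hss : ∀ i : Fin 3, ∀ c < 8, ∀ c' < 8, c ≤ c' → s i c ≤ s i c' := by
    intro i c hc c' hc' hcc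
    by_contra hcon
    push Not at hcon
    obtain ⟨_, _, _, _, _, h6, _, _, _⟩ := hs i c hc
    obtain ⟨h1, h2, _, _, _, _, h7, _, _⟩ := hs i c' hc'
    have h10 := h6 _ hcon
    have h11 := h7 (s i c') (by omega) le_rfl
    rcases Nat.lt_or_ge c c' with h12 | h12
    · have := hxm c hc c' hc' h12
      linarith
    · have : c = c' := by omega
      subst this
      omega
  -- links between the long paths
  have hlnk : ∀ i i' : Fin 3, ∀ c < 8, ∃ M : Finset V, M ⊆ win F l r (x c) (x c + w) ∧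
      ConnSet G M ∧ OmLe G M 2 ∧ p i (s i c) ∈ M ∧ p i' (s i' c) ∈ M := by
    intro i i' c hc
    obtain ⟨h1, h2, h3, _, _, _, h7, _, _⟩ := hs i c hc
    obtain ⟨h1', h2', h3', _, _, _, h7', _, _⟩ := hs i' c hc
    have hL := hxe c hc
    have hLi : x c + w < r (p i (m i)) := by have := (hg i).pL; linarith
    have hLi' : x c + w < r (p i' (m i')) := by have := (hg i').pL; linarith
    exact link_seg h hth (by linarith) (hxp c hc) (hlink c hc) (hg i).tp (hg i).p0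
      (hg i').tp (hg i').p0 hLi hLi' (by omega) h3 h7 (by omega) h3' h7'
  obtain ⟨M12, hM12, hM12c, hM12o, hM12a, hM12b⟩ := hlnk 0 1 2 (by norm_num)
  obtain ⟨M23, hM23, hM23c, hM23o, hM23a, hM23b⟩ := hlnk 1 2 5 (by norm_num)
  have hlnq : ∀ i : Fin 3, ∃ M : Finset V,
      M ⊆ win F l r (x (3 * (i : ℕ))) (x (3 * (i : ℕ)) + w) ∧
      ConnSet G M ∧ OmLe G M 2 ∧ p i (s i (3 * (i : ℕ))) ∈ M ∧ q i (u i) ∈ M := by
    intro i
    have hc : 3 * (i : ℕ) < 8 := by omega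
    obtain ⟨h1, h2, h3, _, _, _, h7, _, _⟩ := hs i _ hc
    obtain ⟨h1', h2', h3', _, _, _, h7', _, _⟩ := hu i
    have hL := hxe _ hc
    have hLi : x (3 * (i : ℕ)) + w < r (p i (m i)) := by have := (hg i).pL; linarith
    exact link_seg h hth (by linarith) (hxp _ hc) (hlink _ hc) (hg i).tp (hg i).p0
      (hg i).tq (hg i).q0 hLi (h3i i) (by omega) h3 h7 (by omega) h3' h7'
  choose M hM hMc hMo hMa hMb using hlnq
  -- the bounds used below
  have em : ∀ i : Fin 3, ∀ c < 8, e i c ≤ m i := by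
    intro i c hc
    obtain ⟨_, h2, _⟩ := hs i c hc
    omega
  have uk : ∀ i : Fin 3, u i ≤ k i := by
    intro i
    obtain ⟨h1, h2, _⟩ := hu i
    omega
  have hqr : ∀ (i : Fin 3), ∀ v ∈ sg (q i) (u i) (k i),
      x (3 * (i : ℕ)) ≤ l v ∧ r v ≤ x (3 * (i : ℕ) + 1) + w := by
    intro i v hv
    obtain ⟨n, h1, h2, rfl⟩ := mem_sg.mp hv
    obtain ⟨_, _, _, _, _, _, h7, _, _⟩ := hu i
    refine ⟨h7 n h2 h1, ?_⟩
    have h3 := haF i
    rcases Nat.lt_or_ge n (k i) with h4 | h4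
    · have h5 := TPath.le (hg i).tq hp h4 le_rfl
      have h6 := hp.lt _ h3.1
      rw [hak i] at h5
      linarith
    · have : n = k i := by omega
      rw [this, hak i]
      exact h3.2.2
  set Pc : Fin 11 → Finset V := ![sg (p 0) 0 (e 0 2), sg (p 1) (s 1 2) (e 1 5),
    sg (p 2) (s 2 5) (e 2 6), M12, M23, sg (q 0) (u 0) (k 0), M 0, sg (q 1) (u 1) (k 1), M 1,
    sg (q 2) (u 2) (k 2), M 2] with hPc
  have hMr : ∀ (c : ℕ) (S : Finset V), S ⊆ win F l r (x c) (x c + w) → ∀ v ∈ S,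
      x c ≤ l v ∧ r v ≤ x c + w := fun c S hS v hv => (mem_winB.mp (hS hv)).2
  have hMF : ∀ (c : ℕ) (S : Finset V), S ⊆ win F l r (x c) (x c + w) → S ⊆ F :=
    fun c S hS v hv => (mem_winB.mp (hS hv)).1
  refine compose_core hp h.startA hw0 hx0 hgap' Pc K a (z0 := p 0 0) ?_ ?_ ?_ ?_
    (fun i => (hg i).KF) (fun i => (hg i).conn) (fun i => (hg i).om) (fun i => (hg i).rk)
    (fun i => (hg i).aK) ?_ ?_ ?_ ?_ ?_ ?_ ?_ ?_ ?_ ?_ (hg 0).p0 ?_
  · -- hF
    intro t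
    fin_cases t
    · exact sg_F (hg 0).tp (em 0 2 (by norm_num))
    · exact sg_F (hg 1).tp (em 1 5 (by norm_num))
    · exact sg_F (hg 2).tp (em 2 6 (by norm_num))
    · exact hMF 2 _ hM12
    · exact hMF 5 _ hM23
    · exact sg_F (hg 0).tq le_rfl
    · exact hMF _ _ (hM 0)
    · exact sg_F (hg 1).tq le_rfl
    · exact hMF _ _ (hM 1)
    · exact sg_F (hg 2).tq le_rfl
    · exact hMF _ _ (hM 2)
  · -- hom
    intro t
    fin_cases t
    · exact sg_om (hg 0).tp (em 0 2 (by norm_num))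
    · exact sg_om (hg 1).tp (em 1 5 (by norm_num))
    · exact sg_om (hg 2).tp (em 2 6 (by norm_num))
    · exact hM12o
    · exact hM23o
    · exact sg_om (hg 0).tq le_rfl
    · exact hMo 0
    · exact sg_om (hg 1).tq le_rfl
    · exact hMo 1
    · exact sg_om (hg 2).tq le_rfl
    · exact hMo 2
  · -- hconn
    intro t
    fin_cases t
    · exact sg_conn (hg 0).tp (em 0 2 (by norm_num))
    · exact sg_conn (hg 1).tp (em 1 5 (by norm_num))
    · exact sg_conn (hg 2).tp (em 2 6 (by norm_num))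
    · exact hM12c
    · exact hM23c
    · exact sg_conn (hg 0).tq le_rfl
    · exact hMc 0
    · exact sg_conn (hg 1).tq le_rfl
    · exact hMc 1
    · exact sg_conn (hg 2).tq le_rfl
    · exact hMc 2
  · -- hrange
    intro t
    fin_cases t
    · intro v hv
      obtain ⟨n, h1, h2, rfl⟩ := mem_sg.mp hv
      obtain ⟨_, h3, _, _, _, _, _, h8, _⟩ := hs 0 2 (by norm_num)
      exact ⟨h.lnn _ ((hg 0).tp.2.1 n (by omega)), h8 n h2⟩
    · intro v hv
      obtain ⟨n, h1, h2, rfl⟩ := mem_sg.mp hv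
      obtain ⟨_, _, _, _, _, _, h7, _, _⟩ := hs 1 2 (by norm_num)
      obtain ⟨_, h3, _, _, _, _, _, h8, _⟩ := hs 1 5 (by norm_num)
      exact ⟨h7 n (by omega) h1, h8 n h2⟩
    · intro v hv
      obtain ⟨n, h1, h2, rfl⟩ := mem_sg.mp hv
      obtain ⟨_, _, _, _, _, _, h7, _, _⟩ := hs 2 5 (by norm_num)
      obtain ⟨_, h3, _, _, _, _, _, h8, _⟩ := hs 2 6 (by norm_num)
      exact ⟨h7 n (by omega) h1, h8 n h2⟩
    · exact hMr 2 _ hM12
    · exact hMr 5 _ hM23
    · exact hqr 0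
    · exact hMr 0 _ (hM 0)
    · exact hqr 1
    · exact hMr 3 _ (hM 1)
    · exact hqr 2
    · exact hMr 6 _ (hM 2)
  · -- hZ
    intro i v hv z hz
    have key : ∀ n, n ≤ m i → v ≠ p i n ∧ ¬ G.Adj v (p i n) := fun n hn => (hg i).Kp v hv n hn
    have hz' : ∃ n, n ≤ m i ∧ p i n = z := by
      have e02 := em 0 2 (by norm_num)
      have e15 := em 1 5 (by norm_num)
      have e26 := em 2 6 (by norm_num)
      fin_cases i
      · obtain ⟨n, h1, h2, h3⟩ := mem_sg.mp (show z ∈ sg (p 0) 0 (e 0 2) from hz)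
        exact ⟨n, h2.trans e02, h3⟩
      · obtain ⟨n, h1, h2, h3⟩ := mem_sg.mp (show z ∈ sg (p 1) (s 1 2) (e 1 5) from hz)
        exact ⟨n, h2.trans e15, h3⟩
      · obtain ⟨n, h1, h2, h3⟩ := mem_sg.mp (show z ∈ sg (p 2) (s 2 5) (e 2 6) from hz)
        exact ⟨n, h2.trans e26, h3⟩
    obtain ⟨n, hn, rfl⟩ := hz'
    exact key n hn
  · -- haG
    intro i
    have key : a i ∈ sg (q i) (u i) (k i) := mem_sg.mpr ⟨k i, uk i, le_rfl, hak i⟩
    fin_cases i
    · exact key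
    · exact key
    · exact key
  · -- hG
    intro i v hv hva z hz hza
    have hz' : z ∈ sg (q i) (u i) (k i) := by
      fin_cases i
      · exact hz
      · exact hz
      · exact hz
    obtain ⟨n, h1, h2, rfl⟩ := mem_sg.mp hz'
    apply (hg i).Kq v hv hva n
    rcases Nat.lt_or_ge n (k i) with h4 | h4
    · exact h4
    · exfalso
      have : n = k i := by omega
      rw [this] at hza
      exact hza (hak i)
  · -- t03
    exact ⟨p 0 (s 0 2), mem_sg.mpr ⟨_, Nat.zero_le _, hse 0 2 (by norm_num) 2 (by norm_num) le_rfl,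
      rfl⟩, hM12a⟩
  · exact ⟨p 1 (s 1 2), hM12b, mem_sg.mpr ⟨_, le_rfl, hse 1 2 (by norm_num) 5 (by norm_num)
      (by norm_num), rfl⟩⟩
  · exact ⟨p 1 (s 1 5), mem_sg.mpr ⟨_, hss 1 2 (by norm_num) 5 (by norm_num) (by norm_num),
      hse 1 5 (by norm_num) 5 (by norm_num) le_rfl, rfl⟩, hM23a⟩
  · exact ⟨p 2 (s 2 5), hM23b, mem_sg.mpr ⟨_, le_rfl, hse 2 5 (by norm_num) 6 (by norm_num)
      (by norm_num), rfl⟩⟩
  · -- tz
    intro i
    fin_cases i
    · exact ⟨p 0 (s 0 0), mem_sg.mpr ⟨_, Nat.zero_le _,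
        hse 0 0 (by norm_num) 2 (by norm_num) (by norm_num), rfl⟩, hMa 0⟩
    · exact ⟨p 1 (s 1 3), mem_sg.mpr ⟨_, hss 1 2 (by norm_num) 3 (by norm_num) (by norm_num),
        hse 1 3 (by norm_num) 5 (by norm_num) (by norm_num), rfl⟩, hMa 1⟩
    · exact ⟨p 2 (s 2 6), mem_sg.mpr ⟨_, hss 2 5 (by norm_num) 6 (by norm_num) (by norm_num),
        hse 2 6 (by norm_num) 6 (by norm_num) le_rfl, rfl⟩, hMa 2⟩
  · -- tm
    intro i
    have key : q i (u i) ∈ sg (q i) (u i) (k i) := mem_sg.mpr ⟨_, le_rfl, uk i, rfl⟩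
    fin_cases i
    · exact ⟨_, hMb 0, key⟩
    · exact ⟨_, hMb 1, key⟩
    · exact ⟨_, hMb 2, key⟩
  · -- hz0
    exact mem_sg.mpr ⟨0, le_rfl, Nat.zero_le _, rfl⟩
  · -- hA
    intro v hv hvA
    obtain ⟨n, h1, h2, rfl⟩ := mem_sg.mp (show v ∈ sg (p 0) 0 (e 0 2) from hv)
    have h3 := em 0 2 (by norm_num)
    rcases Nat.eq_zero_or_pos n with h4 | h4
    · rw [h4]
    · exfalso
      have hF0 := (hg 0).tp.2.1 0 (Nat.zero_le _)
      have hFn := (hg 0).tp.2.1 n (by omega)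
      have h5 := TPath.le (hg 0).tp hp h4 (by omega)
      have h6 := hp.lt _ hF0
      have h7 := h.lnn _ hF0
      have h8 := h.startA _ hvA hFn
      linarith

end Pool.Agent.Work.MP_44e7ab_co
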