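import Mathlib
import Pool.Agent.Work.MP_44e7ab_co.Q1.BDefs
import Pool.Agent.Work.MP_44e7ab_co.Q1.Paths
import Pool.Agent.Work.MP_44e7ab_co.Q1.BWin

set_option autoImplicit false

/-! M9b, `eight`: eight linked macroscopic windows. -/

namespace Pool.Agent.Work.MP_44e7ab_co

open Finset Classical

/-- connecting sets of a window are long -/
private theorem win_dist {V : Type} {G : SimpleGraph V} {F : Finset V} {l r : V → ℝ}
    (hp : Pos G F l r) {x w g : ℝ} {S : Finset V} (hS : S ⊆ win F l r x (x + w))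
    (hC : Cn G (lft F l r x (x + w) (g * w)) (rgt F l r x (x + w) (g * w)) S) :
    (1 - 2 * g) * w ≤ ∑ v ∈ S, (r v - l v) := by
  obtain ⟨a, ha, b, hb, hab⟩ := hC
  have hSF : S ⊆ F := fun v hv => (Finset.mem_filter.mp (hS hv)).1
  have h1 := len_le hp hSF hab
  have h2 := (Finset.mem_filter.mp ha).2
  have h3 := (Finset.mem_filter.mp hb).2
  have h4 : (1 - 2 * g) * w = (x + w - g * w) - (x + g * w) := by ring
  rw [h4]
  linarith

private theorem alphaLE_mono' {V : Type} {G : SimpleGraph V} {S : Finset V} {a b : ℕ}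
    (h : AlphaLE G S a) (hab : a ≤ b) : AlphaLE G S b := fun I hI hi => (h I hI hi).trans hab

private theorem alphaLE_union' {V : Type} {G : SimpleGraph V} {S T : Finset V} {a b : ℕ}
    (hS : AlphaLE G S a) (hT : AlphaLE G T b) : AlphaLE G (S ∪ T) (a + b) := by
  intro I hI hi
  have h1 : (I ∩ S).card ≤ a := hS _ Finset.inter_subset_right
    (hi.mono (by simp))
  have h2 : (I ∩ T).card ≤ b := hT _ Finset.inter_subset_right
    (hi.mono (by simp))
  have h3 : I ⊆ (I ∩ S) ∪ (I ∩ T) := by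
    intro v hv
    rcases Finset.mem_union.mp (hI hv) with h | h
    · exact Finset.mem_union_left _ (Finset.mem_inter.mpr ⟨hv, h⟩)
    · exact Finset.mem_union_right _ (Finset.mem_inter.mpr ⟨hv, h⟩)
  calc I.card ≤ ((I ∩ S) ∪ (I ∩ T)).card := Finset.card_le_card h3
    _ ≤ (I ∩ S).card + (I ∩ T).card := Finset.card_union_le _ _
    _ ≤ a + b := by omega

/-- the world of a part of a window -/
private theorem no_world {V : Type} [Fintype V] {G : SimpleGraph V} {F A B : Finset V}
    {l r : V → ℝ} {L τ ζ g : ℝ} {N N1 m j : ℕ} (h : PosWorld G F A B l r L τ ζ N)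
    (hclaim : ∀ (F' A' B' : Finset V) (lam' : V → ℝ) (L' : ℝ),
      World G F' A' B' lam' L' ((m : ℝ) / 4) N1 → ∃ K, BStr G F' A' j K)
    (hno : ¬ ∃ K, BStr G F A j K) {x w : ℝ} (hx : 0 < x) (hw : 0 < w) (hg : 0 ≤ g)
    (hg1 : 2 * g < 1) {D : Finset V} (hD : D ⊆ win F l r x (x + w))
    (hconn : ∀ S : Finset V, AlphaLE G S N1 →
      Cn G (lft F l r x (x + w) (g * w)) (rgt F l r x (x + w) (g * w)) (D \ S)) :
    ∃ I : Finset V, I ⊆ D ∧ G.IsIndepSet (I : Set V) ∧
      (m : ℝ) / 4 * ((1 - 2 * g) * w) < ∑ v ∈ I, (r v - l v) := by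
  by_contra hcon
  push Not at hcon
  have hL' : 0 < (1 - 2 * g) * w := mul_pos (by linarith) hw
  have hW : World G D (lft F l r x (x + w) (g * w)) (rgt F l r x (x + w) (g * w))
      (fun v => r v - l v) ((1 - 2 * g) * w) ((m : ℝ) / 4) N1 := by
    refine ⟨?_, hL', ?_, ?_, hconn⟩
    · intro v hv
      have := h.pos.lt v (Finset.mem_filter.mp (hD hv)).1
      linarith
    · intro S hS hC
      exact win_dist h.pos (hS.trans hD) hC
    · intro I hI hi
      exact hcon I hI hi
  obtain ⟨K, hK⟩ := hclaim _ _ _ _ _ hW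
  exact hno (bstr_extend h hx (mul_nonneg hg hw.le) hD hK)

/-- a window of bounded density is linked -/
private theorem linked_of_density {V : Type} [Fintype V] {G : SimpleGraph V} {F A B : Finset V}
    {l r : V → ℝ} {L τ ζ c g : ℝ} {N N1 m j : ℕ} (h : PosWorld G F A B l r L τ ζ N)
    (hc : c = ((m : ℝ) + 1) / 4) (hg : 0 ≤ g) (hg1 : g * (c + 1) ≤ 1 / 16)
    (hN : 2 * N1 ≤ N)
    (hclaim : ∀ (F' A' B' : Finset V) (lam' : V → ℝ) (L' : ℝ),
      World G F' A' B' lam' L' ((m : ℝ) / 4) N1 → ∃ K, BStr G F' A' j K)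
    (hno : ¬ ∃ K, BStr G F A j K) {x w : ℝ} (hx : 0 < x) (hw : 0 < w) (hxL : x + w < L)
    (hτ : τ ≤ g * w)
    (hdens : ∀ I : Finset V, I ⊆ win F l r x (x + w) → G.IsIndepSet (I : Set V) →
      ∑ v ∈ I, (r v - l v) ≤ (c + 1 / 16) * w) :
    Linked G F l r x (x + w) (g * w) := by
  have hc0 : 0 ≤ c := by rw [hc]; positivity
  have hg2 : g ≤ 1 / 16 := by nlinarith
  intro u v u' v' hu hv hu' hv' huv hu'v'
  by_contra hcon
  set W := win F l r x (x + w) with hWdef
  -- the two sides
  set C : Finset V := W.filter (fun z => ConnIn G (W : Set V) u z) with hC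
  have hCW : C ⊆ W := Finset.filter_subset _ _
  have hstep : ∀ z ∈ W, ∀ z' ∈ W, G.Adj z z' → (z ∈ C ↔ z' ∈ C) := by
    intro z hz z' hz' hadj
    rw [hC, Finset.mem_filter, Finset.mem_filter]
    constructor
    · rintro ⟨_, h1⟩
      exact ⟨hz', h1.trans (ConnIn.adj hadj (by exact_mod_cast hz) (by exact_mod_cast hz'))⟩
    · rintro ⟨_, h1⟩
      exact ⟨hz, h1.trans (ConnIn.adj hadj.symm (by exact_mod_cast hz') (by exact_mod_cast hz))⟩
  have huW : u ∈ W := (Finset.mem_filter.mp hu).1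
  have hu'W : u' ∈ W := (Finset.mem_filter.mp hu').1
  have huC : u ∈ C := Finset.mem_filter.mpr ⟨huW, ConnIn.refl (by exact_mod_cast huW)⟩
  have hu'C : u' ∉ C := fun h' => hcon (Finset.mem_filter.mp h').2
  -- a connection inside a union of components stays on its side
  have hside : ∀ (U : Set V), U ⊆ (W : Set V) → ∀ a b, ConnIn G U a b →
      (a ∈ C → ConnIn G (U ∩ (C : Set V)) a b) ∧
      (a ∉ C → ConnIn G (U ∩ ((W \ C : Finset V) : Set V)) a b) := by
    intro U hU a b hab
    obtain ⟨p, m', hp, hp0, hpm, hpU⟩ := exists_indPath hab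
    have hsame : ∀ i, i ≤ m' → (p i ∈ C ↔ a ∈ C) := by
      intro i
      induction i with
      | zero => intro _; rw [hp0]
      | succ i ih =>
        intro hi
        rw [← ih (by omega)]
        apply (hstep _ (by exact_mod_cast hU (hpU i (by omega))) _
          (by exact_mod_cast hU (hpU (i + 1) hi)) _).symm
        exact (hp.2 i (i + 1) (by omega) hi).mpr (Or.inl rfl)
    have hseg : ∀ U' : Set V, (∀ i ≤ m', p i ∈ U') → ConnIn G U' a b := by
      intro U' hU'
      have h1 := hp.connSet (p 0) (by rw [mem_supp]; exact ⟨0, by omega, rfl⟩) (p m')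
        (by rw [mem_supp]; exact ⟨m', le_rfl, rfl⟩)
      rw [hp0, hpm] at h1
      apply h1.mono
      intro z hz
      rw [Finset.mem_coe, mem_supp] at hz
      obtain ⟨i, hi, rfl⟩ := hz
      exact hU' i hi
    constructor
    · intro haC
      apply hseg
      intro i hi
      exact ⟨hpU i hi, by exact_mod_cast (hsame i hi).mpr haC⟩
    · intro haC
      apply hseg
      intro i hi
      refine ⟨hpU i hi, ?_⟩
      rw [Finset.mem_coe, Finset.mem_sdiff]
      exact ⟨by exact_mod_cast hU (hpU i hi), fun h' => haC ((hsame i hi).mp h')⟩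
  -- crossings on both sides
  have hcr : ∀ (D : Finset V) (a b : V), D ⊆ W → a ∈ lft F l r x (x + w) (g * w) →
      b ∈ rgt F l r x (x + w) (g * w) → ConnIn G (D : Set V) a b →
      ∃ I : Finset V, I ⊆ D ∧ G.IsIndepSet (I : Set V) ∧
        (1 - 2 * g) * w ≤ 2 * ∑ v ∈ I, (r v - l v) := by
    intro D a b hD ha hb hab
    obtain ⟨p, m', hp, hp0, hpm, hpU⟩ := exists_indPath hab
    have hsD : supp p m' ⊆ D := by
      intro z hz
      rw [mem_supp] at hz
      obtain ⟨i, hi, rfl⟩ := hz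
      exact_mod_cast hpU i hi
    obtain ⟨I, hI1, hI2, hI3⟩ := hp.half (fun v => r v - l v) (by
      intro i hi
      have := h.pos.lt (p i) (Finset.mem_filter.mp (hD (by exact_mod_cast hpU i hi))).1
      linarith)
    refine ⟨I, hI1.trans hsD, hI2, ?_⟩
    refine le_trans ?_ hI3
    apply win_dist h.pos (hsD.trans hD)
    refine ⟨a, ha, b, hb, ?_⟩
    have h1 := hp.connSet (p 0) (by rw [mem_supp]; exact ⟨0, by omega, rfl⟩) (p m')
        (by rw [mem_supp]; exact ⟨m', le_rfl, rfl⟩)
    rwa [hp0, hpm] at h1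
  -- if one side `D` is thick and the other `E` is crossed, contradiction
  have hmain : ∀ (D E : Finset V), D ⊆ W → E ⊆ W → (∀ z ∈ D, ∀ z' ∈ E, ¬ G.Adj z z') →
      Disjoint D E →
      (∃ a b, a ∈ lft F l r x (x + w) (g * w) ∧ b ∈ rgt F l r x (x + w) (g * w) ∧
        ConnIn G (E : Set V) a b) →
      ¬ ∀ S : Finset V, AlphaLE G S N1 →
        Cn G (lft F l r x (x + w) (g * w)) (rgt F l r x (x + w) (g * w)) (D \ S) := by
    intro D E hD hE hDE hdj ⟨a, b, ha, hb, hab⟩ hconn
    obtain ⟨I, hI1, hI2, hI3⟩ := no_world h hclaim hno hx hw hg (by linarith) hD hconn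
    obtain ⟨I', hI1', hI2', hI3'⟩ := hcr E a b hE ha hb hab
    have hdisj : Disjoint I I' := Finset.disjoint_of_subset_left hI1
      (Finset.disjoint_of_subset_right hI1' hdj)
    have h1 := hdens (I ∪ I') (Finset.union_subset (hI1.trans hD) (hI1'.trans hE)) (by
      intro p hp q hq hpq
      rw [Finset.mem_coe, Finset.mem_union] at hp hq
      rcases hp with hp | hp <;> rcases hq with hq | hq
      · exact hI2 (by exact_mod_cast hp) (by exact_mod_cast hq) hpq
      · exact hDE p (hI1 hp) q (hI1' hq)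
      · exact fun h' => hDE q (hI1 hq) p (hI1' hp) h'.symm
      · exact hI2' (by exact_mod_cast hp) (by exact_mod_cast hq) hpq)
    rw [Finset.sum_union hdisj] at h1
    have h2 : (m : ℝ) / 4 = c - 1 / 4 := by rw [hc]; ring
    rw [h2] at hI3
    -- numbers
    have h3 : (c - 1 / 4) * ((1 - 2 * g) * w) + (1 - 2 * g) * w / 2 < (c + 1 / 16) * w := by
      linarith
    have h4 : (c + 1 / 16) * w ≤ (c - 1 / 4) * ((1 - 2 * g) * w) + (1 - 2 * g) * w / 2 := by
      have h5 : (c - 1 / 4) * ((1 - 2 * g) * w) + (1 - 2 * g) * w / 2 - (c + 1 / 16) * w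
          = w * (3 / 16 - 2 * (g * (c + 1)) + 3 / 2 * g) := by ring
      have h6 : 0 ≤ w * (3 / 16 - 2 * (g * (c + 1)) + 3 / 2 * g) := by
        apply mul_nonneg hw.le
        linarith
      linarith
    linarith
  have hCC' : ∀ z ∈ C, ∀ z' ∈ W \ C, ¬ G.Adj z z' := by
    intro z hz z' hz' hadj
    rw [Finset.mem_sdiff] at hz'
    exact hz'.2 ((hstep z (hCW hz) z' hz'.1 hadj).mp hz)
  have hd1 : Disjoint C (W \ C) := Finset.disjoint_sdiff
  have hn1 := hmain C (W \ C) hCW Finset.sdiff_subset hCC' hd1 ⟨u', v', hu', hv', by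
    have := (hside (W : Set V) subset_rfl u' v' hu'v').2 hu'C
    exact this.mono Set.inter_subset_right⟩
  have hn2 := hmain (W \ C) C Finset.sdiff_subset hCW
    (fun z hz z' hz' hadj => hCC' z' hz' z hz hadj.symm) hd1.symm ⟨u, v, hu, hv, by
    have := (hside (W : Set V) subset_rfl u v huv).1 huC
    exact this.mono Set.inter_subset_right⟩
  push Not at hn1 hn2
  obtain ⟨S1, hS1, hS1'⟩ := hn1
  obtain ⟨S2, hS2, hS2'⟩ := hn2
  have hS12 : AlphaLE G (S1 ∪ S2) N := alphaLE_mono' (alphaLE_union' hS1 hS2) (by omega)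
  obtain ⟨a, ha, b, hb, hab⟩ := win_conn h hx hxL hτ (by
    have : 2 * (g * w) < w := by nlinarith
    linarith) (S1 ∪ S2) hS12
  have hsub : ((W \ (S1 ∪ S2) : Finset V) : Set V) ⊆ (W : Set V) := by
    exact_mod_cast (Finset.sdiff_subset : W \ (S1 ∪ S2) ⊆ W)
  have h1 := hside _ hsub a b hab
  by_cases haC : a ∈ C
  · apply hS1'
    refine ⟨a, ha, b, hb, (h1.1 haC).mono ?_⟩
    rintro z ⟨hz1, hz2⟩
    rw [Finset.mem_coe, Finset.mem_sdiff, Finset.mem_union] at hz1
    rw [Finset.mem_coe, Finset.mem_sdiff]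
    exact ⟨by exact_mod_cast hz2, fun h' => hz1.2 (Or.inl h')⟩
  · apply hS2'
    refine ⟨a, ha, b, hb, (h1.2 haC).mono ?_⟩
    rintro z ⟨hz1, hz2⟩
    rw [Finset.mem_coe, Finset.mem_sdiff, Finset.mem_union] at hz1
    rw [Finset.mem_coe, Finset.mem_sdiff]
    exact ⟨by exact_mod_cast hz2, fun h' => hz1.2 (Or.inr h')⟩

/-- eight windows -/
theorem eight {V : Type} [Fintype V] {G : SimpleGraph V} {F A B : Finset V} {l r : V → ℝ}
    {L τ ζ c g : ℝ} {N N1 m j : ℕ} (h : PosWorld G F A B l r L τ ζ N)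
    (hcost : ∀ I : Finset V, I ⊆ F → G.IsIndepSet (I : Set V) →
      ∑ v ∈ I, (r v - l v) ≤ c * L)
    (hc : c = ((m : ℝ) + 1) / 4) (hg : g = 1 / (400 * (c + 1))) (hτ : τ ≤ g * L / 256)
    (hN : 2 * N1 ≤ N)
    (hclaim : ∀ (F' A' B' : Finset V) (lam' : V → ℝ) (L' : ℝ),
      World G F' A' B' lam' L' ((m : ℝ) / 4) N1 → ∃ K, BStr G F' A' j K)
    (hno : ¬ ∃ K, BStr G F A j K) :
    ∃ (x : ℕ → ℝ) (w : ℝ), w = (1 - 2 * g) * L / 64 ∧ 0 < x 0 ∧
      (∀ k < 7, x k + w + 2 * τ < x (k + 1)) ∧ x 7 + w < L ∧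
      (∀ k < 8, Linked G F l r (x k) (x k + w) (g * w)) ∧
      (∀ k < 8, ∀ I : Finset V, I ⊆ win F l r (x k) (x k + w) → G.IsIndepSet (I : Set V) →
        ∑ v ∈ I, (r v - l v) ≤ (c + 1) * w) := by
  have hc0 : 1 / 4 ≤ c := by
    rw [hc]
    have : (0 : ℝ) ≤ m := Nat.cast_nonneg m
    linarith
  have hgc : g * (c + 1) = 1 / 400 := by
    rw [hg]
    field_simp
  have hg0 : 0 < g := by rw [hg]; positivity
  have hg1 : g ≤ 1 / 500 := by nlinarith
  have hL := h.Lpos
  set w : ℝ := (1 - 2 * g) * L / 64 with hw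
  have hw0 : 0 < w := by
    rw [hw]
    have : 0 < 1 - 2 * g := by linarith
    positivity
  -- the 64 windows
  let X : ℕ → ℝ := fun i => ((i : ℝ) + g) * (L / 64)
  have hXw : ∀ i, X i + w = ((i : ℝ) + 1 - g) * (L / 64) := by
    intro i
    simp only [X, hw]
    ring
  have hX0 : ∀ i, 0 < X i := by
    intro i
    simp only [X]
    have : (0 : ℝ) ≤ i := Nat.cast_nonneg i
    positivity
  have hXL : ∀ i, i < 64 → X i + w < L := by
    intro i hi
    rw [hXw]
    have h1 : (i : ℝ) + 1 ≤ 64 := by exact_mod_cast hi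
    have h2 : ((i : ℝ) + 1 - g) * (L / 64) ≤ (64 - g) * (L / 64) := by
      apply mul_le_mul_of_nonneg_right _ (by positivity)
      linarith
    have h3 : (64 - g) * (L / 64) = L - g * (L / 64) := by ring
    have h4 : 0 < g * (L / 64) := by positivity
    linarith
  have hτw : τ ≤ g * w := by
    have h1 : g * w = g * L / 64 * (1 - 2 * g) := by rw [hw]; ring
    have h2 : g * L / 256 = g * L / 64 * (1 / 4) := by ring
    have h3 : g * L / 64 * (1 / 4) ≤ g * L / 64 * (1 - 2 * g) := by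
      apply mul_le_mul_of_nonneg_left _ (by positivity)
      linarith
    linarith
  have hXX : ∀ i i' : ℕ, i < i' → X i + w + 2 * τ < X i' := by
    intro i i' hii
    rw [hXw]
    have h1 : (i : ℝ) + 1 ≤ i' := by exact_mod_cast hii
    have h2 : ((i : ℝ) + 1 + g) * (L / 64) ≤ X i' := by
      apply mul_le_mul_of_nonneg_right _ (by positivity)
      linarith
    have h3 : ((i : ℝ) + 1 + g) * (L / 64) = ((i : ℝ) + 1 - g) * (L / 64) + g * L / 32 := by ring
    have h4 : 0 < g * L := by positivity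
    linarith
  -- low bound for the density of every window
  have hlow : ∀ i, i < 64 → ∃ I : Finset V, I ⊆ win F l r (X i) (X i + w) ∧
      G.IsIndepSet (I : Set V) ∧ (m : ℝ) / 4 * ((1 - 2 * g) * w) < ∑ v ∈ I, (r v - l v) := by
    intro i hi
    apply no_world h hclaim hno (hX0 i) hw0 hg0.le (by linarith) subset_rfl
    intro S hS
    exact win_conn h (hX0 i) (hXL i hi) hτw (by
      have : 2 * (g * w) < w := by nlinarith
      linarith) S (alphaLE_mono' hS (by omega))
  let Bad : ℕ → Prop := fun i => ∃ I : Finset V, I ⊆ win F l r (X i) (X i + w) ∧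
      G.IsIndepSet (I : Set V) ∧ (c + 1 / 16) * w < ∑ v ∈ I, (r v - l v)
  have hex : ∀ i, ∃ I : Finset V, i < 64 → (I ⊆ win F l r (X i) (X i + w) ∧
      G.IsIndepSet (I : Set V) ∧ (m : ℝ) / 4 * ((1 - 2 * g) * w) < ∑ v ∈ I, (r v - l v) ∧
      (Bad i → (c + 1 / 16) * w < ∑ v ∈ I, (r v - l v))) := by
    intro i
    by_cases hi : i < 64
    · by_cases hb : Bad i
      · obtain ⟨I, h1, h2, h3⟩ := hb
        refine ⟨I, fun _ => ⟨h1, h2, ?_, fun _ => h3⟩⟩
        have h4 : (m : ℝ) / 4 = c - 1 / 4 := by rw [hc]; ring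
        rw [h4]
        have h5 : (c - 1 / 4) * ((1 - 2 * g) * w) ≤ (c + 1 / 16) * w := by
          have h6 : (1 - 2 * g) * w ≤ w := by nlinarith
          have h7 : 0 ≤ (1 - 2 * g) * w := mul_nonneg (by linarith) hw0.le
          nlinarith
        linarith
      · obtain ⟨I, h1, h2, h3⟩ := hlow i hi
        exact ⟨I, fun _ => ⟨h1, h2, h3, fun h' => absurd h' hb⟩⟩
    · exact ⟨∅, fun h' => absurd h' hi⟩
  choose I hI using hex
  set good : Finset ℕ := (range 64).filter (fun i => ¬ Bad i) with hgood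
  have hcard : 8 ≤ good.card := by
    by_contra hcon
    push Not at hcon
    have hdisj : ∀ i ∈ range 64, ∀ i' ∈ range 64, i ≠ i' → ∀ u ∈ I i, ∀ v ∈ I i',
        u ≠ v ∧ ¬ G.Adj u v := by
      intro i hi i' hi' hii u hu v hv
      rw [Finset.mem_range] at hi hi'
      have h1 := Finset.mem_filter.mp ((hI i hi).1 hu)
      have h2 := Finset.mem_filter.mp ((hI i' hi').1 hv)
      have hτ0 : 0 < τ := lt_of_lt_of_le h.zpos ((h.zlen u h1.1).trans (h.tlen u h1.1))
      have l1 := h.pos.lt u h1.1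
      have l2 := h.pos.lt v h2.1
      constructor
      · intro huv
        subst huv
        rcases lt_or_gt_of_ne hii with h3 | h3
        · have := hXX i i' h3
          linarith [h1.2.2, h2.2.1]
        · have := hXX i' i h3
          linarith [h2.2.2, h1.2.1]
      · intro hadj
        have a1 := h.pos.adj u h1.1 v h2.1 hadj
        have a2 := h.pos.adj v h2.1 u h1.1 hadj.symm
        rcases lt_or_gt_of_ne hii with h3 | h3
        · have := hXX i i' h3
          linarith [h1.2.2, h2.2.1]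
        · have := hXX i' i h3
          linarith [h2.2.2, h1.2.1]
    have h1 := hcost ((range 64).biUnion I) (by
        intro v hv
        obtain ⟨i, hi, hv'⟩ := Finset.mem_biUnion.mp hv
        exact (Finset.mem_filter.mp ((hI i (Finset.mem_range.mp hi)).1 hv')).1) (by
        intro u hu v hv huv
        rw [Finset.mem_coe, Finset.mem_biUnion] at hu hv
        obtain ⟨i, hi, hu'⟩ := hu
        obtain ⟨i', hi', hv'⟩ := hv
        by_cases hii : i = i'
        · subst hii
          exact (hI i (Finset.mem_range.mp hi)).2.1 (by exact_mod_cast hu') (by exact_mod_cast hv') huv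
        · exact (hdisj i hi i' hi' hii u hu' v hv').2)
    rw [Finset.sum_biUnion (by
      intro i hi i' hi' hii
      rw [Function.onFun, Finset.disjoint_left]
      intro v hv hv'
      exact (hdisj i (by exact_mod_cast hi) i' (by exact_mod_cast hi') hii v hv v hv').1 rfl)] at h1
    have h2 : ∑ i ∈ range 64, (if Bad i then (c + 1 / 16) * w else (m : ℝ) / 4 * ((1 - 2 * g) * w))
        ≤ ∑ i ∈ range 64, ∑ v ∈ I i, (r v - l v) := by
      apply Finset.sum_le_sum
      intro i hi
      have h3 := hI i (Finset.mem_range.mp hi)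
      split_ifs with hb
      · exact (h3.2.2.2 hb).le
      · exact h3.2.2.1.le
    rw [Finset.sum_ite, Finset.sum_const, Finset.sum_const, nsmul_eq_mul, nsmul_eq_mul] at h2
    have h3 : ((range 64).filter Bad).card + good.card = 64 := by
      have := Finset.card_filter_add_card_filter_not (s := range 64) Bad
      rw [Finset.card_range] at this
      exact this
    have h4 : (((range 64).filter Bad).card : ℝ) = 64 - good.card := by
      have : (((range 64).filter Bad).card : ℝ) + good.card = 64 := by exact_mod_cast h3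
      linarith
    have h5 : (good.card : ℝ) ≤ 7 := by exact_mod_cast (by omega : good.card ≤ 7)
    have h6 : (m : ℝ) / 4 = c - 1 / 4 := by rw [hc]; ring
    rw [← hgood, h4, h6] at h2
    have h7 : L = 64 * w / (1 - 2 * g) := by
      rw [hw]
      have : (1 - 2 * g) ≠ 0 := by
        have : 0 < 1 - 2 * g := by linarith
        exact this.ne'
      field_simp
    have h8 : (64 - (good.card : ℝ)) * ((c + 1 / 16) * w) + good.card * ((c - 1 / 4) * ((1 - 2 * g) * w))
        ≤ c * L := h2.trans h1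
    have h9 : c * L * (1 - 2 * g) = c * (64 * w) := by
      rw [h7]
      have : (1 - 2 * g) ≠ 0 := by
        have : 0 < 1 - 2 * g := by linarith
        exact this.ne'
      field_simp
    set q : ℝ := (good.card : ℝ) with hq
    have hq0 : 0 ≤ q := Nat.cast_nonneg _
    -- multiply by (1 - 2 g)
    have h10 : ((64 - q) * (c + 1 / 16) + q * ((c - 1 / 4) * (1 - 2 * g))) * (1 - 2 * g) * w
        ≤ 64 * c * w := by
      have h11 := mul_le_mul_of_nonneg_right h8 (by linarith : (0 : ℝ) ≤ 1 - 2 * g)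
      rw [h9] at h11
      have h12 : ((64 - q) * ((c + 1 / 16) * w) + q * ((c - 1 / 4) * ((1 - 2 * g) * w))) * (1 - 2 * g)
        = ((64 - q) * (c + 1 / 16) + q * ((c - 1 / 4) * (1 - 2 * g))) * (1 - 2 * g) * w := by ring
      rw [h12] at h11
      linarith
    have h13 := le_of_mul_le_mul_right h10 hw0
    -- lower bound of the left side
    have hgc' : g * c ≤ 1 / 400 := by
      have : g * (c + 1) = g * c + g := by ring
      linarith
    have h14 : (64 - q) * (c + 1 / 16) + q * ((c - 1 / 4) * (1 - 2 * g)) =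
        64 * c + 4 - q * (5 / 16) - q * (2 * g * (c - 1 / 4)) := by ring
    have h15 : q * (2 * g * (c - 1 / 4)) ≤ 7 * (2 / 400) := by
      have h16 : 2 * g * (c - 1 / 4) ≤ 2 / 400 := by
        have : 2 * g * (c - 1 / 4) = 2 * (g * c) - g / 2 := by ring
        linarith
      have h17 : 0 ≤ 2 * g * (c - 1 / 4) := by
        apply mul_nonneg (by linarith)
        linarith
      exact mul_le_mul h5 h16 h17 (by norm_num)
    have h18 : 64 * c + 7 / 4 ≤ (64 - q) * (c + 1 / 16) + q * ((c - 1 / 4) * (1 - 2 * g)) := by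
      rw [h14]
      linarith
    have h19 : (64 * c + 7 / 4) * (1 - 2 * g) ≤ 64 * c := by
      refine le_trans ?_ h13
      exact mul_le_mul_of_nonneg_right h18 (by linarith)
    have h20 : (64 * c + 7 / 4) * (1 - 2 * g) = 64 * c + 7 / 4 - 128 * (g * c) - 7 / 2 * g := by ring
    linarith
  obtain ⟨T, hT1, hT2⟩ := Finset.exists_subset_card_eq hcard
  let f : Fin 8 → ℕ := fun i => T.orderEmbOfFin hT2 i
  have hf1 : ∀ i, f i ∈ good := fun i => hT1 (Finset.orderEmbOfFin_mem T hT2 i)
  have hf2 : ∀ i i', i < i' → f i < f i' := fun i i' hii => (T.orderEmbOfFin hT2).strictMono hii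
  let x : ℕ → ℝ := fun k => if hk : k < 8 then X (f ⟨k, hk⟩) else 0
  have hx : ∀ k (hk : k < 8), x k = X (f ⟨k, hk⟩) := by
    intro k hk
    simp only [x]
    rw [dif_pos hk]
  have hf64 : ∀ i, f i < 64 := fun i => Finset.mem_range.mp (Finset.mem_filter.mp (hf1 i)).1
  have hdens : ∀ k (hk : k < 8), ∀ I : Finset V, I ⊆ win F l r (x k) (x k + w) →
      G.IsIndepSet (I : Set V) → ∑ v ∈ I, (r v - l v) ≤ (c + 1 / 16) * w := by
    intro k hk I hI1 hI2
    by_contra hcon
    push Not at hcon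
    rw [hx k hk] at hI1
    exact (Finset.mem_filter.mp (hf1 ⟨k, hk⟩)).2 ⟨I, hI1, hI2, hcon⟩
  refine ⟨x, w, rfl, ?_, ?_, ?_, ?_, ?_⟩
  · rw [hx 0 (by norm_num)]
    exact hX0 _
  · intro k hk
    rw [hx k (by omega), hx (k + 1) (by omega)]
    apply hXX
    apply hf2
    exact Fin.mk_lt_mk.mpr (by omega)
  · rw [hx 7 (by norm_num)]
    exact hXL _ (hf64 _)
  · intro k hk
    have h1 := hdens k hk
    rw [hx k hk] at h1 ⊢
    exact linked_of_density h hc hg0.le (by rw [hgc]; norm_num) hN hclaim hno (hX0 _) hw0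
      (hXL _ (hf64 _)) hτw h1
  · intro k hk I hI1 hI2
    refine (hdens k hk I hI1 hI2).trans ?_
    apply mul_le_mul_of_nonneg_right _ hw0.le
    linarith

end Pool.Agent.Work.MP_44e7ab_co
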