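import Mathlib
import Pool.Agent.Work.MP_44e7ab_co.Q1.BDefs
import Pool.Agent.Work.MP_44e7ab_co.Q1.BWin

set_option autoImplicit false

/-! M9c: the gadget of a non-dominating vertex. -/

namespace Pool.Agent.Work.MP_44e7ab_co

open Finset Classical

private theorem tpath_le' {V : Type} {G : SimpleGraph V} {F : Finset V} {l r : V → ℝ}
    (hp : Pos G F l r) {p : ℕ → V} {m : ℕ} (h : TPath G F l r p m) (i : ℕ) :
    ∀ j, i < j → j ≤ m → r (p i) ≤ l (p j) := by
  intro j
  induction j with
  | zero => intro h1; omega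
  | succ j ih =>
    intro h1 h2
    rcases Nat.lt_or_ge i j with h3 | h3
    · have h4 := ih h3 (by omega)
      have h5 := hp.lt (p j) (h.2.1 j (by omega))
      have h6 := h.2.2 j (by omega)
      linarith
    · have : i = j := by omega
      subst this
      exact (h.2.2 i (by omega)).le

theorem gadget (P j : ℕ) (n2 : ℝ)
    (hclaim : ∀ m : ℕ, ∃ N : ℕ, ∀ (V : Type) [Fintype V] (G : SimpleGraph V), PWB G P →
      ∀ (F A B : Finset V) (lam : V → ℝ) (L : ℝ), World G F A B lam L ((m : ℝ) / 4) N →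
      ∃ K : Finset V, BStr G F A j K) :
    ∃ Nst : ℕ, ∀ (V : Type) [Fintype V] (G : SimpleGraph V), PWB G P →
      ∀ (F A B : Finset V) (l r : V → ℝ) (L τ ζ : ℝ) (N : ℕ), PosWorld G F A B l r L τ ζ N →
      ∀ (x y : ℝ), ∀ v ∈ win F l r x y, ND G F l r n2 Nst v →
      ∃ (K : Finset V) (a : V) (p : ℕ → V) (m : ℕ) (q : ℕ → V) (k : ℕ),
        Gadget G F A l r L j x y K a p m q k := by
  obtain ⟨m', hm'⟩ := exists_nat_ge (8 * n2)
  obtain ⟨Nst, hNst⟩ := hclaim m'
  refine ⟨Nst, ?_⟩
  intro V _ G hG F A B l r L τ ζ N h x y v hv hND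
  obtain ⟨x', y', h1, h2, h3, hcost, hconn⟩ := hND
  rw [win, Finset.mem_filter] at hv
  obtain ⟨hvF, hvx, hvy⟩ := hv
  set th : ℝ := (y' - x') / 4 with hth
  have hDw : rmN G v (win F l r x' y') ⊆ win F l r x' y' := Finset.filter_subset _ _
  have hwF : win F l r x' y' ⊆ F := Finset.filter_subset _ _
  have hW : World G (rmN G v (win F l r x' y')) (lft F l r x' y' th) (rgt F l r x' y' th)
      (fun u => r u - l u) ((y' - x') / 2) ((m' : ℝ) / 4) Nst := by
    refine ⟨?_, by linarith, ?_, ?_, hconn⟩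
    · intro u hu
      have := h.pos.lt u (hwF (hDw hu))
      linarith
    · rintro S hS ⟨a, ha, b, hb, hab⟩
      have h4 := len_le h.pos (hS.trans (hDw.trans hwF)) hab
      have h5 := (Finset.mem_filter.mp ha).2
      have h6 := (Finset.mem_filter.mp hb).2
      have h7 : (y' - x') / 2 = (y' - th) - (x' + th) := by rw [hth]; ring
      rw [h7]
      linarith
    · intro I hI hi
      have h4 := hcost I (hI.trans hDw) hi
      have h5 : n2 * (y' - x') ≤ (m' : ℝ) / 8 * (y' - x') := by
        apply mul_le_mul_of_nonneg_right _ (by linarith)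
        linarith
      have h6 : (m' : ℝ) / 4 * ((y' - x') / 2) = (m' : ℝ) / 8 * (y' - x') := by ring
      rw [h6]
      linarith
  obtain ⟨K, hK1, hK2, hK3, hK4, a, haK, haA, haU⟩ := hNst V G hG _ _ _ _ _ hW
  have hKm : ∀ u ∈ K, u ∈ F ∧ x' ≤ l u ∧ r u ≤ y' ∧ u ≠ v ∧ ¬ G.Adj v u := by
    intro u hu
    have h4 := Finset.mem_filter.mp (hK1 hu)
    have h5 := Finset.mem_filter.mp h4.1
    exact ⟨h5.1, h5.2.1, h5.2.2, h4.2.1, h4.2.2⟩
  obtain ⟨haF, hax, hay, _, _⟩ := hKm a haK
  have hζ : ζ < r v - l v := by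
    have := h.zlen a haF
    linarith
  obtain ⟨p, m, hp, hp0, hpm, i0, hi0, hpi0⟩ := h.tight v hvF hζ
  obtain ⟨q, k, hq, hq0, hqk⟩ := h.geo a haF
  refine ⟨K, a, p, m, q, k, ?_⟩
  refine ⟨?_, hK2, hK3, hK4, haK, hp, hp0, h.endB _ hpm (hp.2.1 m le_rfl), ?_, hq, hq0, hqk, ?_⟩
  · intro u hu
    obtain ⟨h4, h5, h6, _, _⟩ := hKm u hu
    rw [win, Finset.mem_filter]
    exact ⟨h4, by linarith, by linarith⟩
  · intro u hu i hi
    obtain ⟨huF, h5, h6, h7, h8⟩ := hKm u hu
    have hpiF := hp.2.1 i hi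
    have lu := h.pos.lt u huF
    have lp := h.pos.lt (p i) hpiF
    rcases lt_trichotomy i i0 with hii | hii | hii
    · have h9 := tpath_le' h.pos hp i i0 hii hi0
      rw [hpi0] at h9
      constructor
      · intro he
        rw [← he] at h9 lp
        linarith
      · intro hadj
        have := h.pos.adj u huF (p i) hpiF hadj
        linarith
    · rw [hii, hpi0]
      exact ⟨h7, fun h' => h8 h'.symm⟩
    · have h9 := tpath_le' h.pos hp i0 i hii hi
      rw [hpi0] at h9
      constructor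
      · intro he
        rw [← he] at h9 lp
        linarith
      · intro hadj
        have := h.pos.adj (p i) hpiF u huF hadj.symm
        linarith
  · intro u hu hua i hi
    obtain ⟨huF, h5, h6, _, _⟩ := hKm u hu
    have hul : x' + th < l u := by
      by_contra hcon
      push Not at hcon
      apply hua
      apply haU u hu
      rw [lft, Finset.mem_filter]
      exact ⟨hDw (hK1 hu), hcon⟩
    have hqiF := hq.2.1 i hi.le
    have h9 := tpath_le' h.pos hq i k hi le_rfl
    rw [hqk] at h9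
    have h10 := (Finset.mem_filter.mp haA).2
    have lq := h.pos.lt (q i) hqiF
    have lu := h.pos.lt u huF
    constructor
    · intro he
      rw [← he] at h9 lq
      linarith
    · intro hadj
      have := h.pos.adj u huF (q i) hqiF hadj
      linarith

end Pool.Agent.Work.MP_44e7ab_co
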