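import Mathlib
import Pool.Agent.Work.MP_44e7ab_co.Q1.BDefs
import Pool.Agent.Work.MP_44e7ab_co.Q1.Potential

set_option autoImplicit false

/-! M9a: from a `World` to a `PosWorld` (`prep`). -/

namespace Pool.Agent.Work.MP_44e7ab_co

open Finset Classical

namespace Prep

theorem exists_eps {ι : Type} (T : Finset ι) (δ : ι → ℝ) (h : ∀ i ∈ T, 0 < δ i) :
    ∃ ε : ℝ, 0 < ε ∧ ∀ i ∈ T, ε ≤ δ i := by
  induction T using Finset.induction_on with
  | empty => exact ⟨1, one_pos, by simp⟩
  | insert a s has ih =>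
    obtain ⟨ε, hε, h1⟩ := ih (fun i hi => h i (Finset.mem_insert_of_mem hi))
    refine ⟨min ε (δ a), lt_min hε (h a (Finset.mem_insert_self a s)), ?_⟩
    intro i hi
    rcases Finset.mem_insert.mp hi with rfl | hi
    · exact min_le_right _ _
    · exact le_trans (min_le_left _ _) (h1 i hi)

/-- minimal weights in `[ζ, lam]` for which all sets of a family still have weight at least `L` -/
theorem exists_min {V : Type} [Fintype V] (F1 : Finset V) (Sf : Finset (Finset V))
    (hSf : ∀ S ∈ Sf, S ⊆ F1) (lam : V → ℝ) (ζ L : ℝ) (hζ : ∀ v ∈ F1, ζ ≤ lam v)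
    (hL : ∀ S ∈ Sf, L ≤ ∑ v ∈ S, lam v) :
    ∃ x : V → ℝ, (∀ v ∈ F1, ζ ≤ x v ∧ x v ≤ lam v) ∧ (∀ S ∈ Sf, L ≤ ∑ v ∈ S, x v) ∧
      ∀ v ∈ F1, ζ < x v → ∃ S ∈ Sf, v ∈ S ∧ ∑ u ∈ S, x u ≤ L := by
  set lo : V → ℝ := fun v => if v ∈ F1 then ζ else 0 with hlo
  set hi : V → ℝ := fun v => if v ∈ F1 then lam v else 0 with hhi
  set C : Set (V → ℝ) := Set.Icc lo hi ∩ ⋂ S ∈ Sf, {x : V → ℝ | L ≤ ∑ v ∈ S, x v} with hC
  have hclosed : IsClosed (⋂ S ∈ Sf, {x : V → ℝ | L ≤ ∑ v ∈ S, x v}) := by
    refine isClosed_biInter fun S _ => ?_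
    exact isClosed_le continuous_const (continuous_finsetSum _ fun i _ => continuous_apply i)
  have hCc : IsCompact C := isCompact_Icc.inter_right hclosed
  have hne : C.Nonempty := by
    refine ⟨hi, ⟨?_, le_refl _⟩, ?_⟩
    · intro v
      simp only [hlo, hhi]
      split_ifs with hv
      · exact hζ v hv
      · exact le_refl _
    · simp only [Set.mem_iInter, Set.mem_ofPred_eq]
      intro S hS
      have : ∑ v ∈ S, hi v = ∑ v ∈ S, lam v := by
        refine Finset.sum_congr rfl fun v hv => ?_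
        simp only [hhi]
        rw [if_pos (hSf S hS hv)]
      rw [this]
      exact hL S hS
  obtain ⟨x, hx, hmin⟩ := hCc.exists_isMinOn hne
    (f := fun x : V → ℝ => ∑ v ∈ F1, x v)
    (continuous_finsetSum _ fun i _ => continuous_apply i).continuousOn
  have hx1 : ∀ v ∈ F1, ζ ≤ x v ∧ x v ≤ lam v := by
    intro v hv
    have h1 := hx.1.1 v
    have h2 := hx.1.2 v
    simp only [hlo, hhi, if_pos hv] at h1 h2
    exact ⟨h1, h2⟩
  have hx2 : ∀ S ∈ Sf, L ≤ ∑ v ∈ S, x v := by
    have := hx.2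
    simp only [Set.mem_iInter, Set.mem_ofPred_eq] at this
    exact this
  refine ⟨x, hx1, hx2, ?_⟩
  intro v hv hzv
  by_contra hcon
  push Not at hcon
  obtain ⟨ε, hε, hεS⟩ := exists_eps (Sf.filter (fun S => v ∈ S))
    (fun S => ∑ u ∈ S, x u - L) (by
      intro S hS
      rw [Finset.mem_filter] at hS
      have := hcon S hS.1 hS.2
      linarith)
  set e : ℝ := min ε (x v - ζ) with he
  have he0 : 0 < e := lt_min hε (by linarith)
  set y : V → ℝ := Function.update x v (x v - e) with hy
  have hyv : y v = x v - e := by rw [hy, Function.update_self]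
  have hyu : ∀ u, u ≠ v → y u = x u := by
    intro u hu
    rw [hy, Function.update_of_ne hu]
  have hsum : ∀ S : Finset V, v ∈ S → ∑ u ∈ S, y u = ∑ u ∈ S, x u - e := by
    intro S hS
    rw [← Finset.add_sum_erase S y hS, ← Finset.add_sum_erase S x hS, hyv]
    have : ∑ u ∈ S.erase v, y u = ∑ u ∈ S.erase v, x u :=
      Finset.sum_congr rfl fun u hu => hyu u (Finset.ne_of_mem_erase hu)
    rw [this]
    ring
  have hyC : y ∈ C := by
    refine ⟨⟨?_, ?_⟩, ?_⟩
    · intro u
      by_cases huv : u = v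
      · subst huv
        simp only [hlo, if_pos hv]
        rw [hyv]
        have := min_le_right ε (x u - ζ)
        linarith
      · rw [hyu u huv]
        exact hx.1.1 u
    · intro u
      by_cases huv : u = v
      · subst huv
        rw [hyv]
        have := hx.1.2 u
        linarith
      · rw [hyu u huv]
        exact hx.1.2 u
    · simp only [Set.mem_iInter, Set.mem_ofPred_eq]
      intro S hS
      by_cases hvS : v ∈ S
      · rw [hsum S hvS]
        have h1 := hεS S (Finset.mem_filter.mpr ⟨hS, hvS⟩)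
        have h2 := min_le_left ε (x v - ζ)
        linarith
      · have : ∑ u ∈ S, y u = ∑ u ∈ S, x u := by
          refine Finset.sum_congr rfl fun u hu => hyu u ?_
          rintro rfl
          exact hvS hu
        rw [this]
        exact hx2 S hS
  have hm : ∑ u ∈ F1, x u ≤ ∑ u ∈ F1, y u := hmin hyC
  rw [hsum F1 hv] at hm
  linarith

end Prep

/-- M9a -/
theorem prep {V : Type} [Fintype V] {G : SimpleGraph V} {F A B : Finset V} {lam : V → ℝ}
    {L c τ : ℝ} {N h0 : ℕ} (hW : World G F A B lam L c (N + h0)) (hτ : 0 < τ)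
    (hh : c * L ≤ h0 * τ) :
    ∃ (F' : Finset V) (l r : V → ℝ) (ζ : ℝ), F' ⊆ F ∧ PosWorld G F' A B l r L τ ζ N ∧
      ∀ I : Finset V, I ⊆ F' → G.IsIndepSet (I : Set V) → ∑ v ∈ I, (r v - l v) ≤ c * L := by
  -- delete the heavy vertices
  set D : Finset V := F.filter (fun v => τ < lam v) with hD
  have hDa : AlphaLE G D h0 := by
    intro I hI hInd
    by_contra hcon
    push Not at hcon
    have hIF : I ⊆ F := fun v hv => (Finset.mem_filter.mp (hI hv)).1
    have h1 := hW.cost I hIF hInd
    have h2 : (I.card : ℝ) * τ ≤ ∑ v ∈ I, lam v := by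
      rw [← nsmul_eq_mul]
      refine Finset.card_nsmul_le_sum I lam τ fun v hv => ?_
      exact (Finset.mem_filter.mp (hI hv)).2.le
    have h3 : ((h0 : ℝ) + 1) ≤ I.card := by exact_mod_cast hcon
    nlinarith
  set F1 : Finset V := F \ D with hF1
  have hF1F : F1 ⊆ F := Finset.sdiff_subset
  have hF1τ : ∀ v ∈ F1, lam v ≤ τ := by
    intro v hv
    rw [hF1, Finset.mem_sdiff, hD, Finset.mem_filter] at hv
    by_contra hcon
    push Not at hcon
    exact hv.2 ⟨hv.1, hcon⟩
  have hAl : ∀ S : Finset V, AlphaLE G S N → AlphaLE G (S ∪ D) (N + h0) := by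
    intro S hS I hI hInd
    have h1 : I ⊆ (I ∩ S) ∪ (I ∩ D) := by
      intro v hv
      rcases Finset.mem_union.mp (hI hv) with h | h
      · exact Finset.mem_union_left _ (Finset.mem_inter.mpr ⟨hv, h⟩)
      · exact Finset.mem_union_right _ (Finset.mem_inter.mpr ⟨hv, h⟩)
    have h2 := Finset.card_le_card h1
    have h3 := Finset.card_union_le (I ∩ S) (I ∩ D)
    have h4 := hS (I ∩ S) Finset.inter_subset_right
      (hInd.mono (by intro z hz; exact (Finset.mem_inter.mp hz).1))
    have h5 := hDa (I ∩ D) Finset.inter_subset_right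
      (hInd.mono (by intro z hz; exact (Finset.mem_inter.mp hz).1))
    omega
  have hconn1 : ∀ S : Finset V, AlphaLE G S N → Cn G A B (F1 \ S) := by
    intro S hS
    have h := hW.conn (S ∪ D) (hAl S hS)
    have he : F \ (S ∪ D) = F1 \ S := by
      ext v
      simp only [hF1, Finset.mem_sdiff, Finset.mem_union]
      tauto
    rwa [he] at h
  have hAlE : AlphaLE G (∅ : Finset V) N := by
    intro I hI _
    rw [Finset.subset_empty] at hI
    simp [hI]
  have hcF1 : Cn G A B F1 := by
    have := hconn1 ∅ hAlE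
    rwa [Finset.sdiff_empty] at this
  have hF1ne : F1.Nonempty := by
    obtain ⟨b, _, hb⟩ := Pot.cn_mem hcF1
    exact ⟨b, hb⟩
  -- the lower bound
  obtain ⟨ζ, hζ0, hζ⟩ := Prep.exists_eps F1 lam (fun v hv => hW.pos v (hF1F hv))
  -- the minimal weights
  obtain ⟨x, hx1, hx2, hx3⟩ := Prep.exists_min F1 (F1.powerset.filter (fun S => Cn G A B S))
    (by intro S hS; exact Finset.mem_powerset.mp (Finset.mem_filter.mp hS).1) lam ζ L hζ
    (by
      intro S hS
      rw [Finset.mem_filter, Finset.mem_powerset] at hS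
      exact hW.dist S (hS.1.trans hF1F) hS.2)
  have hx2' : ∀ S : Finset V, S ⊆ F1 → Cn G A B S → L ≤ ∑ v ∈ S, x v := by
    intro S hS hc
    exact hx2 S (Finset.mem_filter.mpr ⟨Finset.mem_powerset.mpr hS, hc⟩)
  have hxpos : ∀ v ∈ F1, 0 < x v := fun v hv => lt_of_lt_of_le hζ0 (hx1 v hv).1
  obtain ⟨d, hd1, hd2, hd3, hd4, hd5, hd6⟩ := exists_potential G F1 A x hxpos
  set F' : Finset V := F1.filter (fun v => Cn G A {v} F1) with hF'
  have hF'F1 : F' ⊆ F1 := Finset.filter_subset _ _
  -- vertices reachable inside `F1` from `A`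
  have hreach : ∀ a ∈ A, ∀ v, ConnIn G (F1 : Set V) a v → v ∈ F' := by
    intro a ha v hav
    rw [hF', Finset.mem_filter]
    exact ⟨by exact_mod_cast hav.right_mem, a, ha, v, by simp, hav⟩
  have hpathF' : ∀ (p : ℕ → V) (m : ℕ), IndPath G p m → (∀ i ≤ m, p i ∈ F1) → p 0 ∈ A →
      ∀ i ≤ m, p i ∈ F' := by
    intro p m hp hpF hp0 i hi
    exact hreach (p 0) hp0 (p i)
      (Pot.ind_conn hp (Nat.zero_le i) hi fun k _ hk => by exact_mod_cast hpF k (by omega))
  have hsumpath : ∀ (p : ℕ → V) (m : ℕ), d (p 0) = x (p 0) →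
      (∀ i < m, d (p (i + 1)) = d (p i) + x (p (i + 1))) →
      ∀ i ≤ m, d (p i) = ∑ k ∈ Finset.range (i + 1), x (p k) := by
    intro p m h0 hs i
    induction i with
    | zero => intro _; simpa using h0
    | succ i ih =>
      intro hi
      rw [hs i (by omega), ih (by omega), Finset.sum_range_succ _ (i + 1)]
  refine ⟨F', fun v => d v - x v, d, ζ, hF'F1.trans hF1F, ?_, ?_⟩
  · refine ⟨⟨?_, ?_⟩, hW.Lpos, hζ0, ?_, ?_, ?_, ?_, ?_, ?_, ?_, ?_⟩
    · intro v hv
      have := hxpos v (hF'F1 hv)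
      show d v - x v < d v
      linarith
    · intro u hu v hv huv
      have := hd3 v (hF'F1 hv) u (hF'F1 hu) huv.symm
      show d u - x u ≤ d v
      linarith
    · intro v hv
      have := (hx1 v (hF'F1 hv)).1
      show ζ ≤ d v - (d v - x v)
      linarith
    · intro v hv
      have h1 := (hx1 v (hF'F1 hv)).2
      have h2 := hF1τ v (hF'F1 hv)
      show d v - (d v - x v) ≤ τ
      linarith
    · intro v hv
      have := hd1 v (hF'F1 hv)
      show 0 ≤ d v - x v
      linarith
    · intro a ha haF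
      have := hd2 a ha (hF'F1 haF)
      show d a - x a = 0
      linarith
    · intro b hb hbF
      rw [hF', Finset.mem_filter] at hbF
      obtain ⟨p, m, hp, hpF, hp0, hpm, h0, hs⟩ := hd5 b hbF.2
      have hsum := hsumpath p m h0 hs m le_rfl
      have hinj : Set.InjOn p ((Finset.range (m + 1) : Finset ℕ) : Set ℕ) := by
        intro i hi j hj hij
        rw [Finset.coe_range, Set.mem_Iio] at hi hj
        exact hp.1 i j (by omega) (by omega) hij
      have hsupp : ∑ v ∈ supp p m, x v = ∑ k ∈ Finset.range (m + 1), x (p k) := by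
        rw [supp, Finset.sum_image hinj]
      have hsub : supp p m ⊆ F1 := by
        intro v hv
        rw [supp, Finset.mem_image] at hv
        obtain ⟨i, hi, rfl⟩ := hv
        exact hpF i (by rw [Finset.mem_range] at hi; omega)
      have hcn : Cn G A B (supp p m) := by
        refine ⟨p 0, hp0, p m, by rw [hpm]; exact hb, ?_⟩
        refine Pot.ind_conn hp (Nat.zero_le m) le_rfl fun k _ hk => ?_
        rw [supp]
        exact_mod_cast Finset.mem_image_of_mem p (Finset.mem_range.mpr (by omega))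
      have := hx2' _ hsub hcn
      rw [hsupp, ← hsum, hpm] at this
      exact this
    · intro v hv
      have hv2 : Cn G A {v} F1 := (Finset.mem_filter.mp hv).2
      obtain ⟨p, m, hp, hpF, hp0, hpm, h0, hs⟩ := hd5 v hv2
      refine ⟨p, m, ⟨hp, hpathF' p m hp hpF hp0, ?_⟩, hp0, hpm⟩
      intro i hi
      show d (p i) = d (p (i + 1)) - x (p (i + 1))
      rw [hs i hi]
      ring
    · intro v hv hzv
      have hzv' : ζ < x v := by
        have h7 : d v - (d v - x v) = x v := by ring
        have h8 : ζ < d v - (d v - x v) := hzv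
        linarith
      obtain ⟨S, hS, hvS, hSL⟩ := hx3 v (hF'F1 hv) hzv'
      rw [Finset.mem_filter, Finset.mem_powerset] at hS
      obtain ⟨p, m, hp, hsupp, hp0, hpm, h0, hs, _⟩ := hd6 B L hx2' S hS.1 hS.2 hSL
      have hpF : ∀ i ≤ m, p i ∈ F1 := by
        intro i hi
        apply hS.1
        rw [← hsupp, supp]
        exact Finset.mem_image_of_mem p (Finset.mem_range.mpr (by omega))
      refine ⟨p, m, ⟨hp, hpathF' p m hp hpF hp0, ?_⟩, hp0, hpm, ?_⟩
      · intro i hi
        show d (p i) = d (p (i + 1)) - x (p (i + 1))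
        rw [hs i hi]
        ring
      · rw [← hsupp, supp, Finset.mem_image] at hvS
        obtain ⟨i, hi, rfl⟩ := hvS
        exact ⟨i, by rw [Finset.mem_range] at hi; omega, rfl⟩
    · intro S hS
      obtain ⟨a, ha, b, hb, q, hq⟩ := hconn1 S hS
      refine ⟨a, ha, b, hb, q, ?_⟩
      intro z hz
      have hzS := hq z hz
      rw [Finset.coe_sdiff, Set.mem_sdiff] at hzS ⊢
      refine ⟨?_, hzS.2⟩
      have hcz : ConnIn G (F1 : Set V) a z := by
        refine ⟨q.takeUntil z hz, ?_⟩
        intro w hw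
        have := hq w (q.support_takeUntil_subset_support hz hw)
        rw [Finset.coe_sdiff, Set.mem_sdiff] at this
        exact this.1
      exact_mod_cast hreach a ha z hcz
  · intro I hI hInd
    have h1 : ∑ v ∈ I, (d v - (d v - x v)) ≤ ∑ v ∈ I, lam v := by
      refine Finset.sum_le_sum fun v hv => ?_
      have := (hx1 v (hF'F1 (hI hv))).2
      linarith
    exact h1.trans (hW.cost I (hI.trans (hF'F1.trans hF1F)) hInd)

end Pool.Agent.Work.MP_44e7ab_co
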