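import Mathlib
import Pool.Agent.Work.MP_44e7ab_co.Q1.Prep
import Pool.Agent.Work.MP_44e7ab_co.Q1.BWin
import Pool.Agent.Work.MP_44e7ab_co.Q1.BEight
import Pool.Agent.Work.MP_44e7ab_co.Q1.BGadget
import Pool.Agent.Work.MP_44e7ab_co.Q1.B1
import Pool.Agent.Work.MP_44e7ab_co.Q1.BCompose

set_option autoImplicit false

namespace Pool.Agent.Work.MP_44e7ab_co

open Finset Classical

/-- the statement of the claim at rank `j` and cost `m / 4` -/
def ClaimAt (P j m : ℕ) : Prop :=
  ∃ N : ℕ, ∀ (V : Type) [Fintype V] (G : SimpleGraph V), PWB G P →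
    ∀ (F A B : Finset V) (lam : V → ℝ) (L : ℝ), World G F A B lam L ((m : ℝ) / 4) N →
    ∃ K : Finset V, BStr G F A j K

lemma world_nonempty {V : Type} {G : SimpleGraph V} {F A B : Finset V} {lam : V → ℝ} {L c : ℝ}
    {N : ℕ} (h : World G F A B lam L c N) : ∃ a ∈ F, a ∈ A := by
  obtain ⟨a, ha, b, hb, hab⟩ := h.conn ∅ (by
    intro I hI _
    rw [Finset.subset_empty] at hI
    simp [hI])
  have := hab.left_mem
  rw [Finset.sdiff_empty] at this
  exact ⟨a, by simpa using this, ha⟩

theorem claim_zero (P m : ℕ) : ClaimAt P 0 m := by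
  refine ⟨0, ?_⟩
  intro V _ G _ F A B lam L hW
  obtain ⟨a, haF, haA⟩ := world_nonempty hW
  refine ⟨{a}, by simpa using haF, ?_, ?_, ?_, a, by simp, haA, by simp⟩
  · intro x hx y hy
    rw [Finset.mem_singleton] at hx hy
    rw [hx, hy]
    exact ConnIn.refl (by simp)
  · intro C hC _
    have := Finset.card_le_card hC
    simp only [Finset.card_singleton] at this
    omega
  · rintro ⟨n, X, -, h2, -, -, h5⟩
    obtain ⟨i, hi⟩ := h2 a (by simp)
    have := h5 i
    rw [Nat.le_zero, Finset.card_eq_zero] at this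
    rw [this] at hi
    simp at hi

theorem claim_cost_zero (P j : ℕ) : ClaimAt P j 0 := by
  refine ⟨0, ?_⟩
  intro V _ G _ F A B lam L hW
  obtain ⟨a, haF, -⟩ := world_nonempty hW
  have h1 := hW.cost {a} (by simpa using haF) (by simp [SimpleGraph.IsIndepSet])
  have h2 := hW.pos a haF
  simp only [Finset.sum_singleton] at h1
  simp only [Nat.cast_zero, zero_div, zero_mul] at h1
  linarith

theorem claim_step (P j m : ℕ) (hj : ∀ m', ClaimAt P j m') (hm : ClaimAt P (j + 1) m) :
    ClaimAt P (j + 1) (m + 1) := by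
  obtain ⟨N1, hN1⟩ := hm
  set c : ℝ := ((m : ℝ) + 1) / 4 with hc
  have hc0 : 0 < c := by rw [hc]; positivity
  set g : ℝ := 1 / (400 * (c + 1)) with hg
  have hg0 : 0 < g := by rw [hg]; positivity
  have hg1 : g ≤ 1 / 400 := by
    rw [hg]
    apply one_div_le_one_div_of_le (by norm_num)
    linarith
  obtain ⟨n2, hn2, hb1⟩ := b1 P (c + 1) (by linarith)
  obtain ⟨Nst, hgad⟩ := gadget P j n2 hj
  obtain ⟨h1, hb1⟩ := hb1 Nst
  -- number of long vertices
  obtain ⟨h0, hh0⟩ := exists_nat_ge (c * 256 / g)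
  set N : ℕ := 2 * N1 + h1 with hN
  refine ⟨N + h0, ?_⟩
  intro V _ G hG F A B lam L hW
  have hcost : ((m + 1 : ℕ) : ℝ) / 4 = c := by rw [hc]; push_cast; ring
  rw [hcost] at hW
  have hL := hW.Lpos
  set τ : ℝ := g * L / 256 with hτ
  have hτ0 : 0 < τ := by rw [hτ]; positivity
  obtain ⟨F', l, r, ζ, hF'F, hPW, hcostF⟩ := prep hW hτ0 (by
    rw [hτ]
    have h2 : c * 256 / g * (g * L / 256) = c * L := by field_simp
    rw [← h2]
    exact mul_le_mul_of_nonneg_right hh0 hτ0.le)
  by_contra hno'
  have hno : ¬ ∃ K, BStr G F' A (j + 1) K := by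
    rintro ⟨K, h1, h2, h3, h4, h5⟩
    exact hno' ⟨K, h1.trans hF'F, h2, h3, h4, h5⟩
  obtain ⟨x, w, hw, hx0, hgap, hxL, hlink, hdens⟩ := eight hPW hcostF hc hg hτ.le (N1 := N1)
    (by omega) (fun F'' A' B' lam' L' hW' => hN1 V G hG F'' A' B' lam' L' hW') hno
  have hw0 : 0 < w := by
    rw [hw]
    have : 0 < (1 - 2 * g) * L := mul_pos (by linarith) hL
    positivity
  have hthτ : τ ≤ g * w := by
    rw [hτ, hw]
    have h3 : g * ((1 - 2 * g) * L / 64) - g * L / 256 = g * L * (4 * (1 - 2 * g) - 1) / 256 := by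
      ring
    have h4 : 0 ≤ g * L * (4 * (1 - 2 * g) - 1) / 256 := by
      apply div_nonneg _ (by norm_num)
      apply mul_nonneg (by positivity)
      linarith
    linarith
  have hgw : g * w ≤ w / 400 := by
    have := mul_le_mul_of_nonneg_right hg1 hw0.le
    linarith
  -- every window is at the right place
  have hmono : ∀ k < 8, 0 < x k ∧ x k + w < L := by
    have h6 : ∀ k, k < 8 → 0 < x k := by
      intro k
      induction k with
      | zero => intro _; exact hx0
      | succ k ih =>
        intro hk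
        have := ih (by omega)
        have := hgap k (by omega)
        linarith
    have h7 : ∀ i, i < 8 → x (7 - i) + w < L := by
      intro i
      induction i with
      | zero => intro _; exact hxL
      | succ i ih =>
        intro hi
        have h8 := ih (by omega)
        have h9 := hgap (7 - (i + 1)) (by omega)
        have h10 : 7 - (i + 1) + 1 = 7 - i := by omega
        rw [h10] at h9
        linarith
    intro k hk
    refine ⟨h6 k hk, ?_⟩
    have := h7 (7 - k) (by omega)
    have h11 : 7 - (7 - k) = k := by omega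
    rwa [h11] at this
  have hnd : ∀ k < 8, ∃ v ∈ win F' l r (x k) (x k + w), ND G F' l r n2 Nst v := by
    intro k hk
    by_contra hcon
    push Not at hcon
    obtain ⟨S, hS, hS'⟩ := hb1 V G hG F' l r hPW.pos (x k) (x k + w) (by linarith) (by
      intro I hI hI'
      have := hdens k hk I hI hI'
      linarith) hcon (g * w) (by positivity) (by linarith)
    apply hS'
    exact win_conn hPW (hmono k hk).1 (hmono k hk).2 hthτ (by linarith) S (by
      intro I hI hI'
      exact (hS I hI hI').trans (by omega))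
  apply hno
  refine compose hPW hthτ (by linarith) hx0 hgap hxL hlink ?_
  intro i hi
  obtain ⟨v, hv, hv'⟩ := hnd (3 * i + 1) (by omega)
  exact hgad V G hG F' A B l r L τ ζ N hPW _ _ v hv hv'

theorem claim_all (P : ℕ) : ∀ j m, ClaimAt P j m := by
  intro j
  induction j with
  | zero => exact claim_zero P
  | succ j ih =>
    intro m
    induction m with
    | zero => exact claim_cost_zero P (j + 1)
    | succ m ihm => exact claim_step P j m ih ihm

theorem claimB (P j m : ℕ) : ∃ N : ℕ, ∀ (V : Type) [Fintype V] (G : SimpleGraph V), PWB G P →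
    ∀ (F A B : Finset V) (lam : V → ℝ) (L : ℝ), World G F A B lam L ((m : ℝ) / 4) N →
    ∃ K : Finset V, BStr G F A j K := claim_all P j m

end Pool.Agent.Work.MP_44e7ab_co
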