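import Mathlib
import Pool.Agent.Work.MP_44e7ab_co.Q1.ClaimB

set_option autoImplicit false

/-! The rounding theorem (Theorem B). -/

namespace Pool.Agent.Work.MP_44e7ab_co

open Finset Classical

/-- **Theorem B** (rounding): a fractional separator of bounded cost gives an integral separator
of bounded independence number. -/
theorem thmB (P n : ℕ) : ∃ h : ℕ, ∀ (V : Type) [Fintype V] (G : SimpleGraph V), PWB G P →
    ∀ (A B : Finset V) (y : V → ℝ), (∀ v, 0 ≤ y v) →
    (∀ S : Finset V, Cn G A B S → 1 ≤ ∑ v ∈ S, y v) →
    (∀ I : Finset V, G.IsIndepSet (I : Set V) → ∑ v ∈ I, y v ≤ n) →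
    ∃ S : Finset V, AlphaLE G S h ∧ ¬ Cn G A B (univ \ S) := by
  obtain ⟨N, hN⟩ := claimB P P (4 * n + 4)
  refine ⟨N, ?_⟩
  intro V _ G hG A B y hy hdist hcost
  by_contra hcon
  push Not at hcon
  have hV : (0 : ℝ) < (Fintype.card V : ℝ) + 1 := by positivity
  set e : ℝ := 1 / ((Fintype.card V : ℝ) + 1) with he
  have he0 : 0 < e := by rw [he]; positivity
  obtain ⟨K, -, -, hK6, hKP, -⟩ := hN V G hG univ A B (fun v => y v + e) 1 {
    pos := fun v _ => by
      have := hy v
      show 0 < y v + e
      linarith
    Lpos := one_pos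
    dist := by
      intro S _ hS
      refine (hdist S hS).trans ?_
      apply Finset.sum_le_sum
      intro v _
      linarith
    cost := by
      intro I _ hI
      rw [Finset.sum_add_distrib, Finset.sum_const, nsmul_eq_mul]
      have h1 := hcost I hI
      have h2 : (I.card : ℝ) ≤ Fintype.card V := by exact_mod_cast Finset.card_le_univ I
      have h3 : (I.card : ℝ) * e ≤ 1 := by
        rw [he, mul_one_div, div_le_one hV]
        linarith
      push_cast
      linarith
    conn := fun S hS => hcon S hS }
  apply hKP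
  apply hG
  intro C hC hC'
  exact (hK6 C hC hC').trans (by norm_num)

end Pool.Agent.Work.MP_44e7ab_co
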