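import Mathlib
import Pool.Agent.Work.MP_44e7ab_co.Q1.AsmRich
import Pool.Agent.Work.MP_44e7ab_co.Q1.Tools
import Pool.Agent.Work.MP_44e7ab_co.Q1.Unified
import Pool.Agent.Work.MP_44e7ab_co.Q1.ThmA
import Pool.Agent.Work.MP_44e7ab_co.Q1.ThmB

set_option autoImplicit false

/-! Assembly: the separation hypothesis. -/

namespace Pool.Agent.Work.MP_44e7ab_co.Asm

open Finset Classical
open Pool.Agent.Work.MP_44e7ab_co

/-- closed neighbourhood -/
noncomputable def nb {V : Type} [Fintype V] (G : SimpleGraph V) (C : Finset V) : Finset V :=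
  univ.filter (fun x => ∃ u ∈ C, G.Adj u x ∨ u = x)

theorem mem_nb {V : Type} [Fintype V] {G : SimpleGraph V} {C : Finset V} {x : V} :
    x ∈ nb G C ↔ ∃ u ∈ C, G.Adj u x ∨ u = x := by
  simp [nb]

theorem card_clique_le {V : Type} {G : SimpleGraph V} {κ : Type} {F : κ → Finset V}
    (hF : ∀ i j, i ≠ j → ¬ Touch G (F i) (F j)) {w : ℕ} (hw : ∀ i, OmLe G (F i) w)
    {Q : Finset V} (hQ : G.IsClique (Q : Set V)) (hsub : ∀ x ∈ Q, ∃ i, x ∈ F i) :
    Q.card ≤ w := by
  rcases Finset.eq_empty_or_nonempty Q with rfl | ⟨x0, hx0⟩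
  · simp
  obtain ⟨i0, hi0⟩ := hsub x0 hx0
  apply hw i0 Q _ hQ
  intro x hx
  obtain ⟨i, hi⟩ := hsub x hx
  by_cases hii : i = i0
  · rw [← hii]
    exact hi
  · exfalso
    apply hF i i0 hii
    by_cases hxx : x = x0
    · exact ⟨x, hi, x0, hi0, Or.inr hxx⟩
    · exact ⟨x, hi, x0, hi0, Or.inl (hQ (by exact_mod_cast hx) (by exact_mod_cast hx0) hxx)⟩

theorem connSet_star {V : Type} {G : SimpleGraph V} {κ : Type} (R : κ → Finset V)
    {C : Finset V} (hC : ConnSet G C) (s : Finset κ) :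
    (∀ e ∈ s, ConnSet G (R e) ∧ Touch G C (R e)) → ConnSet G (C ∪ s.biUnion R) := by
  induction s using Finset.induction_on with
  | empty =>
    intro _
    simpa using hC
  | insert e s he ih =>
    intro h
    have h1 := ih (fun e' he' => h e' (Finset.mem_insert_of_mem he'))
    obtain ⟨h2, h3⟩ := h e (Finset.mem_insert_self e s)
    have h4 := connSet_union h1 h2 (t_mono h3 Finset.subset_union_left (Finset.Subset.refl _))
    have h5 : C ∪ s.biUnion R ∪ R e = C ∪ (insert e s).biUnion R := by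
      rw [Finset.biUnion_insert, Finset.union_assoc, Finset.union_comm (s.biUnion R)]
    rw [← h5]
    exact h4

/-- the fractional condition from the rounding theorem -/
theorem frac_of_conn {V : Type} [Fintype V] {G : SimpleGraph V} {A B : Finset V} {n h : ℕ}
    (hn : 1 ≤ n)
    (hB : ∀ y : V → ℝ, (∀ v, 0 ≤ y v) → (∀ S : Finset V, Cn G A B S → 1 ≤ ∑ v ∈ S, y v) →
      (∀ I : Finset V, G.IsIndepSet (I : Set V) → ∑ v ∈ I, y v ≤ n) →
      ∃ S : Finset V, AlphaLE G S h ∧ ¬ Cn G A B (univ \ S))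
    (hconn : ∀ S : Finset V, AlphaLE G S h → Cn G A B (univ \ S)) :
    ∀ y : V → ℝ, (∀ v, 0 ≤ y v) → ∃ S : Finset V, Cn G A B S ∧
        ∃ I : Finset V, G.IsIndepSet (I : Set V) ∧ (n : ℝ) * ∑ v ∈ S, y v ≤ ∑ v ∈ I, y v := by
  intro y hy
  by_contra hcon
  push Not at hcon
  have hne : (univ.filter (fun S : Finset V => Cn G A B S)).Nonempty := by
    refine ⟨univ \ ∅, ?_⟩
    rw [Finset.mem_filter]
    exact ⟨Finset.mem_univ _, hconn ∅ alphaLE_empty⟩
  obtain ⟨S0, hS0, hmin⟩ := Finset.exists_min_image _ (fun S : Finset V => ∑ v ∈ S, y v) hne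
  rw [Finset.mem_filter] at hS0
  set σ := ∑ v ∈ S0, y v with hσ
  have hσ0 : 0 < σ := by
    have := hcon S0 hS0.2 ∅ (by simp [SimpleGraph.IsIndepSet])
    simp only [Finset.sum_empty] at this
    have hn' : (0 : ℝ) < n := by exact_mod_cast hn
    exact (mul_pos_iff_of_pos_left hn').mp this
  obtain ⟨S, hS, hS'⟩ := hB (fun v => y v / σ) (fun v => div_nonneg (hy v) hσ0.le) (by
    intro S hS
    rw [← Finset.sum_div, le_div_iff₀ hσ0, one_mul]
    exact hmin S (Finset.mem_filter.mpr ⟨Finset.mem_univ _, hS⟩)) (by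
    intro I hI
    rw [← Finset.sum_div, div_le_iff₀ hσ0]
    exact (hcon S0 hS0.2 I hI).le)
  exact hS' (hconn S hS)

end Pool.Agent.Work.MP_44e7ab_co.Asm

namespace Pool.Agent.Work.MP_44e7ab_co

open Finset Classical
open Asm

theorem exists_sepHyp (P : ℕ) : ∃ K s0 : ℕ, 1 ≤ K ∧
    ∀ (V : Type) [Fintype V] (G : SimpleGraph V), PWB G P → SepHyp G K s0 := by
  -- constants
  let ι : Type := {e : Fin (2 * P + 1) × Fin (2 * P + 1) // e.1 < e.2}
  set M : ℝ := (Fintype.card ι : ℝ) with hM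
  set c : ℝ := 1 / (M ^ 2 + 1) with hc
  have hc0 : 0 < c := by positivity
  have hMc : M ^ 2 * c < 1 := by
    rw [hc, mul_one_div, div_lt_one (by positivity)]
    linarith
  set k : ℕ := ⌊4 * (P : ℝ) / c⌋₊ + 1 with hk
  have hck : 4 * (P : ℝ) < c * k := by
    have h1 := Nat.lt_floor_add_one (4 * (P : ℝ) / c)
    rw [div_lt_iff₀ hc0] at h1
    rw [hk]
    push_cast
    linarith [mul_comm c (((⌊4 * (P : ℝ) / c⌋₊ : ℕ) : ℝ) + 1)]
  have hk0 : (0 : ℝ) < k := by
    rw [hk]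
    positivity
  have hγ : 0 < c / (2 * k) := by positivity
  obtain ⟨nA, hnA, hA⟩ := thmA P (c / (2 * k)) hγ
  obtain ⟨h, hB⟩ := thmB P nA
  set s0 : ℕ := 2 * P + (2 * P + 1) * (h + h) with hs0
  refine ⟨4 * s0 + 1, s0, by omega, ?_⟩
  intro V _ G hG J hJ
  by_contra hcon
  push Not at hcon
  obtain ⟨D, hD⟩ := Asm.exists_hav (G := G) hJ (by
    intro S hS
    obtain ⟨D, h1, h2, h3⟩ := hcon S s0 le_rfl hS
    exact ⟨D, h1, h2, by omega⟩)
  obtain ⟨C, hC, hCC⟩ := Asm.exists_rich_family (n := 2 * P + 1) (z := 2 * P) (h := h) hD le_rfl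
    (by omega)
  have hh0 : h ≤ s0 := by
    rw [hs0]
    nlinarith
  have hconn : ∀ a b : Fin (2 * P + 1), ∀ S : Finset V, AlphaLE G S h →
      Cn G (Asm.nb G (C a)) (Asm.nb G (C b)) (univ \ S) := by
    intro a b S hS
    obtain ⟨u, hu, v, hv, huv⟩ := (hC a).2.2 S hS
    obtain ⟨u', hu', v', hv', huv'⟩ := (hC b).2.2 S hS
    obtain ⟨g1, g2, -, -⟩ := hD S (Asm.alphaLE_mono hS hh0)
    refine ⟨v, Asm.mem_nb.mpr ⟨u, hu, huv⟩, v', Asm.mem_nb.mpr ⟨u', hu', huv'⟩, ?_⟩
    refine (g1 v hv v' hv').mono ?_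
    intro z hz
    rw [Finset.mem_coe, Finset.mem_sdiff]
    exact ⟨Finset.mem_univ _, fun hz' => Finset.disjoint_left.mp g2 hz hz'⟩
  have hlaw : ∀ e : ι, ∃ (Ω : Type) (_ : Fintype Ω) (b : Ω → Finset V) (w : Ω → ℝ), IsLaw w ∧
        (∀ ω, Cn G (Asm.nb G (C e.1.1)) (Asm.nb G (C e.1.2)) (b ω) ∧ ConnSet G (b ω) ∧
          OmLe G (b ω) 2) ∧
        pr w w (fun x y => Touch G (b x) (b y)) ≤ c / (2 * k) := by
    intro e
    exact hA V G hG _ _ (Asm.frac_of_conn hnA (hB V G hG _ _) (hconn e.1.1 e.1.2))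
  choose Ω hΩ b w hw hb hpr using hlaw
  obtain ⟨x, hx⟩ := choose_all (Ω := Ω) w hw (fun i j x y => Touch G (b i x) (b j y)) c (by
    intro i j _
    exact (unified hG (hw i) (hw j) (b i) (b j) (fun x => (hb i x).2.1)
      (fun x => (hb j x).2.1) (a := 2) (a' := 2) (fun x => (hb i x).2.2)
      (fun x => (hb j x).2.2) (by norm_num) hc0 hck (hpr i) (hpr j)).le) hMc
  -- the bramble
  have hRC : ∀ e : ι, Touch G (C e.1.1) (b e (x e)) ∧ Touch G (b e (x e)) (C e.1.2) := by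
    intro e
    obtain ⟨a0, ha0, b0, hb0, hab⟩ := (hb e (x e)).1
    obtain ⟨u, hu, hua⟩ := Asm.mem_nb.mp ha0
    obtain ⟨u', hu', hub⟩ := Asm.mem_nb.mp hb0
    refine ⟨⟨u, hu, a0, by exact_mod_cast hab.left_mem, hua⟩,
      ⟨b0, by exact_mod_cast hab.right_mem, u', hu', ?_⟩⟩
    exact hub.imp (fun h' => h'.symm) (fun h' => h'.symm)
  let Bs : Fin (2 * P + 1) → Finset V := fun a =>
    C a ∪ (univ.filter (fun e : ι => e.1.1 = a)).biUnion (fun e => b e (x e))
  have hBs : ∀ a, ConnSet G (Bs a) := by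
    intro a
    apply Asm.connSet_star (fun e => b e (x e)) (hC a).1
    intro e he
    rw [Finset.mem_filter] at he
    refine ⟨(hb e (x e)).2.1, ?_⟩
    rw [← he.2]
    exact (hRC e).1
  have hsubC : ∀ a, C a ⊆ Bs a := fun a => Finset.subset_union_left
  have hsubR : ∀ e : ι, b e (x e) ⊆ Bs e.1.1 := by
    intro e v hv
    apply Finset.mem_union_right
    rw [Finset.mem_biUnion]
    exact ⟨e, Finset.mem_filter.mpr ⟨Finset.mem_univ _, rfl⟩, hv⟩
  have hBB : ∀ a a', Touch G (Bs a) (Bs a') := by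
    intro a a'
    rcases lt_trichotomy a a' with hlt | heq | hgt
    · exact Asm.t_mono (hRC ⟨(a, a'), hlt⟩).2 (hsubR ⟨(a, a'), hlt⟩) (hsubC a')
    · subst heq
      obtain ⟨u, hu, -⟩ := (hC a).2.2 ∅ Asm.alphaLE_empty
      exact ⟨u, hsubC a hu, u, hsubC a hu, Or.inr rfl⟩
    · exact Asm.t_symm (Asm.t_mono (hRC ⟨(a', a), hgt⟩).2 (hsubR ⟨(a', a), hgt⟩) (hsubC a))
  have hmemB : ∀ a v, v ∈ Bs a → v ∈ C a ∨ ∃ e : ι, e.1.1 = a ∧ v ∈ b e (x e) := by
    intro a v hv
    rcases Finset.mem_union.mp hv with h' | h'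
    · exact Or.inl h'
    · rw [Finset.mem_biUnion] at h'
      obtain ⟨e, he, hv⟩ := h'
      rw [Finset.mem_filter] at he
      exact Or.inr ⟨e, he.2, hv⟩
  have hmult : ∀ v, ((univ : Finset (Fin (2 * P + 1))).filter (fun a => v ∈ Bs a)).card ≤ 2 := by
    intro v
    have h1 : ((univ : Finset (Fin (2 * P + 1))).filter (fun a => v ∈ C a)).card ≤ 1 := by
      rw [Finset.card_le_one]
      intro a ha a' ha'
      rw [Finset.mem_filter] at ha ha'
      by_contra hne
      exact hCC a a' hne ⟨v, ha.2, v, ha'.2, Or.inr rfl⟩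
    have h2 : ((univ : Finset (Fin (2 * P + 1))).filter
        (fun a => ∃ e : ι, e.1.1 = a ∧ v ∈ b e (x e))).card ≤ 1 := by
      rw [Finset.card_le_one]
      intro a ha a' ha'
      rw [Finset.mem_filter] at ha ha'
      obtain ⟨-, e, rfl, he⟩ := ha
      obtain ⟨-, e', rfl, he'⟩ := ha'
      by_contra hne
      have hee : e ≠ e' := by
        rintro rfl
        exact hne rfl
      exact hx e e' hee ⟨v, he, v, he', Or.inr rfl⟩
    have h3 : (univ : Finset (Fin (2 * P + 1))).filter (fun a => v ∈ Bs a) ⊆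
        ((univ : Finset (Fin (2 * P + 1))).filter (fun a => v ∈ C a)) ∪
        ((univ : Finset (Fin (2 * P + 1))).filter
          (fun a => ∃ e : ι, e.1.1 = a ∧ v ∈ b e (x e))) := by
      intro a ha
      rw [Finset.mem_filter] at ha
      rw [Finset.mem_union, Finset.mem_filter, Finset.mem_filter]
      rcases hmemB a v ha.2 with h' | h'
      · exact Or.inl ⟨Finset.mem_univ _, h'⟩
      · exact Or.inr ⟨Finset.mem_univ _, h'⟩
    have h4 := (Finset.card_le_card h3).trans (Finset.card_union_le _ _)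
    omega
  have hom : OmLe G (univ.biUnion Bs) 7 := by
    intro Q hQ hcl
    have h1 : (Q.filter (fun v => ∃ a, v ∈ C a)).card ≤ 2 := by
      apply Asm.card_clique_le hCC (fun a => (hC a).2.1)
      · exact hcl.subset (by exact_mod_cast Finset.filter_subset _ _)
      · intro v hv
        exact (Finset.mem_filter.mp hv).2
    have h2 : (Q.filter (fun v => ∃ e : ι, v ∈ b e (x e))).card ≤ 2 := by
      apply Asm.card_clique_le (F := fun e : ι => b e (x e)) hx (fun e => (hb e (x e)).2.2)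
      · exact hcl.subset (by exact_mod_cast Finset.filter_subset _ _)
      · intro v hv
        exact (Finset.mem_filter.mp hv).2
    have h3 : Q ⊆ (Q.filter (fun v => ∃ a, v ∈ C a)) ∪
        (Q.filter (fun v => ∃ e : ι, v ∈ b e (x e))) := by
      intro v hv
      have := hQ hv
      rw [Finset.mem_biUnion] at this
      obtain ⟨a, -, ha⟩ := this
      rw [Finset.mem_union, Finset.mem_filter, Finset.mem_filter]
      rcases hmemB a v ha with h' | ⟨e, -, he⟩
      · exact Or.inl ⟨hv, a, h'⟩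
      · exact Or.inr ⟨hv, e, he⟩
    have h4 := (Finset.card_le_card h3).trans (Finset.card_union_le _ _)
    omega
  have hfin := bramble_bound (hG _ hom) Bs hBs
    (fun a => Finset.subset_biUnion_of_mem Bs (Finset.mem_univ a)) hBB 2 hmult
  rw [Fintype.card_fin] at hfin
  omega

end Pool.Agent.Work.MP_44e7ab_co
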