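import Mathlib
import Pool.Agent.Work.MP_44e7ab_co.Q1.Defs

set_option autoImplicit false

namespace Pool.Agent.Work.MP_44e7ab_co.Asm

open Finset Classical
open Pool.Agent.Work.MP_44e7ab_co

theorem sum_prod_pair {ι : Type} [Fintype ι] {Ω : ι → Type} [∀ i, Fintype (Ω i)]
    (p : ∀ i, Ω i → ℝ) (hp : ∀ i, IsLaw (p i)) (i j : ι) (hij : i ≠ j)
    (g : Ω i → Ω j → ℝ) :
    ∑ x : (∀ k, Ω k), (∏ k, p k (x k)) * g (x i) (x j)
      = ∑ a, ∑ b, p i a * p j b * g a b := by
  have key : ∀ a : Ω i, ∀ b : Ω j,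
      ∑ x : (∀ k, Ω k), (if x i = a ∧ x j = b then ∏ k, p k (x k) else 0) = p i a * p j b := by
    intro a b
    let t : ∀ k, Finset (Ω k) := Function.update (Function.update (fun _ => univ) i {a}) j {b}
    have hti : t i = {a} := by
      simp only [t]
      rw [Function.update_of_ne hij, Function.update_self]
    have htj : t j = {b} := by
      simp only [t]
      rw [Function.update_self]
    have htk : ∀ k, k ≠ i ∧ k ≠ j → t k = univ := by
      intro k hk
      simp only [t]
      rw [Function.update_of_ne hk.2, Function.update_of_ne hk.1]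
    have h1 : (univ : Finset (∀ k, Ω k)).filter (fun x => x i = a ∧ x j = b)
        = Fintype.piFinset t := by
      ext x
      simp only [mem_filter, mem_univ, true_and, Fintype.mem_piFinset]
      constructor
      · rintro ⟨ha, hb⟩ k
        by_cases hki : k = i
        · subst hki
          rw [hti]; simpa using ha
        · by_cases hkj : k = j
          · subst hkj
            rw [htj]; simpa using hb
          · rw [htk k ⟨hki, hkj⟩]; exact mem_univ _
      · intro h
        have h1 := h i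
        have h2 := h j
        rw [hti] at h1
        rw [htj] at h2
        exact ⟨by simpa using h1, by simpa using h2⟩
    rw [← Finset.sum_filter, h1, ← Finset.prod_univ_sum t (fun k y => p k y)]
    rw [Fintype.prod_eq_mul i j hij]
    · rw [hti, htj, sum_singleton, sum_singleton]
    · intro k hk
      rw [htk k hk]
      exact (hp k).2
  have step : ∀ x : (∀ k, Ω k), (∏ k, p k (x k)) * g (x i) (x j)
      = ∑ a, ∑ b, (if x i = a ∧ x j = b then ∏ k, p k (x k) else 0) * g a b := by
    intro x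
    rw [Fintype.sum_eq_single (x i)]
    · rw [Fintype.sum_eq_single (x j)]
      · simp
      · intro b hb
        rw [if_neg (fun h => hb h.2.symm), zero_mul]
    · intro a ha
      apply Finset.sum_eq_zero
      intro b _
      rw [if_neg (fun h => ha h.1.symm), zero_mul]
  calc ∑ x : (∀ k, Ω k), (∏ k, p k (x k)) * g (x i) (x j)
      = ∑ x : (∀ k, Ω k), ∑ a, ∑ b,
          (if x i = a ∧ x j = b then ∏ k, p k (x k) else 0) * g a b :=
        Finset.sum_congr rfl (fun x _ => step x)
    _ = ∑ a, ∑ b, ∑ x : (∀ k, Ω k),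
          (if x i = a ∧ x j = b then ∏ k, p k (x k) else 0) * g a b := by
        rw [Finset.sum_comm]
        refine Finset.sum_congr rfl (fun a _ => ?_)
        rw [Finset.sum_comm]
    _ = ∑ a, ∑ b, p i a * p j b * g a b := by
        refine Finset.sum_congr rfl (fun a _ => Finset.sum_congr rfl (fun b _ => ?_))
        rw [← Finset.sum_mul, key a b]

/-- choose one element for every index so that no two are in conflict -/
theorem choose_all {ι : Type} [Fintype ι] {Ω : ι → Type} [∀ i, Fintype (Ω i)]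
    (p : ∀ i, Ω i → ℝ) (hp : ∀ i, IsLaw (p i)) (Bad : ∀ i j, Ω i → Ω j → Prop) (c : ℝ)
    (hB : ∀ i j, i ≠ j → pr (p i) (p j) (Bad i j) ≤ c)
    (hc : (Fintype.card ι : ℝ) ^ 2 * c < 1) :
    ∃ x : ∀ i, Ω i, ∀ i j, i ≠ j → ¬ Bad i j (x i) (x j) := by
  by_contra hcon
  push Not at hcon
  have hprod : ∀ x : (∀ k, Ω k), 0 ≤ ∏ k, p k (x k) := fun x =>
    Finset.prod_nonneg (fun k _ => (hp k).1 _)
  have hone : ∑ x : (∀ k, Ω k), ∏ k, p k (x k) = 1 := by
    have := (Finset.prod_univ_sum (fun k => (univ : Finset (Ω k))) (fun k y => p k y)).symm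
    rw [Fintype.piFinset_univ] at this
    rw [this]
    exact Finset.prod_eq_one (fun k _ => (hp k).2)
  let pairs : Finset (ι × ι) := univ.filter (fun q => q.1 ≠ q.2)
  have hx : ∀ x : (∀ k, Ω k), ∏ k, p k (x k) ≤
      ∑ q ∈ pairs, (∏ k, p k (x k)) * (if Bad q.1 q.2 (x q.1) (x q.2) then 1 else 0) := by
    intro x
    obtain ⟨i, j, hij, hbad⟩ := hcon x
    have hmem : ((i, j) : ι × ι) ∈ pairs := by simp [pairs, hij]
    have h1 : (∏ k, p k (x k)) * (if Bad i j (x i) (x j) then (1:ℝ) else 0)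
        ≤ ∑ q ∈ pairs, (∏ k, p k (x k)) * (if Bad q.1 q.2 (x q.1) (x q.2) then 1 else 0) :=
      Finset.single_le_sum
        (f := fun q : ι × ι => (∏ k, p k (x k)) * (if Bad q.1 q.2 (x q.1) (x q.2) then (1:ℝ) else 0))
        (fun q _ => mul_nonneg (hprod x) (by split_ifs <;> norm_num)) hmem
    rw [if_pos hbad, mul_one] at h1
    exact h1
  have hsum : (1:ℝ) ≤ ∑ q ∈ pairs, pr (p q.1) (p q.2) (Bad q.1 q.2) := by
    calc (1:ℝ) = ∑ x : (∀ k, Ω k), ∏ k, p k (x k) := hone.symm
      _ ≤ ∑ x : (∀ k, Ω k), ∑ q ∈ pairs,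
            (∏ k, p k (x k)) * (if Bad q.1 q.2 (x q.1) (x q.2) then 1 else 0) :=
          Finset.sum_le_sum (fun x _ => hx x)
      _ = ∑ q ∈ pairs, ∑ x : (∀ k, Ω k),
            (∏ k, p k (x k)) * (if Bad q.1 q.2 (x q.1) (x q.2) then 1 else 0) :=
          Finset.sum_comm
      _ = ∑ q ∈ pairs, pr (p q.1) (p q.2) (Bad q.1 q.2) := by
          refine Finset.sum_congr rfl (fun q hq => ?_)
          have hne : q.1 ≠ q.2 := by simpa [pairs] using hq
          exact sum_prod_pair p hp q.1 q.2 hne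
            (fun a b => if Bad q.1 q.2 a b then 1 else 0)
  have hle : ∑ q ∈ pairs, pr (p q.1) (p q.2) (Bad q.1 q.2) ≤ ∑ _q ∈ pairs, c :=
    Finset.sum_le_sum (fun q hq => hB _ _ (by simpa [pairs] using hq))
  rw [Finset.sum_const, nsmul_eq_mul] at hle
  by_cases hc0 : 0 ≤ c
  · have hcard : (pairs.card : ℝ) ≤ (Fintype.card ι : ℝ) ^ 2 := by
      have : pairs.card ≤ (Fintype.card ι) ^ 2 := by
        calc pairs.card ≤ (univ : Finset (ι × ι)).card := Finset.card_le_card (filter_subset _ _)
          _ = (Fintype.card ι) ^ 2 := by rw [Finset.card_univ, Fintype.card_prod, sq]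
      exact_mod_cast this
    have := mul_le_mul_of_nonneg_right hcard hc0
    linarith
  · have : (pairs.card : ℝ) * c ≤ 0 :=
      mul_nonpos_of_nonneg_of_nonpos (Nat.cast_nonneg _) (le_of_lt (not_le.mp hc0))
    linarith

end Pool.Agent.Work.MP_44e7ab_co.Asm
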